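import Pool.Agent.Run7.h234.ExtG

/-!
Finite generation of graded Ext algebras and modules by homogeneous elements.
-/

set_option autoImplicit false

universe w w' v v' u u'

open CategoryTheory CategoryTheory.Limits CategoryTheory.Abelian

namespace Run7.h234

section defs

variable {C : Type u} [Category.{v} C] [Abelian C] [HasExt.{w} C]

/-- The graded algebra `Ext^*(X, X)` with the Yoneda product is generated over `k` by finitely many
homogeneous elements: the only graded `k`-subalgebra containing them is the whole algebra. -/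
def ExtAlgFG (k : Type u') [CommRing k] [Linear k C] (X : C) : Prop :=
  ∃ s : Set (Σ n : ℕ, Ext.{w} X X n), s.Finite ∧
    ∀ P : (∀ n : ℕ, Submodule k (Ext.{w} X X n)),
      Ext.mk₀ (𝟙 X) ∈ P 0 →
      (∀ a ∈ s, a.2 ∈ P a.1) →
      (∀ (i j : ℕ) (a : Ext.{w} X X i) (b : Ext.{w} X X j), a ∈ P i → b ∈ P j →
        a.comp b rfl ∈ P (i + j)) →
      ∀ (n : ℕ) (x : Ext.{w} X X n), x ∈ P n

/-- The graded module `Ext^*(X, Y)` over `Ext^*(X, X)` is generated by finitely many
homogeneous elements: the only graded submodule containing them is the whole module. -/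
def ExtModFG (X Y : C) : Prop :=
  ∃ s : Set (Σ n : ℕ, Ext.{w} X Y n), s.Finite ∧
    ∀ P : (∀ n : ℕ, AddSubgroup (Ext.{w} X Y n)),
      (∀ a ∈ s, a.2 ∈ P a.1) →
      (∀ (i j : ℕ) (a : Ext.{w} X X i) (b : Ext.{w} X Y j), b ∈ P j →
        a.comp b rfl ∈ P (i + j)) →
      ∀ (n : ℕ) (x : Ext.{w} X Y n), x ∈ P n

end defs

section proofs

variable {C : Type u} [Category.{v} C] [Abelian C] [HasExt.{w} C]

theorem ExtAlgFG.toFiniteType {k : Type u'} [CommRing k] [Linear k C] {X : C}
    (h : ExtAlgFG k X) : Algebra.FiniteType k (TExt X X) := by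
  classical
  obtain ⟨s, hs, h⟩ := h
  let f : (Σ n : ℕ, Ext.{w} X X n) → TExt X X := fun a => hof a.1 a.2
  let A₀ : Subalgebra k (TExt X X) := Algebra.adjoin k (f '' s)
  let P : ∀ n : ℕ, Submodule k (Ext.{w} X X n) := fun n =>
    { carrier := {x | hof n x ∈ A₀}
      add_mem' := fun {a b} ha hb => by
        change hof n (a + b) ∈ A₀
        rw [map_add]
        exact A₀.add_mem ha hb
      zero_mem' := by
        change hof n 0 ∈ A₀
        rw [map_zero]
        exact A₀.zero_mem
      smul_mem' := fun c a ha => by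
        change hof n (c • a) ∈ A₀
        rw [hof_smul]
        exact A₀.smul_mem ha c }
  have key := h P (A₀.one_mem) (fun a ha => Algebra.subset_adjoin ⟨a, ha, rfl⟩)
    (fun i j a b ha hb => by
      change hof (i + j) (a.comp b rfl) ∈ A₀
      rw [← cmp_hof i j a b]
      exact A₀.mul_mem ha hb)
  refine ⟨⟨(hs.image f).toFinset, ?_⟩⟩
  rw [Set.Finite.coe_toFinset, eq_top_iff]
  rintro x -
  change x ∈ A₀
  induction x using TExt.ind with
  | h0 => exact A₀.zero_mem
  | h1 n a => exact key n a
  | h2 a b ha hb => exact A₀.add_mem ha hb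

theorem ExtModFG.toFinite {X Y : C} (h : ExtModFG X Y) : Module.Finite (TExt X X) (TExt X Y) := by
  classical
  obtain ⟨s, hs, h⟩ := h
  let f : (Σ n : ℕ, Ext.{w} X Y n) → TExt X Y := fun a => hof a.1 a.2
  let A₀ : Submodule (TExt X X) (TExt X Y) := Submodule.span _ (f '' s)
  let P : ∀ n : ℕ, AddSubgroup (Ext.{w} X Y n) := fun n => A₀.toAddSubgroup.comap (hof n)
  have key := h P (fun a ha => Submodule.subset_span ⟨a, ha, rfl⟩)
    (fun i j a b hb => by
      change hof (i + j) (a.comp b rfl) ∈ A₀
      rw [← cmp_hof i j a b]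
      exact A₀.smul_mem (hof i a) hb)
  refine ⟨⟨(hs.image f).toFinset, ?_⟩⟩
  rw [Set.Finite.coe_toFinset, eq_top_iff]
  rintro x -
  change x ∈ A₀
  induction x using TExt.ind with
  | h0 => exact A₀.zero_mem
  | h1 n a => exact key n a
  | h2 a b ha hb => exact A₀.add_mem ha hb

/-- The homogeneous components. -/
noncomputable def prj {X Y : C} (n : ℕ) : TExt X Y →+ Ext.{w} X Y n :=
  DFinsupp.evalAddMonoidHom n

theorem prj_hof_same {X Y : C} (n : ℕ) (x : Ext.{w} X Y n) : prj n (hof n x) = x :=
  DirectSum.of_eq_same n x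

theorem prj_hof_ne {X Y : C} {m n : ℕ} (h : m ≠ n) (x : Ext.{w} X Y m) : prj n (hof m x) = 0 :=
  DirectSum.of_eq_of_ne _ _ _ h.symm

theorem mem_of_prj {X Y : C} (B : AddSubgroup (TExt X Y)) (x : TExt X Y)
    (h : ∀ n, hof n (prj n x) ∈ B) : x ∈ B := by
  classical
  have h1 : x = ∑ i ∈ DFinsupp.support x, hof i (prj i x) := (DirectSum.sum_support_of x).symm
  rw [h1]
  exact B.sum_mem (fun i _ => h i)

/-- The set of homogeneous components of a finite set. -/
def comps {X Y : C} (t : Set (TExt X Y)) : Set (Σ n : ℕ, Ext.{w} X Y n) :=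
  {a | a.2 ≠ 0 ∧ ∃ x ∈ t, a.2 = prj a.1 x}

theorem comps_finite {X Y : C} {t : Set (TExt X Y)} (ht : t.Finite) : (comps t).Finite := by
  classical
  have h1 : comps t ⊆ ⋃ x ∈ t, ((fun n => (⟨n, prj n x⟩ : Σ n : ℕ, Ext.{w} X Y n)) ''
      (DFinsupp.support x : Set ℕ)) := by
    rintro ⟨n, a⟩ ⟨h0, x, hx, hax⟩
    simp only [Set.mem_iUnion]
    refine ⟨x, hx, n, ?_, ?_⟩
    · rw [Finset.mem_coe, DFinsupp.mem_support_toFun]
      intro h
      apply h0
      change a = prj n x at hax
      change a = 0
      rw [hax]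
      exact h
    · change a = prj n x at hax
      rw [hax]
  exact (ht.biUnion fun x _ => (Finset.finite_toSet _).image _).subset h1

theorem ExtAlgFG.of_finiteType {k : Type u'} [CommRing k] [Linear k C] {X : C}
    (h : Algebra.FiniteType k (TExt X X)) : ExtAlgFG k X := by
  classical
  obtain ⟨t, ht⟩ := h.out
  refine ⟨comps (t : Set (TExt X X)), comps_finite t.finite_toSet, ?_⟩
  intro P h1 hs hmul
  -- the subalgebra of elements with all components in `P`
  let B : AddSubgroup (TExt X X) :=
    { carrier := {x | ∀ n, prj n x ∈ P n}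
      add_mem' := fun {a b} ha hb n => by
        rw [map_add]
        exact (P n).add_mem (ha n) (hb n)
      zero_mem' := fun n => by
        rw [map_zero]
        exact (P n).zero_mem
      neg_mem' := fun {a} ha n => by
        rw [map_neg]
        exact (P n).neg_mem (ha n) }
  have hhof : ∀ n (x : Ext.{w} X X n), x ∈ P n → hof n x ∈ B := by
    intro n x hx m
    by_cases hnm : n = m
    · subst hnm
      rw [prj_hof_same]
      exact hx
    · rw [prj_hof_ne hnm]
      exact (P m).zero_mem
  have hmulB : ∀ x ∈ B, ∀ y ∈ B, x * y ∈ B := by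
    intro x hx y hy
    have h2 : x = ∑ i ∈ DFinsupp.support x, hof i (prj i x) := (DirectSum.sum_support_of x).symm
    have h3 : y = ∑ i ∈ DFinsupp.support y, hof i (prj i y) := (DirectSum.sum_support_of y).symm
    rw [h2, h3, Finset.sum_mul_sum]
    refine B.sum_mem fun i _ => B.sum_mem fun j _ => ?_
    rw [mul_def, cmp_hof]
    exact hhof _ _ (hmul i j _ _ (hx i) (hy j))
  have hsmulB : ∀ (c : k), ∀ x ∈ B, c • x ∈ B := by
    intro c x hx n
    have : prj n (c • x) = c • prj n x := rfl
    rw [this]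
    exact (P n).smul_mem c (hx n)
  have h1B : (1 : TExt X X) ∈ B := hhof 0 _ h1
  let A₀ : Subalgebra k (TExt X X) :=
    { carrier := B
      add_mem' := B.add_mem
      zero_mem' := B.zero_mem
      one_mem' := h1B
      mul_mem' := fun {a b} ha hb => hmulB a ha b hb
      algebraMap_mem' := fun c => by
        rw [Algebra.algebraMap_eq_smul_one]
        exact hsmulB c 1 h1B }
  have htA : (t : Set (TExt X X)) ⊆ A₀ := by
    intro x hx n
    by_cases h0 : prj n x = 0
    · rw [h0]
      exact (P n).zero_mem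
    · exact hs ⟨n, prj n x⟩ ⟨h0, x, hx, rfl⟩
  have hA : A₀ = ⊤ := by
    rw [eq_top_iff, ← ht]
    exact Algebra.adjoin_le htA
  intro n x
  have hx : hof n x ∈ A₀ := by
    rw [hA]
    exact Algebra.mem_top
  have h4 := hx n
  rwa [prj_hof_same] at h4

theorem ExtModFG.of_finite {X Y : C} (h : Module.Finite (TExt X X) (TExt X Y)) :
    ExtModFG X Y := by
  classical
  obtain ⟨t, ht⟩ := h.fg_top
  refine ⟨comps (t : Set (TExt X Y)), comps_finite t.finite_toSet, ?_⟩
  intro P hs hmul
  let B : AddSubgroup (TExt X Y) :=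
    { carrier := {x | ∀ n, prj n x ∈ P n}
      add_mem' := fun {a b} ha hb n => by
        rw [map_add]
        exact (P n).add_mem (ha n) (hb n)
      zero_mem' := fun n => by
        rw [map_zero]
        exact (P n).zero_mem
      neg_mem' := fun {a} ha n => by
        rw [map_neg]
        exact (P n).neg_mem (ha n) }
  have hhof : ∀ n (x : Ext.{w} X Y n), x ∈ P n → hof n x ∈ B := by
    intro n x hx m
    by_cases hnm : n = m
    · subst hnm
      rw [prj_hof_same]
      exact hx
    · rw [prj_hof_ne hnm]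
      exact (P m).zero_mem
  have hmulB : ∀ (x : TExt X X), ∀ y ∈ B, x • y ∈ B := by
    intro x y hy
    have h2 : x = ∑ i ∈ DFinsupp.support x, hof i (prj i x) := (DirectSum.sum_support_of x).symm
    have h3 : y = ∑ i ∈ DFinsupp.support y, hof i (prj i y) := (DirectSum.sum_support_of y).symm
    rw [h2, Finset.sum_smul]
    refine B.sum_mem fun i _ => ?_
    rw [h3, Finset.smul_sum]
    refine B.sum_mem fun j _ => ?_
    rw [smul_def, cmp_hof]
    exact hhof _ _ (hmul i j _ _ (hy j))
  let A₀ : Submodule (TExt X X) (TExt X Y) :=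
    { carrier := B
      add_mem' := B.add_mem
      zero_mem' := B.zero_mem
      smul_mem' := fun x y hy => hmulB x y hy }
  have htA : (t : Set (TExt X Y)) ⊆ A₀ := by
    intro x hx n
    by_cases h0 : prj n x = 0
    · rw [h0]
      exact (P n).zero_mem
    · exact hs ⟨n, prj n x⟩ ⟨h0, x, hx, rfl⟩
  have hA : A₀ = ⊤ := by
    rw [eq_top_iff, ← ht]
    exact Submodule.span_le.2 htA
  intro n x
  have hx : hof n x ∈ A₀ := by
    rw [hA]
    exact Submodule.mem_top
  have h4 := hx n
  rwa [prj_hof_same] at h4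

end proofs

end Run7.h234
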