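import Pool.Agent.Run7.h234.Tens

/-!
Finite generation of `Ext^*(M, N)` over the cohomology ring acting through `- ⊗ M`.
-/

set_option autoImplicit false
set_option linter.unusedVariables false
set_option linter.unusedSectionVars false

universe u

open CategoryTheory CategoryTheory.Limits CategoryTheory.Abelian TensorProduct Coalgebra
open scoped ModuleCat

namespace Run7.h234

section tf

variable {k : Type u} [Field k] {H : Type u} [Ring H] [HopfAlgebra k H]

/-- The isomorphism `k ⊗ M → M`, `t ⊗ m ↦ t m`. -/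
noncomputable def lam (M : ModuleCat.{u} H) : (tens k M).obj (trivH k H) ⟶ M := mu2H M

/-- The isomorphism `M → k ⊗ M`, `m ↦ 1 ⊗ m`. -/
noncomputable def lamInv (M : ModuleCat.{u} H) : M ⟶ (tens k M).obj (trivH k H) := sec2 M

theorem lamInv_lam (M : ModuleCat.{u} H) : lamInv (k := k) M ≫ lam M = 𝟙 M := sec2_mu2 M

theorem lam_lamInv (M : ModuleCat.{u} H) :
    lam (k := k) M ≫ lamInv M = 𝟙 ((tens k M).obj (trivH k H)) := mu2_sec2 M

/-- The natural map `X ⊗ k → X`. -/
noncomputable def rho1 : tens k (trivH k H) ⟶ 𝟭 (ModuleCat.{u} H) := tau1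

theorem rho1_eq : (rho1 (k := k) (H := H)).app (trivH k H) = lam (trivH k H) := tau_eq

/-- The action of the cohomology ring on `Ext^*(M, N)`: `a ↦ a ⊗ M`, followed by the Yoneda
product; `k ⊗ M` is identified with `M`. -/
noncomputable def tact {M N : ModuleCat.{u} H} {i j : ℕ}
    (a : Ext.{u} (trivH k H) (trivH k H) i) (b : Ext.{u} M N j) : Ext.{u} M N (i + j) :=
  (Ext.mk₀ (lamInv (k := k) M)).comp
    ((a.mapExactFunctor (tens k M)).comp ((Ext.mk₀ (lam (k := k) M)).comp b (zero_add j)) rfl)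
    (zero_add (i + j))

variable (k) in
/-- `Ext^*(M, N)` is generated by finitely many homogeneous elements under this action. -/
def ExtTensFG (M N : ModuleCat.{u} H) : Prop :=
  ∃ s : Set (Σ n : ℕ, Ext.{u} M N n), s.Finite ∧
    ∀ P : (∀ n : ℕ, AddSubgroup (Ext.{u} M N n)),
      (∀ a ∈ s, a.2 ∈ P a.1) →
      (∀ (i j : ℕ) (a : Ext.{u} (trivH k H) (trivH k H) i) (b : Ext.{u} M N j), b ∈ P j →
        tact a b ∈ P (i + j)) →
      ∀ (n : ℕ) (x : Ext.{u} M N n), x ∈ P n

theorem tact_hof {M N : ModuleCat.{u} H} {i j : ℕ}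
    (a : Ext.{u} (trivH k H) (trivH k H) i) (b : Ext.{u} M N j) :
    hof (i + j) (tact a b) = cmp (hmk (lamInv (k := k) M))
      (cmp (mapT (tens k M) (hof i a)) (cmp (hmk (lam (k := k) M)) (hof j b))) := by
  have e1 : mapT (tens k M) (hof i a) = hof i (a.mapExactFunctor (tens k M)) := mapT_hof _ _ _
  have e2 : cmp (hmk (lam (k := k) M)) (hof j b) =
    hof j ((Ext.mk₀ (lam (k := k) M)).comp b (zero_add j)) := cmp_hmk_hof _ _
  rw [e1, e2, cmp_hof, cmp_hmk_hof]
  rfl

theorem hof_inj' {C : Type*} [Category* C] [Abelian C] [HasExt.{u} C] {X Y : C} {n : ℕ}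
    {a b : Ext.{u} X Y n} (h : hof n a = hof n b) : a = b := by
  have := congrArg (prj n) h
  rwa [prj_hof_same, prj_hof_same] at this

theorem modFG_of_tensFG {N : ModuleCat.{u} H} (h : ExtTensFG k (trivH k H) N) :
    ExtModFG (trivH k H) N := by
  obtain ⟨s, hs, h⟩ := h
  refine ⟨s, hs, fun P h1 h2 => h P h1 ?_⟩
  intro i j a b hb
  have e : tact a b = a.comp b rfl := by
    apply hof_inj'
    rw [tact_hof, ← cmp_hof]
    have h1 := natExt _ _ (rho1 (k := k) (H := H)) (hof i a)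
    rw [mapT_id] at h1
    let r1 : (tens k (trivH k H)).obj (trivH k H) ⟶ trivH k H :=
      (rho1 (k := k) (H := H)).app (trivH k H)
    have h1' : cmp (mapT (tens k (trivH k H)) (hof i a)) (hmk r1) =
      cmp (hmk r1) (hof i a) := h1
    have hr : r1 = lam (trivH k H) := rho1_eq
    rw [hr] at h1'
    rw [← cmp_assoc (mapT (tens k (trivH k H)) (hof i a)), h1', ← cmp_assoc, ← cmp_assoc,
      cmp_hmk_hmk, lamInv_lam, hmk_id_cmp]
  rw [e]
  exact h2 i j a b hb

theorem tensFG_of_FG (h : FG k (FD k) (trivH k H)) {M N : ModuleCat.{u} H} (hM : FD k M)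
    (hN : FD k N) : ExtTensFG k M N := by
  have hfg : ExtModFG (trivH k H) ((ihomF k M).obj N) :=
    ExtModFG.of_finite (h.2 _ (ihom_FD hM hN))
  obtain ⟨s, hs, h⟩ := hfg
  let ev : (tens k M).obj ((ihomF k M).obj N) ⟶ N := (tadj k M).counit.app N
  let Φ : ∀ n : ℕ, Ext.{u} (trivH k H) ((ihomF k M).obj N) n →+ Ext.{u} M N n := fun n =>
    (prj n).comp ((cmp (hmk (lamInv (k := k) M))).comp
      ((AddMonoidHom.flip cmp (hmk ev)).comp
        ((mapT (tens k M)).comp (hof n))))
  have hΦ : ∀ (n : ℕ) (x : Ext.{u} (trivH k H) ((ihomF k M).obj N) n),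
      hof n (Φ n x) = cmp (hmk (lamInv (k := k) M))
        (cmp (mapT (tens k M) (hof n x)) (hmk ev)) := by
    intro n x
    change hof n (prj n (cmp (hmk (lamInv (k := k) M))
        (cmp (mapT (tens k M) (hof n x)) (hmk ev)))) = _
    rw [mapT_hof, cmp_hof_hmk, cmp_hmk_hof, prj_hof_same]
  refine ⟨(fun a : (Σ n : ℕ, Ext.{u} (trivH k H) ((ihomF k M).obj N) n) =>
    (⟨a.1, Φ a.1 a.2⟩ : Σ n : ℕ, Ext.{u} M N n)) '' s, hs.image _, ?_⟩
  intro P h1 h2 n y
  have key := h (fun n => (P n).comap (Φ n)) (fun a ha => h1 _ ⟨a, ha, rfl⟩) ?_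
  · -- surjectivity
    let y' : Ext.{u} ((tens k M).obj (trivH k H)) N n :=
      (Ext.mk₀ (lam (k := k) M)).comp y (zero_add n)
    have hy' : hof n y' = cmp (hmk (lam (k := k) M)) (hof n y) :=
      (cmp_hmk_hof _ _).symm
    let x : Ext.{u} (trivH k H) ((ihomF k M).obj N) n :=
      (Ext.mk₀ ((tadj k M).unit.app (trivH k H))).comp
        (y'.mapExactFunctor (ihomF k M)) (zero_add n)
    have hx : hof n x = cmp (hmk ((tadj k M).unit.app (trivH k H)))
        (mapT (ihomF k M) (hof n y')) := by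
      have e1 : mapT (ihomF k M) (hof n y') = hof n (y'.mapExactFunctor (ihomF k M)) :=
        mapT_hof _ _ _
      rw [e1]
      exact (cmp_hmk_hof _ _).symm
    have h3 := counit_surj (tadj k M) (trivH k H) (hof n y')
    have h4 : cmp (mapT (tens k M) (hof n x)) (hmk ev) = hof n y' := by
      rw [hx]; exact h3
    have h5 : hof n (Φ n x) = hof n y := by
      rw [hΦ, h4, hy', ← cmp_assoc, cmp_hmk_hmk, lamInv_lam, hmk_id_cmp]
    have h6 := key n x
    rw [← hof_inj' h5]
    exact h6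
  · intro i j a b hb
    change Φ (i + j) (a.comp b rfl) ∈ P (i + j)
    have e : Φ (i + j) (a.comp b rfl) = tact a (Φ j b) := by
      apply hof_inj'
      rw [hΦ, tact_hof, hΦ, ← cmp_hof, mapT_cmp]
      congr 1
      rw [cmp_assoc]
      congr 1
      rw [← cmp_assoc (hmk (lam (k := k) M)), cmp_hmk_hmk, lam_lamInv, hmk_id_cmp]
    rw [e]
    exact h2 i j a _ hb

end tf

end Run7.h234
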