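import Mathlib

/-!
Finiteness lemmas in pure algebra.
-/

set_option autoImplicit false

namespace Run7.h234

section transfer

theorem noeth_transfer {R S N N' : Type*} [Ring R] [Ring S] [AddCommGroup N] [Module R N]
    [AddCommGroup N'] [Module S N'] [IsNoetherian R N] (r : N' → N) (Rk : R → S)
    (RN : N →+ N') (h : ∀ x w, RN (x • r w) = Rk x • w) (h1 : Rk 1 = 1) :
    IsNoetherian S N' := by
  classical
  constructor
  intro W
  have hfg : (Submodule.span R (r '' (W : Set N'))).FG := IsNoetherian.noetherian _
  rw [Submodule.fg_span_iff_fg_span_finset_subset] at hfg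
  obtain ⟨s, hs, hspan⟩ := hfg
  obtain ⟨t, htW, hts⟩ := Finset.subset_set_image_iff.1 hs
  refine ⟨t, le_antisymm (Submodule.span_le.2 htW) ?_⟩
  intro w hw
  have hrw : ∀ v ∈ Submodule.span R (s : Set N), ∀ x : R,
      RN (x • v) ∈ Submodule.span S (t : Set N') := by
    intro v hmem
    induction hmem using Submodule.span_induction with
    | mem v hv =>
      intro x
      rw [← hts] at hv
      simp only [Finset.coe_image, Set.mem_image] at hv
      obtain ⟨u, hu, rfl⟩ := hv
      rw [h]
      exact Submodule.smul_mem _ _ (Submodule.subset_span hu)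
    | zero => intro x; simp
    | add a b _ _ ha hb =>
      intro x
      rw [smul_add, map_add]
      exact add_mem (ha x) (hb x)
    | smul a v _ hv =>
      intro x
      rw [smul_smul]
      exact hv _
  have hmem : r w ∈ Submodule.span R (s : Set N) := by
    rw [← hspan]
    exact Submodule.subset_span ⟨w, hw, rfl⟩
  have := hrw _ hmem 1
  rwa [h, h1, one_smul] at this

theorem finite_of_surj {R S N N' : Type*} [Ring R] [Ring S] [AddCommGroup N] [Module R N]
    [AddCommGroup N'] [Module S N'] [Module.Finite R N] (φ : R → S) (g : N →+ N')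
    (hg : Function.Surjective g) (h : ∀ x v, g (x • v) = φ x • g v) : Module.Finite S N' := by
  classical
  obtain ⟨s, hs⟩ := (Module.Finite.fg_top : (⊤ : Submodule R N).FG)
  refine ⟨⟨s.image g, ?_⟩⟩
  rw [eq_top_iff]
  rintro v' -
  obtain ⟨v, rfl⟩ := hg v'
  have hv : v ∈ Submodule.span R (s : Set N) := by rw [hs]; trivial
  induction hv using Submodule.span_induction with
  | mem v hv =>
    exact Submodule.subset_span (by simpa using ⟨v, hv, rfl⟩)
  | zero => simp
  | add a b _ _ ha hb => rw [map_add]; exact add_mem ha hb
  | smul a v _ hv => rw [h]; exact Submodule.smul_mem _ _ hv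

theorem finiteType_of_surj {k R S N : Type*} [CommRing k] [Ring R] [Ring S] [Algebra k R]
    [Algebra k S] [AddCommGroup N] [Module R N] [Module.Finite R N] [Algebra.FiniteType k R]
    (φ : R →ₐ[k] S) (g : N →+ S)
    (hg : Function.Surjective g) (h : ∀ x v, g (x • v) = φ x * g v) : Algebra.FiniteType k S := by
  classical
  obtain ⟨s, hs⟩ := (Module.Finite.fg_top : (⊤ : Submodule R N).FG)
  obtain ⟨t, ht⟩ := (Algebra.FiniteType.out : (⊤ : Subalgebra k R).FG)
  refine ⟨⟨t.image φ ∪ s.image g, ?_⟩⟩
  rw [eq_top_iff]
  rintro v' -
  have hφ : ∀ x, φ x ∈ Algebra.adjoin k ((t.image φ ∪ s.image g : Finset S) : Set S) := by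
    intro x
    have hx : φ x ∈ (Algebra.adjoin k (t : Set R)).map φ :=
      ⟨x, by rw [ht]; trivial, rfl⟩
    rw [AlgHom.map_adjoin] at hx
    refine Algebra.adjoin_mono ?_ hx
    simp
  obtain ⟨v, rfl⟩ := hg v'
  have hv : v ∈ Submodule.span R (s : Set N) := by rw [hs]; trivial
  induction hv using Submodule.span_induction with
  | mem v hv =>
    refine Algebra.subset_adjoin ?_
    simp only [Finset.coe_union, Finset.coe_image, Set.mem_union, Set.mem_image, Finset.mem_coe]
    exact Or.inr ⟨v, hv, rfl⟩
  | zero => simp
  | add a b _ _ ha hb => rw [map_add]; exact add_mem ha hb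
  | smul a v _ hv => rw [h]; exact mul_mem (hφ a) hv

end transfer

section supercomm

variable {k R : Type*} [CommRing k] [Ring R] [Algebra k R]

/-- Commuting up to sign. -/
def SComm (a b : R) : Prop := a * b = b * a ∨ a * b = -(b * a)

theorem SComm.sq {a b : R} (h : SComm a b) : Commute (a * a) b := by
  rcases h with h | h
  · change a * a * b = b * (a * a)
    rw [mul_assoc, h, ← mul_assoc, h, mul_assoc]
  · change a * a * b = b * (a * a)
    rw [mul_assoc, h, mul_neg, ← mul_assoc, h, neg_mul, neg_neg, mul_assoc]

theorem sublist_aux (S : Subalgebra k R) (hS : ∀ x ∈ S, ∀ y : R, x * y = y * x) (l : List R)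
    (hl : ∀ a ∈ l, ∀ b ∈ l, SComm a b) (hsq : ∀ a ∈ l, a * a ∈ S) (x : R) (hx : x ∈ l)
    (m : List R) (hm : m.Sublist l) :
    x * m.prod ∈ Submodule.span S {y : R | ∃ m' : List R, m'.Sublist l ∧ y = m'.prod} := by
  induction l generalizing m with
  | nil => simp at hx
  | cons a l ih =>
    have hmono : Submodule.span S {y : R | ∃ m' : List R, m'.Sublist l ∧ y = m'.prod} ≤
        Submodule.span S {y : R | ∃ m' : List R, m'.Sublist (a :: l) ∧ y = m'.prod} := by
      apply Submodule.span_mono
      rintro y ⟨m', hm', rfl⟩
      exact ⟨m', hm'.cons a, rfl⟩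
    rcases List.sublist_cons_iff.1 hm with hm' | ⟨r, rfl, hr⟩
    · rcases List.mem_cons.1 hx with rfl | hx
      · refine Submodule.subset_span ⟨x :: m, hm'.cons_cons x, ?_⟩
        rw [List.prod_cons]
      · exact hmono (ih (fun a ha b hb => hl a (List.mem_cons_of_mem _ ha) b
          (List.mem_cons_of_mem _ hb)) (fun a ha => hsq a (List.mem_cons_of_mem _ ha)) hx m hm')
    · rcases List.mem_cons.1 hx with rfl | hx
      · rw [List.prod_cons, ← mul_assoc]
        have : (⟨x * x, hsq x (by simp)⟩ : S) • r.prod ∈
          Submodule.span S {y : R | ∃ m' : List R, m'.Sublist (x :: l) ∧ y = m'.prod} :=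
          Submodule.smul_mem _ _ (Submodule.subset_span ⟨r, hr.cons x, rfl⟩)
        exact this
      · have h1 := ih (fun a ha b hb => hl a (List.mem_cons_of_mem _ ha) b
          (List.mem_cons_of_mem _ hb)) (fun a ha => hsq a (List.mem_cons_of_mem _ ha)) hx r hr
        have h2 : a * (x * r.prod) ∈
            Submodule.span S {y : R | ∃ m' : List R, m'.Sublist (a :: l) ∧ y = m'.prod} := by
          revert h1
          generalize x * r.prod = z
          intro h1
          induction h1 using Submodule.span_induction with
          | mem v hv =>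
            obtain ⟨m', hm', rfl⟩ := hv
            refine Submodule.subset_span ⟨a :: m', hm'.cons_cons a, ?_⟩
            rw [List.prod_cons]
          | zero => simp
          | add p q _ _ hp hq => rw [mul_add]; exact add_mem hp hq
          | smul c v _ hv =>
            have : a * (c • v) = c • (a * v) := by
              change a * ((c : R) * v) = (c : R) * (a * v)
              rw [← mul_assoc, ← hS c.1 c.2 a, mul_assoc]
            rw [this]
            exact Submodule.smul_mem _ _ hv
        rw [List.prod_cons, ← mul_assoc]
        rcases hl x (List.mem_cons_of_mem _ hx) a (by simp) with h | h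
        · rw [h, mul_assoc]; exact h2
        · rw [h, neg_mul, mul_assoc]; exact neg_mem h2

/-- An algebra generated by finitely many elements commuting up to sign is Noetherian. -/
theorem noeth_of_scomm [IsNoetherianRing k] (l : List R)
    (hl : ∀ a ∈ l, ∀ b ∈ l, SComm a b)
    (hgen : Algebra.adjoin k {a | a ∈ l} = ⊤) : IsNoetherianRing R := by
  classical
  -- the central subalgebra of squares
  let S : Subalgebra k R := Algebra.adjoin k {x | ∃ a ∈ l, x = a * a}
  have hcomm : ∀ x ∈ S, ∀ y : R, x * y = y * x := by
    intro x hx y
    have hy : y ∈ Algebra.adjoin k {a | a ∈ l} := by rw [hgen]; trivial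
    have h1 : ∀ b ∈ {a | a ∈ l}, ∀ x ∈ {x | ∃ a ∈ l, x = a * a}, b * x = x * b := by
      rintro b hb x ⟨a, ha, rfl⟩
      exact (SComm.sq (hl a ha b hb)).symm
    have h2 : Algebra.adjoin k {a | a ∈ l} ≤ Subalgebra.centralizer k {x | ∃ a ∈ l, x = a * a} := by
      rw [Algebra.adjoin_le_iff]
      intro b hb
      rw [SetLike.mem_coe, Subalgebra.mem_centralizer_iff]
      intro x hx
      exact (h1 b hb x hx).symm
    have h3 : S ≤ Subalgebra.centralizer k (Set.univ) := by
      rw [Algebra.adjoin_le_iff]
      intro x hx
      rw [SetLike.mem_coe, Subalgebra.mem_centralizer_iff]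
      intro b _
      have : b ∈ Subalgebra.centralizer k {x | ∃ a ∈ l, x = a * a} := by
        apply h2; rw [hgen]; trivial
      rw [Subalgebra.mem_centralizer_iff] at this
      exact (this x hx).symm
    have := h3 hx
    rw [Subalgebra.mem_centralizer_iff] at this
    exact (this y trivial).symm
  let _ : CommRing S := { (inferInstance : Ring S) with
    mul_comm := fun a b => Subtype.ext (hcomm a.1 a.2 b.1) }
  have hSN : IsNoetherianRing S := by
    have hft : Algebra.FiniteType k S := by
      refine (Subalgebra.fg_iff_finiteType S).1 ?_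
      refine ⟨(l.map fun a => a * a).toFinset, ?_⟩
      congr 1
      ext x
      simp [eq_comm]
    exact Algebra.FiniteType.isNoetherianRing k S
  have hfin : Module.Finite S R := by
    have hset : {y : R | ∃ m' : List R, m'.Sublist l ∧ y = m'.prod} =
        ((l.sublists.map List.prod).toFinset : Set R) := by
      ext y
      simp [eq_comm]
    have htop : Submodule.span S {y : R | ∃ m' : List R, m'.Sublist l ∧ y = m'.prod} = ⊤ := by
      rw [eq_top_iff]
      rintro y -
      have hy : y ∈ Algebra.adjoin k {a | a ∈ l} := by rw [hgen]; trivial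
      have key : ∀ n ∈ Submodule.span S {y : R | ∃ m' : List R, m'.Sublist l ∧ y = m'.prod},
          y * n ∈ Submodule.span S {y : R | ∃ m' : List R, m'.Sublist l ∧ y = m'.prod} := by
        induction hy using Algebra.adjoin_induction with
        | mem x hx =>
          intro n hn
          induction hn using Submodule.span_induction with
          | mem v hv =>
            obtain ⟨m', hm', rfl⟩ := hv
            exact sublist_aux S hcomm l hl (fun a ha => Algebra.subset_adjoin ⟨a, ha, rfl⟩) x hx
              m' hm'
          | zero => simp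
          | add p q _ _ hp hq => rw [mul_add]; exact add_mem hp hq
          | smul c v _ hv =>
            have : x * (c • v) = c • (x * v) := by
              change x * ((c : R) * v) = (c : R) * (x * v)
              rw [← mul_assoc, ← hcomm c.1 c.2 x, mul_assoc]
            rw [this]
            exact Submodule.smul_mem _ _ hv
        | algebraMap r =>
          intro n hn
          have : (algebraMap k S r) • n ∈
              Submodule.span S {y : R | ∃ m' : List R, m'.Sublist l ∧ y = m'.prod} :=
            Submodule.smul_mem _ _ hn
          exact this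
        | add p q _ _ hp hq =>
          intro n hn
          rw [add_mul]
          exact add_mem (hp n hn) (hq n hn)
        | mul p q _ _ hp hq =>
          intro n hn
          rw [mul_assoc]
          exact hp _ (hq n hn)
      have h1 := key 1 (Submodule.subset_span ⟨[], List.nil_sublist l, by simp⟩)
      rwa [mul_one] at h1
    exact ⟨⟨_, by rw [← hset]; exact htop⟩⟩
  have hN : IsNoetherian S R := isNoetherian_of_isNoetherianRing_of_finite S R
  exact isNoetherian_of_tower S hN

end supercomm

end Run7.h234
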