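import Pool.Agent.Run7.h234.ExtF

/-!
Anticommutation of the connecting classes of a 3 x 3 diagram.
-/

set_option autoImplicit false
set_option linter.unusedVariables false
set_option linter.unusedSectionVars false

universe w v u

open CategoryTheory CategoryTheory.Limits CategoryTheory.Abelian

namespace Run7.h234

section anti

variable {D : Type u} [Category.{v} D] [Abelian D] [HasExt.{w} D]

theorem anti33 {KL KQ KY PL PQ PY XL XQ XY : D}
    (fL : KL ⟶ PL) (gL : PL ⟶ XL) (wL : fL ≫ gL = 0)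
    (fQ : KQ ⟶ PQ) (gQ : PQ ⟶ XQ) (wQ : fQ ≫ gQ = 0)
    (fY : KY ⟶ PY) (gY : PY ⟶ XY) (wY : fY ≫ gY = 0)
    (rK : KL ⟶ KQ) (sK : KQ ⟶ KY) (wK : rK ≫ sK = 0)
    (rP : PL ⟶ PQ) (sP : PQ ⟶ PY) (wP : rP ≫ sP = 0)
    (rX : XL ⟶ XQ) (sX : XQ ⟶ XY) (wX : rX ≫ sX = 0)
    (hL : (ShortComplex.mk fL gL wL).ShortExact) (hQ : (ShortComplex.mk fQ gQ wQ).ShortExact)
    (hY : (ShortComplex.mk fY gY wY).ShortExact) (hK : (ShortComplex.mk rK sK wK).ShortExact)
    (hP : (ShortComplex.mk rP sP wP).ShortExact) (hX : (ShortComplex.mk rX sX wX).ShortExact)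
    (c1 : rK ≫ fQ = fL ≫ rP) (c2 : sK ≫ fY = fQ ≫ sP) (c3 : rP ≫ gQ = gL ≫ rX)
    (c4 : sP ≫ gY = gQ ≫ sX) :
    cmp (ecl hY) (ecl hK) + cmp (ecl hX) (ecl hL) = 0 := by
  have mfL : Mono fL := hL.mono_f
  have mfQ : Mono fQ := hQ.mono_f
  have mfY : Mono fY := hY.mono_f
  have mrK : Mono rK := hK.mono_f
  have mrP : Mono rP := hP.mono_f
  have mrX : Mono rX := hX.mono_f
  have egL : Epi gL := hL.epi_g
  have egQ : Epi gQ := hQ.epi_g
  have egY : Epi gY := hY.epi_g
  have esK : Epi sK := hK.epi_g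
  have esP : Epi sP := hP.epi_g
  have esX : Epi sX := hX.epi_g
  have lift : ∀ {A B C : D} {f : A ⟶ B} {g : B ⟶ C} {w : f ≫ g = 0}
      (h : (ShortComplex.mk f g w).ShortExact) {T : D} (t : T ⟶ B), t ≫ g = 0 →
      ∃ l : T ⟶ A, l ≫ f = t := by
    intro A B C f g w h T t ht
    have := h.mono_f
    exact ⟨h.exact.lift t ht, h.exact.lift_f t ht⟩
  let p : PQ ⟶ XY := sP ≫ gY
  have hp : p = gQ ≫ sX := c4
  have ep : Epi p := epi_comp _ _
  let N : D := kernel p
  let ιN : N ⟶ PQ := kernel.ι p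
  have mN : Mono ιN := inferInstanceAs (Mono (kernel.ι p))
  have hιp : ιN ≫ p = 0 := kernel.condition p
  have hS0 : (ShortComplex.mk ιN p hιp).ShortExact :=
    { exact := ShortComplex.exact_of_f_is_kernel _ (kernelIsKernel p)
      mono_f := mN
      epi_g := ep }
  obtain ⟨a, ha⟩ := lift hY (ιN ≫ sP) (by rw [Category.assoc]; exact hιp)
  obtain ⟨b, hb⟩ := lift hX (ιN ≫ gQ) (by rw [Category.assoc, ← hp]; exact hιp)
  obtain ⟨j₁, hj₁⟩ := lift hS0 fQ (by rw [hp, ← Category.assoc, wQ, Limits.zero_comp])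
  obtain ⟨j₂, hj₂⟩ := lift hS0 rP (by
    change rP ≫ sP ≫ gY = 0
    rw [← Category.assoc, wP, Limits.zero_comp])
  have hj₁a : j₁ ≫ a = sK := by
    rw [← cancel_mono fY, Category.assoc, ha, ← Category.assoc, hj₁, c2]
  have hj₁b : j₁ ≫ b = 0 := by
    rw [← cancel_mono rX, Category.assoc, hb, ← Category.assoc, hj₁, wQ, Limits.zero_comp]
  have hj₂b : j₂ ≫ b = gL := by
    rw [← cancel_mono rX, Category.assoc, hb, ← Category.assoc, hj₂, c3]
  have hj₂a : j₂ ≫ a = 0 := by
    rw [← cancel_mono fY, Category.assoc, ha, ← Category.assoc, hj₂, wP, Limits.zero_comp]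
  let i : KL ⟶ N := rK ≫ j₁
  have hi : i ≫ ιN = rK ≫ fQ := by rw [Category.assoc, hj₁]
  have hi2 : i = fL ≫ j₂ := by
    rw [← cancel_mono ιN, hi, Category.assoc, hj₂, c1]
  have hia : i ≫ a = 0 := by rw [Category.assoc, hj₁a, wK]
  have hib : i ≫ b = 0 := by rw [hi2, Category.assoc, hj₂b, wL]
  let ab : N ⟶ KY ⊞ XL := biprod.lift a b
  have hab : ab = a ≫ biprod.inl + b ≫ biprod.inr := by
    ext <;> simp [ab]
  have hiab : i ≫ ab = 0 := by
    rw [hab, Preadditive.comp_add, ← Category.assoc, ← Category.assoc, hia, hib]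
    simp
  have mi : Mono i := by
    have : Mono (i ≫ ιN) := by rw [hi]; infer_instance
    exact mono_of_mono i ιN
  have hS1e : (ShortComplex.mk i ab hiab).Exact := by
    refine ShortComplex.exact_of_f_is_kernel _ ?_
    refine KernelFork.IsLimit.ofι' _ _ ?_
    intro T t ht
    have hta : t ≫ a = 0 := by
      have := congrArg (fun z => z ≫ biprod.fst) ht
      simpa [ab] using this
    have htb : t ≫ b = 0 := by
      have := congrArg (fun z => z ≫ biprod.snd) ht
      simpa [ab] using this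
    have h1 : (t ≫ ιN) ≫ gQ = 0 := by
      rw [Category.assoc, ← hb, ← Category.assoc, htb, Limits.zero_comp]
    have hu := lift hQ (t ≫ ιN) h1
    have h2 : hu.choose ≫ sK = 0 := by
      rw [← cancel_mono fY, Category.assoc, c2, ← Category.assoc, hu.choose_spec,
        Category.assoc, ← ha, ← Category.assoc, hta]
    have hv := lift hK hu.choose h2
    refine ⟨hv.choose, ?_⟩
    rw [← cancel_mono ιN, Category.assoc]
    change hv.choose ≫ (i ≫ ιN) = _
    rw [hi, ← Category.assoc, hv.choose_spec, hu.choose_spec]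
  have h1 : j₁ ≫ ab = sK ≫ biprod.inl := by
    rw [hab, Preadditive.comp_add, ← Category.assoc, ← Category.assoc, hj₁a, hj₁b]
    simp
  have h2 : j₂ ≫ ab = gL ≫ biprod.inr := by
    rw [hab, Preadditive.comp_add, ← Category.assoc, ← Category.assoc, hj₂a, hj₂b]
    simp
  have eab : Epi ab := by
    apply Preadditive.epi_of_cancel_zero
    intro T h hh
    apply biprod.hom_ext'
    · rw [← cancel_epi sK, ← Category.assoc, ← h1, Category.assoc, hh]
      simp
    · rw [← cancel_epi gL, ← Category.assoc, ← h2, Category.assoc, hh]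
      simp
  have hS1 : (ShortComplex.mk i ab hiab).ShortExact :=
    { exact := hS1e, mono_f := mi, epi_g := eab }
  have hca : cmp (ecl hS0) (hmk a) = ecl hY := by
    have := ecl_nat hS0 hY
      { τ₁ := a, τ₂ := sP, τ₃ := 𝟙 _, comm₁₂ := ha
        comm₂₃ := (Category.comp_id _).symm }
    exact this.trans (hmk_id_cmp _)
  have hcb : cmp (ecl hS0) (hmk b) = ecl hX := by
    have := ecl_nat hS0 hX
      { τ₁ := b, τ₂ := gQ, τ₃ := 𝟙 _, comm₁₂ := hb
        comm₂₃ := hp.symm.trans (Category.comp_id _).symm }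
    exact this.trans (hmk_id_cmp _)
  have hd1 : cmp (hmk biprod.inl) (ecl hS1) = ecl hK := by
    have := ecl_nat hK hS1
      { τ₁ := 𝟙 _, τ₂ := j₁, τ₃ := biprod.inl, comm₁₂ := Category.id_comp _
        comm₂₃ := h1 }
    exact this.symm.trans (cmp_hmk_id _)
  have hd2 : cmp (hmk biprod.inr) (ecl hS1) = ecl hL := by
    have := ecl_nat hL hS1
      { τ₁ := 𝟙 _, τ₂ := j₂, τ₃ := biprod.inr, comm₁₂ := (Category.id_comp _).trans hi2
        comm₂₃ := h2 }
    exact this.symm.trans (cmp_hmk_id _)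
  have hrel : cmp (hmk a) (ecl hK) + cmp (hmk b) (ecl hL) = 0 := by
    have h3 : cmp (hmk ab) (ecl hS1) = 0 := hmk_cmp_ecl hS1
    have h4 : hmk ab = hmk (a ≫ biprod.inl) + hmk (b ≫ biprod.inr) :=
      (congrArg hmk hab).trans (map_add _ _ _)
    rw [h4, map_add, AddMonoidHom.add_apply, ← cmp_hmk_hmk, ← cmp_hmk_hmk, cmp_assoc,
      cmp_assoc, hd1, hd2] at h3
    exact h3
  rw [← hca, ← hcb, cmp_assoc, cmp_assoc, ← map_add, hrel, map_zero]

end anti

end Run7.h234
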