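import Pool.Agent.Run7.h234.Box
import Pool.Agent.Run7.h234.Anti0

/-!
Anticommutation of external products.
-/

set_option autoImplicit false
set_option linter.unusedVariables false
set_option linter.unusedSectionVars false

universe u

open CategoryTheory CategoryTheory.Limits CategoryTheory.Abelian TensorProduct
open scoped ModuleCat

namespace Run7.h234

section anti

variable {k : Type u} [Field k] {A B : Type u} [Ring A] [Ring B] [Algebra k A] [Algebra k B]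

theorem boxMap_comp {X X' X'' : ModuleCat.{u} A} {Y Y' Y'' : ModuleCat.{u} B} (f : X ⟶ X')
    (g : Y ⟶ Y') (f' : X' ⟶ X'') (g' : Y' ⟶ Y'') :
    boxMap (k := k) f g ≫ boxMap f' g' = boxMap (f ≫ f') (g ≫ g') :=
  box_hom_ext _ _ fun x y => rfl

theorem boxMap_swap {X X' : ModuleCat.{u} A} {Y Y' : ModuleCat.{u} B} (f : X ⟶ X')
    (g : Y ⟶ Y') : boxMap (k := k) f (𝟙 Y) ≫ boxMap (𝟙 X') g =
      boxMap (𝟙 X) g ≫ boxMap f (𝟙 Y') :=
  box_hom_ext _ _ fun x y => rfl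

theorem anti11 {S : ShortComplex (ModuleCat.{u} A)} (hS : S.ShortExact)
    {R : ShortComplex (ModuleCat.{u} B)} (hR : R.ShortExact) :
    cmp (xL (k := k) (ecl hS) R.X₃) (xR S.X₁ (ecl hR)) +
      cmp (xR S.X₃ (ecl hR)) (xL (ecl hS) R.X₁) = 0 := by
  have hL : ∀ Y : ModuleCat.{u} B, (S.map (boxL (A := A) k Y)).ShortExact :=
    fun Y => hS.map_of_exact (boxL k Y)
  have hRR : ∀ X : ModuleCat.{u} A, (R.map (boxR (B := B) k X)).ShortExact :=
    fun X => hR.map_of_exact (boxR k X)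
  have hxL : ∀ Y : ModuleCat.{u} B, xL (k := k) (ecl hS) Y = ecl (hL Y) :=
    fun Y => mapT_ecl (boxL k Y) hS
  have hxR : ∀ X : ModuleCat.{u} A, xR (k := k) X (ecl hR) = ecl (hRR X) :=
    fun X => mapT_ecl (boxR k X) hR
  rw [hxL, hxL, hxR, hxR]
  exact anti33 _ _ _ _ _ _ _ _ _ _ _ _ _ _ _ _ _ _ (hL R.X₁) (hL R.X₂) (hL R.X₃) (hRR S.X₁)
    (hRR S.X₂) (hRR S.X₃) (boxMap_swap _ _).symm (boxMap_swap _ _).symm (boxMap_swap _ _).symm
    (boxMap_swap _ _).symm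

theorem xL_cmp {X X' X'' : ModuleCat.{u} A} (x : TExt X X') (x' : TExt X' X'')
    (Y : ModuleCat.{u} B) : xL (k := k) (cmp x x') Y = cmp (xL x Y) (xL x' Y) :=
  mapT_cmp _ _ _

theorem xR_cmp (X : ModuleCat.{u} A) {Y Y' Y'' : ModuleCat.{u} B} (y : TExt Y Y')
    (y' : TExt Y' Y'') : xR (k := k) X (cmp y y') = cmp (xR X y) (xR X y') :=
  mapT_cmp _ _ _

theorem xL_hmk {X X' : ModuleCat.{u} A} (f : X ⟶ X')
    (Y : ModuleCat.{u} B) : xL (k := k) (hmk f) Y = hmk (boxMap f (𝟙 Y)) :=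
  mapT_hmk _ _

theorem xR_hmk (X : ModuleCat.{u} A) {Y Y' : ModuleCat.{u} B} (g : Y ⟶ Y') :
    xR (k := k) X (hmk g) = hmk (boxMap (𝟙 X) g) :=
  mapT_hmk _ _

theorem xL_nat {X X' : ModuleCat.{u} A} (x : TExt X X') {Y Y' : ModuleCat.{u} B} (g : Y ⟶ Y') :
    cmp (xL (k := k) x Y) (hmk (boxMap (𝟙 X') g)) = cmp (hmk (boxMap (𝟙 X) g)) (xL x Y') :=
  natExt (boxL (A := A) k Y) (boxL (A := A) k Y') (boxLNat g) x

theorem xR_nat {X X' : ModuleCat.{u} A} (f : X ⟶ X') {Y Y' : ModuleCat.{u} B} (y : TExt Y Y') :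
    cmp (xR (k := k) X y) (hmk (boxMap f (𝟙 Y'))) = cmp (hmk (boxMap f (𝟙 Y))) (xR X' y) :=
  natExt (boxR (B := B) k X) (boxR (B := B) k X') (boxRNat f) y

theorem xL_add {X X' : ModuleCat.{u} A} (x x' : TExt X X') (Y : ModuleCat.{u} B) :
    xL (k := k) (x + x') Y = xL x Y + xL x' Y := map_add _ _ _

theorem xR_add (X : ModuleCat.{u} A) {Y Y' : ModuleCat.{u} B} (y y' : TExt Y Y') :
    xR (k := k) X (y + y') = xR X y + xR X y' := map_add _ _ _

theorem xL_zero {X X' : ModuleCat.{u} A} (Y : ModuleCat.{u} B) :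
    xL (k := k) (0 : TExt X X') Y = 0 := map_zero _

theorem xR_zero (X : ModuleCat.{u} A) {Y Y' : ModuleCat.{u} B} :
    xR (k := k) X (0 : TExt Y Y') = 0 := map_zero _

/-- The case of a class of a short exact sequence. -/
theorem anti1n {S : ShortComplex (ModuleCat.{u} A)} (hS : S.ShortExact) (n : ℕ)
    (Y Y' : ModuleCat.{u} B) (y : Ext.{u} Y Y' n) :
    cmp (xL (k := k) (ecl hS) Y) (xR S.X₁ (hof n y)) =
      (-1 : ℤ) ^ n • cmp (xR S.X₃ (hof n y)) (xL (ecl hS) Y') := by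
  revert Y Y' y
  refine ext_ind (C := ModuleCat.{u} B) (p := fun n Y Y' y =>
    cmp (xL (k := k) (ecl hS) Y) (xR S.X₁ (hof n y)) =
      (-1 : ℤ) ^ n • cmp (xR S.X₃ (hof n y)) (xL (ecl hS) Y')) ?_ ?_ n
  · intro Y Y' g
    rw [pow_zero, one_smul, ← hmk_apply, xR_hmk, xR_hmk, xL_nat]
  · intro n R hR Y' y ih
    rw [← cmp_ecl_hof, xR_cmp, xR_cmp, ← cmp_assoc]
    have h := eq_neg_of_add_eq_zero_left (anti11 (k := k) hS hR)
    rw [h, map_neg, AddMonoidHom.neg_apply, cmp_assoc, ih, cmp_assoc, map_zsmul, pow_succ,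
      mul_smul, neg_smul, one_smul, smul_neg]

/-- Anticommutation of external products. -/
theorem anti (m : ℕ) (X X' : ModuleCat.{u} A) (x : Ext.{u} X X' m) (n : ℕ)
    (Y Y' : ModuleCat.{u} B) (y : Ext.{u} Y Y' n) :
    cmp (xL (k := k) (hof m x) Y) (xR X' (hof n y)) =
      (-1 : ℤ) ^ (m * n) • cmp (xR X (hof n y)) (xL (hof m x) Y') := by
  revert X X' x
  refine ext_ind (C := ModuleCat.{u} A) (p := fun m X X' x =>
    cmp (xL (k := k) (hof m x) Y) (xR X' (hof n y)) =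
      (-1 : ℤ) ^ (m * n) • cmp (xR X (hof n y)) (xL (hof m x) Y')) ?_ ?_ m
  · intro X X' f
    rw [zero_mul, pow_zero, one_smul, ← hmk_apply, xL_hmk, xL_hmk, xR_nat]
  · intro m S hS X' x ih
    rw [← cmp_ecl_hof, xL_cmp, xL_cmp, cmp_assoc, ih, map_zsmul, ← cmp_assoc, anti1n, map_zsmul,
      AddMonoidHom.smul_apply, cmp_assoc, smul_smul, ← pow_add]
    congr 2
    ring

theorem anti_scomm (m : ℕ) (X X' : ModuleCat.{u} A) (x : Ext.{u} X X' m) (n : ℕ)
    (Y Y' : ModuleCat.{u} B) (y : Ext.{u} Y Y' n) :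
    cmp (xL (k := k) (hof m x) Y) (xR X' (hof n y)) =
      cmp (xR X (hof n y)) (xL (hof m x) Y') ∨
    cmp (xL (k := k) (hof m x) Y) (xR X' (hof n y)) =
      - cmp (xR X (hof n y)) (xL (hof m x) Y') := by
  rw [anti]
  rcases neg_one_pow_eq_or ℤ (m * n) with h | h
  · left; rw [h, one_smul]
  · right; rw [h, neg_smul, one_smul]

end anti

end Run7.h234
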