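import Pool.Agent.Run7.h234.ExtH

/-!
External tensor products of modules over `A` and `B` as modules over `A ⊗[k] B`.
-/

set_option autoImplicit false
set_option linter.unusedVariables false
set_option linter.unusedSectionVars false

universe u

open CategoryTheory CategoryTheory.Limits CategoryTheory.Abelian TensorProduct
open scoped ModuleCat

namespace Run7.h234

theorem exact_of_exact {C D : Type*} [Category* C] [Category* D] [Abelian C] [Abelian D]
    (F : C ⥤ D) [F.Additive] (h : ∀ S : ShortComplex C, S.Exact → (S.map F).Exact) :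
    PreservesFiniteLimits F ∧ PreservesFiniteColimits F := by
  have := ((CategoryTheory.Functor.exact_tfae F).out 1 3).mp h
  exact this

section defs

variable {k : Type u} [Field k] {A B : Type u} [Ring A] [Ring B] [Algebra k A] [Algebra k B]

variable (k) in
/-- The underlying group of the external tensor product. -/
def BoxTy (X : ModuleCat.{u} A) (Y : ModuleCat.{u} B) : Type u := X ⊗[k] Y

noncomputable instance (X : ModuleCat.{u} A) (Y : ModuleCat.{u} B) : AddCommGroup (BoxTy k X Y) :=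
  inferInstanceAs (AddCommGroup (X ⊗[k] Y))

/-- The action of the tensor product algebra. -/
noncomputable def boxAct (X : ModuleCat.{u} A) (Y : ModuleCat.{u} B) :
    A ⊗[k] B →ₐ[k] Module.End k (X ⊗[k] Y) :=
  (Module.endTensorEndAlgHom (R := k) (S := k) (A := k) (M := X) (N := Y)).comp
    (Algebra.TensorProduct.map (Algebra.lsmul k k X) (Algebra.lsmul k k Y))

theorem boxAct_tmul (X : ModuleCat.{u} A) (Y : ModuleCat.{u} B) (a : A) (b : B) (x : X) (y : Y) :
    boxAct (k := k) X Y (a ⊗ₜ b) (x ⊗ₜ y) = (a • x) ⊗ₜ (b • y) := rfl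

noncomputable instance (X : ModuleCat.{u} A) (Y : ModuleCat.{u} B) :
    Module (A ⊗[k] B) (BoxTy k X Y) :=
  Module.compHom (X ⊗[k] Y) (boxAct (k := k) X Y).toRingHom

variable (k) in
/-- Pure tensors. -/
noncomputable def bt {X : ModuleCat.{u} A} {Y : ModuleCat.{u} B} (x : X) (y : Y) : BoxTy k X Y :=
  (x ⊗ₜ[k] y : X ⊗[k] Y)

theorem smul_bt {X : ModuleCat.{u} A} {Y : ModuleCat.{u} B} (a : A) (b : B) (x : X) (y : Y) :
    (a ⊗ₜ[k] b : A ⊗[k] B) • bt k x y = bt k (a • x) (b • y) := rfl

theorem BoxTy.ind {X : ModuleCat.{u} A} {Y : ModuleCat.{u} B} {p : BoxTy k X Y → Prop}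
    (z : BoxTy k X Y) (h0 : p 0) (h1 : ∀ x y, p (bt k x y)) (h2 : ∀ a b, p a → p b → p (a + b)) :
    p z :=
  TensorProduct.induction_on z h0 h1 h2

variable (k) in
/-- The external tensor product. -/
noncomputable def box (X : ModuleCat.{u} A) (Y : ModuleCat.{u} B) : ModuleCat.{u} (A ⊗[k] B) :=
  ModuleCat.of (A ⊗[k] B) (BoxTy k X Y)

/-- Semilinearity can be checked on pure tensors. -/
theorem box_smul_ind {X : ModuleCat.{u} A} {Y : ModuleCat.{u} B} {M : Type*} [AddCommGroup M]
    [Module (A ⊗[k] B) M] (f : BoxTy k X Y →+ M)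
    (h : ∀ a b x y, f ((a ⊗ₜ[k] b : A ⊗[k] B) • bt k x y) =
      (a ⊗ₜ[k] b : A ⊗[k] B) • f (bt k x y)) (c : A ⊗[k] B) (z : BoxTy k X Y) :
    f (c • z) = c • f z := by
  induction c using TensorProduct.induction_on with
  | zero => rw [zero_smul, map_zero, zero_smul]
  | add a b ha hb => rw [add_smul, map_add, ha, hb, add_smul]
  | tmul a b =>
    induction z using BoxTy.ind with
    | h0 => rw [smul_zero, map_zero, smul_zero]
    | h2 z z' hz hz' => rw [smul_add, map_add, hz, hz', map_add, smul_add]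
    | h1 x y => exact h a b x y

/-- The tensor product of two module maps. -/
noncomputable def boxAdd {X X' : ModuleCat.{u} A} {Y Y' : ModuleCat.{u} B} (f : X ⟶ X')
    (g : Y ⟶ Y') : BoxTy k X Y →+ BoxTy k X' Y' :=
  (TensorProduct.map (f.hom.restrictScalars k) (g.hom.restrictScalars k)).toAddMonoidHom

/-- The tensor product of two module maps. -/
noncomputable def boxLin {X X' : ModuleCat.{u} A} {Y Y' : ModuleCat.{u} B} (f : X ⟶ X')
    (g : Y ⟶ Y') : BoxTy k X Y →ₗ[A ⊗[k] B] BoxTy k X' Y' where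
  toFun := boxAdd f g
  map_add' := map_add _
  map_smul' := box_smul_ind _ fun a b x y => by
    change (f.hom (a • x)) ⊗ₜ[k] (g.hom (b • y)) = (a • f.hom x) ⊗ₜ[k] (b • g.hom y)
    rw [map_smul, map_smul]

/-- The tensor product of two module maps. -/
noncomputable def boxMap {X X' : ModuleCat.{u} A} {Y Y' : ModuleCat.{u} B} (f : X ⟶ X')
    (g : Y ⟶ Y') : box k X Y ⟶ box k X' Y' := ModuleCat.ofHom (boxLin f g)

theorem boxMap_apply {X X' : ModuleCat.{u} A} {Y Y' : ModuleCat.{u} B} (f : X ⟶ X')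
    (g : Y ⟶ Y') (x : X) (y : Y) : (boxMap (k := k) f g).hom (bt k x y) =
      bt k (f.hom x) (g.hom y) := rfl

theorem box_hom_ext {X : ModuleCat.{u} A} {Y : ModuleCat.{u} B} {M : ModuleCat.{u} (A ⊗[k] B)}
    (f g : box k X Y ⟶ M) (h : ∀ x y, f.hom (bt k x y) = g.hom (bt k x y)) : f = g := by
  ext z
  induction z using BoxTy.ind with
  | h0 => exact (map_zero f.hom).trans (map_zero g.hom).symm
  | h2 z z' hz hz' =>
    exact (map_add f.hom z z').trans ((congrArg₂ (· + ·) hz hz').trans (map_add g.hom z z').symm)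
  | h1 x y => exact h x y

variable (k) in
/-- The functor `- ⊠ Y`. -/
@[simps]
noncomputable def boxL (Y : ModuleCat.{u} B) : ModuleCat.{u} A ⥤ ModuleCat.{u} (A ⊗[k] B) where
  obj X := box k X Y
  map f := boxMap f (𝟙 Y)
  map_id X := box_hom_ext _ _ fun x y => rfl
  map_comp f g := box_hom_ext _ _ fun x y => rfl

variable (k) in
/-- The functor `X ⊠ -`. -/
@[simps]
noncomputable def boxR (X : ModuleCat.{u} A) : ModuleCat.{u} B ⥤ ModuleCat.{u} (A ⊗[k] B) where
  obj Y := box k X Y
  map f := boxMap (𝟙 X) f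
  map_id X := box_hom_ext _ _ fun x y => rfl
  map_comp f g := box_hom_ext _ _ fun x y => rfl

instance (Y : ModuleCat.{u} B) : (boxL (A := A) k Y).Additive where
  map_add {X X'} {f g} := box_hom_ext _ _ fun x y => by
    change (f.hom x + g.hom x) ⊗ₜ[k] y = f.hom x ⊗ₜ[k] y + g.hom x ⊗ₜ[k] y
    rw [TensorProduct.add_tmul]

instance (X : ModuleCat.{u} A) : (boxR (B := B) k X).Additive where
  map_add {Y Y'} {f g} := box_hom_ext _ _ fun x y => by
    change x ⊗ₜ[k] (f.hom y + g.hom y) = x ⊗ₜ[k] f.hom y + x ⊗ₜ[k] g.hom y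
    rw [TensorProduct.tmul_add]

theorem algMap_smul (M : ModuleCat.{u} (A ⊗[k] B)) (c : k) (m : M) :
    c • m = (algebraMap k A c ⊗ₜ[k] (1 : B) : A ⊗[k] B) • m := rfl

instance (Y : ModuleCat.{u} B) : (boxL (A := A) k Y).Linear k where
  map_smul {X X'} f c := box_hom_ext _ _ fun x y => by
    change (c • f.hom x) ⊗ₜ[k] y = (algebraMap k A c • f.hom x) ⊗ₜ[k] ((1 : B) • y)
    rw [one_smul]; rfl

instance (X : ModuleCat.{u} A) : (boxR (B := B) k X).Linear k where
  map_smul {Y Y'} f c := box_hom_ext _ _ fun x y => by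
    change x ⊗ₜ[k] (c • f.hom y) = (algebraMap k A c • x) ⊗ₜ[k] ((1 : B) • f.hom y)
    rw [one_smul, TensorProduct.tmul_smul, TensorProduct.smul_tmul']; rfl

theorem boxL_exact (Y : ModuleCat.{u} B) (S : ShortComplex (ModuleCat.{u} A)) (h : S.Exact) :
    (S.map (boxL (A := A) k Y)).Exact := by
  rw [CategoryTheory.ShortComplex.ShortExact.moduleCat_exact_iff_function_exact] at h ⊢
  have h' : Function.Exact (S.f.hom.restrictScalars k) (S.g.hom.restrictScalars k) := h
  exact Module.Flat.rTensor_exact Y h'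

theorem boxR_exact (X : ModuleCat.{u} A) (S : ShortComplex (ModuleCat.{u} B)) (h : S.Exact) :
    (S.map (boxR (B := B) k X)).Exact := by
  rw [CategoryTheory.ShortComplex.ShortExact.moduleCat_exact_iff_function_exact] at h ⊢
  have h' : Function.Exact (S.f.hom.restrictScalars k) (S.g.hom.restrictScalars k) := h
  exact Module.Flat.lTensor_exact X h'

instance (Y : ModuleCat.{u} B) : PreservesFiniteLimits (boxL (A := A) k Y) :=
  (exact_of_exact _ (boxL_exact Y)).1

instance (Y : ModuleCat.{u} B) : PreservesFiniteColimits (boxL (A := A) k Y) :=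
  (exact_of_exact _ (boxL_exact Y)).2

instance (X : ModuleCat.{u} A) : PreservesFiniteLimits (boxR (B := B) k X) :=
  (exact_of_exact _ (boxR_exact X)).1

instance (X : ModuleCat.{u} A) : PreservesFiniteColimits (boxR (B := B) k X) :=
  (exact_of_exact _ (boxR_exact X)).2

/-- Naturality of `- ⊠ Y` in `Y`. -/
@[simps]
noncomputable def boxLNat {Y Y' : ModuleCat.{u} B} (g : Y ⟶ Y') :
    boxL (A := A) k Y ⟶ boxL (A := A) k Y' where
  app X := boxMap (𝟙 X) g
  naturality X X' f := box_hom_ext _ _ fun x y => rfl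

/-- Naturality of `X ⊠ -` in `X`. -/
@[simps]
noncomputable def boxRNat {X X' : ModuleCat.{u} A} (f : X ⟶ X') :
    boxR (B := B) k X ⟶ boxR (B := B) k X' where
  app Y := boxMap f (𝟙 Y)
  naturality Y Y' g := box_hom_ext _ _ fun x y => rfl

/-- `x ⊠ Y` for a class `x`. -/
noncomputable def xL {X X' : ModuleCat.{u} A} (x : TExt X X') (Y : ModuleCat.{u} B) :
    TExt (box k X Y) (box k X' Y) := mapT (boxL (A := A) k Y) x

/-- `X ⊠ y` for a class `y`. -/
noncomputable def xR (X : ModuleCat.{u} A) {Y Y' : ModuleCat.{u} B} (y : TExt Y Y') :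
    TExt (box k X Y) (box k X Y') := mapT (boxR (B := B) k X) y

end defs

end Run7.h234
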