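import Pool.Agent.Run7.h234.Kun3

/-!
Coinduction, and transfer of finite generation.
-/

set_option autoImplicit false
set_option linter.unusedVariables false
set_option linter.unusedSectionVars false

universe u

open CategoryTheory CategoryTheory.Limits CategoryTheory.Abelian TensorProduct
open scoped ModuleCat

namespace Run7.h234

section coind

variable {R S : Type u} [Ring R] [Ring S] (f : R →+* S)

/-- Coinduction. -/
noncomputable abbrev co : ModuleCat.{u} R ⥤ ModuleCat.{u} S := ModuleCat.coextendScalars f

instance coAdd : (co f).Additive where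
  map_add {X Y} {g h} := by
    apply ModuleCat.hom_ext
    apply LinearMap.ext
    intro x
    rfl

theorem co_exact (hproj : Module.Projective R
      ((ModuleCat.restrictScalars.{u} f).obj (ModuleCat.of S S)))
    (T : ShortComplex (ModuleCat.{u} R)) (h : T.Exact) :
    (T.map (co f)).Exact := by
  rw [CategoryTheory.ShortComplex.ShortExact.moduleCat_exact_iff_function_exact] at h ⊢
  intro g
  constructor
  · intro hg
    change ((ModuleCat.restrictScalars.{u} f).obj (ModuleCat.of S S)) →ₗ[R] T.X₂ at g
    have hg' : ∀ s : S, T.g.hom (g s) = 0 := by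
      intro s
      have := congrArg (fun z : ((ModuleCat.restrictScalars.{u} f).obj (ModuleCat.of S S))
        →ₗ[R] T.X₃ => z s) hg
      exact this
    let r : T.X₁ →ₗ[R] LinearMap.range T.f.hom := LinearMap.rangeRestrict T.f.hom
    have hr : Function.Surjective r := LinearMap.surjective_rangeRestrict _
    let g' : ((ModuleCat.restrictScalars.{u} f).obj (ModuleCat.of S S)) →ₗ[R]
        LinearMap.range T.f.hom :=
      LinearMap.codRestrict _ g (fun s => (h _).1 (hg' s))
    obtain ⟨l, hl⟩ := Module.projective_lifting_property r g' hr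
    refine ⟨l, ?_⟩
    change T.f.hom ∘ₗ l = g
    ext s
    have := LinearMap.congr_fun hl s
    exact congrArg Subtype.val this
  · rintro ⟨l, rfl⟩
    change ((ModuleCat.restrictScalars.{u} f).obj (ModuleCat.of S S)) →ₗ[R] T.X₁ at l
    change T.g.hom ∘ₗ (T.f.hom ∘ₗ l) = 0
    ext s
    exact (h _).2 ⟨l s, rfl⟩

theorem coPFL (hproj : Module.Projective R
      ((ModuleCat.restrictScalars.{u} f).obj (ModuleCat.of S S))) :
    PreservesFiniteLimits (co f) :=
  (exact_of_exact _ (co_exact f hproj)).1

theorem coPFC (hproj : Module.Projective R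
      ((ModuleCat.restrictScalars.{u} f).obj (ModuleCat.of S S))) :
    PreservesFiniteColimits (co f) :=
  (exact_of_exact _ (co_exact f hproj)).2

end coind

section alg

variable {k : Type u} [Field k] {H H' : Type u} [Ring H] [Algebra k H] [Ring H'] [Algebra k H']
  [Module.Finite k H]

theorem co_FD (φ : H' →ₐ[k] H) (M : ModuleCat.{u} H') (hM : FD k M) :
    FD k ((co φ.toRingHom).obj M) := by
  have hM' : Module.Finite k M := hM
  let L : ((co φ.toRingHom).obj M) →ₗ[k] (H →ₗ[k] M) :=
    { toFun := fun g =>
        { toFun := fun x => g x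
          map_add' := fun x y => map_add (ModuleCat.CoextendScalars.equiv _ M g) x y
          map_smul' := fun c x => by
            have h1 : g (φ (algebraMap k H' c) * x) = algebraMap k H' c • g x :=
              map_smul (ModuleCat.CoextendScalars.equiv _ M g) (algebraMap k H' c)
                (show (ModuleCat.restrictScalars.{u} φ.toRingHom).obj (ModuleCat.of H H) from x)
            rw [φ.commutes, ← Algebra.smul_def] at h1
            exact h1 }
      map_add' := fun g g' => rfl
      map_smul' := fun c g => by
        ext x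
        have h1 : g (φ (algebraMap k H' c) * x) = algebraMap k H' c • g x :=
          map_smul (ModuleCat.CoextendScalars.equiv _ M g) (algebraMap k H' c)
                (show (ModuleCat.restrictScalars.{u} φ.toRingHom).obj (ModuleCat.of H H) from x)
        change g (x * algebraMap k H c) = algebraMap k H' c • g x
        rw [← Algebra.commutes, ← h1, φ.commutes] }
  refine Module.Finite.of_injective L ?_
  intro g g' h
  apply ModuleCat.CoextendScalars.ext
  ext x
  exact LinearMap.congr_fun h x

/-- Shapiro type descent of finite generation. -/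
theorem shapiro_alg (φ : H' →ₐ[k] H) (hproj : Module.Projective H'
      ((ModuleCat.restrictScalars.{u} φ.toRingHom).obj (ModuleCat.of H H)))
    (X : ModuleCat.{u} H) (hX : FD k X) (h : FG k (FD k) X) :
    FG k (FD k) ((ModuleCat.restrictScalars.{u} φ.toRingHom).obj X) := by
  have := coPFL φ.toRingHom hproj
  have := coPFC φ.toRingHom hproj
  exact FG.shapiro (ModuleCat.restrictCoextendScalarsAdj.{u} φ.toRingHom) (FD k) (FD k)
    (fun M hM => co_FD φ M hM) X (FD.res k φ hX) h

theorem trivM_end (ε : H →ₐ[k] k) (f : trivM ε ⟶ trivM ε) : ∃ c : k, f = c • 𝟙 _ := by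
  refine ⟨tvm (f.hom (vtm ε 1)), ?_⟩
  ext t
  have h1 : t = algebraMap k H (tvm t) • vtm ε 1 := by
    apply tvm_inj
    rw [tvm_smul, ε.commutes, tvm_vtm, mul_one]; rfl
  have h2 : f.hom t = algebraMap k H (tvm t) • f.hom (vtm ε 1) := by
    conv_lhs => rw [h1]
    rw [map_smul]
  rw [h2]
  apply tvm_inj
  rw [tvm_smul, ε.commutes]
  change tvm t * tvm (f.hom (vtm ε 1)) = tvm (tvm (f.hom (vtm ε 1)) • t)
  rw [tvm_ksmul, mul_comm]

/-- Ascent of finite generation along a split projective extension. -/
theorem split_alg (φ : H' →ₐ[k] H) (hproj : Module.Projective H'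
      ((ModuleCat.restrictScalars.{u} φ.toRingHom).obj (ModuleCat.of H H)))
    (σ : ModuleCat.restrictScalars.{u} φ.toRingHom ⋙
      co φ.toRingHom ⟶ 𝟭 (ModuleCat.{u} H)) (ε : H →ₐ[k] k)
    (hσ : (ModuleCat.restrictCoextendScalarsAdj.{u} φ.toRingHom).unit.app (trivM ε) ≫
      σ.app (trivM ε) = 𝟙 _)
    (hN : IsNoetherianRing (TExt ((ModuleCat.restrictScalars.{u} φ.toRingHom).obj (trivM ε))
      ((ModuleCat.restrictScalars.{u} φ.toRingHom).obj (trivM ε))))
    (h : FG k (FD k) ((ModuleCat.restrictScalars.{u} φ.toRingHom).obj (trivM ε))) :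
    FG k (FD k) (trivM ε) := by
  have := coPFL φ.toRingHom hproj
  have := coPFC φ.toRingHom hproj
  have hno : ∀ M : ModuleCat.{u} H, FD k M →
      IsNoetherian (TExt (trivM ε) (trivM ε)) (TExt (trivM ε) M) := by
    intro M hM
    have h1 := h.2 _ (FD.res k φ hM)
    have h2 : IsNoetherian (TExt ((ModuleCat.restrictScalars.{u} φ.toRingHom).obj (trivM ε))
      ((ModuleCat.restrictScalars.{u} φ.toRingHom).obj (trivM ε)))
      (TExt ((ModuleCat.restrictScalars.{u} φ.toRingHom).obj (trivM ε))
      ((ModuleCat.restrictScalars.{u} φ.toRingHom).obj M)) := inferInstance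
    exact noeth_split σ (trivM ε)
      ((ModuleCat.restrictCoextendScalarsAdj.{u} φ.toRingHom).unit.app (trivM ε)) hσ M
  have hT : FD k (trivM ε) := FD.of_surj k (M := ModuleCat.of H H) (FD.self k H)
        (augM ε) (augM_surj ε)
  constructor
  · exact finiteType_of_noeth (k := k) (trivM ε) (trivM_end ε) (hno _ hT)
  · intro M hM
    have := hno M hM
    infer_instance

end alg

end Run7.h234
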