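import Mathlib

/-!
Minimal projective covers over Artinian rings.
-/

set_option autoImplicit false

universe u

namespace Run7.h234

section cover

variable {A : Type u} [Ring A] [IsArtinianRing A]

/-- Existence of a finitely generated projective module over `X` such that the kernel is killed
by all maps to semisimple modules. -/
theorem exists_cover (X : Type u) [AddCommGroup X] [Module A X] [Module.Finite A X] :
    ∃ (P : Type u) (_ : AddCommGroup P) (_ : Module A P) (_ : Module.Finite A P)
      (_ : Module.Projective A P) (π : P →ₗ[A] X), Function.Surjective π ∧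
      ∀ (T : Type u) [AddCommGroup T] [Module A T] [IsSemisimpleModule A T] (g : P →ₗ[A] T) (p : P),
        π p = 0 → g p = 0 := by
  classical
  let Q : ℕ∞ → Prop := fun l => ∃ (P : Type u) (_ : AddCommGroup P) (_ : Module A P)
    (_ : Module.Finite A P) (_ : Module.Projective A P) (π : P →ₗ[A] X),
    Function.Surjective π ∧ Module.length A P = l
  have hne : ∃ l, Q l := by
    obtain ⟨n, f, hf⟩ := Module.Finite.exists_fin' A X
    exact ⟨_, Fin n → A, inferInstance, inferInstance, inferInstance, inferInstance, f, hf, rfl⟩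
  obtain ⟨l, hl, hmin⟩ := WellFounded.has_min (wellFounded_lt (α := ℕ∞)) {l | Q l} hne
  obtain ⟨P, _, _, _, _, π, hπ, hlen⟩ := hl
  refine ⟨P, inferInstance, inferInstance, inferInstance, inferInstance, π, hπ, ?_⟩
  intro T _ _ _ g p hp
  by_contra hgp
  -- the image of the kernel
  let K : Submodule A P := LinearMap.ker π
  let T₁ : Submodule A T := K.map g
  obtain ⟨T₂, hT₂⟩ := exists_isCompl T₁
  let q : T →ₗ[A] T₁ := Submodule.projectionOnto T₁ T₂ hT₂
  have hq : ∀ t : T₁, q t = t := fun t => Submodule.projectionOnto_apply_left hT₂ t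
  let g₁ : P →ₗ[A] T₁ := q ∘ₗ g
  let gK : K →ₗ[A] T₁ := g₁ ∘ₗ K.subtype
  have hgK : Function.Surjective gK := by
    rintro ⟨t, x, hx, rfl⟩
    refine ⟨⟨x, hx⟩, ?_⟩
    exact hq ⟨g x, x, hx, rfl⟩
  obtain ⟨u, hu⟩ := Module.projective_lifting_property gK g₁ hgK
  let e : Module.End A P := K.subtype ∘ₗ u
  have hge : ∀ x, g₁ (e x) = g₁ x := fun x => LinearMap.congr_fun hu x
  have hgen : ∀ n x, g₁ ((e ^ n) x) = g₁ x := by
    intro n
    induction n with
    | zero => intro x; simp
    | succ n ih => intro x; rw [pow_succ', Module.End.mul_apply, hge, ih]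
  obtain ⟨N, hN⟩ := Filter.eventually_atTop.1 (LinearMap.eventually_isCompl_ker_pow_range_pow e)
  have hc := hN (N + 1) (by omega)
  have hrK : LinearMap.range (e ^ (N + 1)) ≤ K := by
    rintro _ ⟨x, rfl⟩
    rw [pow_succ', Module.End.mul_apply]
    exact (u _).2
  have hg₁p : g₁ p ≠ 0 := by
    intro h
    have h1 : g p ∈ T₁ := ⟨p, hp, rfl⟩
    have h2 : g₁ p = ⟨g p, h1⟩ := hq ⟨g p, h1⟩
    rw [h2] at h
    exact hgp (congrArg Subtype.val h)
  let P' : Submodule A P := LinearMap.ker (e ^ (N + 1))
  have hP' : P' ≠ ⊤ := by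
    intro h
    have : p ∈ P' := by rw [h]; trivial
    have h2 : (e ^ (N + 1)) p = 0 := this
    have h3 := hgen (N + 1) p
    rw [h2, map_zero] at h3
    exact hg₁p h3.symm
  have hproj : Module.Projective A P' :=
    Module.Projective.of_split P'.subtype (Submodule.projectionOnto P' _ hc)
      (by
        ext x
        simp [Submodule.projectionOnto_apply_left])
  have hfin : Module.Finite A P' := inferInstance
  have hsurj : Function.Surjective (π ∘ₗ P'.subtype) := by
    intro x
    obtain ⟨y, rfl⟩ := hπ x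
    have hy : y ∈ P' ⊔ LinearMap.range (e ^ (N + 1)) := by rw [hc.sup_eq_top]; trivial
    obtain ⟨a, ha, b, hb, rfl⟩ := Submodule.mem_sup.1 hy
    refine ⟨⟨a, ha⟩, ?_⟩
    have : π b = 0 := hrK hb
    simp [this]
  have hlt : Module.length A P' < Module.length A P := Submodule.length_lt hP'
  refine hmin (Module.length A P') ⟨P', inferInstance, inferInstance, hfin, hproj,
    π ∘ₗ P'.subtype, hsurj, rfl⟩ ?_
  rw [← hlen]
  exact hlt

end cover

end Run7.h234
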