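import Mathlib

/-!
The convolution ring: basic tools.
-/

set_option autoImplicit false
set_option linter.unusedVariables false
set_option linter.unusedSectionVars false

universe u

open TensorProduct Coalgebra WithConv

namespace Run7.h234

section cv

variable {k : Type u} [Field k] {C : Type u} [AddCommGroup C] [Module k C] [Coalgebra k C]
variable {R R' : Type u} [Ring R] [Algebra k R] [Ring R'] [Algebra k R']

variable (k C R) in
/-- The convolution ring. -/
abbrev Cv : Type u := WithConv (C →ₗ[k] R)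

/-- A linear map as an element of the convolution ring. -/
abbrev cv (f : C →ₗ[k] R) : Cv k C R := toConv f

theorem cv_ext {f g : Cv k C R} (h : ∀ c, f c = g c) : f = g := by
  ext c
  exact h c

theorem cv_inj {f g : C →ₗ[k] R} (h : cv f = cv g) : f = g := toConv_injective h

theorem cv_apply (f : C →ₗ[k] R) (c : C) : (cv f) c = f c := rfl

theorem mul_apply_repr (f g : Cv k C R) (c : C) :
    (f * g) c = ∑ i ∈ (ℛ k c).index, f ((ℛ k c).left i) * g ((ℛ k c).right i) :=
  (ℛ k c).convMul_apply f g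

variable (C) in
/-- The constant with value `r`. -/
noncomputable def cst (r : R) : Cv k C R := cv ((LinearMap.toSpanSingleton k R r) ∘ₗ counit)

theorem cst_apply (r : R) (c : C) : (cst C r : Cv k C R) c = counit (R := k) c • r := rfl

theorem cst_mul_apply (r : R) (f : Cv k C R) (c : C) : ((cst C r : Cv k C R) * f) c = r * f c := by
  rw [mul_apply_repr]
  simp only [cst_apply]
  have h : ∑ i ∈ (ℛ k c).index, counit (R := k) ((ℛ k c).left i) • (ℛ k c).right i = c :=
    Coalgebra.sum_counit_smul (ℛ k c)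
  have h2 : r * f (∑ i ∈ (ℛ k c).index, counit (R := k) ((ℛ k c).left i) • (ℛ k c).right i) =
      r * f c := congrArg (fun z => r * f z) h
  rw [← h2]
  have h3 : f (∑ i ∈ (ℛ k c).index, counit (R := k) ((ℛ k c).left i) • (ℛ k c).right i) =
      ∑ i ∈ (ℛ k c).index, counit (R := k) ((ℛ k c).left i) • f ((ℛ k c).right i) := by
    change f.ofConv _ = _
    rw [map_sum]
    refine Finset.sum_congr rfl fun i _ => ?_
    rw [map_smul]
  rw [h3, Finset.mul_sum]
  refine Finset.sum_congr rfl fun i _ => ?_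
  rw [smul_mul_assoc, mul_smul_comm]

theorem sum_smul_counit (c : C) :
    ∑ i ∈ (ℛ k c).index, counit (R := k) ((ℛ k c).right i) • (ℛ k c).left i = c := by
  have := Coalgebra.sum_tmul_counit_eq (ℛ k c)
  have h2 := congrArg (TensorProduct.rid k C) this
  rw [map_sum] at h2
  simpa using h2

theorem mul_cst_apply (f : Cv k C R) (r : R) (c : C) : (f * (cst C r : Cv k C R)) c = f c * r := by
  rw [mul_apply_repr]
  simp only [cst_apply]
  have h := sum_smul_counit (k := k) c
  have h2 : f (∑ i ∈ (ℛ k c).index, counit (R := k) ((ℛ k c).right i) • (ℛ k c).left i) * r =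
      f c * r := congrArg (fun z => f z * r) h
  rw [← h2]
  have h3 : f (∑ i ∈ (ℛ k c).index, counit (R := k) ((ℛ k c).right i) • (ℛ k c).left i) =
      ∑ i ∈ (ℛ k c).index, counit (R := k) ((ℛ k c).right i) • f ((ℛ k c).left i) := by
    change f.ofConv _ = _
    rw [map_sum]
    refine Finset.sum_congr rfl fun i _ => ?_
    rw [map_smul]
  rw [h3, Finset.sum_mul]
  refine Finset.sum_congr rfl fun i _ => ?_
  rw [smul_mul_assoc, mul_smul_comm]

theorem cst_mul_cst (r s : R) : (cst C r : Cv k C R) * cst C s = cst C (r * s) := by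
  apply cv_ext
  intro c
  rw [cst_mul_apply, cst_apply, cst_apply, mul_smul_comm]

theorem cst_one : (cst C (1 : R) : Cv k C R) = 1 := by
  apply cv_ext
  intro c
  rw [cst_apply, LinearMap.convOne_apply, Algebra.algebraMap_eq_smul_one]

theorem one_cv_apply (c : C) : (1 : Cv k C R) c = counit (R := k) c • (1 : R) := by
  rw [LinearMap.convOne_apply, Algebra.algebraMap_eq_smul_one]

/-- Postcomposition with an algebra map. -/
noncomputable def pst (φ : R →ₐ[k] R') : Cv k C R →+* Cv k C R' where
  toFun f := cv (φ.toLinearMap ∘ₗ f.ofConv)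
  map_one' := by
    apply cv_ext
    intro c
    change φ ((1 : Cv k C R) c) = _
    rw [one_cv_apply, one_cv_apply, map_smul, map_one]
  map_mul' f g := by
    have := LinearMap.algHom_comp_convMul_distrib φ f g
    apply cv_ext
    intro c
    exact LinearMap.congr_fun this c
  map_zero' := by
    apply cv_ext
    intro c
    exact map_zero φ
  map_add' f g := by
    apply cv_ext
    intro c
    exact map_add φ _ _

theorem pst_apply (φ : R →ₐ[k] R') (f : Cv k C R) (c : C) : pst φ f c = φ (f c) := rfl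

theorem pst_cv (φ : R →ₐ[k] R') (f : C →ₗ[k] R) : pst φ (cv f) = cv (φ.toLinearMap ∘ₗ f) := rfl

theorem pst_cst (φ : R →ₐ[k] R') (r : R) : pst φ (cst C r : Cv k C R) = cst C (φ r) := by
  apply cv_ext
  intro c
  rw [pst_apply, cst_apply, cst_apply, map_smul]

/-- A functional as an element of the convolution ring. -/
noncomputable def sc (v : C →ₗ[k] k) : Cv k C R := cv (Algebra.linearMap k R ∘ₗ v)

theorem sc_apply (v : C →ₗ[k] k) (c : C) : (sc v : Cv k C R) c = v c • (1 : R) := by
  change algebraMap k R (v c) = _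
  rw [Algebra.algebraMap_eq_smul_one]

theorem pst_sc (φ : R →ₐ[k] R') (v : C →ₗ[k] k) : pst φ (sc v : Cv k C R) = sc v := by
  apply cv_ext
  intro c
  rw [pst_apply, sc_apply, sc_apply, map_smul, map_one]

/-- The map `c ↦ c₁ v(c₂)`. -/
noncomputable def rv (v : C →ₗ[k] k) : C →ₗ[k] C :=
  (TensorProduct.rid k C).toLinearMap ∘ₗ LinearMap.lTensor C v ∘ₗ comul

/-- The map `c ↦ v(c₁) c₂`. -/
noncomputable def lv (v : C →ₗ[k] k) : C →ₗ[k] C :=
  (TensorProduct.lid k C).toLinearMap ∘ₗ LinearMap.rTensor C v ∘ₗ comul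

theorem rv_repr (v : C →ₗ[k] k) (c : C) :
    rv v c = ∑ i ∈ (ℛ k c).index, v ((ℛ k c).right i) • (ℛ k c).left i := by
  have h : comul (R := k) c = ∑ i ∈ (ℛ k c).index, (ℛ k c).left i ⊗ₜ[k] (ℛ k c).right i :=
    (ℛ k c).eq.symm
  change (TensorProduct.rid k C) (LinearMap.lTensor C v (comul c)) = _
  rw [h, map_sum, map_sum]
  simp

theorem lv_repr (v : C →ₗ[k] k) (c : C) :
    lv v c = ∑ i ∈ (ℛ k c).index, v ((ℛ k c).left i) • (ℛ k c).right i := by
  have h : comul (R := k) c = ∑ i ∈ (ℛ k c).index, (ℛ k c).left i ⊗ₜ[k] (ℛ k c).right i :=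
    (ℛ k c).eq.symm
  change (TensorProduct.lid k C) (LinearMap.rTensor C v (comul c)) = _
  rw [h, map_sum, map_sum]
  simp

theorem mul_sc (f : C →ₗ[k] R) (v : C →ₗ[k] k) : cv f * sc v = cv (f ∘ₗ rv v) := by
  apply cv_ext
  intro c
  rw [mul_apply_repr, cv_apply, LinearMap.comp_apply, rv_repr, map_sum]
  refine Finset.sum_congr rfl fun i _ => ?_
  rw [sc_apply, cv_apply, mul_smul_comm, mul_one, map_smul]

theorem sc_mul (f : C →ₗ[k] R) (v : C →ₗ[k] k) : sc v * cv f = cv (f ∘ₗ lv v) := by
  apply cv_ext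
  intro c
  rw [mul_apply_repr, cv_apply, LinearMap.comp_apply, lv_repr, map_sum]
  refine Finset.sum_congr rfl fun i _ => ?_
  rw [sc_apply, cv_apply, smul_mul_assoc, one_mul, map_smul]

/-- The product of maps into the two factors of a tensor product. -/
theorem j_mul (f : C →ₗ[k] R) (g : C →ₗ[k] R') :
    cv ((Algebra.TensorProduct.includeLeft (R := k) (S := k) (A := R) (B := R')).toLinearMap ∘ₗ f) *
      cv ((Algebra.TensorProduct.includeRight (R := k) (A := R) (B := R')).toLinearMap ∘ₗ g) =
      cv (TensorProduct.map f g ∘ₗ comul) := by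
  apply cv_ext
  intro c
  rw [mul_apply_repr, cv_apply, LinearMap.comp_apply]
  conv_rhs => rw [← (ℛ k c).eq, map_sum]
  refine Finset.sum_congr rfl fun i _ => ?_
  change ((f _) ⊗ₜ[k] (1 : R')) * ((1 : R) ⊗ₜ[k] (g _)) = _
  rw [Algebra.TensorProduct.tmul_mul_tmul, mul_one, one_mul, TensorProduct.map_tmul]

end cv

section pre

variable {k : Type u} [Field k] {C C' : Type u} [AddCommGroup C] [Module k C] [Coalgebra k C]
  [AddCommGroup C'] [Module k C'] [Coalgebra k C']
variable {R : Type u} [Ring R] [Algebra k R]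

/-- Precomposition with a coalgebra map. -/
noncomputable def prc (φ : C' →ₗc[k] C) : Cv k C R →+* Cv k C' R where
  toFun f := cv (f.ofConv ∘ₗ φ.toLinearMap)
  map_one' := by
    apply cv_ext
    intro c
    change ((1 : Cv k C R)) (φ c) = _
    rw [one_cv_apply, one_cv_apply]
    congr 1
    exact LinearMap.congr_fun φ.counit_comp c
  map_mul' f g := by
    have := LinearMap.convMul_comp_coalgHom_distrib f g φ
    apply cv_ext
    intro c
    exact LinearMap.congr_fun this c
  map_zero' := rfl
  map_add' f g := rfl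

theorem prc_apply (φ : C' →ₗc[k] C) (f : Cv k C R) (c : C') : prc φ f c = f (φ c) := rfl

theorem prc_cst (φ : C' →ₗc[k] C) (r : R) : prc φ (cst C r : Cv k C R) = cst C' r := by
  apply cv_ext
  intro c
  rw [prc_apply, cst_apply, cst_apply]
  congr 1
  exact LinearMap.congr_fun φ.counit_comp c

end pre

section hopf

variable {k : Type u} [Field k] {H : Type u} [Ring H] [HopfAlgebra k H]
variable {R R' : Type u} [Ring R] [Algebra k R] [Ring R'] [Algebra k R']

/-- An algebra map as an element of the convolution ring. -/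
noncomputable abbrev ca (F : H →ₐ[k] R) : Cv k H R := cv F.toLinearMap

/-- The convolution inverse of an algebra map. -/
noncomputable abbrev cs (F : H →ₐ[k] R) : Cv k H R :=
  cv (F.toLinearMap ∘ₗ HopfAlgebra.antipode k)

theorem ca_mul_cs (F : H →ₐ[k] R) : ca F * cs F = 1 := by
  have h := congrArg (pst F) (LinearMap.id_mul_antipode (R := k) (C := H))
  rw [map_mul, map_one] at h
  exact h

theorem cs_mul_ca (F : H →ₐ[k] R) : cs F * ca F = 1 := by
  have h := congrArg (pst F) (LinearMap.antipode_mul_id (R := k) (C := H))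
  rw [map_mul, map_one] at h
  exact h

theorem pst_ca (φ : R →ₐ[k] R') (F : H →ₐ[k] R) : pst φ (ca F) = ca (φ.comp F) := rfl

theorem pst_cs (φ : R →ₐ[k] R') (F : H →ₐ[k] R) : pst φ (cs F) = cs (φ.comp F) := rfl

/-- The left inclusion. -/
noncomputable abbrev jl (F : H →ₐ[k] R) : H →ₐ[k] R ⊗[k] R' :=
  (Algebra.TensorProduct.includeLeft (R := k) (S := k) (A := R) (B := R')).comp F

/-- The right inclusion. -/
noncomputable abbrev jr (F : H →ₐ[k] R') : H →ₐ[k] R ⊗[k] R' :=
  (Algebra.TensorProduct.includeRight (R := k) (A := R) (B := R')).comp F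

/-- The algebra map `h ↦ F(h₁) ⊗ G(h₂)`. -/
noncomputable def dl (F : H →ₐ[k] R) (G : H →ₐ[k] R') : H →ₐ[k] R ⊗[k] R' :=
  (Algebra.TensorProduct.map F G).comp (Bialgebra.comulAlgHom k H)

theorem jl_mul_jr (F : H →ₐ[k] R) (G : H →ₐ[k] R') : ca (jl F) * ca (jr G) = ca (dl F G) :=
  j_mul F.toLinearMap G.toLinearMap

theorem cs_dl (F : H →ₐ[k] R) (G : H →ₐ[k] R') : cs (dl F G) = cs (jr G) * cs (jl F) := by
  have h1 := cs_mul_ca (dl F G)
  rw [← jl_mul_jr] at h1
  calc cs (dl F G) = cs (dl F G) * (ca (jl F) * (ca (jr G) * cs (jr G)) * cs (jl F)) := by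
        rw [ca_mul_cs, mul_one, ca_mul_cs, mul_one]
    _ = (cs (dl F G) * (ca (jl F) * ca (jr G))) * (cs (jr G) * cs (jl F)) := by
        simp only [mul_assoc]
    _ = _ := by rw [h1, one_mul]

/-- An algebra map composed with its antipode is determined by inverses. -/
theorem cs_eq_of_mul {F : H →ₐ[k] R} {x : Cv k H R} (h : ca F * x = 1) : cs F = x := by
  calc cs F = cs F * (ca F * x) := by rw [h, mul_one]
    _ = x := by rw [← mul_assoc, cs_mul_ca, one_mul]

end hopf

end Run7.h234
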