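import Pool.Agent.Run7.h234.ExtT

/-!
Maps of total Ext groups induced by exact functors.
-/

set_option autoImplicit false

universe w w' w'' v v' v'' u u' u''

open CategoryTheory CategoryTheory.Limits CategoryTheory.Abelian

namespace Run7.h234

section ecl

variable {C : Type u} [Category.{v} C] [Abelian C] [HasExt.{w} C]

/-- The class of a short exact sequence in the total Ext group. -/
noncomputable def ecl {S : ShortComplex C} (hS : S.ShortExact) : TExt S.X₃ S.X₁ :=
  hof 1 hS.extClass

theorem ecl_nat {S₁ S₂ : ShortComplex C} (h₁ : S₁.ShortExact) (h₂ : S₂.ShortExact)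
    (f : S₁ ⟶ S₂) : cmp (ecl h₁) (hmk f.τ₁) = cmp (hmk f.τ₃) (ecl h₂) := by
  unfold ecl
  rw [cmp_hof_hmk, cmp_hmk_hof, ShortComplex.ShortExact.extClass_naturality h₁ h₂ f]

theorem hmk_cmp_ecl {S : ShortComplex C} (h : S.ShortExact) : cmp (hmk S.g) (ecl h) = 0 := by
  unfold ecl
  rw [cmp_hmk_hof, ShortComplex.ShortExact.comp_extClass, map_zero]

theorem ecl_cmp_hmk {S : ShortComplex C} (h : S.ShortExact) : cmp (ecl h) (hmk S.f) = 0 := by
  unfold ecl
  rw [cmp_hof_hmk, ShortComplex.ShortExact.extClass_comp, map_zero]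

theorem cmp_ecl_hof {S : ShortComplex C} (hS : S.ShortExact) {Y : C} {n : ℕ}
    (x : Ext.{w} S.X₁ Y n) :
    cmp (ecl hS) (hof n x) = hof (n + 1) (hS.extClass.comp x (add_comm 1 n)) :=
  cmp_hof' _ _ _

end ecl

section ind

variable {C : Type u} [Category.{v} C] [Abelian C] [HasExt.{w} C] [EnoughProjectives C]

/-- Induction for Ext classes. -/
theorem ext_ind {p : ∀ (n : ℕ) (X Y : C), Ext.{w} X Y n → Prop}
    (h0 : ∀ (X Y : C) (f : X ⟶ Y), p 0 X Y (Ext.mk₀ f))
    (h1 : ∀ (n : ℕ) (S : ShortComplex C) (hS : S.ShortExact) (Y : C) (x : Ext.{w} S.X₁ Y n),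
      p n S.X₁ Y x → p (n + 1) S.X₃ Y (hS.extClass.comp x (add_comm 1 n))) :
    ∀ (n : ℕ) (X Y : C) (x : Ext.{w} X Y n), p n X Y x := by
  intro n
  induction n with
  | zero =>
    intro X Y x
    obtain ⟨f, rfl⟩ := (Ext.mk₀_bijective _ _).2 x
    exact h0 X Y f
  | succ n ih =>
    intro X Y x
    let S := ShortComplex.mk _ _ (kernel.condition (Projective.π X))
    have hS : S.ShortExact :=
      { exact := ShortComplex.exact_of_f_is_kernel _ (kernelIsKernel S.g) }
    obtain ⟨x', hx'⟩ := Ext.contravariant_sequence_exact₃ hS Y x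
      (Ext.eq_zero_of_projective _) (add_comm 1 n)
    have := h1 n S hS Y x' (ih _ _ x')
    rw [hx'] at this
    exact this

end ind

section map

variable {C : Type u} [Category.{v} C] [Abelian C] [HasExt.{w} C]
variable {D : Type u'} [Category.{v'} D] [Abelian D] [HasExt.{w'} D]
variable {E : Type u''} [Category.{v''} E] [Abelian E] [HasExt.{w''} E]
variable {X Y Z : C}

/-- The map of total Ext groups. -/
noncomputable def mapT (F : C ⥤ D) [F.Additive] [PreservesFiniteLimits F]
    [PreservesFiniteColimits F] : TExt X Y →+ TExt (F.obj X) (F.obj Y) :=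
  DirectSum.map fun n => F.mapExtAddHom X Y n

variable (F : C ⥤ D) [F.Additive] [PreservesFiniteLimits F] [PreservesFiniteColimits F]

theorem mapT_hof (n : ℕ) (a : Ext.{w} X Y n) :
    mapT F (hof n a) = hof n (a.mapExactFunctor F) := by
  unfold mapT hof
  rw [DirectSum.map_of]; rfl

theorem mapT_cmp (a : TExt X Y) (b : TExt Y Z) :
    mapT F (cmp a b) = cmp (mapT F a) (mapT F b) := by
  induction a using TExt.ind with
  | h0 => simp
  | h2 a a' ha ha' => simp only [map_add, AddMonoidHom.add_apply, ha, ha']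
  | h1 i a =>
    induction b using TExt.ind with
    | h0 => simp
    | h2 b b' hb hb' => simp only [map_add, hb, hb']
    | h1 j b =>
      rw [cmp_hof, mapT_hof, mapT_hof, mapT_hof, cmp_hof, Ext.mapExactFunctor_comp]

theorem mapT_hmk (f : X ⟶ Y) : mapT F (hmk f) = hmk (F.map f) := by
  rw [hmk_apply, mapT_hof, Ext.mapExactFunctor_mk₀]; rfl

theorem mapT_smul {k : Type*} [CommRing k] [Linear k C] [Linear k D] [F.Linear k]
    (c : k) (a : TExt X Y) : mapT F (c • a) = c • mapT F a := by
  induction a using TExt.ind with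
  | h0 => simp
  | h2 b b' hb hb' => simp only [smul_add, map_add, hb, hb']
  | h1 j b => rw [← hof_smul, mapT_hof, mapT_hof, ← hof_smul, Functor.mapExactFunctor_smul]

theorem mapT_ecl {S : ShortComplex C} (hS : S.ShortExact) :
    mapT F (ecl hS) = (ecl (hS.map_of_exact F) : TExt (F.obj S.X₃) (F.obj S.X₁)) := by
  refine (mapT_hof F 1 _).trans ?_
  exact congrArg (hof 1) (Ext.mapExactFunctor_extClass F hS)

variable [EnoughProjectives C]

theorem natExt (G : C ⥤ D) [G.Additive] [PreservesFiniteLimits G] [PreservesFiniteColimits G]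
    (τ : F ⟶ G) (x : TExt X Y) :
    cmp (mapT F x) (hmk (τ.app Y)) = cmp (hmk (τ.app X)) (mapT G x) := by
  induction x using TExt.ind with
  | h0 => simp
  | h2 b b' hb hb' => simp only [map_add, AddMonoidHom.add_apply, hb, hb']
  | h1 n x =>
    revert X Y x
    have key := ext_ind (C := C) (p := fun n X Y x =>
      cmp (mapT F (hof n x)) (hmk (τ.app Y)) = cmp (hmk (τ.app X)) (mapT G (hof n x))) ?_ ?_ n
    · intro X Y x
      exact key X Y x
    · intro X Y f
      change cmp (mapT F (hmk f)) _ = cmp _ (mapT G (hmk f))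
      rw [mapT_hmk, mapT_hmk, cmp_hmk_hmk, cmp_hmk_hmk, τ.naturality]
    · intro n S hS Y x ih
      rw [← cmp_ecl_hof, mapT_cmp, mapT_cmp, cmp_assoc, ih, ← cmp_assoc,
        ← cmp_assoc]
      congr 2
      rw [mapT_ecl, mapT_ecl]
      exact ecl_nat (hS.map_of_exact F) (hS.map_of_exact G) (S.mapNatTrans τ)

theorem mapT_comp (G : D ⥤ E) [G.Additive] [PreservesFiniteLimits G] [PreservesFiniteColimits G]
    (x : TExt X Y) :
    mapT (F ⋙ G) x = mapT G (mapT F x) := by
  induction x using TExt.ind with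
  | h0 => simp
  | h2 b b' hb hb' => simp only [map_add, hb, hb']
  | h1 n x =>
    revert X Y x
    have key := ext_ind (C := C) (p := fun n X Y x =>
      mapT (F ⋙ G) (hof n x) = mapT G (mapT F (hof n x))) ?_ ?_ n
    · intro X Y x
      exact key X Y x
    · intro X Y f
      change mapT (F ⋙ G) (hmk f) = mapT G (mapT F (hmk f))
      rw [mapT_hmk, mapT_hmk, mapT_hmk]; rfl
    · intro n S hS Y x ih
      rw [← cmp_ecl_hof, mapT_cmp, mapT_cmp, mapT_cmp, ih]
      congr 2
      rw [mapT_ecl, mapT_ecl]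
      exact (mapT_ecl G (hS.map_of_exact F)).symm

end map

end Run7.h234
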