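import Pool.Agent.Run7.h234.ExtF
import Pool.Agent.Run7.h234.Alg

/-!
Finite generation of total Ext groups: transfer along functors.
-/

set_option autoImplicit false

universe w w' w'' v v' v'' u u' u''

open CategoryTheory CategoryTheory.Limits CategoryTheory.Abelian

namespace Run7.h234

section basic

variable {C : Type u} [Category.{v} C] [Abelian C] [HasExt.{w} C] [EnoughProjectives C]

theorem mapT_id {X Y : C} (x : TExt X Y) : mapT (𝟭 C) x = x := by
  induction x using TExt.ind with
  | h0 => simp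
  | h2 b b' hb hb' =>
    rw [map_add, hb, hb']
  | h1 n x =>
    revert X Y x
    have key := ext_ind (C := C) (p := fun n X Y x =>
      mapT (𝟭 C) (hof n x) = hof n x) ?_ ?_ n
    · intro X Y x
      exact key X Y x
    · intro X Y f
      change mapT (𝟭 C) (hmk f) = hmk f
      rw [mapT_hmk]; rfl
    · intro n S hS Y x ih
      rw [← cmp_ecl_hof, mapT_cmp, ih]
      congr 2
      rw [mapT_ecl]
      rfl

end basic

section FG

variable (k : Type*) [CommRing k]
variable {C : Type u} [Category.{v} C] [Abelian C] [HasExt.{w} C] [Linear k C]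

/-- Finite generation of the Ext algebra of `X` and of the Ext modules over it. -/
def FG (P : C → Prop) (X : C) : Prop :=
  Algebra.FiniteType k (TExt X X) ∧ ∀ M : C, P M → Module.Finite (TExt X X) (TExt X M)

end FG

section Sh

variable {k : Type*} [CommRing k]
variable {C : Type u} [Category.{v} C] [Abelian C] [HasExt.{w} C] [Linear k C]
variable {D : Type u'} [Category.{v'} D] [Abelian D] [HasExt.{w'} D] [Linear k D]

/-- The algebra map on Ext algebras induced by an exact linear functor. -/
noncomputable def mapA (F : D ⥤ C) [F.Additive] [PreservesFiniteLimits F]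
    [PreservesFiniteColimits F] [F.Linear k] (X : D) :
    TExt X X →ₐ[k] TExt (F.obj X) (F.obj X) :=
  { mapT F with
    map_one' := by
      change mapT F (hmk (𝟙 X)) = hmk (𝟙 _)
      rw [mapT_hmk, F.map_id]
    map_mul' := fun a b => mapT_cmp F a b
    commutes' := fun c => by
      change mapT F _ = _
      rw [algebraMap_T, algebraMap_T, mapT_smul, mapT_hmk, F.map_id] }

theorem mapA_apply (F : D ⥤ C) [F.Additive] [PreservesFiniteLimits F]
    [PreservesFiniteColimits F] [F.Linear k] (X : D) (x : TExt X X) :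
    mapA (k := k) F X x = mapT F x := rfl

variable [EnoughProjectives C] [EnoughProjectives D]

theorem counit_surj {F : D ⥤ C} {G : C ⥤ D} (adj : F ⊣ G) [F.Additive]
    [PreservesFiniteLimits F] [PreservesFiniteColimits F] [G.Additive]
    [PreservesFiniteLimits G] [PreservesFiniteColimits G] (X : D) {M : C}
    (y : TExt (F.obj X) M) :
    cmp (mapT F (cmp (hmk (adj.unit.app X)) (mapT G y))) (hmk (adj.counit.app M)) = y := by
  rw [mapT_cmp, mapT_hmk, cmp_assoc]
  have h := natExt (G ⋙ F) (𝟭 C) adj.counit y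
  rw [mapT_comp] at h
  rw [mapT_id] at h
  have h' : cmp (mapT F (mapT G y)) (hmk (adj.counit.app M)) =
    cmp (hmk (adj.counit.app (F.obj X))) y := h
  rw [h', ← cmp_assoc, cmp_hmk_hmk]
  have h2 : F.map (adj.unit.app X) ≫ adj.counit.app (F.obj X) = 𝟙 (F.obj X) := by simp
  have h3 := congrArg (fun f => cmp (hmk f) y) h2
  exact h3.trans (hmk_id_cmp y)

/-- Finite generation descends along a right adjoint that is exact. -/
theorem FG.shapiro {F : D ⥤ C} {G : C ⥤ D} (adj : F ⊣ G) [F.Additive]
    [PreservesFiniteLimits F] [PreservesFiniteColimits F] [F.Linear k] [G.Additive]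
    [PreservesFiniteLimits G] [PreservesFiniteColimits G] (P : C → Prop) (Q : D → Prop)
    (hG : ∀ M, P M → Q (G.obj M)) (X : D) (hX : P (F.obj X)) (h : FG k Q X) :
    FG k P (F.obj X) := by
  have hg : ∀ M : C, ∃ g : TExt X (G.obj M) →+ TExt (F.obj X) M, Function.Surjective g ∧
      ∀ (x : TExt X X) (v : TExt X (G.obj M)), g (x • v) = mapT F x • g v := by
    intro M
    refine ⟨AddMonoidHom.comp (AddMonoidHom.flip cmp (hmk (adj.counit.app M))) (mapT F), ?_, ?_⟩
    · intro y
      exact ⟨cmp (hmk (adj.unit.app X)) (mapT G y), counit_surj adj X y⟩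
    · intro x v
      change cmp (mapT F (cmp x v)) _ = cmp (mapT F x) (cmp (mapT F v) _)
      rw [mapT_cmp, cmp_assoc]
  constructor
  · obtain ⟨g, hg1, hg2⟩ := hg (F.obj X)
    have := h.2 _ (hG _ hX)
    have := h.1
    exact finiteType_of_surj (mapA F X) g hg1 hg2
  · intro M hM
    obtain ⟨g, hg1, hg2⟩ := hg M
    have := h.2 _ (hG _ hM)
    exact finite_of_surj _ g hg1 hg2

/-- Transfer of the Noetherian property along a split exact functor. -/
theorem noeth_split {F : D ⥤ C} {G : C ⥤ D} [F.Additive]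
    [PreservesFiniteLimits F] [PreservesFiniteColimits F] [G.Additive]
    [PreservesFiniteLimits G] [PreservesFiniteColimits G] (σ : F ⋙ G ⟶ 𝟭 D) (X : D)
    (η : X ⟶ G.obj (F.obj X)) (hη : η ≫ σ.app X = 𝟙 X) (M : D)
    [IsNoetherian (TExt (F.obj X) (F.obj X)) (TExt (F.obj X) (F.obj M))] :
    IsNoetherian (TExt X X) (TExt X M) := by
  have key : ∀ (N : D) (w : TExt X N),
      cmp (mapT G (mapT F w)) (hmk (σ.app N)) = cmp (hmk (σ.app X)) w := by
    intro N w
    have h := natExt (F ⋙ G) (𝟭 D) σ w
    rw [mapT_comp, mapT_id] at h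
    exact h
  let RN : TExt (F.obj X) (F.obj M) →+ TExt X M := AddMonoidHom.comp (cmp (hmk η))
    (AddMonoidHom.comp (AddMonoidHom.flip cmp (hmk (σ.app M))) (mapT G))
  let Rk : TExt (F.obj X) (F.obj X) → TExt X X := fun x =>
    cmp (hmk η) (cmp (mapT G x) (hmk (σ.app X)))
  have h1 : ∀ (x : TExt (F.obj X) (F.obj X)) (w : TExt X M), RN (x • mapT F w) = Rk x • w := by
    intro x w
    have e1 : RN (x • mapT F w) =
      cmp (hmk η) (cmp (mapT G (cmp x (mapT F w))) (hmk (σ.app M))) := rfl
    have e2 : Rk x • w = cmp (cmp (hmk η) (cmp (mapT G x) (hmk (σ.app X)))) w := rfl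
    rw [e1, e2, mapT_cmp, cmp_assoc, cmp_assoc, cmp_assoc, key]
  have h2 : Rk 1 = 1 := by
    have e1 : Rk 1 = cmp (hmk η) (cmp (mapT G (hmk (𝟙 _))) (hmk (σ.app X))) := rfl
    rw [e1, mapT_hmk, G.map_id, hmk_id_cmp, one_def, ← hη]
    exact cmp_hmk_hmk _ _
  exact noeth_transfer (fun w : TExt X M => mapT F w) Rk RN h1 h2

end Sh

end Run7.h234
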