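import Pool.Agent.Run7.h234.ExtG

/-!
Finiteness properties of Ext algebras.
-/

set_option autoImplicit false

universe w w' w'' v v' v'' u u' u''

open CategoryTheory CategoryTheory.Limits CategoryTheory.Abelian

namespace Run7.h234

section basic

variable {C : Type u} [Category.{v} C] [Abelian C] [HasExt.{w} C]

theorem TExt.sum_rep {X Y : C} (g : TExt X Y) :
    ∃ s : Finset ℕ, g = ∑ n ∈ s, hof n (g n) := by
  classical
  exact ⟨DFinsupp.support g, (DirectSum.sum_support_of g).symm⟩

theorem hof_apply_same {X Y : C} (n : ℕ) (a : Ext.{w} X Y n) : (hof n a) n = a :=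
  DirectSum.of_eq_same n a

theorem hof_apply_ne {X Y : C} (n m : ℕ) (h : m ≠ n) (a : Ext.{w} X Y n) :
    (hof n a) m = 0 :=
  DirectSum.of_eq_of_ne _ _ _ h

variable {k : Type*} [Field k] [Linear k C]

theorem noeth_of_gc (X : C) (hgc : ∀ (i j : ℕ) (x : Ext.{w} X X i) (y : Ext.{w} X X j),
    SComm (hof i x) (hof j y)) (h : Algebra.FiniteType k (TExt X X)) :
    IsNoetherianRing (TExt X X) := by
  classical
  obtain ⟨t, ht⟩ := h.out
  choose s hs using fun g : TExt X X => TExt.sum_rep g
  let T : Finset (TExt X X) := t.biUnion fun g => (s g).image fun n => hof n (g n)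
  refine noeth_of_scomm (k := k) T.toList ?_ ?_
  · intro a ha b hb
    simp only [Finset.mem_toList, T, Finset.mem_biUnion, Finset.mem_image] at ha hb
    obtain ⟨g, _, n, _, rfl⟩ := ha
    obtain ⟨g', _, n', _, rfl⟩ := hb
    exact hgc _ _ _ _
  · rw [eq_top_iff, ← ht]
    refine Algebra.adjoin_le ?_
    intro g hg
    rw [SetLike.mem_coe, hs g]
    refine sum_mem fun n hn => Algebra.subset_adjoin ?_
    simp only [Finset.mem_toList, T, Finset.mem_biUnion, Finset.mem_image, Set.mem_ofPred_eq]
    exact ⟨g, hg, n, hn, rfl⟩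

/-- A connected Noetherian Ext algebra is finitely generated. -/
theorem finiteType_of_noeth (X : C) (hX : ∀ f : X ⟶ X, ∃ c : k, f = c • 𝟙 X)
    (h : IsNoetherianRing (TExt X X)) : Algebra.FiniteType k (TExt X X) := by
  classical
  let G : Set (TExt X X) := {a | ∃ (n : ℕ) (x : Ext.{w} X X (n + 1)), a = hof (n + 1) x}
  have hfg : (Submodule.span (TExt X X) G).FG := IsNoetherian.noetherian _
  rw [Submodule.fg_span_iff_fg_span_finset_subset] at hfg
  obtain ⟨s, hsG, hspan⟩ := hfg
  refine ⟨⟨s, ?_⟩⟩
  have key : ∀ n : ℕ, ∀ x : Ext.{w} X X n, hof n x ∈ Algebra.adjoin k (s : Set (TExt X X)) := by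
    intro n
    induction n using Nat.strong_induction_on with
    | _ n ih =>
      intro x
      rcases n with _ | n
      · obtain ⟨f, rfl⟩ := (Ext.mk₀_bijective _ _).2 x
        obtain ⟨c, rfl⟩ := hX f
        have : hof 0 (Ext.mk₀ (c • 𝟙 X)) = algebraMap k (TExt X X) c := by
          rw [algebraMap_T, hmk_apply, ← hof_smul, Ext.mk₀_smul]
        rw [this]
        exact Subalgebra.algebraMap_mem _ _
      · have hmem : hof (n + 1) x ∈ Submodule.span (TExt X X) (s : Set (TExt X X)) := by
          rw [← hspan]
          exact Submodule.subset_span ⟨n, x, rfl⟩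
        let pr : TExt X X →+ TExt X X :=
          (hof (n + 1)).comp (DFinsupp.evalAddMonoidHom (n + 1))
        have hpr : ∀ v, pr v = hof (n + 1) (v (n + 1)) := fun v => rfl
        have hcomp : ∀ v ∈ Submodule.span (TExt X X) (s : Set (TExt X X)),
            ∀ a : TExt X X, pr (a • v) ∈ Algebra.adjoin k (s : Set (TExt X X)) := by
          intro v hv
          induction hv using Submodule.span_induction with
          | zero => intro a; rw [smul_zero, map_zero]; exact zero_mem _
          | add p q _ _ hp hq =>
            intro a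
            rw [smul_add, map_add]
            exact add_mem (hp a) (hq a)
          | smul c v _ hv =>
            intro a
            rw [smul_smul]
            exact hv _
          | mem v hv =>
            obtain ⟨m, y, rfl⟩ := hsG hv
            intro a
            induction a using TExt.ind with
            | h0 => rw [zero_smul, map_zero]; exact zero_mem _
            | h2 p q hp hq =>
              rw [add_smul, map_add]
              exact add_mem hp hq
            | h1 i b =>
              rw [smul_def, cmp_hof]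
              by_cases hi : i + (m + 1) = n + 1
              · have e1 : pr (hof (i + (m + 1)) (b.comp y rfl)) = hof i b * hof (m + 1) y := by
                  rw [mul_def, ← cmp_hof, cmp_hof' b y hi, hpr, hof_apply_same]
                rw [e1]
                exact mul_mem (ih i (by omega) b) (Algebra.subset_adjoin hv)
              · rw [hpr, hof_apply_ne _ _ (Ne.symm hi), map_zero]
                exact zero_mem _
        have := hcomp _ hmem 1
        rwa [one_smul, hpr, hof_apply_same] at this
  rw [eq_top_iff]
  rintro g -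
  obtain ⟨t, ht⟩ := TExt.sum_rep g
  rw [ht]
  exact sum_mem fun n _ => key n _

end basic

section exact

variable {C : Type u} [Category.{v} C] [Abelian C] [HasExt.{w} C]

/-- Composition with a fixed class on the right, as a linear map. -/
noncomputable def postL {X Y Z : C} (c : TExt Y Z) : TExt X Y →ₗ[TExt X X] TExt X Z where
  toFun a := cmp a c
  map_add' a b := by simp
  map_smul' a b := cmp_assoc a b c

theorem postL_apply {X Y Z : C} (c : TExt Y Z) (a : TExt X Y) : postL c a = cmp a c := rfl

theorem finite_of_ses {S : ShortComplex C} (hS : S.ShortExact) (X : C)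
    [IsNoetherianRing (TExt X X)] (h1 : Module.Finite (TExt X X) (TExt X S.X₁))
    (h3 : Module.Finite (TExt X X) (TExt X S.X₃)) :
    Module.Finite (TExt X X) (TExt X S.X₂) := by
  classical
  have h1' : IsNoetherian (TExt X X) (TExt X S.X₁) := inferInstance
  have h3' : IsNoetherian (TExt X X) (TExt X S.X₃) := inferInstance
  have hex : LinearMap.range (postL (X := X) (hmk S.f)) =
      LinearMap.ker (postL (X := X) (hmk S.g)) := by
    apply le_antisymm
    · rintro _ ⟨x, rfl⟩
      rw [LinearMap.mem_ker, postL_apply, postL_apply, cmp_assoc, cmp_hmk_hmk, S.zero, map_zero,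
        map_zero]
    · intro x hx
      rw [LinearMap.mem_ker, postL_apply] at hx
      have hcomp : ∀ (n : ℕ) (y : TExt X S.X₂), (cmp y (hmk S.g)) n =
          (y n).comp (Ext.mk₀ S.g) (add_zero n) := by
        intro n y
        induction y using TExt.ind with
        | h0 =>
          simp only [map_zero, AddMonoidHom.zero_apply]
          exact (Ext.zero_comp _ _ _ _ _).symm
        | h2 a b ha hb =>
          simp only [map_add, AddMonoidHom.add_apply, DirectSum.add_apply, ha, hb, Ext.add_comp]
        | h1 m a =>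
          rw [cmp_hof_hmk]
          by_cases hm : m = n
          · subst hm
            rw [hof_apply_same, hof_apply_same]
          · rw [hof_apply_ne _ _ (Ne.symm hm), hof_apply_ne _ _ (Ne.symm hm), Ext.zero_comp]
      have hn : ∀ n, ∃ z : Ext.{w} X S.X₁ n, z.comp (Ext.mk₀ S.f) (add_zero n) = x n := by
        intro n
        apply Ext.covariant_sequence_exact₂ X hS
        rw [← hcomp, hx]; rfl
      choose z hz using hn
      obtain ⟨s, hs⟩ := TExt.sum_rep x
      refine ⟨∑ n ∈ s, hof n (z n), ?_⟩
      rw [map_sum]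
      refine Eq.trans ?_ hs.symm
      refine Finset.sum_congr rfl fun n _ => ?_
      rw [postL_apply, cmp_hof_hmk, hz]
  have := isNoetherian_of_range_eq_ker (postL (X := X) (hmk S.f)) (postL (X := X) (hmk S.g)) hex
  infer_instance

theorem finite_of_iso {X M M' : C} (e : M ≅ M') (h : Module.Finite (TExt X X) (TExt X M)) :
    Module.Finite (TExt X X) (TExt X M') := by
  refine Module.Finite.of_surjective (postL (X := X) (hmk e.hom)) ?_
  intro y
  refine ⟨cmp y (hmk e.inv), ?_⟩
  rw [postL_apply, cmp_assoc, cmp_hmk_hmk, e.inv_hom_id, cmp_hmk_id]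

variable {k : Type*} [CommRing k] [Linear k C]

/-- Conjugation by an isomorphism. -/
noncomputable def conjA {X X' : C} (e : X ≅ X') : TExt X X →ₐ[k] TExt X' X' where
  toFun a := cmp (hmk e.inv) (cmp a (hmk e.hom))
  map_one' := by
    change cmp _ (cmp (hmk (𝟙 X)) _) = hmk (𝟙 X')
    rw [hmk_id_cmp, cmp_hmk_hmk, e.inv_hom_id]
  map_mul' a b := by
    change cmp _ (cmp (cmp a b) _) = cmp (cmp _ (cmp a _)) (cmp _ (cmp b _))
    rw [cmp_assoc, cmp_assoc, cmp_assoc, ← cmp_assoc (hmk e.hom), cmp_hmk_hmk, e.hom_inv_id,
      hmk_id_cmp]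
  map_zero' := by simp
  map_add' a b := by simp
  commutes' c := by
    rw [algebraMap_T, algebraMap_T, smul_cmp, cmp_smul, hmk_id_cmp, cmp_hmk_hmk, e.inv_hom_id]

theorem FG.of_iso (P : C → Prop) {X X' : C} (e : X ≅ X') (h : FG k P X) : FG k P X' := by
  have h1 := h.1
  constructor
  · refine finiteType_of_surj (R := TExt X X) (N := TExt X X) (conjA e)
      ((conjA (k := k) e).toLinearMap.toAddMonoidHom) ?_ ?_
    · intro y
      refine ⟨cmp (hmk e.hom) (cmp y (hmk e.inv)), ?_⟩
      change cmp (hmk e.inv) (cmp (cmp (hmk e.hom) (cmp y (hmk e.inv))) (hmk e.hom)) = y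
      rw [cmp_assoc, cmp_assoc, cmp_hmk_hmk, e.inv_hom_id, cmp_hmk_id, ← cmp_assoc, cmp_hmk_hmk,
        e.inv_hom_id, hmk_id_cmp]
    · intro x v
      exact map_mul (conjA (k := k) e) x v
  · intro M hM
    have h2 := h.2 M hM
    refine finite_of_surj (R := TExt X X) (N := TExt X M) (conjA (k := k) e)
      (cmp (hmk e.inv)) ?_ ?_
    · intro y
      refine ⟨cmp (hmk e.hom) y, ?_⟩
      rw [← cmp_assoc, cmp_hmk_hmk, e.inv_hom_id, hmk_id_cmp]
    · intro x v
      change cmp (hmk e.inv) (cmp x v) =
        cmp (cmp (hmk e.inv) (cmp x (hmk e.hom))) (cmp (hmk e.inv) v)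
      rw [cmp_assoc, cmp_assoc, ← cmp_assoc (hmk e.hom), cmp_hmk_hmk, e.hom_inv_id, hmk_id_cmp]

end exact

end Run7.h234
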