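import Mathlib

/-!
Total Ext groups with the Yoneda product.
-/

set_option autoImplicit false

universe w w' w'' v v' v'' u u' u''

open CategoryTheory CategoryTheory.Limits CategoryTheory.Abelian

namespace Run7.h234

section basic

variable {C : Type u} [Category.{v} C] [Abelian C] [HasExt.{w} C]

/-- The total Ext group. -/
abbrev TExt (X Y : C) : Type w := DirectSum ℕ fun n => Ext.{w} X Y n

variable {X Y Z W : C}

/-- The inclusion of a homogeneous part. -/
noncomputable def hof (n : ℕ) : Ext.{w} X Y n →+ TExt X Y :=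
  DirectSum.of (fun n => Ext.{w} X Y n) n

theorem hof_congr {m n : ℕ} (h : m = n) (x : Ext.{w} X Y m) (y : Ext.{w} X Y n)
    (hxy : HEq x y) : hof m x = hof n y := by
  subst h
  rw [eq_of_heq hxy]

theorem TExt.ind {p : TExt X Y → Prop} (x : TExt X Y) (h0 : p 0)
    (h1 : ∀ (n : ℕ) (a : Ext.{w} X Y n), p (hof n a)) (h2 : ∀ a b, p a → p b → p (a + b)) :
    p x :=
  DirectSum.induction_on x h0 h1 h2

/-- The Yoneda product on total Ext groups. -/
noncomputable def cmp : TExt X Y →+ TExt Y Z →+ TExt X Z :=
  DirectSum.toAddMonoid fun i => AddMonoidHom.flip (DirectSum.toAddMonoid fun j =>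
    AddMonoidHom.flip (AddMonoidHom.compr₂ (Ext.bilinearComp X Y Z i j (i + j) rfl) (hof (i + j))))

theorem cmp_hof (i j : ℕ) (a : Ext.{w} X Y i) (b : Ext.{w} Y Z j) :
    cmp (hof i a) (hof j b) = hof (i + j) (a.comp b rfl) := by
  simp [cmp, hof, DirectSum.toAddMonoid_of]

theorem cmp_hof' {i j n : ℕ} (a : Ext.{w} X Y i) (b : Ext.{w} Y Z j) (h : i + j = n) :
    cmp (hof i a) (hof j b) = hof n (a.comp b h) := by
  subst h
  exact cmp_hof i j a b

theorem cmp_assoc (a : TExt X Y) (b : TExt Y Z) (c : TExt Z W) :
    cmp (cmp a b) c = cmp a (cmp b c) := by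
  induction a using TExt.ind with
  | h0 => simp
  | h2 a a' ha ha' => simp only [map_add, AddMonoidHom.add_apply, ha, ha']
  | h1 i a =>
    induction b using TExt.ind with
    | h0 => simp
    | h2 b b' hb hb' => simp only [map_add, AddMonoidHom.add_apply, hb, hb']
    | h1 j b =>
      induction c using TExt.ind with
      | h0 => simp
      | h2 c c' hc hc' => simp only [map_add, hc, hc']
      | h1 l c =>
        rw [cmp_hof' a b rfl, cmp_hof' b c rfl, cmp_hof' (n := i + j + l) _ c rfl,
          cmp_hof' (n := i + j + l) a _ (by omega), Ext.comp_assoc]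
        omega

/-- A morphism as an element of the total Ext group. -/
noncomputable def hmk : (X ⟶ Y) →+ TExt X Y :=
  (hof 0).comp (Ext.addEquiv₀ (X := X) (Y := Y)).symm.toAddMonoidHom

theorem hmk_apply (f : X ⟶ Y) : hmk f = hof 0 (Ext.mk₀ f) := rfl

theorem cmp_hmk_hof (f : X ⟶ Y) {j : ℕ} (b : Ext.{w} Y Z j) :
    cmp (hmk f) (hof j b) = hof j ((Ext.mk₀ f).comp b (zero_add j)) := by
  rw [hmk_apply, cmp_hof']

theorem cmp_hof_hmk {j : ℕ} (b : Ext.{w} X Y j) (f : Y ⟶ Z) :
    cmp (hof j b) (hmk f) = hof j (b.comp (Ext.mk₀ f) (add_zero j)) := by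
  rw [hmk_apply, cmp_hof']

theorem cmp_hmk_hmk (f : X ⟶ Y) (g : Y ⟶ Z) :
    cmp (hmk f) (hmk g) = hmk (f ≫ g) := by
  rw [hmk_apply g, cmp_hmk_hof, Ext.mk₀_comp_mk₀]; rfl

theorem hmk_id_cmp (a : TExt X Y) : cmp (hmk (𝟙 X)) a = a := by
  induction a using TExt.ind with
  | h0 => simp
  | h2 b b' hb hb' => simp only [map_add, hb, hb']
  | h1 j b => rw [cmp_hmk_hof, Ext.mk₀_id_comp]

theorem cmp_hmk_id (a : TExt X Y) : cmp a (hmk (𝟙 Y)) = a := by
  induction a using TExt.ind with
  | h0 => simp
  | h2 b b' hb hb' => simp only [map_add, AddMonoidHom.add_apply, hb, hb']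
  | h1 j b => rw [cmp_hof_hmk, Ext.comp_mk₀_id]

/-- The ring structure on the total Ext group of an object with the Yoneda product. -/
noncomputable instance ringT : Ring (TExt X X) :=
  { (inferInstance : AddCommGroup (TExt X X)) with
    mul := fun a b => cmp a b
    one := hmk (𝟙 X)
    mul_assoc := cmp_assoc
    one_mul := hmk_id_cmp
    mul_one := cmp_hmk_id
    left_distrib := fun a b c => by
      change cmp a (b + c) = cmp a b + cmp a c
      simp
    right_distrib := fun a b c => by
      change cmp (a + b) c = cmp a c + cmp b c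
      simp
    zero_mul := fun a => by
      change cmp 0 a = 0
      simp
    mul_zero := fun a => by
      change cmp a 0 = 0
      simp }

theorem mul_def (a b : TExt X X) : a * b = cmp a b := rfl

theorem one_def : (1 : TExt X X) = hmk (𝟙 X) := rfl

/-- The module structure. -/
noncomputable instance modT : Module (TExt X X) (TExt X Y) where
  smul a b := cmp a b
  one_smul := hmk_id_cmp
  mul_smul a b c := cmp_assoc a b c
  smul_zero a := by
    change cmp a 0 = 0
    simp
  smul_add a b c := by
    change cmp a (b + c) = cmp a b + cmp a c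
    simp
  add_smul a b c := by
    change cmp (a + b) c = cmp a c + cmp b c
    simp
  zero_smul a := by
    change cmp 0 a = 0
    simp

theorem smul_def (a : TExt X X) (b : TExt X Y) : a • b = cmp a b := rfl

end basic

section linear

variable {C : Type u} [Category.{v} C] [Abelian C] [HasExt.{w} C] {k : Type*} [CommRing k]
  [Linear k C] {X Y Z : C}

theorem hof_smul (n : ℕ) (c : k) (a : Ext.{w} X Y n) : hof n (c • a) = c • hof n a :=
  (DirectSum.of_smul k n c a)

theorem smul_cmp (c : k) (a : TExt X Y) (b : TExt Y Z) : cmp (c • a) b = c • cmp a b := by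
  induction a using TExt.ind with
  | h0 => simp
  | h2 a a' ha ha' => simp only [smul_add, map_add, AddMonoidHom.add_apply, ha, ha']
  | h1 i a =>
    induction b using TExt.ind with
    | h0 => simp
    | h2 b b' hb hb' => simp only [smul_add, map_add, hb, hb']
    | h1 j b => rw [← hof_smul, cmp_hof, cmp_hof, ← hof_smul, Ext.smul_comp]

theorem cmp_smul (c : k) (a : TExt X Y) (b : TExt Y Z) : cmp a (c • b) = c • cmp a b := by
  induction a using TExt.ind with
  | h0 => simp
  | h2 a a' ha ha' => simp only [smul_add, map_add, AddMonoidHom.add_apply, ha, ha']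
  | h1 i a =>
    induction b using TExt.ind with
    | h0 => simp
    | h2 b b' hb hb' => simp only [smul_add, map_add, hb, hb']
    | h1 j b => rw [← hof_smul, cmp_hof, cmp_hof, ← hof_smul, Ext.comp_smul]

/-- The algebra structure. -/
noncomputable instance algT : Algebra k (TExt X X) :=
  Algebra.ofModule (fun c a b => smul_cmp c a b) (fun c a b => cmp_smul c a b)

noncomputable instance : IsScalarTower k (TExt X X) (TExt X Y) where
  smul_assoc c a b := smul_cmp c a b

theorem algebraMap_T (c : k) : algebraMap k (TExt X X) c = c • hmk (𝟙 X) := by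
  rw [Algebra.algebraMap_eq_smul_one]; rfl

end linear

end Run7.h234
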