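import Pool.Agent.Run7.h234.Res
import Pool.Agent.Run7.h234.Anti

/-!
Graded commutativity of the cohomology ring of a bialgebra.
-/

set_option autoImplicit false
set_option linter.unusedVariables false
set_option linter.unusedSectionVars false

universe u

open CategoryTheory CategoryTheory.Limits CategoryTheory.Abelian TensorProduct
open scoped ModuleCat

namespace Run7.h234

section gc

variable (k : Type u) [Field k] (H : Type u) [Ring H] [Bialgebra k H]

/-- The trivial module of a bialgebra. -/
noncomputable abbrev trivH : ModuleCat.{u} H := trivM (Bialgebra.counitAlgHom k H)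

/-- The diagonal restriction. -/
noncomputable abbrev DF : ModuleCat.{u} (H ⊗[k] H) ⥤ ModuleCat.{u} H :=
  ModuleCat.restrictScalars.{u} (Bialgebra.comulAlgHom k H).toRingHom

variable {k H}

/-- The element of the field underlying an element of the trivial module. -/
def tv (t : trivH k H) : k := t

/-- The element of the trivial module given by an element of the field. -/
def vt (t : k) : trivH k H := t

theorem tv_vt (t : k) : tv (vt (H := H) t) = t := rfl

theorem tv_add (t t' : trivH k H) : tv (t + t') = tv t + tv t' := rfl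

theorem tv_smul (h : H) (t : trivH k H) : tv (h • t) = Coalgebra.counit (R := k) h * tv t := rfl

theorem tv_ksmul (c : k) (t : trivH k H) : tv (c • t) = c * tv t := by
  change Coalgebra.counit (R := k) (algebraMap k H c) * tv t = c * tv t
  rw [Bialgebra.counit_algebraMap]

/-- The map `x ⊗ t ↦ t x`. -/
noncomputable def mu1 (X : ModuleCat.{u} H) : X ⊗[k] (trivH k H) →ₗ[k] X :=
  TensorProduct.lift (LinearMap.mk₂ k (fun x t => tv t • x)
    (fun x x' t => smul_add _ _ _) (fun c x t => smul_comm _ _ _)
    (fun x t t' => by rw [tv_add, add_smul]) (fun c x t => by rw [tv_ksmul, mul_smul]))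

theorem mu1_tmul (X : ModuleCat.{u} H) (x : X) (t : trivH k H) :
    mu1 X (x ⊗ₜ t) = tv t • x := rfl

/-- The map `t ⊗ x ↦ t x`. -/
noncomputable def mu2 (X : ModuleCat.{u} H) : (trivH k H) ⊗[k] X →ₗ[k] X :=
  TensorProduct.lift (LinearMap.mk₂ k (fun t x => tv t • x)
    (fun t t' x => by rw [tv_add, add_smul]) (fun c t x => by rw [tv_ksmul, mul_smul])
    (fun t x x' => smul_add _ _ _) (fun c t x => smul_comm _ _ _))

theorem mu2_tmul (X : ModuleCat.{u} H) (x : X) (t : trivH k H) :
    mu2 X (t ⊗ₜ x) = tv t • x := rfl

theorem mu1_act (X : ModuleCat.{u} H) (z : H ⊗[k] H) (w : X ⊗[k] (trivH k H)) :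
    mu1 X (boxAct X (trivH k H) z w) =
      (TensorProduct.rid k H (LinearMap.lTensor H (Coalgebra.counit (R := k)) z)) • mu1 X w := by
  induction z using TensorProduct.induction_on with
  | zero => simp
  | add a b ha hb => rw [map_add, LinearMap.add_apply, map_add, ha, hb, map_add, map_add, add_smul]
  | tmul a b =>
    induction w using TensorProduct.induction_on with
    | zero => simp
    | add a b ha hb => rw [map_add, map_add, ha, hb, map_add, smul_add]
    | tmul x t =>
      rw [boxAct_tmul, mu1_tmul, mu1_tmul, tv_smul, LinearMap.lTensor_tmul,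
        TensorProduct.rid_tmul, mul_smul, smul_assoc, smul_comm (tv t) a x]

theorem mu2_act (X : ModuleCat.{u} H) (z : H ⊗[k] H) (w : (trivH k H) ⊗[k] X) :
    mu2 X (boxAct (trivH k H) X z w) =
      (TensorProduct.lid k H (LinearMap.rTensor H (Coalgebra.counit (R := k)) z)) • mu2 X w := by
  induction z using TensorProduct.induction_on with
  | zero => simp
  | add a b ha hb => rw [map_add, LinearMap.add_apply, map_add, ha, hb, map_add, map_add, add_smul]
  | tmul a b =>
    induction w using TensorProduct.induction_on with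
    | zero => simp
    | add a b ha hb => rw [map_add, map_add, ha, hb, map_add, smul_add]
    | tmul t x =>
      rw [boxAct_tmul, mu2_tmul, mu2_tmul, tv_smul, LinearMap.rTensor_tmul,
        TensorProduct.lid_tmul, mul_smul, smul_assoc, smul_comm (tv t) b x]

/-- The map `Δ^*(X ⊠ k) → X`. -/
noncomputable def mu1H (X : ModuleCat.{u} H) : (DF k H).obj (box k X (trivH k H)) ⟶ X :=
  mkRes (Bialgebra.comulAlgHom k H).toRingHom (box k X (trivH k H)) X (mu1 X).toAddMonoidHom
    fun h w => by
      have := mu1_act X (Coalgebra.comul (R := k) h) w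
      rw [Coalgebra.lTensor_counit_comul, TensorProduct.rid_tmul, one_smul] at this
      exact this

/-- The map `Δ^*(k ⊠ X) → X`. -/
noncomputable def mu2H (X : ModuleCat.{u} H) : (DF k H).obj (box k (trivH k H) X) ⟶ X :=
  mkRes (Bialgebra.comulAlgHom k H).toRingHom (box k (trivH k H) X) X (mu2 X).toAddMonoidHom
    fun h w => by
      have := mu2_act X (Coalgebra.comul (R := k) h) w
      rw [Coalgebra.rTensor_counit_comul, TensorProduct.lid_tmul, one_smul] at this
      exact this

theorem mu_ksmul {X X' : ModuleCat.{u} H} (f : X ⟶ X') (c : k) (x : X) :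
    f.hom (c • x) = c • f.hom x := map_smul (f.hom.restrictScalars k) c x

/-- The natural transformation `Δ^*(X ⊠ k) → X`. -/
noncomputable def tau1 : boxL (A := H) k (trivH k H) ⋙ DF k H ⟶ 𝟭 (ModuleCat.{u} H) where
  app X := mu1H X
  naturality X X' f := by
    apply res_box_ext
    intro x t
    change tv t • f.hom x = f.hom (tv t • x)
    exact (mu_ksmul f _ _).symm

/-- The natural transformation `Δ^*(k ⊠ X) → X`. -/
noncomputable def tau2 : boxR (B := H) k (trivH k H) ⋙ DF k H ⟶ 𝟭 (ModuleCat.{u} H) where
  app X := mu2H X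
  naturality X X' f := by
    apply res_box_ext
    intro t x
    change tv t • f.hom x = f.hom (tv t • x)
    exact (mu_ksmul f _ _).symm

theorem tau_eq : mu1H (trivH k H) = mu2H (trivH k H) := by
  apply res_box_ext
  intro t x
  change tv x • t = tv t • x
  change tv (tv x • t) = tv (tv t • x)
  rw [tv_ksmul, tv_ksmul, mul_comm]

/-- The section of `Δ^*(k ⊠ k) → k`. -/
noncomputable def tauSec : trivH k H ⟶ (DF k H).obj (box k (trivH k H) (trivH k H)) :=
  mkRes' (Bialgebra.comulAlgHom k H).toRingHom (box k (trivH k H) (trivH k H)) (trivH k H)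
    { toFun := fun t => bt k t (vt (1 : k))
      map_add' := fun t t' => TensorProduct.add_tmul _ _ _
      map_zero' := TensorProduct.zero_tmul _ _ }
    fun h t => by
      change (h • t) ⊗ₜ[k] (vt (1 : k)) =
        boxAct (trivH k H) (trivH k H) (Coalgebra.comul (R := k) h) (t ⊗ₜ[k] (vt (1 : k)))
      have key : ∀ z : H ⊗[k] H,
          boxAct (trivH k H) (trivH k H) z (t ⊗ₜ[k] (vt (1 : k))) =
          ((TensorProduct.rid k H (LinearMap.lTensor H (Coalgebra.counit (R := k)) z)) • t)
            ⊗ₜ[k] (vt (1 : k)) := by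
        intro z
        induction z using TensorProduct.induction_on with
        | zero => simp
        | add a b ha hb =>
          rw [map_add, LinearMap.add_apply, ha, hb, map_add, map_add, add_smul,
            TensorProduct.add_tmul]
        | tmul a b =>
          rw [boxAct_tmul, LinearMap.lTensor_tmul, TensorProduct.rid_tmul,
            smul_assoc (Coalgebra.counit (R := k) b) a t]
          have : b • (vt (1 : k)) = (Coalgebra.counit (R := k) b) • (vt (H := H) (1 : k)) := by
            change tv (b • (vt (1 : k))) =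
              tv ((Coalgebra.counit (R := k) b) • (vt (H := H) (1 : k)))
            rw [tv_smul, tv_ksmul]
          rw [this, TensorProduct.tmul_smul, TensorProduct.smul_tmul']
      rw [key, Coalgebra.lTensor_counit_comul, TensorProduct.rid_tmul, one_smul]

theorem tauSec_tau1 : tauSec (k := k) (H := H) ≫ mu1H (trivH k H) =
    𝟙 (trivH k H) := by
  ext t
  change tv (vt (H := H) (1 : k)) • t = t
  rw [tv_vt, one_smul]

theorem gc_aux1 (x : TExt (trivH k H) (trivH k H)) :
    cmp (mapT (DF k H) (xL x (trivH k H))) (hmk (mu1H (trivH k H))) =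
      cmp (hmk (mu1H (trivH k H))) x := by
  have h1 := natExt _ _ (tau1 (k := k) (H := H)) x
  rw [mapT_comp, mapT_id] at h1
  exact h1

theorem gc_aux2 (x : TExt (trivH k H) (trivH k H)) :
    cmp (mapT (DF k H) (xR (trivH k H) x)) (hmk (mu1H (trivH k H))) =
      cmp (hmk (mu1H (trivH k H))) x := by
  have h1 := natExt _ _ (tau2 (k := k) (H := H)) x
  rw [mapT_comp, mapT_id] at h1
  rw [tau_eq]
  exact h1

/-- Graded commutativity of the cohomology ring of a bialgebra. -/
theorem gc (m n : ℕ) (x : Ext.{u} (trivH k H) (trivH k H) m)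
    (y : Ext.{u} (trivH k H) (trivH k H) n) : SComm (hof m x) (hof n y) := by
  have e1 : cmp (mapT (DF k H) (cmp (xL (hof m x) (trivH k H)) (xR (trivH k H) (hof n y))))
      (hmk (mu1H (trivH k H))) =
      cmp (hmk (mu1H (trivH k H))) (cmp (hof m x) (hof n y)) := by
    rw [mapT_cmp, cmp_assoc, gc_aux2, ← cmp_assoc, gc_aux1, cmp_assoc]
  have e2 : cmp (mapT (DF k H) (cmp (xR (trivH k H) (hof n y)) (xL (hof m x) (trivH k H))))
      (hmk (mu1H (trivH k H))) =
      cmp (hmk (mu1H (trivH k H))) (cmp (hof n y) (hof m x)) := by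
    rw [mapT_cmp, cmp_assoc, gc_aux1, ← cmp_assoc, gc_aux2, cmp_assoc]
  have canc : ∀ a : TExt (trivH k H) (trivH k H),
      cmp (hmk tauSec) (cmp (hmk (mu1H (trivH k H))) a) = a := by
    intro a
    rw [← cmp_assoc, cmp_hmk_hmk, tauSec_tau1, hmk_id_cmp]
  rcases anti_scomm (k := k) m (trivH k H) (trivH k H) x n (trivH k H) (trivH k H) y with h | h
  · left
    rw [h, e2] at e1
    have := congrArg (fun z => cmp (hmk tauSec) z) e1
    simp only [canc] at this
    exact this.symm
  · right
    rw [h, map_neg, map_neg, AddMonoidHom.neg_apply, e2] at e1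
    have := congrArg (fun z => cmp (hmk tauSec) z) e1
    simp only [map_neg, canc] at this
    exact this.symm

theorem noeth_of_finiteType (h : Algebra.FiniteType k (TExt (trivH k H) (trivH k H))) :
    IsNoetherianRing (TExt (trivH k H) (trivH k H)) :=
  noeth_of_gc (k := k) _ gc h

end gc

end Run7.h234
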