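import Pool.Agent.Run7.h234.HP

/-!
Semisimplicity of cocommutative quotients.
-/

set_option autoImplicit false
set_option linter.unusedVariables false
set_option linter.unusedSectionVars false

universe u

open TensorProduct Coalgebra WithConv

namespace Run7.h234

section coc

variable {k : Type u} [Field k] {G : Type u} [Ring G] [HopfAlgebra k G]

theorem comm_comul (hG : ∀ (f : G →ₗ[k] k) (c : G), rv f c = lv f c) (c : G) :
    (TensorProduct.comm k G G) (comul (R := k) c) = comul (R := k) c := by
  apply tens_ext_r
  intro g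
  have h1 : ∀ t : G ⊗[k] G, (TensorProduct.rid k G) (LinearMap.lTensor G g
      ((TensorProduct.comm k G G) t)) = (TensorProduct.lid k G) (LinearMap.rTensor G g t) := by
    intro t
    induction t using TensorProduct.induction_on with
    | zero => simp
    | tmul x y => simp
    | add x y hx hy => simp only [map_add, hx, hy]
  rw [h1]
  exact (hG g c).symm

theorem antipode_sq (hG : ∀ (f : G →ₗ[k] k) (c : G), rv f c = lv f c) (c : G) :
    HopfAlgebra.antipode k (HopfAlgebra.antipode k c) = c := by
  have h1 : (cs (AlgHom.id k G) * cv (HopfAlgebra.antipode k ∘ₗ HopfAlgebra.antipode k) :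
      Cv k G G) = 1 := by
    apply cv_ext
    intro x
    rw [mul_apply_repr, one_cv_apply]
    have h2 : ∀ t : G ⊗[k] G, (LinearMap.mul' k G) (TensorProduct.map (HopfAlgebra.antipode k)
        (HopfAlgebra.antipode k ∘ₗ HopfAlgebra.antipode k) t) =
        HopfAlgebra.antipode k ((LinearMap.mul' k G) (TensorProduct.map
          (HopfAlgebra.antipode k) LinearMap.id ((TensorProduct.comm k G G) t))) := by
      intro t
      induction t using TensorProduct.induction_on with
      | zero => simp
      | tmul x y =>
        simp only [TensorProduct.map_tmul, LinearMap.mul'_apply, TensorProduct.comm_tmul,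
          LinearMap.comp_apply, LinearMap.id_apply, HopfAlgebra.antipode_mul_antidistrib]
      | add x y hx hy => simp only [map_add, hx, hy]
    have h3 := h2 (comul (R := k) x)
    rw [comm_comul hG] at h3
    have h4 : (LinearMap.mul' k G) (TensorProduct.map
          (HopfAlgebra.antipode k) LinearMap.id (comul (R := k) x)) =
          counit (R := k) x • (1 : G) := by
      rw [← HopfAlgebra.sum_antipode_mul_eq_smul (ℛ k x)]
      conv_lhs => rw [← (ℛ k x).eq, map_sum, map_sum]
      rfl
    rw [h4, map_smul, HopfAlgebra.antipode_one] at h3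
    rw [← h3]
    conv_rhs => rw [← (ℛ k x).eq, map_sum, map_sum]
    rfl
  have h2 : (cv (HopfAlgebra.antipode k ∘ₗ HopfAlgebra.antipode k) : Cv k G G) =
      ca (AlgHom.id k G) := by
    calc (cv (HopfAlgebra.antipode k ∘ₗ HopfAlgebra.antipode k) : Cv k G G) =
        ca (AlgHom.id k G) * (cs (AlgHom.id k G) *
          cv (HopfAlgebra.antipode k ∘ₗ HopfAlgebra.antipode k)) := by
          rw [← mul_assoc, ca_mul_cs, one_mul]
      _ = _ := by rw [h1, mul_one]
  exact congrArg (fun z : Cv k G G => z c) h2

theorem exists_e [Module.Finite k G] (hG : ∀ (f : G →ₗ[k] k) (c : G), rv f c = lv f c)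
    (hdim : (Module.finrank k G : k) ≠ 0) :
    ∃ e : G, (∀ h, e * h = counit (R := k) h • e) ∧ counit (R := k) e = 1 := by
  obtain ⟨L, lam, hL⟩ := exists_LS (k := k) (H := G)
  have h1 : (LinearMap.id : G →ₗ[k] G) = ∑ i ∈ (ℛ k L).index,
      (LinearMap.toSpanSingleton k G (HopfAlgebra.antipode k ((ℛ k L).left i))) ∘ₗ
        (lam ∘ₗ LinearMap.mulRight k ((ℛ k L).right i)) := by
    apply LinearMap.ext
    intro x
    have h2 := hL.anti x
    have h3 := congrArg (HopfAlgebra.antipode k) h2
    rw [antipode_sq hG, rv_repr, map_sum] at h3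
    rw [LinearMap.sum_apply, LinearMap.id_apply]
    refine h3.symm.trans ?_
    refine Finset.sum_congr rfl fun i _ => ?_
    rw [map_smul]
    rfl
  have h2 := congrArg (LinearMap.trace k G) h1
  rw [LinearMap.trace_id, map_sum] at h2
  have h3 : ∀ i ∈ (ℛ k L).index, LinearMap.trace k G
      ((LinearMap.toSpanSingleton k G (HopfAlgebra.antipode k ((ℛ k L).left i))) ∘ₗ
        (lam ∘ₗ LinearMap.mulRight k ((ℛ k L).right i))) =
      lam (HopfAlgebra.antipode k ((ℛ k L).left i) * (ℛ k L).right i) := by
    intro i _
    rw [LinearMap.trace_comp_comm']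
    have : (lam ∘ₗ LinearMap.mulRight k ((ℛ k L).right i)) ∘ₗ
        (LinearMap.toSpanSingleton k G (HopfAlgebra.antipode k ((ℛ k L).left i))) =
        (lam (HopfAlgebra.antipode k ((ℛ k L).left i) * (ℛ k L).right i)) • LinearMap.id := by
      ext
      simp
    rw [this, map_smul, LinearMap.trace_id]
    simp
  rw [Finset.sum_congr rfl h3, ← map_sum, HopfAlgebra.sum_antipode_mul_eq_smul, map_smul,
    smul_eq_mul] at h2
  have h4 : counit (R := k) L ≠ 0 := by
    intro h0
    rw [h0, zero_mul] at h2
    exact hdim h2
  refine ⟨(counit (R := k) L)⁻¹ • HopfAlgebra.antipode k L, fun h => ?_, ?_⟩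
  · rw [smul_mul_assoc, antipode_right hL.left, smul_comm]
  · rw [map_smul, HopfAlgebra.counit_antipode, smul_eq_mul, inv_mul_cancel₀ h4]

end coc

end Run7.h234
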