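import Pool.Agent.Run7.h234.HS2
import Pool.Agent.Run7.h234.HC

/-!
From the exact sequence to the quotients.
-/

set_option autoImplicit false
set_option linter.unusedVariables false
set_option linter.unusedSectionVars false

universe u

open TensorProduct Coalgebra WithConv

namespace Run7.h234

section ker

variable {k : Type u} [Field k] {A B C : Type u} [Ring A] [HopfAlgebra k A] [Ring B]
  [HopfAlgebra k B] [Ring C] [HopfAlgebra k C]

theorem kerL_of (ι : A →ₐc[k] B) (π : B →ₐc[k] C)
    (hker : ∀ b, π b = 0 → b ∈ Ideal.span (ι '' {a | counit (R := k) a = 0})) :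
    KerL ι π := by
  intro V _ _ T hT y hy
  have key : ∀ x ∈ Ideal.span (ι '' {a | counit (R := k) a = 0}), ∀ r, T (r * x) = 0 := by
    intro x hx
    refine Submodule.span_induction (p := fun x _ => ∀ r, T (r * x) = 0) ?_ ?_ ?_ ?_ hx
    · rintro _ ⟨a, ha, rfl⟩ r
      rw [hT, show counit (R := k) a = 0 from ha, zero_smul]
    · intro r; rw [mul_zero, map_zero]
    · intro x y _ _ hx hy r
      rw [mul_add, map_add, hx, hy, add_zero]
    · intro s x _ hx r
      rw [smul_eq_mul, ← mul_assoc, hx]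
  have := key y (hker y hy) 1
  rwa [one_mul] at this

theorem counit_adl (a b : B) : counit (R := k) (adl (AlgHom.id k B) a b) =
    counit (R := k) b * counit (R := k) a := by
  rw [adl_repr, map_sum]
  have h1 : ∀ i ∈ (ℛ k b).index, counit (R := k) ((AlgHom.id k B) ((ℛ k b).left i) * a *
      (AlgHom.id k B) (HopfAlgebra.antipode k ((ℛ k b).right i))) =
      counit (R := k) ((ℛ k b).left i) * counit (R := k) ((ℛ k b).right i) *
        counit (R := k) a := by
    intro i _
    rw [Bialgebra.counit_mul, Bialgebra.counit_mul, AlgHom.id_apply, AlgHom.id_apply,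
      HopfAlgebra.counit_antipode]
    ring
  rw [Finset.sum_congr rfl h1, ← Finset.sum_mul]
  congr 1
  have h2 := congrArg (counit (R := k)) (Coalgebra.sum_counit_smul (ℛ k b))
  rw [map_sum] at h2
  simp only [map_smul, smul_eq_mul] at h2
  exact h2

theorem kerR_of (ι : A →ₐc[k] B) (π : B →ₐc[k] C)
    (hker : ∀ b, π b = 0 → b ∈ Ideal.span (ι '' {a | counit (R := k) a = 0}))
    (hn : ∀ a b, adl (AlgHom.id k B) (ι a) b ∈ Set.range ι) :
    KerR ι π := by
  intro V _ _ T hT y hy
  have key : ∀ x ∈ Ideal.span (ι '' {a | counit (R := k) a = 0}), ∀ r s, T (r * x * s) = 0 := by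
    intro x hx
    refine Submodule.span_induction (p := fun x _ => ∀ r s, T (r * x * s) = 0) ?_ ?_ ?_ ?_ hx
    · rintro _ ⟨a, ha, rfl⟩ r s
      have h1 : (cv (adl (AlgHom.id k B) (ι a)) * ca (AlgHom.id k B) : Cv k B B) r =
          (ca (AlgHom.id k B) * cst B (ι a) : Cv k B B) r := by rw [adl_mul_ca]
      rw [mul_apply_repr, mul_cst_apply] at h1
      have h2 : r * ι a = ∑ i ∈ (ℛ k r).index,
          adl (AlgHom.id k B) (ι a) ((ℛ k r).left i) * (ℛ k r).right i := h1.symm
      rw [h2, Finset.sum_mul, map_sum]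
      refine Finset.sum_eq_zero fun i _ => ?_
      obtain ⟨a', ha'⟩ := hn a ((ℛ k r).left i)
      have h3 : counit (R := k) a' = 0 := by
        rw [← counit_map ι a', ha', counit_adl, counit_map, show counit (R := k) a = 0 from ha,
          mul_zero]
      rw [← ha', mul_assoc, hT, h3, zero_smul]
    · intro r s; rw [mul_zero, zero_mul, map_zero]
    · intro x y _ _ hx hy r s
      rw [mul_add, add_mul, map_add, hx, hy, add_zero]
    · intro t x _ hx r s
      rw [smul_eq_mul, ← mul_assoc r t x, hx]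
  have := key y (hker y hy) 1 1
  rwa [one_mul, mul_one] at this

end ker

section quot

variable {k : Type u} [Field k] {A B C : Type u} [Ring A] [HopfAlgebra k A] [Ring B]
  [HopfAlgebra k B] [Ring C] [HopfAlgebra k C] [Module.Finite k C]

/-- The quotient of `B`. -/
abbrev QB (π : B →ₐc[k] C) : Type u := B ⧸ Jid π

variable (k C) in
/-- The cocentral quotient of `C`. -/
abbrev QC : Type u := C ⧸ Jid (BialgHom.id k C)

/-- The quotient map of `B`. -/
noncomputable def qB (π : B →ₐc[k] C) : B →ₐc[k] QB π := Bialgebra.Quotient.mkBialgHom (Jid π)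

variable (k C) in
/-- The quotient map of `C`. -/
noncomputable def qC : C →ₐc[k] QC k C :=
  Bialgebra.Quotient.mkBialgHom (Jid (BialgHom.id k C))

theorem qB_surj (π : B →ₐc[k] C) : Function.Surjective (qB π) := Ideal.Quotient.mk_surjective

theorem qC_surj : Function.Surjective (qC k C) := Ideal.Quotient.mk_surjective

theorem qB_zero (π : B →ₐc[k] C) (b : B) : qB π b = 0 ↔ b ∈ Jid π :=
  Ideal.Quotient.eq_zero_iff_mem

theorem qC_zero (c : C) : qC k C c = 0 ↔ c ∈ Jid (BialgHom.id k C) :=
  Ideal.Quotient.eq_zero_iff_mem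

theorem map_uf (π : B →ₐc[k] C) (f : C →ₗ[k] k) (b : B) :
    π (uf π f b) = uf (BialgHom.id k C) f (π b) := by
  have h1 : f ∘ₗ (pal (BialgHom.id k C)).toLinearMap = f := by ext x; rfl
  rw [uf, uf, h1]
  change pal π (_ - _) = _
  rw [map_sub]
  congr 1
  · exact rv_map π f b
  · exact lv_map π f b

theorem qC_pi (π : B →ₐc[k] C) {b : B} (hb : b ∈ Jid π) : qC k C (π b) = 0 := by
  refine Jid_le_ker π ((pal (qC k C)).comp (pal π)) (fun f b => ?_) hb
  change qC k C (π (uf π f b)) = 0
  rw [map_uf, qC_zero]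
  exact uf_mem _ _ _

theorem exists_J (π : B →ₐc[k] C) (hπ : Function.Surjective π) {c : C}
    (hc : c ∈ Jid (BialgHom.id k C)) : ∃ b ∈ Jid π, π b = c := by
  refine Submodule.span_induction (p := fun c _ => ∃ b ∈ Jid π, π b = c) ?_ ?_ ?_ ?_ hc
  · rintro _ ⟨f, c, y, rfl⟩
    obtain ⟨b, rfl⟩ := hπ c
    obtain ⟨y, rfl⟩ := hπ y
    refine ⟨uf π f b * y, Ideal.mul_mem_right _ _ (uf_mem _ _ _), ?_⟩
    rw [← map_uf]
    exact map_mul (pal π) _ _
  · exact ⟨0, Ideal.zero_mem _, map_zero (pal π)⟩
  · rintro x y _ _ ⟨b, hb, rfl⟩ ⟨b', hb', rfl⟩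
    exact ⟨b + b', Ideal.add_mem _ hb hb', map_add (pal π) _ _⟩
  · rintro r x _ ⟨b, hb, rfl⟩
    obtain ⟨r, rfl⟩ := hπ r
    exact ⟨r * b, Ideal.mul_mem_left _ _ hb, map_mul (pal π) _ _⟩

/-- The map between the quotients. -/
noncomputable def rhoA (π : B →ₐc[k] C) : QB π →ₐ[k] QC k C :=
  Ideal.Quotient.liftₐ (Jid π) ((pal (qC k C)).comp (pal π)) (fun b hb => qC_pi π hb)

theorem rhoA_mk (π : B →ₐc[k] C) (b : B) : rhoA π (qB π b) = qC k C (π b) := rfl

/-- The map between the quotients as a bialgebra map. -/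
noncomputable def rho (π : B →ₐc[k] C) : QB π →ₐc[k] QC k C :=
  BialgHom.ofAlgHom (rhoA π)
    (by
      apply Ideal.Quotient.algHom_ext
      apply AlgHom.ext
      intro b
      change counit (R := k) (qC k C (π b)) = counit (R := k) (qB π b)
      rw [counit_map, counit_map, counit_map])
    (by
      apply Ideal.Quotient.algHom_ext
      apply AlgHom.ext
      intro b
      change TensorProduct.map (rhoA π).toLinearMap (rhoA π).toLinearMap
        (comul (R := k) (qB π b)) = comul (R := k) (qC k C (π b))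
      rw [comul_map_sum, comul_map, comul_map_sum, map_sum, map_sum]
      rfl)

theorem rho_mk (π : B →ₐc[k] C) (b : B) : rho π (qB π b) = qC k C (π b) := rfl

theorem rho_surj (π : B →ₐc[k] C) (hπ : Function.Surjective π) :
    Function.Surjective (rho π) := by
  intro y
  obtain ⟨c, rfl⟩ := qC_surj y
  obtain ⟨b, rfl⟩ := hπ c
  exact ⟨qB π b, rfl⟩

theorem rho_iota (ι : A →ₐc[k] B) (π : B →ₐc[k] C)
    (hιπ : ∀ a, π (ι a) = counit (R := k) a • (1 : C)) (a : A) :
    rho π (((qB π).comp ι) a) = counit (R := k) a • (1 : QC k C) := by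
  change rho π (qB π (ι a)) = _
  rw [rho_mk, hιπ]
  change pal (qC k C) _ = _
  rw [map_smul, map_one]

theorem kerR_rho (ι : A →ₐc[k] B) (π : B →ₐc[k] C) (hπ : Function.Surjective π)
    (hK : KerR ι π) : KerR ((qB π).comp ι) (rho π) := by
  intro V _ _ T hT y hy
  obtain ⟨b, rfl⟩ := qB_surj π y
  rw [rho_mk, qC_zero] at hy
  obtain ⟨j, hj, hjb⟩ := exists_J π hπ hy
  have h1 := hK V (T ∘ₗ (pal (qB π)).toLinearMap) (fun a y => by
    change T (pal (qB π) (ι a * y)) = _
    rw [map_mul]
    exact hT a (qB π y)) (b - j) (by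
      change pal π (b - j) = 0
      rw [map_sub, sub_eq_zero]
      exact hjb.symm)
  change T (pal (qB π) (b - j)) = 0 at h1
  rw [map_sub] at h1
  have h2 : pal (qB π) j = 0 := (qB_zero π j).2 hj
  rw [h2, sub_zero] at h1
  exact h1

theorem qC_cocomm (f : QC k C →ₗ[k] k) (y : QC k C) : rv f y = lv f y := by
  obtain ⟨c, rfl⟩ := qC_surj y
  rw [← rv_map, ← lv_map]
  have h1 := mk_uf (BialgHom.id k C) (f ∘ₗ (pal (qC k C)).toLinearMap) c
  have h2 : (f ∘ₗ (pal (qC k C)).toLinearMap) ∘ₗ (pal (BialgHom.id k C)).toLinearMap =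
      f ∘ₗ (pal (qC k C)).toLinearMap := by ext x; rfl
  rw [h2] at h1
  exact h1

end quot

section kerq

variable {k : Type u} [Field k] {A E : Type u} [Ring A] [HopfAlgebra k A] [Ring E]
  [HopfAlgebra k E]

/-- The kernel of a bialgebra map is a Hopf ideal. -/
theorem ker_hopf (g : A →ₐc[k] E) : (RingHom.ker (pal g)).IsHopfIdeal k where
  counit_eq_zero x hx := by
    have h : g x = 0 := hx
    have h1 := counit_map g x
    rw [h, map_zero] at h1
    exact h1.symm
  map_mkQ_comul_eq_zero x hx := by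
    have h : g x = 0 := hx
    have h1 := comul_map g x
    rw [h, map_zero] at h1
    let gb : A ⧸ (RingHom.ker (pal g)) →ₗ[k] E := (Ideal.kerLiftAlg (pal g)).toLinearMap
    have hgb : Function.Injective gb := Ideal.kerLiftAlg_injective (pal g)
    have h2 : (pal g).toLinearMap = gb ∘ₗ
        (Submodule.mkQ ((RingHom.ker (pal g)).restrictScalars k)) := by
      ext y; rfl
    rw [h2, TensorProduct.map_comp, LinearMap.comp_apply] at h1
    have h3 : Function.Injective (TensorProduct.map gb gb) :=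
      TensorProduct.map_injective_of_flat_flat _ _ hgb hgb
    exact h3 (h1.symm.trans (map_zero _).symm)
  antipode_mem x hx := by
    have h : g x = 0 := hx
    change g (HopfAlgebra.antipode k x) = 0
    rw [← antipode_map, h, map_zero]

end kerq

end Run7.h234
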