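import Pool.Agent.Run7.h234.HA0

/-!
The main theorem in internal form.
-/

set_option autoImplicit false
set_option linter.unusedVariables false
set_option linter.unusedSectionVars false

universe u

open TensorProduct Coalgebra WithConv CategoryTheory
open scoped ModuleCat

namespace Run7.h234

section iso

variable {k : Type u} [Field k] {A B R : Type u} [Ring A] [Ring B] [Algebra k A] [Algebra k B]
  [Ring R] [Algebra k R]

/-- The underlying scalar of an element of the trivial module. -/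
noncomputable def tvL (ε : A →ₐ[k] k) : trivM ε →ₗ[k] k where
  toFun t := tvm t
  map_add' t t' := rfl
  map_smul' c t := tvm_ksmul c t

/-- The multiplication `k ⊗ k → k`. -/
noncomputable def gmul (ε : A →ₐ[k] k) (ε' : B →ₐ[k] k) : (trivM ε) ⊗[k] (trivM ε') →ₗ[k] k :=
  (TensorProduct.lid k k).toLinearMap ∘ₗ TensorProduct.map (tvL ε) (tvL ε')

theorem gmul_tmul (ε : A →ₐ[k] k) (ε' : B →ₐ[k] k) (t : trivM ε) (t' : trivM ε') :
    gmul ε ε' (t ⊗ₜ[k] t') = tvm t * tvm t' := rfl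

/-- The product of two augmentations. -/
noncomputable def augT (ε : A →ₐ[k] k) (ε' : B →ₐ[k] k) : A ⊗[k] B →ₐ[k] k :=
  (Algebra.TensorProduct.lid k k).toAlgHom.comp (Algebra.TensorProduct.map ε ε')

theorem augT_tmul (ε : A →ₐ[k] k) (ε' : B →ₐ[k] k) (a : A) (b : B) :
    augT ε ε' (a ⊗ₜ[k] b) = ε a * ε' b := by
  change (Algebra.TensorProduct.lid k k) (ε a ⊗ₜ[k] ε' b) = _
  rw [Algebra.TensorProduct.lid_tmul]
  rfl

theorem gmul_act (ε : A →ₐ[k] k) (ε' : B →ₐ[k] k) (z : A ⊗[k] B)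
    (w : (trivM ε) ⊗[k] (trivM ε')) :
    gmul ε ε' (boxAct (trivM ε) (trivM ε') z w) = augT ε ε' z * gmul ε ε' w := by
  induction z using TensorProduct.induction_on with
  | zero => simp
  | add a b ha hb => rw [map_add, LinearMap.add_apply, map_add, ha, hb, map_add, add_mul]
  | tmul a b =>
    induction w using TensorProduct.induction_on with
    | zero => simp
    | add x y hx hy => rw [map_add, map_add, hx, hy, map_add, mul_add]
    | tmul t t' =>
      rw [boxAct_tmul, gmul_tmul, gmul_tmul, tvm_smul, tvm_smul, augT_tmul]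
      ring

theorem gmul_inj (ε : A →ₐ[k] k) (ε' : B →ₐ[k] k) (w : (trivM ε) ⊗[k] (trivM ε')) :
    w = vtm ε (gmul ε ε' w) ⊗ₜ[k] vtm ε' 1 := by
  induction w using TensorProduct.induction_on with
  | zero =>
    rw [map_zero]
    exact (TensorProduct.zero_tmul _ _).symm
  | add x y hx hy =>
    conv_lhs => rw [hx, hy]
    rw [← TensorProduct.add_tmul, map_add]
    rfl
  | tmul t t' =>
    have h1 : t' = (tvm t') • vtm ε' 1 := by
      apply tvm_inj
      rw [tvm_ksmul, tvm_vtm, mul_one]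
    conv_lhs => rw [h1]
    rw [TensorProduct.tmul_smul, TensorProduct.smul_tmul', gmul_tmul]
    congr 1
    apply tvm_inj
    rw [tvm_ksmul, tvm_vtm, mul_comm]

/-- The restriction of `k ⊠ k` is the trivial module. -/
noncomputable def resBoxIso (φ : R →ₐ[k] A ⊗[k] B) (ε : A →ₐ[k] k) (ε' : B →ₐ[k] k)
    (ε₀ : R →ₐ[k] k) (h : ∀ r, augT ε ε' (φ r) = ε₀ r) :
    (ModuleCat.restrictScalars.{u} φ.toRingHom).obj (box k (trivM ε) (trivM ε')) ≅ trivM ε₀ where
  hom := mkRes φ.toRingHom (box k (trivM ε) (trivM ε')) (trivM ε₀)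
    (AddMonoidHom.mk' (fun w => vtm ε₀ (gmul ε ε' w)) (fun w w' => congrArg (vtm ε₀)
      (map_add (gmul ε ε') w w')))
    (fun r w => by
      apply tvm_inj
      rw [tvm_smul, ← h]
      exact gmul_act ε ε' (φ r) w)
  inv := mkRes' φ.toRingHom (box k (trivM ε) (trivM ε')) (trivM ε₀)
    (AddMonoidHom.mk' (fun t => bt k (vtm ε (tvm t)) (vtm ε' 1))
      (fun t t' => TensorProduct.add_tmul _ _ _))
    (fun r t => by
      change (vtm ε (tvm (r • t))) ⊗ₜ[k] (vtm ε' 1) =
        boxAct (trivM ε) (trivM ε') (φ r) ((vtm ε (tvm t)) ⊗ₜ[k] (vtm ε' 1))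
      rw [gmul_inj ε ε' (boxAct (trivM ε) (trivM ε') (φ r) _), gmul_act, h, gmul_tmul, tvm_vtm,
        tvm_vtm, mul_one, tvm_smul])
  hom_inv_id := by
    apply res_hom_ext
    intro w
    exact (gmul_inj ε ε' w).symm
  inv_hom_id := by
    ext t
    change vtm ε₀ (gmul ε ε' ((vtm ε (tvm t)) ⊗ₜ[k] (vtm ε' 1))) = t
    rw [gmul_tmul, tvm_vtm, tvm_vtm, mul_one]
    rfl

theorem res_triv (g : R →ₐ[k] A) (ε : A →ₐ[k] k) (ε₀ : R →ₐ[k] k) (h : ε.comp g = ε₀) :
    (ModuleCat.restrictScalars.{u} g.toRingHom).obj (trivM ε) = trivM ε₀ := by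
  subst h
  rfl

end iso

end Run7.h234
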