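import Pool.Agent.Run7.h234.HA1

/-!
The main theorem in internal form.
-/

set_option autoImplicit false
set_option linter.unusedVariables false
set_option linter.unusedSectionVars false

universe u

open TensorProduct Coalgebra WithConv CategoryTheory
open scoped ModuleCat

namespace Run7.h234

section bfd

variable {k : Type u} [Field k] {A B : Type u} [Ring A] [Ring B] [Algebra k A] [Algebra k B]

theorem box_triv_FD [Module.Finite k A] [Module.Finite k B] (ε : A →ₐ[k] k) (ε' : B →ₐ[k] k) :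
    FD k (box k (trivM ε) (trivM ε')) := by
  apply FD.of_fg
  refine Module.Finite.of_surjective (LinearMap.toSpanSingleton (A ⊗[k] B)
    (BoxTy k (trivM ε) (trivM ε')) (bt k (vtm ε 1) (vtm ε' 1))) ?_
  intro w
  refine ⟨(algebraMap k A (gmul ε ε' w)) ⊗ₜ[k] (1 : B), ?_⟩
  refine Eq.trans ?_ (gmul_inj ε ε' w).symm
  change ((algebraMap k A (gmul ε ε' w) • vtm ε 1) ⊗ₜ[k] ((1 : B) • vtm ε' 1) :
    (trivM ε) ⊗[k] (trivM ε')) = _
  rw [one_smul]
  congr 1
  apply tvm_inj
  rw [tvm_smul, tvm_vtm, tvm_vtm, mul_one, ε.commutes]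
  rfl

end bfd

section main

variable {k : Type u} [Field k] {A B C : Type u} [Ring A] [HopfAlgebra k A] [Ring B]
  [HopfAlgebra k B] [Ring C] [HopfAlgebra k C]

/-- The trace condition for central left coideal subalgebras. -/
def TrC (k : Type u) [Field k] (A : Type u) [Ring A] [HopfAlgebra k A] : Prop :=
  ∀ D : Subalgebra k A, (∀ d ∈ D, ∀ a : A, a * d = d * a) →
    (∀ d ∈ D, ∀ w : A →ₗ[k] k, lv w d ∈ D) →
    ∃ d : D, LinearMap.trace k D (LinearMap.mulLeft k d) ≠ 0

theorem iota_L_ne [Module.Finite k A] [Module.Finite k B] [Module.Finite k C]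
    (ι : A →ₐc[k] B) (π : B →ₐc[k] C) (hι : Function.Injective ι)
    (hιπ : ∀ a, π (ι a) = counit (R := k) a • (1 : C))
    (hnr : ∀ a b, adr (k := k) (ι a) b ∈ Set.range ι) (htr : TrC k A)
    {L : A} {lam : A →ₗ[k] k} (hL : IsLS L lam) : ((qB π).comp ι) L ≠ 0 := by
  set g : A →ₐc[k] QB π := (qB π).comp ι with hg
  have hH : (RingHom.ker (pal g)).IsHopfIdeal k := ker_hopf g
  let f : A →ₐc[k] A ⧸ RingHom.ker (pal g) := Bialgebra.Quotient.mkBialgHom (RingHom.ker (pal g))
  have hf : Function.Surjective f := Ideal.Quotient.mk_surjective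
  have hf0 : ∀ x, f x = 0 ↔ g x = 0 := fun x => Ideal.Quotient.eq_zero_iff_mem
  have hk : ∀ a x, f x = 0 → adr (k := k) a x = 0 := by
    intro a x hx
    rw [hf0] at hx
    have h1 : ι x ∈ Jid π := (qB_zero π (ι x)).1 hx
    have h2 := adr_Jid ι π hιπ hnr h1 a
    rw [← iota_adr] at h2
    apply hι
    rw [h2]
    exact (map_zero (pal ι)).symm
  have hfin : Module.Finite k (A ⧸ RingHom.ker (pal g)) :=
    Module.Finite.of_surjective (pal f).toLinearMap hf
  have h3 := f_L_ne f hf hk (htr (Dd f) (fun d hd a => Dd_comm f hf hk hd a)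
    (fun d hd w => lv_mem_Dd hd w)) hL
  intro h4
  exact h3 ((hf0 L).2 h4)

theorem main_int [Module.Finite k A] [Module.Finite k B] [Module.Finite k C]
    (ι : A →ₐc[k] B) (π : B →ₐc[k] C) (hι : Function.Injective ι) (hπ : Function.Surjective π)
    (hιπ : ∀ a, π (ι a) = counit (R := k) a • (1 : C))
    (hker : ∀ b, π b = 0 → b ∈ Ideal.span (ι '' {a | counit (R := k) a = 0}))
    (hnl : ∀ a b, adl (AlgHom.id k B) (ι a) b ∈ Set.range ι)
    (hnr : ∀ a b, adr (k := k) (ι a) b ∈ Set.range ι)
    (htr : TrC k A)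
    (he : ∃ e : QC k C, (∀ h, e * h = counit (R := k) h • e) ∧ counit (R := k) e = 1)
    (hA : FG k (FD k) (trivH k A)) (hC : FG k (FD k) (trivH k C)) :
    FG k (FD k) (trivH k B) := by
  have hfE : Module.Finite k (QB π) := Module.Finite.of_surjective (pal (qB π)).toLinearMap
    (qB_surj π)
  have hfG : Module.Finite k (QC k C) := Module.Finite.of_surjective (pal (qC k C)).toLinearMap
    qC_surj
  obtain ⟨e, he1, he2⟩ := he
  set g : A →ₐc[k] QB π := (qB π).comp ι with hg
  have hρ := rho_surj π hπ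
  have hρg := rho_iota ι π hιπ
  have hKR := kerR_rho ι π hπ (kerR_of ι π hker hnl)
  obtain ⟨L, lam, hL⟩ := exists_LS (k := k) (H := A)
  have hgL : g L ≠ 0 := iota_L_ne ι π hι hιπ hnr htr hL
  have hproj := proj_E g (rho π) hρ hρg hKR hL.left hgL
  obtain ⟨z, hz⟩ := hρ e
  have hz1 : ∀ h, rho π z * h = counit (R := k) h • rho π z := by
    rw [hz]; exact he1
  have hz2 : counit (R := k) z = 1 := by
    rw [← counit_map (rho π) z, hz, he2]
  -- finite generation for the quotient
  have hres : (ModuleCat.restrictScalars.{u} (pal g).toRingHom).obj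
      (trivM (Bialgebra.counitAlgHom k (QB π))) = trivH k A := by
    apply res_triv (pal g) _ _
    apply AlgHom.ext
    intro a
    exact counit_map g a
  have hFE : FG k (FD k) (trivH k (QB π)) := by
    refine split_alg (pal g) hproj (sigT g (rho π) hρ hKR hz1)
      (Bialgebra.counitAlgHom k (QB π)) (sigT_unit g (rho π) hρ hKR hz1 hz2 _) ?_ ?_
    · rw [hres]
      exact noeth_of_finiteType hA.1
    · rw [hres]
      exact hA
  -- the tensor product
  have hbox : FG k (FD k) (box k (trivH k C) (trivH k (QB π))) :=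
    box_FG (Bialgebra.counitAlgHom k C) (Bialgebra.counitAlgHom k (QB π)) gc gc hC hFE
  have hprojB := proj_CE ι π (qB π) hπ (kerL_of ι π hker) hιπ hproj
  have hX : FD k (box k (trivH k C) (trivH k (QB π))) := box_triv_FD _ _
  have hsh := shapiro_alg (dl (pal π) (pal (qB π))) hprojB _ hX hbox
  refine FG.of_iso (FD k) (resBoxIso (dl (pal π) (pal (qB π))) _ _ _ ?_) hsh
  intro b
  have h1 : dl (pal π) (pal (qB π)) b = ∑ i ∈ (ℛ k b).index,
      π ((ℛ k b).left i) ⊗ₜ[k] qB π ((ℛ k b).right i) := by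
    change TensorProduct.map (pal π).toLinearMap (pal (qB π)).toLinearMap
      (comul (R := k) b) = _
    conv_lhs => rw [← (ℛ k b).eq, map_sum]
    rfl
  rw [h1, map_sum]
  have h2 := congrArg (counit (R := k)) (Coalgebra.sum_counit_smul (ℛ k b))
  rw [map_sum] at h2
  refine Eq.trans ?_ h2
  refine Finset.sum_congr rfl fun i _ => ?_
  rw [augT_tmul, map_smul]
  change counit (R := k) (π _) * counit (R := k) (qB π _) = _
  rw [counit_map, counit_map]
  rfl

end main

end Run7.h234
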