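import Mathlib
import Pool.Agent.Run7.h234.Cv

/-!
Integrals on a finite-dimensional Hopf algebra.
-/

set_option autoImplicit false
set_option linter.unusedVariables false
set_option linter.unusedSectionVars false

universe u

open TensorProduct Coalgebra WithConv

namespace Run7.h234

section gen

variable {k : Type u} [Field k] {C : Type u} [AddCommGroup C] [Module k C] [Coalgebra k C]

theorem comul_rv (w : C →ₗ[k] k) (c : C) :
    comul (R := k) (rv w c) = LinearMap.lTensor C (rv w) (comul (R := k) c) := by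
  have h1 : LinearMap.lTensor C (rv w) (comul (R := k) c) =
      LinearMap.lTensor C ((TensorProduct.rid k C).toLinearMap ∘ₗ LinearMap.lTensor C w)
        (LinearMap.lTensor C (comul (R := k)) (comul (R := k) c)) := by
    have h0 : LinearMap.lTensor C (rv w) =
        LinearMap.lTensor C ((TensorProduct.rid k C).toLinearMap ∘ₗ LinearMap.lTensor C w) ∘ₗ
          LinearMap.lTensor C (comul (R := k)) := by
      rw [← LinearMap.lTensor_comp]; rfl
    rw [h0]; rfl
  have h2 : LinearMap.lTensor C (comul (R := k)) (comul (R := k) c) =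
      (TensorProduct.assoc k C C C) (LinearMap.rTensor C (comul (R := k)) (comul (R := k) c)) :=
    (LinearMap.congr_fun (Coalgebra.coassoc (R := k) (A := C)) c).symm
  rw [h1, h2]
  have h3 : (comul (R := k) ∘ₗ ((TensorProduct.rid k C).toLinearMap ∘ₗ LinearMap.lTensor C w)) =
      LinearMap.lTensor C ((TensorProduct.rid k C).toLinearMap ∘ₗ LinearMap.lTensor C w) ∘ₗ
        (TensorProduct.assoc k C C C).toLinearMap ∘ₗ LinearMap.rTensor C (comul (R := k)) := by
    apply TensorProduct.ext'
    intro p r
    simp only [LinearMap.comp_apply, LinearMap.lTensor_tmul, LinearMap.rTensor_tmul,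
      LinearEquiv.coe_coe, TensorProduct.rid_tmul, map_smul]
    generalize comul (R := k) p = t
    induction t using TensorProduct.induction_on with
    | zero => simp
    | tmul x y => simp
    | add x y hx hy => rw [smul_add, hx, hy, TensorProduct.add_tmul, map_add, map_add]
  exact LinearMap.congr_fun h3 (comul (R := k) c)

theorem rv_rv (v w : C →ₗ[k] k) (c : C) : rv v (rv w c) = rv (v ∘ₗ rv w) c := by
  change (TensorProduct.rid k C) (LinearMap.lTensor C v (comul (R := k) (rv w c))) =
    (TensorProduct.rid k C) (LinearMap.lTensor C (v ∘ₗ rv w) (comul (R := k) c))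
  rw [comul_rv, LinearMap.lTensor_comp, LinearMap.comp_apply]

theorem rv_add (v w : C →ₗ[k] k) (c : C) : rv (v + w) c = rv v c + rv w c := by
  simp [rv_repr, add_smul, Finset.sum_add_distrib]

theorem rv_smul (a : k) (v : C →ₗ[k] k) (c : C) : rv (a • v) c = a • rv v c := by
  simp [rv_repr, Finset.smul_sum, mul_smul]

theorem rv_counit (c : C) : rv (counit (R := k)) c = c := by
  rw [rv_repr, sum_smul_counit]

variable (C) in
/-- `rv` as a linear map of the functional. -/
noncomputable def rvL : (C →ₗ[k] k) →ₗ[k] C →ₗ[k] C where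
  toFun v := rv v
  map_add' v w := LinearMap.ext fun c => rv_add v w c
  map_smul' a v := LinearMap.ext fun c => rv_smul a v c

theorem rv_sum {ι : Type*} (s : Finset ι) (v : ι → C →ₗ[k] k) (c : C) :
    rv (∑ i ∈ s, v i) c = ∑ i ∈ s, rv (v i) c := by
  have := LinearMap.congr_fun (map_sum (rvL C) v s) c
  rw [LinearMap.sum_apply] at this
  exact this

end gen

section LS

variable {k : Type u} [Field k] {H : Type u} [Ring H] [HopfAlgebra k H]

/-- Applying a functional to the second factor. -/
noncomputable def rT (w : H →ₗ[k] k) : H ⊗[k] H →ₗ[k] H :=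
  (TensorProduct.rid k H).toLinearMap ∘ₗ LinearMap.lTensor H w

theorem rT_tmul (w : H →ₗ[k] k) (p r : H) : rT w (p ⊗ₜ[k] r) = w r • p := by
  simp [rT]

theorem rv_eq_rT (w : H →ₗ[k] k) (c : H) : rv w c = rT w (comul (R := k) c) := rfl

theorem rT_mul (w : H →ₗ[k] k) (p r : H) (t : H ⊗[k] H) :
    rT w ((p ⊗ₜ[k] r) * t) = p * rT (w ∘ₗ LinearMap.mulLeft k r) t := by
  induction t using TensorProduct.induction_on with
  | zero => simp
  | tmul a b =>
    rw [Algebra.TensorProduct.tmul_mul_tmul, rT_tmul, rT_tmul, LinearMap.comp_apply,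
      LinearMap.mulLeft_apply, mul_smul_comm]
  | add a b ha hb => rw [mul_add, map_add, map_add, mul_add, ha, hb]

theorem rv_mul (w : H →ₗ[k] k) (h y : H) :
    rv w (h * y) = ∑ i ∈ (ℛ k h).index,
      (ℛ k h).left i * rv (w ∘ₗ LinearMap.mulLeft k ((ℛ k h).right i)) y := by
  rw [rv_eq_rT, Bialgebra.comul_mul]
  conv_lhs => rw [← (ℛ k h).eq, Finset.sum_mul, map_sum]
  refine Finset.sum_congr rfl fun i _ => ?_
  rw [rT_mul]; rfl

/-- The map `Θ`. -/
noncomputable def Th {ι : Type*} [Fintype ι] (b : Module.Basis ι k H) :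
    (ι → H) →ₗ[k] (H →ₗ[k] H) :=
  LinearMap.mk₂ k (fun y x => ∑ i, rv (b.coord i ∘ₗ LinearMap.mulLeft k x) (y i))
    (fun y y' x => by simp [Finset.sum_add_distrib])
    (fun a y x => by simp [Finset.smul_sum])
    (fun y x x' => by
      rw [← Finset.sum_add_distrib]
      refine Finset.sum_congr rfl fun i _ => ?_
      rw [← rv_add]; congr 2
      ext c; simp [add_mul])
    (fun a y x => by
      rw [Finset.smul_sum]
      refine Finset.sum_congr rfl fun i _ => ?_
      rw [← rv_smul]; congr 2
      ext c; simp)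

theorem Th_apply {ι : Type*} [Fintype ι] (b : Module.Basis ι k H) (y : ι → H) (x : H) :
    Th b y x = ∑ i, rv (b.coord i ∘ₗ LinearMap.mulLeft k x) (y i) := rfl

theorem sum_mul_Th {ι : Type*} [Fintype ι] (b : Module.Basis ι k H) (y : ι → H) (h x : H) :
    ∑ j ∈ (ℛ k h).index, (ℛ k h).left j * Th b y (x * (ℛ k h).right j) =
      Th b (fun i => h * y i) x := by
  simp only [Th_apply, rv_mul, Finset.mul_sum]
  rw [Finset.sum_comm]
  refine Finset.sum_congr rfl fun i _ => Finset.sum_congr rfl fun j _ => ?_
  have h0 : b.coord i ∘ₗ LinearMap.mulLeft k (x * (ℛ k h).right j) =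
      (b.coord i ∘ₗ LinearMap.mulLeft k x) ∘ₗ LinearMap.mulLeft k ((ℛ k h).right j) := by
    ext c
    simp [mul_assoc]
  rw [h0]

theorem Th_rank_one {ι : Type*} [Fintype ι] (b : Module.Basis ι k H) (v₀ : H →ₗ[k] k) (y₀ x : H) :
    Th b (fun i => rv (v₀ ∘ₗ LinearMap.mulLeft k (b i) ∘ₗ HopfAlgebra.antipode k) y₀) x =
      v₀ x • y₀ := by
  rw [Th_apply]
  simp only [rv_rv]
  rw [← rv_sum]
  have key : (∑ i, (b.coord i ∘ₗ LinearMap.mulLeft k x) ∘ₗ
      rv (v₀ ∘ₗ LinearMap.mulLeft k (b i) ∘ₗ HopfAlgebra.antipode k)) = v₀ x • counit (R := k) := by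
    ext c
    rw [LinearMap.sum_apply]
    simp only [LinearMap.comp_apply, rv_repr, map_sum, map_smul, LinearMap.mulLeft_apply]
    rw [Finset.sum_comm]
    have h1 : ∀ j ∈ (ℛ k c).index, ∑ i, v₀ (b i * HopfAlgebra.antipode k ((ℛ k c).right j)) •
        b.coord i (x * (ℛ k c).left j) =
        v₀ ((x * (ℛ k c).left j) * HopfAlgebra.antipode k ((ℛ k c).right j)) := by
      intro j _
      have h2 := b.sum_repr (x * (ℛ k c).left j)
      conv_rhs => rw [← h2]
      rw [Finset.sum_mul, map_sum]
      refine Finset.sum_congr rfl fun i _ => ?_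
      rw [smul_mul_assoc, map_smul, Module.Basis.coord_apply, smul_eq_mul, smul_eq_mul, mul_comm]
    rw [Finset.sum_congr rfl h1, ← map_sum]
    have h3 := HopfAlgebra.sum_mul_antipode_eq_smul (ℛ k c)
    simp only [mul_assoc]
    rw [← Finset.mul_sum, h3]
    simp [mul_comm]
  rw [key, rv_smul, rv_counit]

theorem Th_surjective {ι : Type*} [Fintype ι] (b : Module.Basis ι k H) :
    Function.Surjective (Th b) := by
  intro F
  have h : F = ∑ j, (LinearMap.toSpanSingleton k H (F (b j))) ∘ₗ b.coord j := by
    apply b.ext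
    intro i
    rw [LinearMap.sum_apply, Finset.sum_eq_single i]
    · simp
    · intro j _ hj
      simp [Finsupp.single_eq_of_ne hj]
    · intro hi; exact absurd (Finset.mem_univ i) hi
  rw [h]
  have : (∑ j, (LinearMap.toSpanSingleton k H (F (b j))) ∘ₗ b.coord j) ∈ LinearMap.range (Th b) := by
    apply Submodule.sum_mem
    intro j _
    refine ⟨_, LinearMap.ext fun x => Th_rank_one b (b.coord j) (F (b j)) x⟩
  exact this

theorem Th_injective [Module.Finite k H] :
    Function.Injective (Th (Module.finBasis k H)) := by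
  have h1 : Module.finrank k (Fin (Module.finrank k H) → H) = Module.finrank k (H →ₗ[k] H) := by
    rw [Module.finrank_linearMap, Module.finrank_pi_fintype]
    simp
  rw [LinearMap.injective_iff_surjective_of_finrank_eq_finrank h1]
  exact Th_surjective _

variable (k H) in
/-- Left integrals. -/
def intL : Submodule k H where
  carrier := {h | ∀ x : H, x * h = counit (R := k) x • h}
  add_mem' := by
    intro a b ha hb x
    rw [mul_add, ha x, hb x, smul_add]
  zero_mem' := by intro x; simp
  smul_mem' := by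
    intro c a ha x
    rw [mul_smul_comm, ha x, smul_comm]

theorem mem_intL {h : H} : h ∈ intL k H ↔ ∀ x : H, x * h = counit (R := k) x • h := Iff.rfl

/-- Elements with `h₁ F(x h₂) = ε(h) F(x)` are of the form `S(x) F(1)`. -/
theorem eq_antipode_of_inv (F : H →ₗ[k] H)
    (hF : ∀ h : H, ∑ j ∈ (ℛ k h).index, (ℛ k h).left j * F ((ℛ k h).right j) =
      counit (R := k) h • F 1) (x : H) : F x = HopfAlgebra.antipode k x * F 1 := by
  have h1 : (ca (AlgHom.id k H) : Cv k H H) * cv F = cst H (F 1) := by
    apply cv_ext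
    intro h
    rw [mul_apply_repr, cst_apply]
    exact hF h
  have h2 := congrArg (fun z => (cs (AlgHom.id k H) : Cv k H H) * z) h1
  simp only [← mul_assoc, cs_mul_ca, one_mul] at h2
  have h3 := congrArg (fun z : Cv k H H => z x) h2
  simp only [mul_cst_apply] at h3
  exact h3

theorem Th_mem_int [Module.Finite k H] (y : Fin (Module.finrank k H) → H) (a : H)
    (h : ∀ x, Th (Module.finBasis k H) y x = HopfAlgebra.antipode k x * a) (i) :
    y i ∈ intL k H := by
  intro g
  have h1 : (fun i => g * y i) = counit (R := k) g • y := by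
    apply Th_injective
    rw [map_smul]
    apply LinearMap.ext
    intro x
    rw [← sum_mul_Th, LinearMap.smul_apply]
    simp only [h]
    have h2 := HopfAlgebra.sum_mul_antipode_eq_smul (ℛ k g)
    have h3 : ∀ j ∈ (ℛ k g).index, (ℛ k g).left j *
        (HopfAlgebra.antipode k (x * (ℛ k g).right j) * a) =
        ((ℛ k g).left j * HopfAlgebra.antipode k ((ℛ k g).right j)) *
          (HopfAlgebra.antipode k x * a) := by
      intro j _
      rw [HopfAlgebra.antipode_mul_antidistrib]
      simp only [mul_assoc]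
    rw [Finset.sum_congr rfl h3, ← Finset.sum_mul, h2]
    simp
  exact congrFun h1 i

theorem Th_of_int [Module.Finite k H] (y : Fin (Module.finrank k H) → H)
    (hy : ∀ i, y i ∈ intL k H) (x : H) :
    Th (Module.finBasis k H) y x =
      HopfAlgebra.antipode k x * Th (Module.finBasis k H) y 1 := by
  apply eq_antipode_of_inv
  intro h
  have h1 := sum_mul_Th (Module.finBasis k H) y h 1
  simp only [one_mul] at h1
  rw [h1]
  have h2 : (fun i => h * y i) = counit (R := k) h • y := by
    funext i
    exact hy i h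
  rw [h2, map_smul, LinearMap.smul_apply]

theorem finrank_intL [Module.Finite k H] : Module.finrank k (intL k H) = 1 := by
  have hn : Nontrivial H := by
    refine ⟨⟨1, 0, fun h => ?_⟩⟩
    have := congrArg (counit (R := k)) h
    rw [Bialgebra.counit_one, map_zero] at this
    exact one_ne_zero this
  set n := Module.finrank k H with hndef
  have hpos : 0 < n := Module.finrank_pos
  let Φ : (Fin n → intL k H) →ₗ[k] H :=
    LinearMap.applyₗ (1 : H) ∘ₗ Th (Module.finBasis k H) ∘ₗ
      LinearMap.compLeft (intL k H).subtype (Fin n)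
  have hΦ : ∀ y, Φ y = Th (Module.finBasis k H) (fun i => (y i : H)) 1 := fun y => rfl
  have hinj : Function.Injective Φ := by
    rw [← LinearMap.ker_eq_bot, LinearMap.ker_eq_bot']
    intro y hy
    rw [hΦ] at hy
    have h1 : Th (Module.finBasis k H) (fun i => (y i : H)) = 0 := by
      apply LinearMap.ext
      intro x
      rw [Th_of_int _ (fun i => (y i).2) x, hy, mul_zero, LinearMap.zero_apply]
    have h2 : (fun i => (y i : H)) = 0 := Th_injective (by rw [h1, map_zero])
    funext i
    exact Subtype.ext (congrFun h2 i)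
  have hsurj : Function.Surjective Φ := by
    intro a
    obtain ⟨y, hy⟩ := Th_surjective (Module.finBasis k H)
      (LinearMap.mulRight k a ∘ₗ HopfAlgebra.antipode k)
    have hy' : ∀ x, Th (Module.finBasis k H) y x = HopfAlgebra.antipode k x * a := fun x => by
      rw [hy]; rfl
    refine ⟨fun i => ⟨y i, Th_mem_int y a hy' i⟩, ?_⟩
    rw [hΦ, hy' 1, HopfAlgebra.antipode_one, one_mul]
  have h3 := (LinearEquiv.ofBijective Φ ⟨hinj, hsurj⟩).finrank_eq
  rw [Module.finrank_pi_fintype] at h3
  simp only [Finset.sum_const, Finset.card_univ, Fintype.card_fin, smul_eq_mul] at h3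
  rw [← hndef] at h3
  exact Nat.eq_of_mul_eq_mul_left hpos (by rw [h3, mul_one])

theorem LS_exists [Module.Finite k H] : ∃ (L : H) (lam : H →ₗ[k] k), L ≠ 0 ∧
    (∀ h : H, h * L = counit (R := k) h • L) ∧
    (∀ x, rv (lam ∘ₗ LinearMap.mulLeft k x) L = HopfAlgebra.antipode k x) ∧
    (∀ v : H →ₗ[k] k, rv v L = 0 → v = 0) := by
  obtain ⟨⟨L, hL⟩, hL0, hspan⟩ := finrank_eq_one_iff'.1 (finrank_intL (k := k) (H := H))
  have hL0' : L ≠ 0 := fun h => hL0 (Subtype.ext h)
  obtain ⟨y, hy⟩ := Th_surjective (Module.finBasis k H) (HopfAlgebra.antipode k)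
  have hy' : ∀ x, Th (Module.finBasis k H) y x = HopfAlgebra.antipode k x * 1 := fun x => by
    rw [hy, mul_one]
  have hc : ∀ i, ∃ c : k, c • L = y i := by
    intro i
    obtain ⟨c, hc⟩ := hspan ⟨y i, Th_mem_int y 1 hy' i⟩
    exact ⟨c, congrArg Subtype.val hc⟩
  choose c hc using hc
  refine ⟨L, ∑ i, c i • (Module.finBasis k H).coord i, hL0', hL, ?_, ?_⟩
  · intro x
    have h1 : (∑ i, c i • (Module.finBasis k H).coord i) ∘ₗ LinearMap.mulLeft k x =
        ∑ i, c i • ((Module.finBasis k H).coord i ∘ₗ LinearMap.mulLeft k x) := by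
      ext z
      simp
    rw [h1, rv_sum, ← hy, Th_apply]
    refine Finset.sum_congr rfl fun i _ => ?_
    rw [rv_smul, ← hc i, map_smul]
  · intro v hv
    have h1 : Th (Module.finBasis k H) (fun i => v (Module.finBasis k H i) • L) = 0 := by
      apply LinearMap.ext
      intro x
      rw [Th_of_int _ (fun i => Submodule.smul_mem _ _ hL) x]
      have h2 : Th (Module.finBasis k H) (fun i => v (Module.finBasis k H i) • L) 1 = rv v L := by
        rw [Th_apply]
        have h3 : v = ∑ i, v (Module.finBasis k H i) • ((Module.finBasis k H).coord i ∘ₗ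
            LinearMap.mulLeft k (1 : H)) := by
          apply (Module.finBasis k H).ext
          intro j
          rw [LinearMap.sum_apply, Finset.sum_eq_single j]
          · simp
          · intro i _ hi
            simp [Finsupp.single_eq_of_ne hi]
          · intro hj; exact absurd (Finset.mem_univ j) hj
        conv_rhs => rw [h3, rv_sum]
        refine Finset.sum_congr rfl fun i _ => ?_
        rw [rv_smul, map_smul]
      rw [h2, hv, mul_zero, LinearMap.zero_apply]
    have h2 : (fun i => v (Module.finBasis k H i) • L) = 0 := Th_injective (by rw [h1, map_zero])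
    apply (Module.finBasis k H).ext
    intro i
    have h3 := congrFun h2 i
    simp only [Pi.zero_apply, smul_eq_zero] at h3
    rcases h3 with h3 | h3
    · rw [h3, LinearMap.zero_apply]
    · exact absurd h3 hL0'

/-- The Larson and Sweedler data. -/
structure IsLS (L : H) (lam : H →ₗ[k] k) : Prop where
  left : ∀ h : H, h * L = counit (R := k) h • L
  anti : ∀ x, rv (lam ∘ₗ LinearMap.mulLeft k x) L = HopfAlgebra.antipode k x
  nd : ∀ v : H →ₗ[k] k, rv v L = 0 → v = 0

theorem exists_LS [Module.Finite k H] : ∃ (L : H) (lam : H →ₗ[k] k), IsLS L lam := by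
  obtain ⟨L, lam, -, h1, h2, h3⟩ := LS_exists (k := k) (H := H)
  exact ⟨L, lam, h1, h2, h3⟩

theorem counit_rv (v : H →ₗ[k] k) (c : H) : counit (R := k) (rv v c) = v c := by
  rw [rv_repr, map_sum]
  simp only [map_smul]
  have h := Coalgebra.sum_counit_smul (ℛ k c)
  conv_rhs => rw [← h, map_sum]
  refine Finset.sum_congr rfl fun i _ => ?_
  rw [map_smul, smul_eq_mul, smul_eq_mul, mul_comm]

theorem IsLS.rv_one {L : H} {lam : H →ₗ[k] k} (h : IsLS L lam) : rv lam L = 1 := by
  have h1 := h.anti 1
  rw [HopfAlgebra.antipode_one] at h1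
  rw [← h1]
  congr 1
  ext c
  simp

theorem IsLS.lam_L {L : H} {lam : H →ₗ[k] k} (h : IsLS L lam) : lam L = 1 := by
  have h1 := congrArg (counit (R := k)) h.rv_one
  rwa [counit_rv, Bialgebra.counit_one] at h1

theorem rv_map_one (v : H →ₗ[k] k) : rv v (1 : H) = v 1 • (1 : H) := by
  rw [rv_eq_rT, Bialgebra.comul_one, Algebra.TensorProduct.one_def, rT_tmul]

theorem eq_of_dual {V : Type u} [AddCommGroup V] [Module k V] {x y : V}
    (h : ∀ f : V →ₗ[k] k, f x = f y) : x = y := by
  rw [← sub_eq_zero, ← Module.forall_dual_apply_eq_zero_iff k]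
  intro f
  rw [map_sub, h f, sub_self]

theorem rv_sub_smul (v w : H →ₗ[k] k) (a : k) (c : H) :
    rv (v - a • w) c = rv v c - a • rv w c := by
  have h : v - a • w = v + (-a) • w := by
    ext z
    simp [sub_eq_add_neg]
  rw [h, rv_add, rv_smul, neg_smul, sub_eq_add_neg]

theorem IsLS.rv_lam {L : H} {lam : H →ₗ[k] k} (h : IsLS L lam) (c : H) :
    rv lam c = lam c • (1 : H) := by
  apply eq_of_dual (k := k)
  intro f
  have h1 : f ∘ₗ rv lam - f 1 • lam = 0 := by
    apply h.nd
    rw [rv_sub_smul, ← rv_rv, h.rv_one, rv_map_one, sub_self]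
  have h3 := LinearMap.congr_fun (sub_eq_zero.1 h1) c
  rw [LinearMap.comp_apply] at h3
  rw [h3, map_smul, LinearMap.smul_apply, smul_eq_mul, smul_eq_mul, mul_comm]

/-- `c₁ λ(c₂) = λ(c) 1` in the convolution ring. -/
theorem IsLS.id_mul {L : H} {lam : H →ₗ[k] k} (h : IsLS L lam) {R : Type u} [Ring R] [Algebra k R]
    (F : H →ₐ[k] R) : ca F * sc lam = sc lam := by
  rw [mul_sc]
  apply cv_ext
  intro c
  rw [cv_apply, LinearMap.comp_apply, h.rv_lam, map_smul, sc_apply]
  change _ • F 1 = _
  rw [map_one]

theorem lam_zero {L : H} {lam : H →ₗ[k] k} (h : IsLS L lam) {x : H}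
    (hx : HopfAlgebra.antipode k x = 0) (c : H) : lam (x * c) = 0 := by
  have h1 := h.nd (lam ∘ₗ LinearMap.mulLeft k x) (by rw [h.anti, hx])
  exact LinearMap.congr_fun h1 c

theorem mulLeft_add' (x y : H) :
    LinearMap.mulLeft k (x + y) = LinearMap.mulLeft k x + LinearMap.mulLeft k y := by
  ext z; simp [add_mul]

theorem mulLeft_smul' (a : k) (x : H) :
    LinearMap.mulLeft k (a • x) = a • LinearMap.mulLeft k x := by
  ext z; simp

theorem IsLS.rad1 {L : H} {lam : H →ₗ[k] k} (h : IsLS L lam) {c : H}
    (hc : ∀ x, lam (x * c) = 0) (x : H) : rv (lam ∘ₗ LinearMap.mulLeft k x) c = 0 := by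
  have h0 : ∀ y, (∑ j ∈ (ℛ k y).index, (ℛ k y).left j *
      rv (lam ∘ₗ LinearMap.mulLeft k ((ℛ k y).right j)) c) = 0 := by
    intro y
    rw [← rv_mul, h.rv_lam, hc, zero_smul]
  let G : Cv k H H := cv
    { toFun := fun y => rv (lam ∘ₗ LinearMap.mulLeft k y) c
      map_add' := fun y y' => by
        rw [mulLeft_add', LinearMap.comp_add, rv_add]
      map_smul' := fun a y => by
        rw [RingHom.id_apply, mulLeft_smul', LinearMap.comp_smul, rv_smul] }
  have hG : ∀ y, G y = rv (lam ∘ₗ LinearMap.mulLeft k y) c := fun y => rfl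
  have h2 : (ca (AlgHom.id k H) : Cv k H H) * G = 0 := by
    apply cv_ext
    intro y
    rw [mul_apply_repr]
    exact h0 y
  have h3 : G = 0 := by
    calc G = cs (AlgHom.id k H) * (ca (AlgHom.id k H) * G) := by
          rw [← mul_assoc, cs_mul_ca, one_mul]
      _ = 0 := by rw [h2, mul_zero]
  rw [← hG, h3]; rfl

theorem IsLS.rad2 [Module.Finite k H] {L : H} {lam : H →ₗ[k] k} (h : IsLS L lam) {c : H}
    (hc : ∀ x, lam (x * c) = 0) : counit (R := k) c = 0 := by
  have h2 : ∀ x, counit (R := k) c • lam x = 0 := by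
    intro x
    have h3 : counit (R := k) c • lam x =
        ∑ j ∈ (ℛ k c).index, lam ((x * HopfAlgebra.antipode k ((ℛ k c).left j)) *
          (ℛ k c).right j) := by
      have h4 := HopfAlgebra.sum_antipode_mul_eq_smul (ℛ k c)
      simp only [mul_assoc]
      rw [← map_sum, ← Finset.mul_sum, h4, mul_smul_comm, mul_one, map_smul]
    rw [h3]
    have h5 : ∀ j ∈ (ℛ k c).index, lam ((x * HopfAlgebra.antipode k ((ℛ k c).left j)) *
          (ℛ k c).right j) = ∑ i, (Module.finBasis k H).coord i
            (x * HopfAlgebra.antipode k (lam (Module.finBasis k H i * (ℛ k c).right j) •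
              (ℛ k c).left j)) := by
      intro j _
      have h6 := (Module.finBasis k H).sum_repr
        (x * HopfAlgebra.antipode k ((ℛ k c).left j))
      conv_lhs => rw [← h6, Finset.sum_mul, map_sum]
      refine Finset.sum_congr rfl fun i _ => ?_
      rw [smul_mul_assoc, map_smul, map_smul, mul_smul_comm, map_smul, Module.Basis.coord_apply,
        smul_eq_mul, smul_eq_mul, mul_comm]
    rw [Finset.sum_congr rfl h5, Finset.sum_comm]
    refine Finset.sum_eq_zero fun i _ => ?_
    rw [← map_sum, ← Finset.mul_sum, ← map_sum]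
    have h7 := h.rad1 hc (Module.finBasis k H i)
    rw [rv_repr] at h7
    have h8 : ∑ j ∈ (ℛ k c).index, lam (Module.finBasis k H i * (ℛ k c).right j) •
        (ℛ k c).left j = 0 := h7
    rw [h8, map_zero, mul_zero, map_zero]
  have := h2 L
  rwa [h.lam_L, smul_eq_mul, mul_one] at this

theorem mul_lv (v : H →ₗ[k] k) (w : H →ₗ[k] k) (c : H) : w (lv v c) = v (rv w c) := by
  rw [lv_repr, rv_repr, map_sum, map_sum]
  refine Finset.sum_congr rfl fun i _ => ?_
  rw [map_smul, map_smul, smul_eq_mul, smul_eq_mul, mul_comm]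

/-- The right radical of the form of an integral vanishes. -/
theorem IsLS.right_zero [Module.Finite k H] {L : H} {lam : H →ₗ[k] k} (h : IsLS L lam) {c : H}
    (hc : ∀ x, lam (x * c) = 0) : c = 0 := by
  apply eq_of_dual (k := k)
  intro f
  have h1 : ∀ x, lam (x * lv f c) = 0 := by
    intro x
    have h2 := mul_lv f (lam ∘ₗ LinearMap.mulLeft k x) c
    rw [h.rad1 hc x, map_zero] at h2
    exact h2
  have h3 := h.rad2 h1
  rw [mul_lv, rv_counit] at h3
  rw [h3, map_zero]

/-- The antipode of a finite-dimensional Hopf algebra is injective. -/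
theorem antipode_injective [Module.Finite k H] :
    Function.Injective (HopfAlgebra.antipode k : H →ₗ[k] H) := by
  obtain ⟨L, lam, h⟩ := exists_LS (k := k) (H := H)
  rw [← LinearMap.ker_eq_bot, LinearMap.ker_eq_bot']
  intro x hx
  have h1 := lam_zero h hx
  let β : H →ₗ[k] (H →ₗ[k] k) := LinearMap.mk₂ k (fun y z => lam (z * y))
    (fun a b c => by rw [mul_add, map_add])
    (fun a b c => by rw [mul_smul_comm, map_smul])
    (fun a b c => by rw [add_mul, map_add])
    (fun a b c => by rw [smul_mul_assoc, map_smul])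
  have hβ : Function.Injective β := by
    rw [← LinearMap.ker_eq_bot, LinearMap.ker_eq_bot']
    intro y hy
    exact h.right_zero fun z => LinearMap.congr_fun hy z
  have hβs : Function.Surjective β := by
    rwa [← LinearMap.injective_iff_surjective_of_finrank_eq_finrank]
    exact (Subspace.dual_finrank_eq (K := k) (V := H)).symm
  apply eq_of_dual (k := k)
  intro f
  obtain ⟨y, rfl⟩ := hβs f
  rw [map_zero]
  exact h1 y

theorem antipode_bijective [Module.Finite k H] :
    Function.Bijective (HopfAlgebra.antipode k : H →ₗ[k] H) :=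
  ⟨antipode_injective, (LinearMap.injective_iff_surjective).1 antipode_injective⟩

end LS

end Run7.h234
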