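import Mathlib
import Pool.Agent.Run7.h234.LS

/-!
Bialgebra maps and the coefficient maps `rv`, `lv`.
-/

set_option autoImplicit false
set_option linter.unusedVariables false
set_option linter.unusedSectionVars false

universe u

open TensorProduct Coalgebra WithConv

namespace Run7.h234

section tens

variable {k : Type u} [Field k] {V W : Type u} [AddCommGroup V] [Module k V] [AddCommGroup W]
  [Module k W]

theorem tens_ext_r (t t' : V ⊗[k] W)
    (h : ∀ g : W →ₗ[k] k, (TensorProduct.rid k V) (LinearMap.lTensor V g t) =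
      (TensorProduct.rid k V) (LinearMap.lTensor V g t')) : t = t' := by
  classical
  let b := Module.Basis.ofVectorSpace k W
  apply (TensorProduct.equivFinsuppOfBasisRight (M := V) b).injective
  ext i
  rw [TensorProduct.equivFinsuppOfBasisRight_apply, TensorProduct.equivFinsuppOfBasisRight_apply]
  exact h (b.coord i)

theorem tens_ext_l (t t' : V ⊗[k] W)
    (h : ∀ g : V →ₗ[k] k, (TensorProduct.lid k W) (LinearMap.rTensor W g t) =
      (TensorProduct.lid k W) (LinearMap.rTensor W g t')) : t = t' := by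
  classical
  let b := Module.Basis.ofVectorSpace k V
  apply (TensorProduct.equivFinsuppOfBasisLeft (N := W) b).injective
  ext i
  rw [TensorProduct.equivFinsuppOfBasisLeft_apply, TensorProduct.equivFinsuppOfBasisLeft_apply]
  exact h (b.coord i)

end tens

section bh

variable {k : Type u} [Field k] {B C : Type u} [Ring B] [HopfAlgebra k B] [Ring C]
  [HopfAlgebra k C]

/-- The algebra map of a bialgebra map. -/
abbrev pal (π : B →ₐc[k] C) : B →ₐ[k] C := (π : B →ₐ[k] C)

theorem pal_apply (π : B →ₐc[k] C) (b : B) : pal π b = π b := rfl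

theorem comul_map (π : B →ₐc[k] C) (b : B) :
    comul (R := k) (π b) = TensorProduct.map (pal π).toLinearMap (pal π).toLinearMap
      (comul (R := k) b) :=
  (CoalgHomClass.map_comp_comul_apply π b).symm

theorem counit_map (π : B →ₐc[k] C) (b : B) : counit (R := k) (π b) = counit (R := k) b :=
  CoalgHomClass.counit_comp_apply π b

theorem antipode_map (π : B →ₐc[k] C) (b : B) :
    HopfAlgebra.antipode k (π b) = π (HopfAlgebra.antipode k b) := by
  have h1 : ca (pal π) * (cv (HopfAlgebra.antipode k ∘ₗ (pal π).toLinearMap)) = 1 := by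
    have := congrArg (prc π.toCoalgHom) (ca_mul_cs (AlgHom.id k C))
    rw [map_mul, map_one] at this
    exact this
  have h2 := cs_eq_of_mul h1
  have h3 := congrArg (fun z : Cv k B C => z b) h2
  exact h3.symm

theorem rv_map (π : B →ₐc[k] C) (v : C →ₗ[k] k) (b : B) :
    π (rv (v ∘ₗ (pal π).toLinearMap) b) = rv v (π b) := by
  change _ = (TensorProduct.rid k C) (LinearMap.lTensor C v (comul (R := k) (π b)))
  rw [comul_map]
  change (pal π) ((TensorProduct.rid k B) (LinearMap.lTensor B (v ∘ₗ (pal π).toLinearMap)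
    (comul (R := k) b))) = _
  generalize comul (R := k) b = t
  induction t using TensorProduct.induction_on with
  | zero => simp
  | tmul x y => simp
  | add x y hx hy => simp only [map_add, hx, hy]

theorem lv_map (π : B →ₐc[k] C) (v : C →ₗ[k] k) (b : B) :
    π (lv (v ∘ₗ (pal π).toLinearMap) b) = lv v (π b) := by
  change _ = (TensorProduct.lid k C) (LinearMap.rTensor C v (comul (R := k) (π b)))
  rw [comul_map]
  change (pal π) ((TensorProduct.lid k B) (LinearMap.rTensor B (v ∘ₗ (pal π).toLinearMap)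
    (comul (R := k) b))) = _
  generalize comul (R := k) b = t
  induction t using TensorProduct.induction_on with
  | zero => simp
  | tmul x y => simp
  | add x y hx hy => simp only [map_add, hx, hy]

theorem comul_antipode (b : B) : comul (R := k) (HopfAlgebra.antipode k b) =
    ∑ i ∈ (ℛ k b).index, HopfAlgebra.antipode k ((ℛ k b).right i) ⊗ₜ[k]
      HopfAlgebra.antipode k ((ℛ k b).left i) := by
  have h1 := cs_dl (AlgHom.id k B) (AlgHom.id k B)
  have h2 := congrArg (fun z : Cv k B (B ⊗[k] B) => z b) h1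
  simp only [mul_apply_repr] at h2
  have h3 : (cs (dl (AlgHom.id k B) (AlgHom.id k B)) : Cv k B (B ⊗[k] B)) b =
      comul (R := k) (HopfAlgebra.antipode k b) := by
    change (Algebra.TensorProduct.map (AlgHom.id k B) (AlgHom.id k B))
      (comul (R := k) (HopfAlgebra.antipode k b)) = _
    rw [Algebra.TensorProduct.map_id]; rfl
  rw [← h3, h2]
  refine Finset.sum_congr rfl fun i _ => ?_
  change ((1 : B) ⊗ₜ[k] HopfAlgebra.antipode k _) * (HopfAlgebra.antipode k _ ⊗ₜ[k] (1 : B)) = _
  rw [Algebra.TensorProduct.tmul_mul_tmul, one_mul, mul_one]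

theorem rv_antipode (w : B →ₗ[k] k) (b : B) :
    rv w (HopfAlgebra.antipode k b) = HopfAlgebra.antipode k
      (lv (w ∘ₗ HopfAlgebra.antipode k) b) := by
  change (TensorProduct.rid k B) (LinearMap.lTensor B w
    (comul (R := k) (HopfAlgebra.antipode k b))) = _
  rw [comul_antipode, lv_repr, map_sum, map_sum, map_sum]
  refine Finset.sum_congr rfl fun i _ => ?_
  simp

theorem lv_antipode (w : B →ₗ[k] k) (b : B) :
    lv w (HopfAlgebra.antipode k b) = HopfAlgebra.antipode k
      (rv (w ∘ₗ HopfAlgebra.antipode k) b) := by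
  change (TensorProduct.lid k B) (LinearMap.rTensor B w
    (comul (R := k) (HopfAlgebra.antipode k b))) = _
  rw [comul_antipode, rv_repr, map_sum, map_sum, map_sum]
  refine Finset.sum_congr rfl fun i _ => ?_
  simp

end bh

section J

variable {k : Type u} [Field k] {B C : Type u} [Ring B] [HopfAlgebra k B] [Ring C]
  [HopfAlgebra k C]

/-- The element `b₁ f(π b₂) - f(π b₁) b₂`. -/
noncomputable def uf (π : B →ₐc[k] C) (f : C →ₗ[k] k) (b : B) : B :=
  rv (f ∘ₗ (pal π).toLinearMap) b - lv (f ∘ₗ (pal π).toLinearMap) b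

/-- The ideal generated by the elements `b₁ f(π b₂) - f(π b₁) b₂`. -/
def Jid (π : B →ₐc[k] C) : Ideal B :=
  Ideal.span {x | ∃ (f : C →ₗ[k] k) (b y : B), x = uf π f b * y}

instance Jid_twoSided (π : B →ₐc[k] C) : (Jid π).IsTwoSided where
  mul_mem_of_left {a} z ha := by
    refine Submodule.span_induction (p := fun x _ => x * z ∈ Jid π) ?_ ?_ ?_ ?_ ha
    · rintro _ ⟨f, b, y, rfl⟩
      rw [mul_assoc]
      exact Ideal.subset_span ⟨f, b, y * z, rfl⟩
    · rw [zero_mul]; exact Ideal.zero_mem _
    · intro x y _ _ hx hy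
      rw [add_mul]; exact Ideal.add_mem _ hx hy
    · intro r x _ hx
      rw [smul_eq_mul, mul_assoc]
      exact Ideal.mul_mem_left _ _ hx

theorem uf_mem (π : B →ₐc[k] C) (f : C →ₗ[k] k) (b : B) : uf π f b ∈ Jid π :=
  Ideal.subset_span ⟨f, b, 1, by rw [mul_one]⟩

/-- An algebra map which kills the elements `uf` kills the ideal. -/
theorem Jid_le_ker {R : Type u} [Ring R] [Algebra k R] (π : B →ₐc[k] C) (φ : B →ₐ[k] R)
    (h : ∀ f b, φ (uf π f b) = 0) {x : B} (hx : x ∈ Jid π) : φ x = 0 := by
  have : Jid π ≤ RingHom.ker φ := by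
    refine Ideal.span_le.2 ?_
    rintro _ ⟨f, b, y, rfl⟩
    change φ _ = 0
    rw [map_mul, h, zero_mul]
  exact this hx

theorem mk_uf (π : B →ₐc[k] C) (f : C →ₗ[k] k) (b : B) :
    Ideal.Quotient.mk (Jid π) (rv (f ∘ₗ (pal π).toLinearMap) b) =
      Ideal.Quotient.mk (Jid π) (lv (f ∘ₗ (pal π).toLinearMap) b) := by
  rw [Ideal.Quotient.eq]
  exact uf_mem π f b

/-- The relation in the convolution ring. -/
theorem mk_sc (π : B →ₐc[k] C) (f : C →ₗ[k] k) :
    ca (Ideal.Quotient.mkₐ k (Jid π)) * sc (f ∘ₗ (pal π).toLinearMap) =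
      sc (f ∘ₗ (pal π).toLinearMap) * ca (Ideal.Quotient.mkₐ k (Jid π)) := by
  rw [mul_sc, sc_mul]
  apply cv_ext
  intro b
  exact mk_uf π f b

theorem counit_uf (π : B →ₐc[k] C) (f : C →ₗ[k] k) (b : B) :
    counit (R := k) (uf π f b) = 0 := by
  rw [uf, map_sub, counit_rv]
  have h := mul_lv (f ∘ₗ (pal π).toLinearMap) (counit (R := k)) b
  rw [h, rv_counit, sub_self]

theorem sc_comul (π : B →ₐc[k] C) (f : C →ₗ[k] k) :
    ca (dl (Ideal.Quotient.mkₐ k (Jid π)) (Ideal.Quotient.mkₐ k (Jid π))) *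
      sc (f ∘ₗ (pal π).toLinearMap) =
    sc (f ∘ₗ (pal π).toLinearMap) *
      ca (dl (Ideal.Quotient.mkₐ k (Jid π)) (Ideal.Quotient.mkₐ k (Jid π))) := by
  rw [← jl_mul_jr]
  have h := mk_sc π f
  have h1 := congrArg (pst (Algebra.TensorProduct.includeLeft (R := k) (S := k)
    (A := B ⧸ Jid π) (B := B ⧸ Jid π))) h
  have h2 := congrArg (pst (Algebra.TensorProduct.includeRight (R := k)
    (A := B ⧸ Jid π) (B := B ⧸ Jid π))) h
  rw [map_mul, map_mul, pst_sc, pst_ca] at h1 h2
  rw [mul_assoc, h2, ← mul_assoc, h1, mul_assoc]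

theorem antipode_uf_mem [Module.Finite k C] (π : B →ₐc[k] C) (f : C →ₗ[k] k) (b : B) :
    HopfAlgebra.antipode k (uf π f b) ∈ Jid π := by
  let e : C ≃ₗ[k] C := LinearEquiv.ofBijective (HopfAlgebra.antipode k) antipode_bijective
  let g : C →ₗ[k] k := f ∘ₗ e.symm.toLinearMap
  have hg : ∀ c, g (HopfAlgebra.antipode k c) = f c := fun c =>
    congrArg f (e.symm_apply_apply c)
  have hw : (g ∘ₗ (pal π).toLinearMap) ∘ₗ HopfAlgebra.antipode k = f ∘ₗ (pal π).toLinearMap := by
    ext x
    change g (π (HopfAlgebra.antipode k x)) = f (π x)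
    rw [← antipode_map, hg]
  have h1 := mk_uf π g (HopfAlgebra.antipode k b)
  rw [rv_antipode, lv_antipode, hw] at h1
  rw [uf, map_sub, ← Ideal.Quotient.eq]
  exact h1.symm

instance Jid_hopf [Module.Finite k C] (π : B →ₐc[k] C) : (Jid π).IsHopfIdeal k where
  counit_eq_zero x hx := by
    exact Jid_le_ker π (Bialgebra.counitAlgHom k B) (fun f b => counit_uf π f b) hx
  map_mkQ_comul_eq_zero x hx := by
    have : (dl (Ideal.Quotient.mkₐ k (Jid π)) (Ideal.Quotient.mkₐ k (Jid π))) x = 0 := by
      refine Jid_le_ker π _ (fun f b => ?_) hx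
      have h := sc_comul π f
      rw [mul_sc, sc_mul] at h
      have h1 := congrArg (fun z : Cv k B _ => z b) h
      rw [uf, map_sub, sub_eq_zero]
      exact h1
    exact this
  antipode_mem x hx := by
    refine Submodule.span_induction (p := fun x _ => HopfAlgebra.antipode k x ∈ Jid π)
      ?_ ?_ ?_ ?_ hx
    · rintro _ ⟨f, b, y, rfl⟩
      rw [HopfAlgebra.antipode_mul_antidistrib]
      exact Ideal.mul_mem_left _ _ (antipode_uf_mem π f b)
    · rw [map_zero]; exact Ideal.zero_mem _
    · intro x y _ _ hx hy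
      rw [map_add]; exact Ideal.add_mem _ hx hy
    · intro r x _ hx
      rw [smul_eq_mul, HopfAlgebra.antipode_mul_antidistrib]
      exact Ideal.mul_mem_right _ _ hx

end J

end Run7.h234
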