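import Mathlib
import Pool.Agent.Run7.h234.HJ0

/-!
The adjoint action and the ideal.
-/

set_option autoImplicit false
set_option linter.unusedVariables false
set_option linter.unusedSectionVars false

universe u

open TensorProduct Coalgebra WithConv

namespace Run7.h234

section adr

variable {k : Type u} [Field k] {B : Type u} [Ring B] [HopfAlgebra k B]

/-- The map `p ⊗ q ↦ S(p) a q`. -/
noncomputable def adM (a : B) : B ⊗[k] B →ₗ[k] B :=
  TensorProduct.lift (LinearMap.mk₂ k (fun p q => HopfAlgebra.antipode k p * a * q)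
    (fun x y z => by rw [map_add, add_mul, add_mul])
    (fun c x y => by rw [map_smul, smul_mul_assoc, smul_mul_assoc])
    (fun x y z => by rw [mul_add])
    (fun c x y => by rw [mul_smul_comm]))

theorem adM_tmul (a p q : B) : adM (k := k) a (p ⊗ₜ[k] q) = HopfAlgebra.antipode k p * a * q := rfl

/-- The right adjoint action `b ↦ S(b₁) a b₂`. -/
noncomputable def adr (a : B) : B →ₗ[k] B := adM a ∘ₗ comul

theorem adr_repr (a b : B) : adr (k := k) a b = ∑ i ∈ (ℛ k b).index,
    HopfAlgebra.antipode k ((ℛ k b).left i) * a * (ℛ k b).right i := by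
  change adM a (comul (R := k) b) = _
  conv_lhs => rw [← (ℛ k b).eq, map_sum]
  rfl

theorem adr_cv (a : B) : (cs (AlgHom.id k B) : Cv k B B) * cst B a * ca (AlgHom.id k B) =
    cv (adr a) := by
  apply cv_ext
  intro b
  rw [mul_apply_repr, cv_apply, adr_repr]
  refine Finset.sum_congr rfl fun i _ => ?_
  rw [mul_cst_apply]
  rfl

theorem adr_one (a : B) : adr (k := k) a 1 = a := by
  change adM a (comul (R := k) (1 : B)) = a
  rw [Bialgebra.comul_one, Algebra.TensorProduct.one_def, adM_tmul, HopfAlgebra.antipode_one]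
  simp

theorem adM_mul (a p q : B) (t : B ⊗[k] B) :
    adM (k := k) a ((p ⊗ₜ[k] q) * t) = adM (HopfAlgebra.antipode k p * a * q) t := by
  induction t using TensorProduct.induction_on with
  | zero => simp
  | tmul x y =>
    rw [Algebra.TensorProduct.tmul_mul_tmul, adM_tmul, adM_tmul,
      HopfAlgebra.antipode_mul_antidistrib]
    simp only [mul_assoc]
  | add x y hx hy => rw [mul_add, map_add, map_add, hx, hy]

theorem adM_add (a a' : B) (t : B ⊗[k] B) :
    adM (k := k) (a + a') t = adM a t + adM a' t := by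
  induction t using TensorProduct.induction_on with
  | zero => simp
  | tmul x y => simp only [adM_tmul, mul_add, add_mul]
  | add x y hx hy => simp only [map_add, hx, hy]; abel

theorem adM_zero (t : B ⊗[k] B) : adM (k := k) (0 : B) t = 0 := by
  induction t using TensorProduct.induction_on with
  | zero => simp
  | tmul x y => simp [adM_tmul]
  | add x y hx hy => rw [map_add, hx, hy, add_zero]

theorem adM_sum {ι : Type*} (s : Finset ι) (a : ι → B) (t : B ⊗[k] B) :
    adM (k := k) (∑ i ∈ s, a i) t = ∑ i ∈ s, adM (a i) t := by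
  classical
  induction s using Finset.induction_on with
  | empty => simp [adM_zero]
  | insert i s hi ih => rw [Finset.sum_insert hi, Finset.sum_insert hi, adM_add, ih]

theorem adr_mul (a x y : B) : adr (k := k) a (x * y) = adr (k := k) (adr (k := k) a x) y := by
  change adM a (comul (R := k) (x * y)) = adM (adr (k := k) a x) (comul (R := k) y)
  rw [Bialgebra.comul_mul, adr_repr, adM_sum]
  conv_lhs => rw [← (ℛ k x).eq, Finset.sum_mul, map_sum]
  refine Finset.sum_congr rfl fun i _ => ?_
  rw [adM_mul]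

theorem adr_zero (x : B) : adr (k := k) (0 : B) x = 0 := adM_zero _

/-- `b₁ ad(b₂) = a b`. -/
theorem id_mul_adr (a : B) : (ca (AlgHom.id k B) : Cv k B B) * cv (adr a) =
    cst B a * ca (AlgHom.id k B) := by
  rw [← adr_cv, ← mul_assoc, ← mul_assoc, ca_mul_cs, one_mul]

end adr

section star

variable {k : Type u} [Field k] {A B C : Type u} [Ring A] [HopfAlgebra k A] [Ring B]
  [HopfAlgebra k B] [Ring C] [HopfAlgebra k C]

/-- `(id ⊗ π) Δ (ι a) = ι a ⊗ 1`. -/
theorem dl_iota (ι : A →ₐc[k] B) (π : B →ₐc[k] C)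
    (hπ : ∀ a, π (ι a) = counit (R := k) a • (1 : C)) (a : A) :
    dl (AlgHom.id k B) (pal π) (ι a) = (ι a) ⊗ₜ[k] (1 : C) := by
  change TensorProduct.map (LinearMap.id) (pal π).toLinearMap (comul (R := k) (ι a)) = _
  rw [comul_map, ← LinearMap.comp_apply, ← TensorProduct.map_comp]
  have h1 : (pal π).toLinearMap ∘ₗ (pal ι).toLinearMap =
      LinearMap.toSpanSingleton k C 1 ∘ₗ counit (R := k) := by
    ext x
    exact hπ x
  rw [h1]
  conv_lhs => rw [← (ℛ k a).eq, map_sum]
  simp only [TensorProduct.map_tmul, LinearMap.comp_apply, LinearMap.toSpanSingleton_apply,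
    LinearMap.id_apply]
  have h2 := sum_smul_counit (k := k) a
  conv_rhs => rw [← h2, map_sum, TensorProduct.sum_tmul]
  refine Finset.sum_congr rfl fun i _ => ?_
  rw [map_smul, ← TensorProduct.smul_tmul', TensorProduct.tmul_smul]
  rfl

theorem star_r (π : B →ₐc[k] C) (a : B)
    (ha : ∀ b, dl (AlgHom.id k B) (pal π) (adr (k := k) a b) = (adr (k := k) a b) ⊗ₜ[k] (1 : C)) :
    pst (Algebra.TensorProduct.includeLeft (R := k) (S := k) (A := B) (B := C)) (cv (adr a)) *
      ca (jr (pal π)) = ca (jr (pal π)) *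
    pst (Algebra.TensorProduct.includeLeft (R := k) (S := k) (A := B) (B := C)) (cv (adr a)) := by
  set X := pst (Algebra.TensorProduct.includeLeft (R := k) (S := k) (A := B) (B := C))
    (cv (adr a)) with hX
  have h1 : pst (dl (AlgHom.id k B) (pal π)) (cv (adr a)) = X := by
    apply cv_ext
    intro b
    exact ha b
  have ha1 : dl (AlgHom.id k B) (pal π) a = a ⊗ₜ[k] (1 : C) := by
    have := ha 1
    rwa [adr_one] at this
  have h2 : pst (dl (AlgHom.id k B) (pal π)) (cv (adr a)) =
      cs (jr (pal π)) * X * ca (jr (pal π)) := by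
    conv_lhs => rw [← adr_cv, map_mul, map_mul, pst_cs, pst_ca, pst_cst, ha1]
    rw [hX]
    conv_rhs => rw [← adr_cv, map_mul, map_mul, pst_cs, pst_ca, pst_cst]
    change cs (dl (AlgHom.id k B) (pal π)) * _ * ca (dl (AlgHom.id k B) (pal π)) = _
    rw [cs_dl, ← jl_mul_jr]
    simp only [mul_assoc]
    rfl
  have h3 : cs (jr (pal π)) * X * ca (jr (pal π)) = X := by rw [← h2, h1]
  calc X * ca (jr (pal π)) = (ca (jr (pal π)) * cs (jr (pal π))) * (X * ca (jr (pal π))) := by
        rw [ca_mul_cs, one_mul]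
    _ = ca (jr (pal π)) * (cs (jr (pal π)) * X * ca (jr (pal π))) := by simp only [mul_assoc]
    _ = _ := by rw [h3]

theorem adr_uf (π : B →ₐc[k] C) (a : B)
    (ha : ∀ b, dl (AlgHom.id k B) (pal π) (adr (k := k) a b) = (adr (k := k) a b) ⊗ₜ[k] (1 : C))
    (f : C →ₗ[k] k) (b : B) : adr (k := k) a (uf π f b) = 0 := by
  have h := congrArg (fun z : Cv k B (B ⊗[k] C) =>
    (TensorProduct.rid k B) (LinearMap.lTensor B f (z b))) (star_r π a ha)
  simp only [mul_apply_repr, map_sum] at h
  have h1 : ∀ x y : B, (TensorProduct.rid k B) (LinearMap.lTensor B f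
      ((pst (Algebra.TensorProduct.includeLeft (R := k) (S := k) (A := B) (B := C))
        (cv (adr (k := k) a))) x * (ca (jr (pal π)) : Cv k B (B ⊗[k] C)) y)) =
      f (π y) • adr (k := k) a x := by
    intro x y
    change (TensorProduct.rid k B) (LinearMap.lTensor B f
      ((adr (k := k) a x ⊗ₜ[k] (1 : C)) * ((1 : B) ⊗ₜ[k] (π y)))) = _
    rw [Algebra.TensorProduct.tmul_mul_tmul, mul_one, one_mul]
    simp
  have h2 : ∀ x y : B, (TensorProduct.rid k B) (LinearMap.lTensor B f
      ((ca (jr (pal π)) : Cv k B (B ⊗[k] C)) x *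
      (pst (Algebra.TensorProduct.includeLeft (R := k) (S := k) (A := B) (B := C))
        (cv (adr (k := k) a))) y)) =
      f (π x) • adr (k := k) a y := by
    intro x y
    change (TensorProduct.rid k B) (LinearMap.lTensor B f
      (((1 : B) ⊗ₜ[k] (π x)) * (adr (k := k) a y ⊗ₜ[k] (1 : C)))) = _
    rw [Algebra.TensorProduct.tmul_mul_tmul, mul_one, one_mul]
    simp
  simp only [h1, h2] at h
  rw [uf, map_sub, rv_repr, lv_repr, map_sum, map_sum, sub_eq_zero]
  simp only [map_smul]
  exact h

/-- The ideal annihilates the adjoint action on a normal subalgebra. -/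
theorem adr_Jid (ι : A →ₐc[k] B) (π : B →ₐc[k] C)
    (hπ : ∀ a, π (ι a) = counit (R := k) a • (1 : C))
    (hn : ∀ a b, adr (k := k) (ι a) b ∈ Set.range ι) {x : B} (hx : x ∈ Jid π) :
    ∀ a, adr (k := k) (ι a) x = 0 := by
  have h0 : ∀ a b, dl (AlgHom.id k B) (pal π) (adr (k := k) (ι a) b) =
      (adr (k := k) (ι a) b) ⊗ₜ[k] (1 : C) := by
    intro a b
    obtain ⟨a', ha'⟩ := hn a b
    rw [← ha', dl_iota ι π hπ]
  refine Submodule.span_induction (p := fun x _ => ∀ a, adr (k := k) (ι a) x = 0)
      ?_ ?_ ?_ ?_ hx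
  · rintro _ ⟨f, b, y, rfl⟩ a
    rw [adr_mul, adr_uf π (ι a) (h0 a), adr_zero]
  · intro a; rw [map_zero]
  · intro x y _ _ hx hy a
    rw [map_add, hx, hy, add_zero]
  · intro r x _ hx a
    obtain ⟨a', ha'⟩ := hn a r
    rw [smul_eq_mul, adr_mul, ← ha', hx]

theorem iota_adr (ι : A →ₐc[k] B) (a x : A) :
    ι (adr (k := k) a x) = adr (k := k) (ι a) (ι x) := by
  change _ = adM (k := k) (ι a) (comul (R := k) (ι x))
  rw [comul_map]
  change pal ι (adM a (comul (R := k) x)) = _
  generalize comul (R := k) x = t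
  induction t using TensorProduct.induction_on with
  | zero => simp
  | tmul p q =>
    rw [adM_tmul, map_mul, map_mul, TensorProduct.map_tmul, adM_tmul]
    change ι (HopfAlgebra.antipode k p) * _ * _ = HopfAlgebra.antipode k (ι p) * _ * _
    rw [antipode_map]
    rfl
  | add x y hx hy => simp only [map_add, hx, hy]

end star

end Run7.h234
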