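import Mathlib
import Pool.Agent.Run7.h234.HJ1

/-!
The coinvariants of a quotient map are central.
-/

set_option autoImplicit false
set_option linter.unusedVariables false
set_option linter.unusedSectionVars false

universe u

open TensorProduct Coalgebra WithConv

namespace Run7.h234

section D

variable {k : Type u} [Field k] {A H : Type u} [Ring A] [HopfAlgebra k A] [Ring H]
  [HopfAlgebra k H]

/-- The coinvariants of `f`. -/
noncomputable def Dd (f : A →ₐc[k] H) : Subalgebra k A :=
  AlgHom.equalizer (dl (AlgHom.id k A) (pal f))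
    (Algebra.TensorProduct.includeLeft (R := k) (S := k) (A := A) (B := H))

theorem mem_Dd {f : A →ₐc[k] H} {d : A} :
    d ∈ Dd f ↔ dl (AlgHom.id k A) (pal f) d = d ⊗ₜ[k] (1 : H) := Iff.rfl

theorem dl_repr (f : A →ₐc[k] H) (a : A) : dl (AlgHom.id k A) (pal f) a =
    ∑ i ∈ (ℛ k a).index, (ℛ k a).left i ⊗ₜ[k] f ((ℛ k a).right i) := by
  change TensorProduct.map (LinearMap.id) (pal f).toLinearMap (comul (R := k) a) = _
  conv_lhs => rw [← (ℛ k a).eq, map_sum]
  rfl

theorem exists_factor {V W X : Type u} [AddCommGroup V] [Module k V] [AddCommGroup W] [Module k W]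
    [AddCommGroup X] [Module k X] (f : V →ₗ[k] W) (hf : Function.Surjective f) (g : V →ₗ[k] X)
    (h : ∀ v, f v = 0 → g v = 0) : ∃ g' : W →ₗ[k] X, ∀ v, g' (f v) = g v := by
  obtain ⟨s, hs⟩ := LinearMap.exists_rightInverse_of_surjective f (LinearMap.range_eq_top.2 hf)
  refine ⟨g ∘ₗ s, fun v => ?_⟩
  have h1 : f (s (f v) - v) = 0 := by
    rw [map_sub, ← LinearMap.comp_apply f s, hs, LinearMap.id_apply, sub_self]
  have h2 := h _ h1
  rw [map_sub, sub_eq_zero] at h2
  exact h2

theorem Dd_comm (f : A →ₐc[k] H) (hf : Function.Surjective f)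
    (hk : ∀ a x, f x = 0 → adr (k := k) a x = 0) {d : A} (hd : d ∈ Dd f) (a : A) :
    a * d = d * a := by
  obtain ⟨h, hh⟩ := exists_factor (pal f).toLinearMap hf (adr (k := k) a) (hk a)
  have h1 : ((ca (AlgHom.id k A) : Cv k A A) * cv (adr a) : Cv k A A) d =
      ((cst A a : Cv k A A) * ca (AlgHom.id k A) : Cv k A A) d := by rw [id_mul_adr]
  rw [mul_apply_repr, cst_mul_apply] at h1
  have h2 : a * d = ∑ i ∈ (ℛ k d).index, (ℛ k d).left i * h (f ((ℛ k d).right i)) := by
    rw [show a * d = a * (ca (AlgHom.id k A) : Cv k A A) d from rfl, ← h1]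
    refine Finset.sum_congr rfl fun i _ => ?_
    rw [show h (f ((ℛ k d).right i)) = adr a ((ℛ k d).right i) from hh _]
    rfl
  have h3 : ∑ i ∈ (ℛ k d).index, (ℛ k d).left i * h (f ((ℛ k d).right i)) =
      LinearMap.mul' k A (LinearMap.lTensor A h (dl (AlgHom.id k A) (pal f) d)) := by
    rw [dl_repr, map_sum, map_sum]
    refine Finset.sum_congr rfl fun i _ => ?_
    rw [LinearMap.lTensor_tmul, LinearMap.mul'_apply]
  rw [h2, h3, mem_Dd.1 hd, LinearMap.lTensor_tmul, LinearMap.mul'_apply]
  have h4 : h 1 = a := by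
    have := hh 1
    rw [adr_one] at this
    rw [← this]
    congr 1
    exact (map_one (pal f)).symm
  rw [h4]

theorem comul_lv (w : A →ₗ[k] k) (c : A) :
    comul (R := k) (lv w c) = LinearMap.rTensor A (lv w) (comul (R := k) c) := by
  have h1 : LinearMap.rTensor A (lv w) (comul (R := k) c) =
      LinearMap.rTensor A ((TensorProduct.lid k A).toLinearMap ∘ₗ LinearMap.rTensor A w)
        (LinearMap.rTensor A (comul (R := k)) (comul (R := k) c)) := by
    have h0 : LinearMap.rTensor A (lv w) =
        LinearMap.rTensor A ((TensorProduct.lid k A).toLinearMap ∘ₗ LinearMap.rTensor A w) ∘ₗ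
          LinearMap.rTensor A (comul (R := k)) := by
      rw [← LinearMap.rTensor_comp]; rfl
    rw [h0]; rfl
  have h2 : LinearMap.rTensor A (comul (R := k)) (comul (R := k) c) =
      (TensorProduct.assoc k A A A).symm
        (LinearMap.lTensor A (comul (R := k)) (comul (R := k) c)) := by
    rw [LinearEquiv.eq_symm_apply]
    exact LinearMap.congr_fun (Coalgebra.coassoc (R := k) (A := A)) c
  rw [h1, h2]
  have h3 : (comul (R := k) ∘ₗ ((TensorProduct.lid k A).toLinearMap ∘ₗ LinearMap.rTensor A w)) =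
      LinearMap.rTensor A ((TensorProduct.lid k A).toLinearMap ∘ₗ LinearMap.rTensor A w) ∘ₗ
        (TensorProduct.assoc k A A A).symm.toLinearMap ∘ₗ LinearMap.lTensor A (comul (R := k)) := by
    apply TensorProduct.ext'
    intro p r
    simp only [LinearMap.comp_apply, LinearMap.lTensor_tmul, LinearMap.rTensor_tmul,
      LinearEquiv.coe_coe, TensorProduct.lid_tmul, map_smul]
    generalize comul (R := k) r = t
    induction t using TensorProduct.induction_on with
    | zero => simp
    | tmul x y => simp [TensorProduct.smul_tmul']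
    | add x y hx hy => rw [smul_add, hx, hy, TensorProduct.tmul_add, map_add, map_add]
  exact LinearMap.congr_fun h3 (comul (R := k) c)

theorem lv_mem_Dd {f : A →ₐc[k] H} {d : A} (hd : d ∈ Dd f) (w : A →ₗ[k] k) : lv w d ∈ Dd f := by
  rw [mem_Dd]
  change TensorProduct.map (LinearMap.id) (pal f).toLinearMap (comul (R := k) (lv w d)) = _
  rw [comul_lv]
  have h1 : ∀ t : A ⊗[k] A, TensorProduct.map (LinearMap.id) (pal f).toLinearMap
      (LinearMap.rTensor A (lv w) t) = LinearMap.rTensor H (lv w)
        (TensorProduct.map (LinearMap.id) (pal f).toLinearMap t) := by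
    intro t
    induction t using TensorProduct.induction_on with
    | zero => simp
    | tmul x y => simp
    | add x y hx hy => simp only [map_add, hx, hy]
  rw [h1]
  have h2 : TensorProduct.map (LinearMap.id) (pal f).toLinearMap (comul (R := k) d) =
    d ⊗ₜ[k] (1 : H) := mem_Dd.1 hd
  rw [h2, LinearMap.rTensor_tmul]

theorem lid_mul_l (w : A →ₗ[k] k) (a : A) (t : A ⊗[k] A) :
    (TensorProduct.lid k A) (LinearMap.rTensor A w (((1 : A) ⊗ₜ[k] a) * t)) =
      a * (TensorProduct.lid k A) (LinearMap.rTensor A w t) := by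
  induction t using TensorProduct.induction_on with
  | zero => simp
  | tmul x y => simp [Algebra.TensorProduct.tmul_mul_tmul]
  | add x y hx hy => simp only [mul_add, map_add, hx, hy]

theorem lid_mul_r (w : A →ₗ[k] k) (a : A) (t : A ⊗[k] A) :
    (TensorProduct.lid k A) (LinearMap.rTensor A w (t * ((1 : A) ⊗ₜ[k] a))) =
      (TensorProduct.lid k A) (LinearMap.rTensor A w t) * a := by
  induction t using TensorProduct.induction_on with
  | zero => simp
  | tmul x y => simp [Algebra.TensorProduct.tmul_mul_tmul]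
  | add x y hx hy => simp only [add_mul, map_add, hx, hy]

theorem rid_mul_l (w : A →ₗ[k] k) (a : A) (t : A ⊗[k] A) :
    (TensorProduct.rid k A) (LinearMap.lTensor A w ((a ⊗ₜ[k] (1 : A)) * t)) =
      a * (TensorProduct.rid k A) (LinearMap.lTensor A w t) := by
  induction t using TensorProduct.induction_on with
  | zero => simp
  | tmul x y => simp [Algebra.TensorProduct.tmul_mul_tmul]
  | add x y hx hy => simp only [mul_add, map_add, hx, hy]

theorem rid_mul_r (w : A →ₗ[k] k) (a : A) (t : A ⊗[k] A) :
    (TensorProduct.rid k A) (LinearMap.lTensor A w (t * (a ⊗ₜ[k] (1 : A)))) =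
      (TensorProduct.rid k A) (LinearMap.lTensor A w t) * a := by
  induction t using TensorProduct.induction_on with
  | zero => simp
  | tmul x y => simp [Algebra.TensorProduct.tmul_mul_tmul]
  | add x y hx hy => simp only [add_mul, map_add, hx, hy]

/-- The left tensor factor of `Δ(d)` is central. -/
theorem rv_central (f : A →ₐc[k] H) (hc : ∀ d ∈ Dd f, ∀ a : A, a * d = d * a) {d : A}
    (hd : d ∈ Dd f) (w : A →ₗ[k] k) (a : A) : a * rv w d = rv w d * a := by
  set T : Cv k A (A ⊗[k] A) := cst A (comul (R := k) d) with hT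
  have h1 : ca (dl (AlgHom.id k A) (AlgHom.id k A)) * T =
      T * ca (dl (AlgHom.id k A) (AlgHom.id k A)) := by
    apply cv_ext
    intro x
    rw [mul_cst_apply, cst_mul_apply]
    have h0 : (ca (dl (AlgHom.id k A) (AlgHom.id k A)) : Cv k A (A ⊗[k] A)) x =
        comul (R := k) x := by
      change (Algebra.TensorProduct.map (AlgHom.id k A) (AlgHom.id k A))
        (comul (R := k) x) = _
      rw [Algebra.TensorProduct.map_id]; rfl
    rw [h0, ← Bialgebra.comul_mul, ← Bialgebra.comul_mul, hc d hd]
  have h2 : ca (jr (R := A) (AlgHom.id k A)) * T = T * ca (jr (R := A) (AlgHom.id k A)) := by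
    apply cv_ext
    intro x
    rw [mul_cst_apply, cst_mul_apply]
    change ((1 : A) ⊗ₜ[k] x) * comul (R := k) d = comul (R := k) d * ((1 : A) ⊗ₜ[k] x)
    apply tens_ext_l
    intro g
    rw [lid_mul_l, lid_mul_r]
    exact hc _ (lv_mem_Dd hd g) x
  have h3 : ca (jl (R' := A) (AlgHom.id k A)) * T = T * ca (jl (R' := A) (AlgHom.id k A)) := by
    rw [← jl_mul_jr, mul_assoc, h2] at h1
    calc ca (jl (R' := A) (AlgHom.id k A)) * T =
        ca (jl (R' := A) (AlgHom.id k A)) * (T * ca (jr (R := A) (AlgHom.id k A))) *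
          cs (jr (R := A) (AlgHom.id k A)) := by
          rw [mul_assoc, mul_assoc, ca_mul_cs, mul_one]
      _ = _ := by rw [h1, mul_assoc, mul_assoc, ca_mul_cs, mul_one]
  have h4 := congrArg (fun z : Cv k A (A ⊗[k] A) => z a) h3
  simp only [hT, mul_cst_apply, cst_mul_apply] at h4
  have h5 : (a ⊗ₜ[k] (1 : A)) * comul (R := k) d = comul (R := k) d * (a ⊗ₜ[k] (1 : A)) := h4
  have h6 := congrArg (fun z => (TensorProduct.rid k A) (LinearMap.lTensor A w z)) h5
  simp only [rid_mul_l, rid_mul_r] at h6
  exact h6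

end D

end Run7.h234
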