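import Mathlib
import Pool.Agent.Run7.h234.HD0

/-!
The trace argument: the integral does not vanish under the quotient map.
-/

set_option autoImplicit false
set_option linter.unusedVariables false
set_option linter.unusedSectionVars false

universe u

open TensorProduct Coalgebra WithConv

namespace Run7.h234

section tr

variable {k : Type u} [Field k] {A : Type u} [Ring A] [HopfAlgebra k A]

theorem rT_mul_r (w : A →ₗ[k] k) (p r : A) (t : A ⊗[k] A) :
    rT w (t * (p ⊗ₜ[k] r)) = rT (w ∘ₗ LinearMap.mulRight k r) t * p := by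
  induction t using TensorProduct.induction_on with
  | zero => simp
  | tmul a b =>
    rw [Algebra.TensorProduct.tmul_mul_tmul, rT_tmul, rT_tmul, LinearMap.comp_apply,
      LinearMap.mulRight_apply, smul_mul_assoc]
  | add a b ha hb => rw [add_mul, map_add, map_add, add_mul, ha, hb]

theorem tau_inv [Module.Finite k A] (D : Subalgebra k A) (hc : ∀ d ∈ D, ∀ a : A, a * d = d * a)
    (hlv : ∀ d ∈ D, ∀ w : A →ₗ[k] k, lv w d ∈ D)
    (hrv : ∀ d ∈ D, ∀ (w : A →ₗ[k] k) (a : A), a * rv w d = rv w d * a)
    {n : ℕ} (e : Fin n → A) (δ : Fin n → (A →ₗ[k] k)) (he : ∀ i, e i ∈ D)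
    (hspan : ∀ d ∈ D, d = ∑ j, δ j d • e j)
    (hδ : ∀ i j, δ i (e j) = if i = j then 1 else 0) {x : A} (hx : x ∈ D) :
    rv (∑ i, δ i ∘ₗ LinearMap.mulRight k (e i)) x = (∑ i, δ i (x * e i)) • (1 : A) := by
  classical
  let c : Matrix (Fin n) (Fin n) A := fun i j => rv (δ j) (e i)
  let N : Matrix (Fin n) (Fin n) A := fun i j => HopfAlgebra.antipode k (c i j)
  let X : Matrix (Fin n) (Fin n) A := fun i j => rv (δ j ∘ₗ LinearMap.mulRight k (e i)) x
  let M : Matrix (Fin n) (Fin n) A := fun i j => algebraMap k A (δ j (x * e i))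
  have hcc : ∀ i j (a : A), a * c i j = c i j * a := fun i j a => hrv _ (he i) _ _
  have hcomul : ∀ i, comul (R := k) (e i) = ∑ j, c i j ⊗ₜ[k] e j := by
    intro i
    apply tens_ext_l
    intro w
    have h1 := hspan _ (hlv _ (he i) w)
    change lv w (e i) = _
    rw [h1, map_sum, map_sum]
    refine Finset.sum_congr rfl fun j _ => ?_
    rw [mul_lv]
    simp [c]
  have hNc : N * c = 1 := by
    ext i l
    rw [Matrix.mul_apply]
    have h1 : (cs (AlgHom.id k A) * cv (rv (δ l)) : Cv k A A) = sc (δ l) := by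
      have h2 := mul_sc (LinearMap.id : A →ₗ[k] A) (δ l)
      rw [LinearMap.id_comp] at h2
      rw [← h2, ← mul_assoc]
      change cs (AlgHom.id k A) * ca (AlgHom.id k A) * sc (δ l) = _
      rw [cs_mul_ca, one_mul]
    have h3 : (cs (AlgHom.id k A) * cv (rv (δ l)) : Cv k A A) (e i) =
        (LinearMap.mul' k A) (TensorProduct.map (HopfAlgebra.antipode k) (rv (δ l))
          (comul (R := k) (e i))) := by
      rw [mul_apply_repr]
      conv_rhs => rw [← (ℛ k (e i)).eq, map_sum, map_sum]
      rfl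
    rw [h1, hcomul, map_sum, map_sum, sc_apply, hδ] at h3
    simp only [TensorProduct.map_tmul, LinearMap.mul'_apply] at h3
    rw [Matrix.one_apply]
    refine h3.symm.trans ?_
    by_cases hil : i = l
    · rw [if_pos hil.symm, if_pos hil, one_smul]
    · rw [if_neg (fun h => hil h.symm), if_neg hil, zero_smul]
  have hcN : c * N = 1 := by
    let φ : Matrix (Fin n) (Fin n) A →ₗ[k] Matrix (Fin n) (Fin n) A := LinearMap.mulRight k N
    have hinj : Function.Injective φ := by
      intro Y Y' hY
      have : Y * N = Y' * N := hY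
      calc Y = Y * N * c := by rw [mul_assoc, hNc, mul_one]
        _ = Y' := by rw [this, mul_assoc, hNc, mul_one]
    have hsurj : Function.Surjective φ := LinearMap.injective_iff_surjective.1 hinj
    obtain ⟨Y, hY⟩ := hsurj 1
    have hY' : Y * N = 1 := hY
    have : Y = c := by
      calc Y = Y * N * c := by rw [mul_assoc, hNc, mul_one]
        _ = c := by rw [hY', one_mul]
    rw [← this, hY']
  have hcX : c * X = M * c := by
    ext i l
    rw [Matrix.mul_apply, Matrix.mul_apply]
    have h1 : rv (δ l) (x * e i) = ∑ j, X j l * c i j := by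
      rw [rv_eq_rT, Bialgebra.comul_mul, hcomul, Finset.mul_sum, map_sum]
      refine Finset.sum_congr rfl fun j _ => ?_
      rw [rT_mul_r]
      rfl
    have h2 : rv (δ l) (x * e i) = ∑ j, M i j * c j l := by
      conv_lhs => rw [hspan _ (D.mul_mem hx (he i)), map_sum]
      refine Finset.sum_congr rfl fun j _ => ?_
      rw [map_smul, Algebra.smul_def]
    rw [← h2, h1]
    refine Finset.sum_congr rfl fun j _ => ?_
    rw [hcc]
  have hX : X = N * M * c := by
    rw [mul_assoc, ← hcX, ← mul_assoc, hNc, one_mul]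
  have htr : Matrix.trace X = Matrix.trace M := by
    rw [hX, Matrix.trace, Matrix.trace]
    simp only [Matrix.diag_apply, Matrix.mul_apply, Finset.sum_mul]
    have h1 : ∀ i j l, N i l * M l j * c j i = M l j * (c j i * N i l) := by
      intro i j l
      have hM : ∀ a : A, a * M l j = M l j * a := fun a => (Algebra.commutes _ a).symm
      rw [hM, mul_assoc, hcc]
    simp only [h1]
    rw [Finset.sum_comm]
    have h2 : ∀ j, ∑ i, ∑ l, M l j * (c j i * N i l) = M j j := by
      intro j
      rw [Finset.sum_comm]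
      have h3 : ∀ l, ∑ i, M l j * (c j i * N i l) = M l j * (if j = l then 1 else 0) := by
        intro l
        rw [← Finset.mul_sum]
        congr 1
        have := congrFun (congrFun hcN j) l
        rwa [Matrix.mul_apply, Matrix.one_apply] at this
      simp only [h3, mul_ite, mul_one, mul_zero, Finset.sum_ite_eq, Finset.mem_univ, if_true]
    exact Finset.sum_congr rfl fun j _ => h2 j
  rw [rv_sum]
  have h5 : Matrix.trace X = ∑ i, rv (δ i ∘ₗ LinearMap.mulRight k (e i)) x := rfl
  rw [← h5, htr]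
  have h6 : Matrix.trace M = ∑ i, algebraMap k A (δ i (x * e i)) := rfl
  rw [h6, ← map_sum, Algebra.algebraMap_eq_smul_one]

end tr

section fL

variable {k : Type u} [Field k] {A H : Type u} [Ring A] [HopfAlgebra k A] [Ring H]
  [HopfAlgebra k H]

theorem P_mem (f : A →ₐc[k] H) {L' : H} {lam' : H →ₗ[k] k} (h' : IsLS L' lam') (y : A) :
    rv (lam' ∘ₗ (pal f).toLinearMap) y ∈ Dd f := by
  rw [mem_Dd]
  change TensorProduct.map (LinearMap.id) (pal f).toLinearMap
    (comul (R := k) (rv (lam' ∘ₗ (pal f).toLinearMap) y)) = _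
  rw [comul_rv]
  have h1 : ∀ t : A ⊗[k] A, TensorProduct.map (LinearMap.id) (pal f).toLinearMap
      (LinearMap.lTensor A (rv (lam' ∘ₗ (pal f).toLinearMap)) t) =
      (TensorProduct.rid k A (LinearMap.lTensor A (lam' ∘ₗ (pal f).toLinearMap) t)) ⊗ₜ[k]
        (1 : H) := by
    intro t
    induction t using TensorProduct.induction_on with
    | zero => simp
    | tmul x y =>
      simp only [LinearMap.lTensor_tmul, TensorProduct.map_tmul, TensorProduct.rid_tmul,
        LinearMap.comp_apply, LinearMap.id_apply]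
      have h2 : (pal f).toLinearMap (rv (lam' ∘ₗ (pal f).toLinearMap) y) =
          lam' (f y) • (1 : H) := by
        have := rv_map f lam' y
        rw [h'.rv_lam] at this
        exact this
      rw [h2, TensorProduct.tmul_smul, TensorProduct.smul_tmul']
      rfl
    | add x y hx hy => simp only [map_add, hx, hy, TensorProduct.add_tmul]
  rw [h1]
  rfl

theorem P_mul (f : A →ₐc[k] H) (lam' : H →ₗ[k] k) {d : A} (hd : d ∈ Dd f) (y : A) :
    rv (lam' ∘ₗ (pal f).toLinearMap) (d * y) = d * rv (lam' ∘ₗ (pal f).toLinearMap) y := by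
  have h1 : ∀ z, rv (lam' ∘ₗ (pal f).toLinearMap) z =
      (TensorProduct.rid k A) (LinearMap.lTensor A lam' (dl (AlgHom.id k A) (pal f) z)) := by
    intro z
    change _ = (TensorProduct.rid k A) (LinearMap.lTensor A lam'
      (TensorProduct.map LinearMap.id (pal f).toLinearMap (comul (R := k) z)))
    change (TensorProduct.rid k A) (LinearMap.lTensor A _ (comul (R := k) z)) = _
    congr 1
    generalize comul (R := k) z = t
    induction t using TensorProduct.induction_on with
    | zero => simp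
    | tmul x y => simp
    | add x y hx hy => simp only [map_add, hx, hy]
  rw [h1, h1, map_mul, mem_Dd.1 hd]
  generalize dl (AlgHom.id k A) (pal f) y = t
  induction t using TensorProduct.induction_on with
  | zero => simp
  | tmul x y => simp [Algebra.TensorProduct.tmul_mul_tmul]
  | add x y hx hy => simp only [map_add, mul_add, hx, hy]

theorem P_one [Module.Finite k A] (f : A →ₐc[k] H) (hf : Function.Surjective f)
    (hc : ∀ d ∈ Dd f, ∀ a : A, a * d = d * a)
    {L' : H} {lam' : H →ₗ[k] k} (h' : IsLS L' lam') :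
    ∃ y, rv (lam' ∘ₗ (pal f).toLinearMap) y = 1 := by
  let _ : CommRing (Dd f) :=
    { (inferInstance : Ring (Dd f)) with
      mul_comm := fun a b => Subtype.ext (hc b b.2 a) }
  have : Module.Finite (Dd f) A := Module.Finite.of_restrictScalars_finite k (Dd f) A
  let I : Ideal (Dd f) :=
    { carrier := {d | ∃ y, rv (lam' ∘ₗ (pal f).toLinearMap) y = d}
      add_mem' := by
        rintro a b ⟨x, hx⟩ ⟨y, hy⟩
        exact ⟨x + y, by rw [map_add, hx, hy]; rfl⟩
      zero_mem' := ⟨0, by rw [map_zero]; rfl⟩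
      smul_mem' := by
        rintro c a ⟨x, hx⟩
        exact ⟨c * x, by rw [P_mul f lam' c.2, hx]; rfl⟩ }
  have hI : (⊤ : Submodule (Dd f) A) ≤ I • ⊤ := by
    intro a _
    obtain ⟨x, hx⟩ := hf L'
    have h1 : (cs (AlgHom.id k A) * cv (rv (lam' ∘ₗ (pal f).toLinearMap)) : Cv k A A) =
        sc (lam' ∘ₗ (pal f).toLinearMap) := by
      have h2 := mul_sc (LinearMap.id : A →ₗ[k] A) (lam' ∘ₗ (pal f).toLinearMap)
      rw [LinearMap.id_comp] at h2
      rw [← h2, ← mul_assoc]
      change cs (AlgHom.id k A) * ca (AlgHom.id k A) * sc _ = _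
      rw [cs_mul_ca, one_mul]
    have h2 : (cs (AlgHom.id k A) * cv (rv (lam' ∘ₗ (pal f).toLinearMap)) : Cv k A A) x = 1 := by
      rw [h1, sc_apply]
      change lam' (f x) • (1 : A) = 1
      rw [hx, h'.lam_L, one_smul]
    rw [mul_apply_repr] at h2
    have h3 : a = ∑ i ∈ (ℛ k x).index, (⟨rv (lam' ∘ₗ (pal f).toLinearMap) ((ℛ k x).right i),
        P_mem f h' _⟩ : Dd f) • (a * HopfAlgebra.antipode k ((ℛ k x).left i)) := by
      conv_lhs => rw [← mul_one a, ← h2, Finset.mul_sum]
      refine Finset.sum_congr rfl fun i _ => ?_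
      change a * (HopfAlgebra.antipode k ((ℛ k x).left i) *
        rv (lam' ∘ₗ (pal f).toLinearMap) ((ℛ k x).right i)) =
        rv (lam' ∘ₗ (pal f).toLinearMap) ((ℛ k x).right i) *
          (a * HopfAlgebra.antipode k ((ℛ k x).left i))
      rw [← mul_assoc, hc _ (P_mem f h' _)]
    rw [h3]
    refine Submodule.sum_mem _ fun i _ => ?_
    exact Submodule.smul_mem_smul ⟨_, rfl⟩ Submodule.mem_top
  obtain ⟨r, hr1, hr2⟩ := Submodule.exists_sub_one_mem_and_smul_eq_zero_of_fg_of_le_smul I ⊤
    Module.Finite.fg_top hI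
  have hr0 : r = 0 := by
    have := hr2 (1 : A) Submodule.mem_top
    have h4 : (r : A) * 1 = 0 := this
    rw [mul_one] at h4
    exact Subtype.ext h4
  rw [hr0, zero_sub] at hr1
  have h5 : (1 : Dd f) ∈ I := by
    have := I.neg_mem hr1
    rwa [neg_neg] at this
  obtain ⟨y, hy⟩ := h5
  exact ⟨y, hy⟩

/-- The integral does not vanish under the quotient map. -/
theorem f_L_ne [Module.Finite k A] [Module.Finite k H] (f : A →ₐc[k] H)
    (hf : Function.Surjective f)
    (hk : ∀ a x, f x = 0 → adr (k := k) a x = 0)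
    (htr : ∃ d : Dd f, LinearMap.trace k (Dd f) (LinearMap.mulLeft k d) ≠ 0)
    {L : A} {lam : A →ₗ[k] k} (hL : IsLS L lam) : f L ≠ 0 := by
  classical
  have hc : ∀ d ∈ Dd f, ∀ a : A, a * d = d * a := fun d hd a => Dd_comm f hf hk hd a
  obtain ⟨L', lam', h'⟩ := exists_LS (k := k) (H := H)
  -- the basis
  set n := Module.finrank k (Dd f) with hn
  let b : Module.Basis (Fin n) k (Dd f) := Module.finBasis k (Dd f)
  let e : Fin n → A := fun i => (b i : A)
  have hext : ∀ i, ∃ g : A →ₗ[k] k, ∀ d : Dd f, g d = b.coord i d := by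
    intro i
    obtain ⟨g, hg⟩ := LinearMap.exists_extend (p := (Dd f).toSubmodule) (b.coord i)
    exact ⟨g, fun d => LinearMap.congr_fun hg d⟩
  choose δ hδ using hext
  have he : ∀ i, e i ∈ Dd f := fun i => (b i).2
  have hspan : ∀ d ∈ Dd f, d = ∑ j, δ j d • e j := by
    intro d hd
    have h1 := b.sum_repr ⟨d, hd⟩
    have h2 := congrArg (fun z : Dd f => (z : A)) h1
    simp only at h2
    conv_lhs => rw [← h2]
    rw [AddSubmonoidClass.coe_finsetSum]
    refine Finset.sum_congr rfl fun j _ => ?_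
    rw [show δ j d = b.coord j ⟨d, hd⟩ from hδ j ⟨d, hd⟩]
    rfl
  have hδe : ∀ i j, δ i (e j) = if i = j then 1 else 0 := by
    intro i j
    rw [show δ i (e j) = b.coord i (b j) from hδ i (b j)]
    rw [Module.Basis.coord_apply, Module.Basis.repr_self, Finsupp.single_apply]
    by_cases hij : i = j
    · rw [if_pos hij, if_pos hij.symm]
    · rw [if_neg hij, if_neg (fun h => hij h.symm)]
  let tau : A →ₗ[k] k := ∑ i, δ i ∘ₗ LinearMap.mulRight k (e i)
  have htau : ∀ x, tau x = ∑ i, δ i (x * e i) := by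
    intro x
    simp [tau]
  have hinv : ∀ x ∈ Dd f, rv tau x = tau x • (1 : A) := by
    intro x hx
    rw [htau]
    exact tau_inv (Dd f) hc (fun d hd w => lv_mem_Dd hd w) (fun d hd w a => rv_central f hc hd w a)
      e δ he hspan hδe hx
  let v₀ : A →ₗ[k] k := lam' ∘ₗ (pal f).toLinearMap
  obtain ⟨y₀, hy₀⟩ := P_one f hf hc h'
  -- `v = τ ∘ P`
  let v : A →ₗ[k] k := tau ∘ₗ rv v₀
  have hv : v L ≠ 0 := by
    intro h0
    have h1 : rv v L = 0 := by
      change rv (tau ∘ₗ rv v₀) L = 0
      rw [← rv_rv, hinv _ (P_mem f h' L)]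
      have : tau (rv v₀ L) = 0 := h0
      rw [this, zero_smul]
    have h2 := hL.nd v h1
    obtain ⟨d, hd⟩ := htr
    have h3 : tau d = 0 := by
      have h4 : rv v₀ (d * y₀) = d := by
        change rv (lam' ∘ₗ (pal f).toLinearMap) (d * y₀) = d
        rw [P_mul f lam' d.2, hy₀, mul_one]
      rw [← h4]
      exact LinearMap.congr_fun h2 (d * y₀)
    apply hd
    rw [LinearMap.trace_eq_matrix_trace k b, Matrix.trace, ← h3, htau]
    refine Finset.sum_congr rfl fun i _ => ?_
    rw [Matrix.diag_apply, LinearMap.toMatrix_apply]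
    exact (hδ i (d * b i)).symm
  have hv2 : v L = lam' (f L) := by
    change tau (rv v₀ L) = _
    rw [htau]
    have h1 : ∀ i, δ i (rv v₀ L * e i) = counit (R := k) (e i) * δ i (rv v₀ L) := by
      intro i
      rw [hc _ (he i), ← P_mul f lam' (he i), hL.left, map_smul, map_smul, smul_eq_mul]
    simp only [h1]
    have h2 := congrArg (counit (R := k)) (hspan _ (P_mem f h' L))
    rw [counit_rv, map_sum] at h2
    change v₀ L = _ at h2
    change _ = v₀ L
    rw [h2]
    refine Finset.sum_congr rfl fun i _ => ?_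
    rw [map_smul, smul_eq_mul, mul_comm]
  intro h0
  rw [hv2, h0, map_zero] at hv
  exact hv rfl

end fL

end Run7.h234
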