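import Pool.Agent.Run7.h234.HC

/-!
Normalised integrals, and the trace condition.
-/

set_option autoImplicit false
set_option linter.unusedVariables false
set_option linter.unusedSectionVars false

universe u

open TensorProduct Coalgebra WithConv

namespace Run7.h234

section ss

variable {k : Type u} [Field k]

/-- A semisimple augmented algebra has a normalised left integral. -/
theorem ss_integral {Q : Type u} [Ring Q] [Algebra k Q] [IsSemisimpleRing Q] (ε : Q →ₐ[k] k) :
    ∃ e : Q, (∀ h, h * e = ε h • e) ∧ ε e = 1 := by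
  obtain ⟨N, hN⟩ := exists_isCompl (RingHom.ker ε : Submodule Q Q)
  have h1 : (1 : Q) ∈ (RingHom.ker ε : Submodule Q Q) ⊔ N := by
    rw [hN.sup_eq_top]; exact Submodule.mem_top
  obtain ⟨a, ha, e, he, hae⟩ := Submodule.mem_sup.1 h1
  have ha0 : ε a = 0 := ha
  have he1 : ε e = 1 := by
    have := congrArg ε hae
    rwa [map_add, ha0, zero_add, map_one] at this
  refine ⟨e, fun h => ?_, he1⟩
  have h2 : h * e - ε h • e ∈ (RingHom.ker ε : Submodule Q Q) ⊓ N := by
    refine ⟨?_, ?_⟩
    · change ε (h * e - ε h • e) = 0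
      rw [map_sub, map_mul, map_smul, he1, smul_eq_mul, sub_self]
    · have h3 : h * e - ε h • e = (h - algebraMap k Q (ε h)) • e := by
        rw [smul_eq_mul, sub_mul, Algebra.smul_def]
      rw [h3]
      exact N.smul_mem _ he
  rw [hN.inf_eq_bot, Submodule.mem_bot, sub_eq_zero] at h2
  exact h2

/-- The trace condition for reduced commutative algebras. -/
theorem trace_of_reduced {A : Type u} [Ring A] [Algebra k A] [Module.Finite k A]
    (D : Subalgebra k A) (hc : ∀ d ∈ D, ∀ a : A, a * d = d * a) (ε : A →ₐ[k] k)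
    (hred : ∀ d ∈ D, d * d = 0 → d = 0) :
    ∃ d : D, LinearMap.trace k D (LinearMap.mulLeft k d) ≠ 0 := by
  let _ : CommRing D :=
    { (inferInstance : Ring D) with
      mul_comm := fun a b => Subtype.ext (hc b b.2 a) }
  have hfin : Module.Finite k D := inferInstance
  have hart : IsArtinianRing D := IsArtinianRing.of_finite k D
  have hr : IsReduced D := by
    refine ⟨fun x hx => ?_⟩
    by_contra hne
    obtain ⟨n, hn⟩ := hx
    -- take the largest nonzero power
    have hex : ∃ m, x ^ m = 0 := ⟨n, hn⟩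
    classical
    have hm := Nat.find_spec hex
    set m := Nat.find hex with hmdef
    have hm0 : m ≠ 0 := by
      intro h0
      rw [h0, pow_zero] at hm
      exact hne (by rw [← mul_one x, hm, mul_zero])
    have hm1 : m ≠ 1 := by
      intro h0
      rw [h0, pow_one] at hm
      exact hne hm
    have hlt : x ^ (m - 1) ≠ 0 := Nat.find_min hex (by omega)
    apply hlt
    have h2 : x ^ (m - 1) * x ^ (m - 1) = 0 := by
      rw [← pow_add]
      have : m - 1 + (m - 1) = m + (m - 2) := by omega
      rw [this, pow_add, hm, zero_mul]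
    have h3 := hred (x ^ (m - 1) : D) (x ^ (m - 1) : D).2 (congrArg Subtype.val h2)
    exact Subtype.ext h3
  have hss : IsSemisimpleRing D := IsArtinianRing.isSemisimpleRing_of_isReduced D
  obtain ⟨e, he, he1⟩ := ss_integral (k := k) (Q := D) (ε.comp D.val)
  refine ⟨e, ?_⟩
  have h1 : LinearMap.mulLeft k e = (LinearMap.toSpanSingleton k D e) ∘ₗ
      (ε.comp D.val).toLinearMap := by
    apply LinearMap.ext
    intro d
    change e * d = (ε.comp D.val) d • e
    rw [mul_comm e d]
    exact he d
  rw [h1, LinearMap.trace_comp_comm']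
  have h2 : (ε.comp D.val).toLinearMap ∘ₗ (LinearMap.toSpanSingleton k D e) =
      LinearMap.id := by
    ext
    change (ε.comp D.val) ((1 : k) • e) = 1
    rw [one_smul, he1]
  rw [h2, LinearMap.trace_id]
  simp

end ss

section dim

variable {k : Type u} [Field k] {A H : Type u} [Ring A] [HopfAlgebra k A] [Ring H]
  [HopfAlgebra k H]

/-- A normalised right integral with respect to the dual integral. -/
theorem exists_right [Module.Finite k H] : ∃ (Gm : H) (lam : H →ₗ[k] k) (L : H), IsLS L lam ∧
    lam Gm = 1 ∧ ∀ h, Gm * h = counit (R := k) h • Gm := by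
  obtain ⟨L, lam, hL⟩ := exists_LS (k := k) (H := H)
  have h0 : lam (HopfAlgebra.antipode k L) ≠ 0 := by
    intro h0
    have h1 : lam ∘ₗ LinearMap.mulLeft k (HopfAlgebra.antipode k L) = 0 := by
      ext x
      change lam (HopfAlgebra.antipode k L * x) = 0
      rw [antipode_right hL.left, map_smul, h0, smul_zero]
    have h2 := hL.anti (HopfAlgebra.antipode k L)
    rw [h1] at h2
    have h3 : rv (0 : H →ₗ[k] k) L = 0 := by
      rw [rv_repr]; simp
    rw [h3] at h2
    have h4 : HopfAlgebra.antipode k L = 0 :=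
      antipode_injective (k := k) (by rw [← h2, map_zero])
    have h5 : L = 0 := antipode_injective (k := k) (by rw [h4, map_zero])
    have h6 := hL.lam_L
    rw [h5, map_zero] at h6
    exact zero_ne_one h6
  refine ⟨(lam (HopfAlgebra.antipode k L))⁻¹ • HopfAlgebra.antipode k L, lam, L, hL, ?_, ?_⟩
  · rw [map_smul, smul_eq_mul, inv_mul_cancel₀ h0]
  · intro h
    rw [smul_mul_assoc, antipode_right hL.left, smul_comm]

/-- The dual basis formula. -/
theorem dual_basis [Module.Finite k H] (f : A →ₐc[k] H) {lam : H →ₗ[k] k} {z : A}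
    (hz1 : lam (f z) = 1) (hz : ∀ h, f z * h = counit (R := k) h • f z) (x : A) :
    x = ∑ i ∈ (ℛ k z).index, HopfAlgebra.antipode k ((ℛ k z).left i) *
      rv (lam ∘ₗ (pal f).toLinearMap) ((ℛ k z).right i * x) := by
  set v₀ : A →ₗ[k] k := lam ∘ₗ (pal f).toLinearMap with hv
  let G : A →ₗ[k] A := rv v₀ ∘ₗ LinearMap.mulRight k x
  let K : A →ₗ[k] A :=
    { toFun := fun y => rv (v₀ ∘ₗ LinearMap.mulLeft k y) x
      map_add' := fun y y' => by rw [mulLeft_add', LinearMap.comp_add, rv_add]
      map_smul' := fun a y => by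
        rw [RingHom.id_apply, mulLeft_smul', LinearMap.comp_smul, rv_smul] }
  have h1 : (cv G : Cv k A A) = ca (AlgHom.id k A) * cv K := by
    apply cv_ext
    intro y
    rw [mul_apply_repr]
    exact rv_mul v₀ y x
  have h2 : (cs (AlgHom.id k A) * cv G : Cv k A A) = cv K := by
    rw [h1, ← mul_assoc, cs_mul_ca, one_mul]
  have h3 : (cs (AlgHom.id k A) * cv G : Cv k A A) z = (cv K : Cv k A A) z := by rw [h2]
  rw [mul_apply_repr] at h3
  have h4 : (cv K : Cv k A A) z = x := by
    change rv (v₀ ∘ₗ LinearMap.mulLeft k z) x = x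
    have h5 : v₀ ∘ₗ LinearMap.mulLeft k z = counit (R := k) := by
      ext y
      change lam (pal f (z * y)) = _
      rw [map_mul]
      change lam (f z * f y) = _
      rw [hz, map_smul, hz1, counit_map, smul_eq_mul, mul_one]
    rw [h5, rv_counit]
  rw [h4] at h3
  exact h3.symm

/-- If the dimension of `A` is invertible then the trace condition holds. -/
theorem trace_of_dim [Module.Finite k A] [Module.Finite k H] (f : A →ₐc[k] H)
    (hf : Function.Surjective f) (hc : ∀ d ∈ Dd f, ∀ a : A, a * d = d * a)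
    (hdim : (Module.finrank k A : k) ≠ 0) :
    ∃ d : Dd f, LinearMap.trace k (Dd f) (LinearMap.mulLeft k d) ≠ 0 := by
  by_contra hcon
  push Not at hcon
  apply hdim
  obtain ⟨Gm, lam, L, hL, hG1, hG2⟩ := exists_right (k := k) (H := H)
  obtain ⟨z, hz⟩ := hf Gm
  let v₀ : A →ₗ[k] k := lam ∘ₗ (pal f).toLinearMap
  let Q : A → A →ₗ[k] Dd f := fun y =>
    LinearMap.codRestrict (Dd f).toSubmodule (rv v₀ ∘ₗ LinearMap.mulLeft k y)
      (fun x => P_mem f hL _)
  let R : A → Dd f →ₗ[k] A := fun y => LinearMap.mulLeft k y ∘ₗ (Dd f).toSubmodule.subtype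
  have h1 : (LinearMap.id : A →ₗ[k] A) = ∑ i ∈ (ℛ k z).index,
      (R (HopfAlgebra.antipode k ((ℛ k z).left i))) ∘ₗ (Q ((ℛ k z).right i)) := by
    apply LinearMap.ext
    intro x
    rw [LinearMap.sum_apply]
    exact dual_basis f (by rw [hz, hG1]) (by rw [hz]; exact hG2) x
  have h2 := congrArg (LinearMap.trace k A) h1
  rw [LinearMap.trace_id, map_sum] at h2
  rw [h2]
  refine Finset.sum_eq_zero fun i _ => ?_
  rw [LinearMap.trace_comp_comm']
  have h3 : (Q ((ℛ k z).right i)) ∘ₗ (R (HopfAlgebra.antipode k ((ℛ k z).left i))) =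
      LinearMap.mulLeft k (⟨rv v₀ ((ℛ k z).right i *
        HopfAlgebra.antipode k ((ℛ k z).left i)), P_mem f hL _⟩ : Dd f) := by
    apply LinearMap.ext
    intro d
    apply Subtype.ext
    change rv v₀ ((ℛ k z).right i * (HopfAlgebra.antipode k ((ℛ k z).left i) * d)) =
      rv v₀ ((ℛ k z).right i * HopfAlgebra.antipode k ((ℛ k z).left i)) * d
    rw [← mul_assoc, hc d d.2, hc d d.2]
    exact P_mul f lam d.2 _
  rw [h3]
  exact hcon _

end dim

end Run7.h234
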