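import Pool.Agent.Run7.h234.HR4

/-!
Base change to the algebraic closure.
-/

set_option autoImplicit false
set_option linter.unusedVariables false
set_option linter.unusedSectionVars false

universe u

open TensorProduct Coalgebra WithConv

namespace Run7.h234

section base

variable {k : Type u} [Field k] {C G : Type u} [Ring C] [HopfAlgebra k C] [Ring G]
  [HopfAlgebra k G]

variable (K : Type u) [Field K] [Algebra k K]

theorem comul_one_tmul (c : C) : comul (R := K) ((1 : K) ⊗ₜ[k] c) =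
    ∑ i ∈ (ℛ k c).index, ((1 : K) ⊗ₜ[k] (ℛ k c).left i) ⊗ₜ[K] ((1 : K) ⊗ₜ[k] (ℛ k c).right i) := by
  rw [TensorProduct.comul_tmul]
  have h1 : comul (R := K) (1 : K) = 1 ⊗ₜ[K] 1 := by simp
  rw [h1]
  conv_lhs => rw [← (ℛ k c).eq, TensorProduct.tmul_sum, map_sum]
  rfl

/-- The base change of a bialgebra map. -/
noncomputable def bc (q : C →ₐc[k] G) : K ⊗[k] C →ₐc[K] K ⊗[k] G :=
  Bialgebra.TensorProduct.map (BialgHom.id K K) q

theorem bc_tmul (q : C →ₐc[k] G) (s : K) (c : C) : bc K q (s ⊗ₜ[k] c) = s ⊗ₜ[k] q c := rfl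

theorem bc_surj {q : C →ₐc[k] G} (hq : Function.Surjective q) :
    Function.Surjective (bc K q) := by
  intro t
  induction t using TensorProduct.induction_on with
  | zero => exact ⟨0, map_zero (pal (bc K q))⟩
  | add a b ha hb =>
    obtain ⟨a', rfl⟩ := ha
    obtain ⟨b', rfl⟩ := hb
    exact ⟨a' + b', map_add (pal (bc K q)) _ _⟩
  | tmul s g =>
    obtain ⟨c, rfl⟩ := hq g
    exact ⟨s ⊗ₜ[k] c, rfl⟩

theorem bc_cocen {q : C →ₐc[k] G} (h : Cocen q) : Cocen (bc K q) := by
  intro f c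
  have key : (pal (bc K q)).toLinearMap ∘ₗ rv f = (pal (bc K q)).toLinearMap ∘ₗ lv f := by
    apply TensorProduct.AlgebraTensorModule.curry_injective
    apply LinearMap.ext_ring
    apply LinearMap.ext
    intro c
    change bc K q (rv f ((1 : K) ⊗ₜ[k] c)) = bc K q (lv f ((1 : K) ⊗ₜ[k] c))
    have h1 : rv f ((1 : K) ⊗ₜ[k] c) = ∑ i ∈ (ℛ k c).index,
        f ((1 : K) ⊗ₜ[k] (ℛ k c).right i) • ((1 : K) ⊗ₜ[k] (ℛ k c).left i) := by
      change (TensorProduct.rid K _) (LinearMap.lTensor _ f (comul (R := K) ((1 : K) ⊗ₜ[k] c))) = _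
      rw [comul_one_tmul, map_sum, map_sum]
      simp
    have h2 : lv f ((1 : K) ⊗ₜ[k] c) = ∑ i ∈ (ℛ k c).index,
        f ((1 : K) ⊗ₜ[k] (ℛ k c).left i) • ((1 : K) ⊗ₜ[k] (ℛ k c).right i) := by
      change (TensorProduct.lid K _) (LinearMap.rTensor _ f (comul (R := K) ((1 : K) ⊗ₜ[k] c))) = _
      rw [comul_one_tmul, map_sum, map_sum]
      simp
    let F : C →ₗ[k] K := (f.restrictScalars k) ∘ₗ (TensorProduct.mk k K C 1)
    have h3 := congrArg (TensorProduct.map F (LinearMap.id : G →ₗ[k] G)) (h.tens c)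
    have h4 : TensorProduct.map F (LinearMap.id : G →ₗ[k] G)
        (TensorProduct.map LinearMap.id (pal q).toLinearMap (comul (R := k) c)) =
        ∑ i ∈ (ℛ k c).index, F ((ℛ k c).left i) ⊗ₜ[k] q ((ℛ k c).right i) := by
      conv_lhs => rw [← (ℛ k c).eq, map_sum, map_sum]
      rfl
    have h5 : TensorProduct.map F (LinearMap.id : G →ₗ[k] G)
        ((TensorProduct.comm k G C) (TensorProduct.map (pal q).toLinearMap LinearMap.id
          (comul (R := k) c))) =
        ∑ i ∈ (ℛ k c).index, F ((ℛ k c).right i) ⊗ₜ[k] q ((ℛ k c).left i) := by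
      conv_lhs => rw [← (ℛ k c).eq, map_sum, map_sum, map_sum]
      rfl
    rw [h4, h5] at h3
    rw [h1, h2]
    change pal (bc K q) _ = pal (bc K q) _
    rw [map_sum, map_sum]
    have h6 : ∀ (x y : C), (pal (bc K q)) (f ((1 : K) ⊗ₜ[k] x) • ((1 : K) ⊗ₜ[k] y)) =
        F x ⊗ₜ[k] q y := by
      intro x y
      rw [map_smul]
      change f ((1 : K) ⊗ₜ[k] x) • ((1 : K) ⊗ₜ[k] q y) = _
      rw [TensorProduct.smul_tmul', smul_eq_mul, mul_one]
      rfl
    simp only [h6]
    exact h3.symm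
  exact LinearMap.congr_fun key c

variable (k) in
theorem natCast_ne (n : ℕ) : ((n : K) ≠ 0) ↔ ((n : k) ≠ 0) := by
  rw [← map_natCast (algebraMap k K) n, Ne, map_eq_zero]

/-- If the dimension of `C` is invertible then so is the dimension of a cocentral quotient. -/
theorem dim_ne [Module.Finite k C] [Module.Finite k G] {q : C →ₐc[k] G}
    (h : Cocen q) (hq : Function.Surjective q) (hdim : (Module.finrank k C : k) ≠ 0) :
    (Module.finrank k G : k) ≠ 0 := by
  have h1 := dim_ne_closed (k := AlgebraicClosure k) (bc_cocen (AlgebraicClosure k) h)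
    (bc_surj (AlgebraicClosure k) hq)
    (by rw [Module.finrank_baseChange, natCast_ne k]; exact hdim)
  rwa [Module.finrank_baseChange, natCast_ne k] at h1

end base

end Run7.h234
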