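import Pool.Agent.Run7.h234.HG0

/-!
The Hopf centre, and Hopf subalgebras as Hopf algebras.
-/

set_option autoImplicit false
set_option linter.unusedVariables false
set_option linter.unusedSectionVars false

universe u

open TensorProduct Coalgebra WithConv

namespace Run7.h234

section sub

variable {k : Type u} [Field k] {A : Type u} [Ring A] [HopfAlgebra k A] (K : Subalgebra k A)

/-- Closed under the comultiplication and the antipode. -/
structure IsSubHopf : Prop where
  hl : ∀ a ∈ K, ∀ w : A →ₗ[k] k, lv w a ∈ K
  hr : ∀ a ∈ K, ∀ w : A →ₗ[k] k, rv w a ∈ K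
  hS : ∀ a ∈ K, HopfAlgebra.antipode k a ∈ K

/-- The inclusion of the tensor square. -/
noncomputable def j2 : K ⊗[k] K →ₐ[k] A ⊗[k] A := Algebra.TensorProduct.map K.val K.val

theorem j2_inj : Function.Injective (j2 K) :=
  TensorProduct.map_injective_of_flat_flat _ _ Subtype.val_injective Subtype.val_injective

variable {K}

theorem IsSubHopf.mem_range (h : IsSubHopf K) (a : K) : comul (R := k) (a : A) ∈ (j2 K).range := by
  obtain ⟨s, hs⟩ := LinearMap.exists_leftInverse_of_injective K.val.toLinearMap
    (LinearMap.ker_eq_bot.2 Subtype.val_injective)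
  have hs' : ∀ x ∈ K, (s x : A) = x := by
    intro x hx
    exact congrArg Subtype.val (LinearMap.congr_fun hs ⟨x, hx⟩)
  let σ : A →ₗ[k] A := K.val.toLinearMap ∘ₗ s
  have h1 : LinearMap.lTensor A σ (comul (R := k) (a : A)) = comul (R := k) (a : A) := by
    apply tens_ext_l
    intro w
    have h2 : ∀ t : A ⊗[k] A, (TensorProduct.lid k A) (LinearMap.rTensor A w
        (LinearMap.lTensor A σ t)) = σ ((TensorProduct.lid k A) (LinearMap.rTensor A w t)) := by
      intro t
      induction t using TensorProduct.induction_on with
      | zero => simp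
      | tmul x y => simp
      | add x y hx hy => simp only [map_add, hx, hy]
    rw [h2]
    exact hs' _ (h.hl _ a.2 w)
  have h3 : LinearMap.rTensor A σ (comul (R := k) (a : A)) = comul (R := k) (a : A) := by
    apply tens_ext_r
    intro w
    have h2 : ∀ t : A ⊗[k] A, (TensorProduct.rid k A) (LinearMap.lTensor A w
        (LinearMap.rTensor A σ t)) = σ ((TensorProduct.rid k A) (LinearMap.lTensor A w t)) := by
      intro t
      induction t using TensorProduct.induction_on with
      | zero => simp
      | tmul x y => simp
      | add x y hx hy => simp only [map_add, hx, hy]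
    rw [h2]
    exact hs' _ (h.hr _ a.2 w)
  refine ⟨TensorProduct.map s s (comul (R := k) (a : A)), ?_⟩
  have h4 : ∀ t : A ⊗[k] A, j2 K (TensorProduct.map s s t) =
      LinearMap.rTensor A σ (LinearMap.lTensor A σ t) := by
    intro t
    induction t using TensorProduct.induction_on with
    | zero => simp
    | tmul x y => rfl
    | add x y hx hy => simp only [map_add, hx, hy]
  have h5 := h4 (comul (R := k) (a : A))
  rw [h1, h3] at h5
  exact h5

/-- The restricted comultiplication. -/
noncomputable def comulK (h : IsSubHopf K) : K →ₐ[k] K ⊗[k] K :=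
  ((AlgEquiv.ofInjective (j2 K) (j2_inj K)).symm : (j2 K).range →ₐ[k] K ⊗[k] K).comp
    (((Bialgebra.comulAlgHom k A).comp K.val).codRestrict (j2 K).range h.mem_range)

theorem j2_comulK (h : IsSubHopf K) (a : K) : j2 K (comulK h a) = comul (R := k) (a : A) := by
  have h1 := (AlgEquiv.ofInjective (j2 K) (j2_inj K)).apply_symm_apply
    ((((Bialgebra.comulAlgHom k A).comp K.val).codRestrict (j2 K).range h.mem_range) a)
  exact congrArg Subtype.val h1

/-- The bialgebra structure on a Hopf subalgebra. -/
noncomputable abbrev subBialg (h : IsSubHopf K) : Bialgebra k K :=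
  Bialgebra.ofAlgHom (comulK h) ((Bialgebra.counitAlgHom k A).comp K.val)
    (by
      apply AlgHom.ext
      intro a
      have hj3 : Function.Injective (TensorProduct.map K.val.toLinearMap (j2 K).toLinearMap) :=
        TensorProduct.map_injective_of_flat_flat _ _ Subtype.val_injective (j2_inj K)
      apply hj3
      have h1 : ∀ t : K ⊗[k] K, TensorProduct.map K.val.toLinearMap (j2 K).toLinearMap
          ((Algebra.TensorProduct.assoc k k k K K K)
            (Algebra.TensorProduct.map (comulK h) (AlgHom.id k K) t)) =
          (TensorProduct.assoc k A A A) (LinearMap.rTensor A (comul (R := k)) (j2 K t)) := by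
        intro t
        induction t using TensorProduct.induction_on with
        | zero => simp
        | tmul x y =>
          change TensorProduct.map K.val.toLinearMap (j2 K).toLinearMap
            ((TensorProduct.assoc k K K K) ((comulK h x) ⊗ₜ[k] y)) =
            (TensorProduct.assoc k A A A) ((comul (R := k) (x : A)) ⊗ₜ[k] (y : A))
          rw [← j2_comulK h x]
          generalize comulK h x = t
          induction t using TensorProduct.induction_on with
          | zero => simp
          | tmul u v => rfl
          | add u v hu hv =>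
            simp only [map_add, TensorProduct.add_tmul] at hu hv ⊢
            rw [hu, hv]
        | add x y hx hy => simp only [map_add, hx, hy]
      have h2 : ∀ t : K ⊗[k] K, TensorProduct.map K.val.toLinearMap (j2 K).toLinearMap
          (Algebra.TensorProduct.map (AlgHom.id k K) (comulK h) t) =
          LinearMap.lTensor A (comul (R := k)) (j2 K t) := by
        intro t
        induction t using TensorProduct.induction_on with
        | zero => simp
        | tmul x y =>
          change (x : A) ⊗ₜ[k] (j2 K (comulK h y)) = (x : A) ⊗ₜ[k] comul (R := k) (y : A)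
          rw [j2_comulK]
        | add x y hx hy => simp only [map_add, hx, hy]
      refine (h1 (comulK h a)).trans (Eq.trans ?_ (h2 (comulK h a)).symm)
      rw [j2_comulK]
      exact LinearMap.congr_fun (Coalgebra.coassoc (R := k) (A := A)) (a : A))
    (by
      apply AlgHom.ext
      intro a
      have hj : Function.Injective (LinearMap.lTensor k K.val.toLinearMap) :=
        Module.Flat.lTensor_preserves_injective_linearMap _ Subtype.val_injective
      apply hj
      have h1 : ∀ t : K ⊗[k] K, LinearMap.lTensor k K.val.toLinearMap
          (Algebra.TensorProduct.map ((Bialgebra.counitAlgHom k A).comp K.val) (AlgHom.id k K) t) =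
          LinearMap.rTensor A (counit (R := k)) (j2 K t) := by
        intro t
        induction t using TensorProduct.induction_on with
        | zero => simp
        | tmul x y => rfl
        | add x y hx hy => simp only [map_add, hx, hy]
      refine (h1 (comulK h a)).trans ?_
      rw [j2_comulK, Coalgebra.rTensor_counit_comul]
      rfl)
    (by
      apply AlgHom.ext
      intro a
      have hj : Function.Injective (LinearMap.rTensor k K.val.toLinearMap) :=
        Module.Flat.rTensor_preserves_injective_linearMap _ Subtype.val_injective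
      apply hj
      have h1 : ∀ t : K ⊗[k] K, LinearMap.rTensor k K.val.toLinearMap
          (Algebra.TensorProduct.map (AlgHom.id k K) ((Bialgebra.counitAlgHom k A).comp K.val) t) =
          LinearMap.lTensor A (counit (R := k)) (j2 K t) := by
        intro t
        induction t using TensorProduct.induction_on with
        | zero => simp
        | tmul x y => rfl
        | add x y hx hy => simp only [map_add, hx, hy]
      refine (h1 (comulK h a)).trans ?_
      rw [j2_comulK, Coalgebra.lTensor_counit_comul]
      rfl)

/-- The restricted antipode. -/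
noncomputable def antiK (h : IsSubHopf K) : K →ₗ[k] K :=
  LinearMap.codRestrict (Subalgebra.toSubmodule K)
    (HopfAlgebra.antipode k ∘ₗ (Subalgebra.toSubmodule K).subtype) (fun a => h.hS _ a.2)

theorem antiK_val (h : IsSubHopf K) (a : K) : (antiK h a : A) = HopfAlgebra.antipode k (a : A) :=
  rfl

/-- The Hopf algebra structure on a Hopf subalgebra. -/
@[reducible]
noncomputable def subHopf (h : IsSubHopf K) : HopfAlgebra k K :=
  { subBialg h with
    antipode := antiK h
    mul_antipode_rTensor_comul := by
      apply LinearMap.ext
      intro a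
      apply Subtype.ext
      have h1 : ∀ t : K ⊗[k] K, ((LinearMap.mul' k K (LinearMap.rTensor K (antiK h) t) : K) : A) =
          LinearMap.mul' k A (LinearMap.rTensor A (HopfAlgebra.antipode k) (j2 K t)) := by
        intro t
        induction t using TensorProduct.induction_on with
        | zero => simp
        | tmul x y => rfl
        | add x y hx hy =>
          simp only [map_add] at hx hy ⊢
          rw [← hx, ← hy]; rfl
      refine (h1 (comulK h a)).trans ?_
      rw [j2_comulK]
      exact LinearMap.congr_fun (HopfAlgebra.mul_antipode_rTensor_comul (R := k) (A := A)) (a : A)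
    mul_antipode_lTensor_comul := by
      apply LinearMap.ext
      intro a
      apply Subtype.ext
      have h1 : ∀ t : K ⊗[k] K, ((LinearMap.mul' k K (LinearMap.lTensor K (antiK h) t) : K) : A) =
          LinearMap.mul' k A (LinearMap.lTensor A (HopfAlgebra.antipode k) (j2 K t)) := by
        intro t
        induction t using TensorProduct.induction_on with
        | zero => simp
        | tmul x y => rfl
        | add x y hx hy =>
          simp only [map_add] at hx hy ⊢
          rw [← hx, ← hy]; rfl
      refine (h1 (comulK h a)).trans ?_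
      rw [j2_comulK]
      exact LinearMap.congr_fun (HopfAlgebra.mul_antipode_lTensor_comul (R := k) (A := A))
        (a : A) }

end sub

section cen

variable (k : Type u) [Field k] (A : Type u) [Ring A] [HopfAlgebra k A]

/-- Every central Hopf subalgebra is semisimple. -/
def CentreSS : Prop :=
  ∀ (Z : Type u) [Ring Z] [HopfAlgebra k Z] (j : Z →ₐc[k] A), Function.Injective j →
    (∀ (z : Z) (a : A), j z * a = a * j z) → IsSemisimpleRing Z

/-- The Hopf centre. -/
noncomputable def HCen : Subalgebra k A :=
  (Subalgebra.centralizer k (Set.range (fun a : A => (1 : A) ⊗ₜ[k] a))).comap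
    (Bialgebra.comulAlgHom k A)

variable {k A}

theorem mem_HCen {a : A} : a ∈ HCen k A ↔ ∀ c : A,
    ((1 : A) ⊗ₜ[k] c) * comul (R := k) a = comul (R := k) a * ((1 : A) ⊗ₜ[k] c) := by
  constructor
  · intro h c
    exact h _ ⟨c, rfl⟩
  · rintro h _ ⟨c, rfl⟩
    exact h c

theorem mem_HCen' {a : A} : a ∈ HCen k A ↔ ∀ (w : A →ₗ[k] k) (c : A), c * lv w a = lv w a * c := by
  rw [mem_HCen]
  constructor
  · intro h w c
    have h1 := congrArg (fun z => (TensorProduct.lid k A) (LinearMap.rTensor A w z)) (h c)
    simp only [lid_mul_l, lid_mul_r] at h1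
    exact h1
  · intro h c
    apply tens_ext_l
    intro w
    rw [lid_mul_l, lid_mul_r]
    exact h w c

theorem HCen_central {a : A} (ha : a ∈ HCen k A) (c : A) : c * a = a * c := by
  have h := mem_HCen'.1 ha (counit (R := k)) c
  have h1 : lv (counit (R := k)) a = a := by
    rw [lv_repr, Coalgebra.sum_counit_smul]
  rwa [h1] at h

theorem lv_rv (v w : A →ₗ[k] k) (c : A) : lv v (rv w c) = rv w (lv v c) := by
  have h1 : ∀ t : A ⊗[k] A, (TensorProduct.lid k A) (LinearMap.rTensor A v
      (LinearMap.lTensor A (rv w) t)) = rv w ((TensorProduct.lid k A)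
        (LinearMap.rTensor A v t)) := by
    intro t
    induction t using TensorProduct.induction_on with
    | zero => simp
    | tmul x y => simp
    | add x y hx hy => simp only [map_add, hx, hy]
  change (TensorProduct.lid k A) (LinearMap.rTensor A v (comul (R := k) (rv w c))) = _
  rw [comul_rv, h1]
  rfl

theorem lv_lv (v w : A →ₗ[k] k) (c : A) : lv v (lv w c) = lv (w ∘ₗ rv v) c := by
  apply eq_of_dual (k := k)
  intro f
  rw [mul_lv, mul_lv, ← lv_rv, mul_lv]
  rfl

theorem HCen_lv {a : A} (ha : a ∈ HCen k A) (w : A →ₗ[k] k) : lv w a ∈ HCen k A := by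
  rw [mem_HCen']
  intro w' c
  rw [lv_lv]
  exact mem_HCen'.1 ha _ c

/-- The left tensor factor of `Δ(d)` is central. -/
theorem HCen_rv_central {d : A} (hd : d ∈ HCen k A) (w : A →ₗ[k] k) (a : A) :
    a * rv w d = rv w d * a := by
  set T : Cv k A (A ⊗[k] A) := cst A (comul (R := k) d) with hT
  have h1 : ca (dl (AlgHom.id k A) (AlgHom.id k A)) * T =
      T * ca (dl (AlgHom.id k A) (AlgHom.id k A)) := by
    apply cv_ext
    intro x
    rw [mul_cst_apply, cst_mul_apply]
    have h0 : (ca (dl (AlgHom.id k A) (AlgHom.id k A)) : Cv k A (A ⊗[k] A)) x =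
        comul (R := k) x := by
      change (Algebra.TensorProduct.map (AlgHom.id k A) (AlgHom.id k A))
        (comul (R := k) x) = _
      rw [Algebra.TensorProduct.map_id]; rfl
    rw [h0, ← Bialgebra.comul_mul, ← Bialgebra.comul_mul, HCen_central hd]
  have h2 : ca (jr (R := A) (AlgHom.id k A)) * T = T * ca (jr (R := A) (AlgHom.id k A)) := by
    apply cv_ext
    intro x
    rw [mul_cst_apply, cst_mul_apply]
    exact mem_HCen.1 hd x
  have h3 : ca (jl (R' := A) (AlgHom.id k A)) * T = T * ca (jl (R' := A) (AlgHom.id k A)) := by
    rw [← jl_mul_jr, mul_assoc, h2] at h1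
    calc ca (jl (R' := A) (AlgHom.id k A)) * T =
        ca (jl (R' := A) (AlgHom.id k A)) * (T * ca (jr (R := A) (AlgHom.id k A))) *
          cs (jr (R := A) (AlgHom.id k A)) := by
          rw [mul_assoc, mul_assoc, ca_mul_cs, mul_one]
      _ = _ := by rw [h1, mul_assoc, mul_assoc, ca_mul_cs, mul_one]
  have h4 := congrArg (fun z : Cv k A (A ⊗[k] A) => z a) h3
  simp only [hT, mul_cst_apply, cst_mul_apply] at h4
  have h5 : (a ⊗ₜ[k] (1 : A)) * comul (R := k) d = comul (R := k) d * (a ⊗ₜ[k] (1 : A)) := h4
  have h6 := congrArg (fun z => (TensorProduct.rid k A) (LinearMap.lTensor A w z)) h5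
  simp only [rid_mul_l, rid_mul_r] at h6
  exact h6

theorem HCen_rv {a : A} (ha : a ∈ HCen k A) (w : A →ₗ[k] k) : rv w a ∈ HCen k A := by
  rw [mem_HCen']
  intro w' c
  rw [lv_rv]
  exact HCen_rv_central (HCen_lv ha w') w c

theorem HCen_anti [Module.Finite k A] {a : A} (ha : a ∈ HCen k A) :
    HopfAlgebra.antipode k a ∈ HCen k A := by
  rw [mem_HCen']
  intro w c
  obtain ⟨c, rfl⟩ := (antipode_bijective (k := k) (H := A)).2 c
  rw [lv_antipode, ← HopfAlgebra.antipode_mul_antidistrib, ← HopfAlgebra.antipode_mul_antidistrib,
    HCen_rv_central ha]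

theorem HCen_sub [Module.Finite k A] : IsSubHopf (HCen k A) :=
  ⟨fun a ha w => HCen_lv ha w, fun a ha w => HCen_rv ha w, fun a ha => HCen_anti ha⟩

/-- Semisimplicity of the central Hopf subalgebras gives reducedness of the Hopf centre. -/
theorem CentreSS.reduced [Module.Finite k A] (h : CentreSS k A) {a : A} (ha : a ∈ HCen k A)
    (h0 : a * a = 0) : a = 0 := by
  let _ : HopfAlgebra k (HCen k A) := subHopf HCen_sub
  let j : HCen k A →ₐc[k] A := BialgHom.ofAlgHom (HCen k A).val rfl (by
    apply AlgHom.ext
    intro x
    exact j2_comulK HCen_sub x)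
  have hss : IsSemisimpleRing (HCen k A) :=
    h (HCen k A) j Subtype.val_injective (fun z c => (HCen_central z.2 c).symm)
  let _ : CommRing (HCen k A) :=
    { (inferInstance : Ring (HCen k A)) with
      mul_comm := fun a b => Subtype.ext (HCen_central b.2 a) }
  have hred : IsReduced (HCen k A) := inferInstance
  have h1 : IsNilpotent (⟨a, ha⟩ : HCen k A) := ⟨2, by
    rw [pow_two]; exact Subtype.ext h0⟩
  exact congrArg Subtype.val h1.eq_zero

end cen

end Run7.h234
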