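import Pool.Agent.Run7.h234.HA2
import Pool.Agent.Run7.h234.HR5
import Pool.Agent.Run7.h234.HZ

/-!
The main theorem for a general quotient through which the adjoint action factors.
-/

set_option autoImplicit false
set_option linter.unusedVariables false
set_option linter.unusedSectionVars false

universe u

open TensorProduct Coalgebra WithConv CategoryTheory
open scoped ModuleCat

namespace Run7.h234

section gen

variable {k : Type u} [Field k] {A B C E G : Type u} [Ring A] [HopfAlgebra k A] [Ring B]
  [HopfAlgebra k B] [Ring C] [HopfAlgebra k C] [Ring E] [HopfAlgebra k E] [Ring G]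
  [HopfAlgebra k G]

variable (k A) in
/-- The trace condition for the coinvariants of Hopf quotients, when they are central. -/
def TrH : Prop :=
  ∀ (H : Type u) [Ring H] [HopfAlgebra k H] [Module.Finite k H] (f : A →ₐc[k] H),
    Function.Surjective f → (∀ d ∈ Dd f, ∀ a : A, a * d = d * a) →
    ∃ d : Dd f, LinearMap.trace k (Dd f) (LinearMap.mulLeft k d) ≠ 0

theorem TrH_of_dim [Module.Finite k A] (h : (Module.finrank k A : k) ≠ 0) : TrH k A := by
  intro H _ _ _ f hf hc
  exact trace_of_dim f hf hc h

theorem TrH_of_centre [Module.Finite k A] (h : CentreSS k A) : TrH k A := by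
  intro H _ _ _ f hf hc
  refine trace_of_reduced (Dd f) hc (Bialgebra.counitAlgHom k A) ?_
  intro d hd h0
  refine h.reduced ?_ h0
  rw [mem_HCen']
  intro w c
  exact hc _ (lv_mem_Dd hd w) c

theorem g_L_ne [Module.Finite k A] [Module.Finite k B] [Module.Finite k E]
    (ι : A →ₐc[k] B) (hι : Function.Injective ι) (q : B →ₐc[k] E)
    (hq : ∀ a b, q b = 0 → adr (k := k) (ι a) b = 0) (htr : TrH k A)
    {L : A} {lam : A →ₗ[k] k} (hL : IsLS L lam) : (q.comp ι) L ≠ 0 := by
  set g : A →ₐc[k] E := q.comp ι with hg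
  have hH : (RingHom.ker (pal g)).IsHopfIdeal k := ker_hopf g
  let f : A →ₐc[k] A ⧸ RingHom.ker (pal g) := Bialgebra.Quotient.mkBialgHom (RingHom.ker (pal g))
  have hf : Function.Surjective f := Ideal.Quotient.mk_surjective
  have hf0 : ∀ x, f x = 0 ↔ g x = 0 := fun x => Ideal.Quotient.eq_zero_iff_mem
  have hk : ∀ a x, f x = 0 → adr (k := k) a x = 0 := by
    intro a x hx
    rw [hf0] at hx
    have h2 := hq a (ι x) hx
    rw [← iota_adr] at h2
    apply hι
    rw [h2]
    exact (map_zero (pal ι)).symm
  have hfin : Module.Finite k (A ⧸ RingHom.ker (pal g)) :=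
    Module.Finite.of_surjective (pal f).toLinearMap hf
  have h3 := f_L_ne f hf hk (htr _ f hf (fun d hd a => Dd_comm f hf hk hd a)) hL
  intro h4
  exact h3 ((hf0 L).2 h4)

theorem adl_map (q : B →ₐc[k] E) (x b : B) :
    q (adl (AlgHom.id k B) x b) = adl (AlgHom.id k E) (q x) (q b) := by
  change _ = adlM (AlgHom.id k E) (q x) (comul (R := k) (q b))
  rw [comul_map]
  change q (adlM (AlgHom.id k B) x (comul (R := k) b)) = _
  generalize comul (R := k) b = t
  induction t using TensorProduct.induction_on with
  | zero =>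
    have h1 : pal q (adlM (AlgHom.id k B) x 0) = 0 := by rw [map_zero, map_zero]
    refine Eq.trans h1 ?_
    rw [map_zero, map_zero]
  | tmul u v =>
    change pal q (u * x * HopfAlgebra.antipode k v) = q u * q x * HopfAlgebra.antipode k (q v)
    rw [map_mul, map_mul, antipode_map]
    rfl
  | add s t hs ht =>
    have h1 : pal q (adlM (AlgHom.id k B) x (s + t)) =
        pal q (adlM (AlgHom.id k B) x s) + pal q (adlM (AlgHom.id k B) x t) := by
      rw [map_add, map_add]
    refine Eq.trans h1 ?_
    rw [map_add, map_add, ← hs, ← ht]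
    rfl

theorem main_gen [Module.Finite k A] [Module.Finite k B] [Module.Finite k C] [Module.Finite k E]
    [Module.Finite k G]
    (ι : A →ₐc[k] B) (π : B →ₐc[k] C) (hι : Function.Injective ι) (hπ : Function.Surjective π)
    (hιπ : ∀ a, π (ι a) = counit (R := k) a • (1 : C))
    (hker : ∀ b, π b = 0 → b ∈ Ideal.span (ι '' {a | counit (R := k) a = 0}))
    (hnl : ∀ a b, adl (AlgHom.id k B) (ι a) b ∈ Set.range ι)
    (q : B →ₐc[k] E) (hqs : Function.Surjective q)
    (hq : ∀ a b, q b = 0 → adr (k := k) (ι a) b = 0)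
    (ρ : E →ₐc[k] G) (hρ : Function.Surjective ρ)
    (hρg : ∀ a, ρ ((q.comp ι) a) = counit (R := k) a • (1 : G))
    (hKR : KerR (q.comp ι) ρ)
    (htr : TrH k A)
    (he : FG k (FD k) (trivH k E) ∨
      ∃ e : G, (∀ h, e * h = counit (R := k) h • e) ∧ counit (R := k) e = 1)
    (hA : FG k (FD k) (trivH k A)) (hC : FG k (FD k) (trivH k C)) :
    FG k (FD k) (trivH k B) := by
  set g : A →ₐc[k] E := q.comp ι with hg
  obtain ⟨L, lam, hL⟩ := exists_LS (k := k) (H := A)
  have hgL : g L ≠ 0 := g_L_ne ι hι q hq htr hL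
  have hproj := proj_E g ρ hρ hρg hKR hL.left hgL
  -- finite generation for the quotient
  have hFE : FG k (FD k) (trivH k E) := by
    obtain hFE | ⟨e, he1, he2⟩ := he
    · exact hFE
    obtain ⟨z, hz⟩ := hρ e
    have hz1 : ∀ h, ρ z * h = counit (R := k) h • ρ z := by
      rw [hz]; exact he1
    have hz2 : counit (R := k) z = 1 := by
      rw [← counit_map ρ z, hz, he2]
    have hres : (ModuleCat.restrictScalars.{u} (pal g).toRingHom).obj
        (trivM (Bialgebra.counitAlgHom k E)) = trivH k A := by
      apply res_triv (pal g) _ _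
      apply AlgHom.ext
      intro a
      exact counit_map g a
    refine split_alg (pal g) hproj (sigT g ρ hρ hKR hz1)
      (Bialgebra.counitAlgHom k E) (sigT_unit g ρ hρ hKR hz1 hz2 _) ?_ ?_
    · rw [hres]
      exact noeth_of_finiteType hA.1
    · rw [hres]
      exact hA
  -- the tensor product
  have hbox : FG k (FD k) (box k (trivH k C) (trivH k E)) :=
    box_FG (Bialgebra.counitAlgHom k C) (Bialgebra.counitAlgHom k E) gc gc hC hFE
  have hprojB := proj_CE ι π q hπ (kerL_of ι π hker) hιπ hproj
  have hX : FD k (box k (trivH k C) (trivH k E)) := box_triv_FD _ _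
  have hsh := shapiro_alg (dl (pal π) (pal q)) hprojB _ hX hbox
  refine FG.of_iso (FD k) (resBoxIso (dl (pal π) (pal q)) _ _ _ ?_) hsh
  intro b
  have h1 : dl (pal π) (pal q) b = ∑ i ∈ (ℛ k b).index,
      π ((ℛ k b).left i) ⊗ₜ[k] q ((ℛ k b).right i) := by
    change TensorProduct.map (pal π).toLinearMap (pal q).toLinearMap
      (comul (R := k) b) = _
    conv_lhs => rw [← (ℛ k b).eq, map_sum]
    rfl
  rw [h1, map_sum]
  have h2 := congrArg (counit (R := k)) (Coalgebra.sum_counit_smul (ℛ k b))
  rw [map_sum] at h2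
  refine Eq.trans ?_ h2
  refine Finset.sum_congr rfl fun i _ => ?_
  rw [augT_tmul, map_smul]
  change counit (R := k) (π _) * counit (R := k) (q _) = _
  rw [counit_map, counit_map]
  rfl

/-- A semisimple finite-dimensional Hopf algebra has a normalised right integral. -/
theorem ss_right [Module.Finite k G] [IsSemisimpleRing G] :
    ∃ e : G, (∀ h, e * h = counit (R := k) h • e) ∧ counit (R := k) e = 1 := by
  obtain ⟨e, he, he1⟩ := ss_integral (Bialgebra.counitAlgHom k G)
  refine ⟨HopfAlgebra.antipode k e, ?_, ?_⟩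
  · intro h
    exact antipode_right he h
  · rw [HopfAlgebra.counit_antipode]
    exact he1

/-- The cocentral quotient is cocentral. -/
theorem qC_cocen [Module.Finite k C] : Cocen (qC k C) := by
  intro f c
  have h1 := mk_uf (BialgHom.id k C) f c
  have h2 : f ∘ₗ (pal (BialgHom.id k C)).toLinearMap = f := by ext x; rfl
  rw [h2] at h1
  exact h1

theorem e_of_dim [Module.Finite k C] (hdim : (Module.finrank k C : k) ≠ 0) :
    ∃ e : QC k C, (∀ h, e * h = counit (R := k) h • e) ∧ counit (R := k) e = 1 := by
  have hfG : Module.Finite k (QC k C) := Module.Finite.of_surjective (pal (qC k C)).toLinearMap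
    qC_surj
  exact exists_e qC_cocomm (dim_ne qC_cocen qC_surj hdim)

end gen

end Run7.h234
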