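import Mathlib
import Pool.Agent.Run7.h234.HD1

/-!
Averaging over an integral, and projectivity.
-/

set_option autoImplicit false
set_option linter.unusedVariables false
set_option linter.unusedSectionVars false

universe u

open TensorProduct Coalgebra WithConv

namespace Run7.h234

section avg

variable {k : Type u} [Field k] {A : Type u} [Ring A] [HopfAlgebra k A]

/-- The map `p ⊗ q ↦ op p ⊗ S q`. -/
noncomputable def kap : A ⊗[k] A →ₗ[k] Aᵐᵒᵖ ⊗[k] A :=
  TensorProduct.map (MulOpposite.opLinearEquiv k).toLinearMap (HopfAlgebra.antipode k)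

theorem kap_tmul (p q : A) : kap (k := k) (p ⊗ₜ[k] q) =
    MulOpposite.op p ⊗ₜ[k] HopfAlgebra.antipode k q := rfl

theorem kap_mul (p q : A) (t : A ⊗[k] A) : kap (k := k) ((p ⊗ₜ[k] q) * t) =
    kap t * (MulOpposite.op p ⊗ₜ[k] HopfAlgebra.antipode k q) := by
  induction t using TensorProduct.induction_on with
  | zero => simp
  | tmul x y =>
    rw [Algebra.TensorProduct.tmul_mul_tmul, kap_tmul, kap_tmul,
      Algebra.TensorProduct.tmul_mul_tmul, HopfAlgebra.antipode_mul_antidistrib,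
      MulOpposite.op_mul]
  | add x y hx hy => simp only [mul_add, map_add, add_mul, hx, hy]

theorem avg_w {L : A} (hL : ∀ h : A, h * L = counit (R := k) h • L) (a : A) :
    kap (comul (R := k) L) * (MulOpposite.op a ⊗ₜ[k] (1 : A)) =
      kap (comul (R := k) L) * ((1 : Aᵐᵒᵖ) ⊗ₜ[k] a) := by
  set w₀ : Aᵐᵒᵖ ⊗[k] A := kap (comul (R := k) L) with hw
  let i₁ : Cv k A (Aᵐᵒᵖ ⊗[k] A) := cv
    ((Algebra.TensorProduct.includeLeft (R := k) (S := k) (A := Aᵐᵒᵖ) (B := A)).toLinearMap ∘ₗ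
      (MulOpposite.opLinearEquiv k).toLinearMap)
  let I₂ : A →ₐ[k] (Aᵐᵒᵖ ⊗[k] A) := jr (AlgHom.id k A)
  have h1 : (cst A w₀ : Cv k A (Aᵐᵒᵖ ⊗[k] A)) * (i₁ * cs I₂) = cst A w₀ := by
    apply cv_ext
    intro h
    rw [cst_mul_apply, cst_apply, mul_apply_repr, Finset.mul_sum]
    have h2 : counit (R := k) h • w₀ = kap (comul (R := k) (h * L)) := by
      rw [hL, map_smul, map_smul]
    rw [h2, Bialgebra.comul_mul]
    conv_rhs => rw [← (ℛ k h).eq, Finset.sum_mul, map_sum]
    refine Finset.sum_congr rfl fun i _ => ?_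
    rw [kap_mul]
    congr 1
    change (MulOpposite.op _ ⊗ₜ[k] (1 : A)) * ((1 : Aᵐᵒᵖ) ⊗ₜ[k] HopfAlgebra.antipode k _) = _
    rw [Algebra.TensorProduct.tmul_mul_tmul, mul_one, one_mul]
  have h3 : (cst A w₀ : Cv k A (Aᵐᵒᵖ ⊗[k] A)) * i₁ = cst A w₀ * ca I₂ := by
    calc (cst A w₀ : Cv k A (Aᵐᵒᵖ ⊗[k] A)) * i₁ =
        (cst A w₀ * (i₁ * cs I₂)) * ca I₂ := by
          rw [mul_assoc, mul_assoc, cs_mul_ca, mul_one]
      _ = _ := by rw [h1]
  have h4 : ((cst A w₀ : Cv k A (Aᵐᵒᵖ ⊗[k] A)) * i₁ : Cv k A (Aᵐᵒᵖ ⊗[k] A)) a =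
    (cst A w₀ * ca I₂ : Cv k A (Aᵐᵒᵖ ⊗[k] A)) a := by rw [h3]
  rw [cst_mul_apply, cst_mul_apply] at h4
  exact h4

/-- The averaging identity. -/
theorem avg {M : Type u} [AddCommGroup M] [Module k M]
    {L : A} (hL : ∀ h : A, h * L = counit (R := k) h • L) (F : A →ₗ[k] A →ₗ[k] M) (a : A) :
    ∑ i ∈ (ℛ k L).index, F (a * (ℛ k L).left i) (HopfAlgebra.antipode k ((ℛ k L).right i)) =
    ∑ i ∈ (ℛ k L).index, F ((ℛ k L).left i) (HopfAlgebra.antipode k ((ℛ k L).right i) * a) := by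
  let G : Aᵐᵒᵖ ⊗[k] A →ₗ[k] M := TensorProduct.lift
    (F ∘ₗ (MulOpposite.opLinearEquiv k).symm.toLinearMap)
  have h1 := congrArg G (avg_w hL a)
  have h2 : kap (comul (R := k) L) = ∑ i ∈ (ℛ k L).index,
      MulOpposite.op ((ℛ k L).left i) ⊗ₜ[k] HopfAlgebra.antipode k ((ℛ k L).right i) := by
    conv_lhs => rw [← (ℛ k L).eq, map_sum]
    rfl
  rw [h2, Finset.sum_mul, Finset.sum_mul, map_sum, map_sum] at h1
  simp only [Algebra.TensorProduct.tmul_mul_tmul, mul_one] at h1
  exact h1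

end avg

section right

variable {k : Type u} [Field k] {A : Type u} [Ring A] [HopfAlgebra k A] [Module.Finite k A]

/-- `S(Λ)` is a right integral. -/
theorem antipode_right {L : A} (hL : ∀ h : A, h * L = counit (R := k) h • L) (h : A) :
    HopfAlgebra.antipode k L * h = counit (R := k) h • HopfAlgebra.antipode k L := by
  obtain ⟨h', rfl⟩ := (antipode_bijective (k := k) (H := A)).2 h
  rw [← HopfAlgebra.antipode_mul_antidistrib, hL, map_smul, HopfAlgebra.counit_antipode]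

end right

section phi

variable {k : Type u} [Field k] {A E G : Type u} [Ring A] [HopfAlgebra k A] [Ring E]
  [HopfAlgebra k E] [Ring G] [HopfAlgebra k G]

/-- Maps out of `E` that are compatible with `ε` on the left kill the kernel of `ρ`. -/
def KerR (g : A →ₐc[k] E) (ρ : E →ₐc[k] G) : Prop :=
  ∀ (V : Type u) [AddCommGroup V] [Module k V] (T : E →ₗ[k] V),
    (∀ a y, T (g a * y) = counit (R := k) a • T y) → ∀ y, ρ y = 0 → T y = 0

theorem exists_phi [Module.Finite k A] [Module.Finite k E] [Module.Finite k G]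
    (g : A →ₐc[k] E) (ρ : E →ₐc[k] G) (hρ : Function.Surjective ρ)
    (hg : ∀ a, ρ (g a) = counit (R := k) a • (1 : G)) (hK : KerR g ρ)
    {L : A} (hL : ∀ h : A, h * L = counit (R := k) h • L) (hgL : g L ≠ 0) :
    ∃ φ : E →ₗ[k] k, ∀ x, φ (g (HopfAlgebra.antipode k L) * x) = counit (R := k) x := by
  obtain ⟨L', lam', h'⟩ := exists_LS (k := k) (H := G)
  obtain ⟨z, hz⟩ := hρ L'
  set t : E := g (HopfAlgebra.antipode k L) with ht
  have ht0 : t ≠ 0 := by
    rw [ht, ← antipode_map]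
    intro h0
    exact hgL (antipode_injective (k := k) (H := E) (by rw [h0, map_zero]))
  have hta : ∀ a, t * g a = counit (R := k) a • t := by
    intro a
    rw [ht]
    change pal g _ * pal g a = counit (R := k) a • pal g _
    rw [← map_mul, antipode_right hL, map_smul]
  have htD : t ∈ Dd ρ := by
    rw [mem_Dd, ht]
    exact dl_iota g ρ hg _
  obtain ⟨g₀, hg₀⟩ : ∃ g₀ : E →ₗ[k] k, g₀ t = 1 := by
    by_contra hcon
    push Not at hcon
    apply ht0
    rw [← Module.forall_dual_apply_eq_zero_iff k]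
    intro f
    by_contra hf
    apply hcon ((f t)⁻¹ • f)
    change (f t)⁻¹ * f t = 1
    exact inv_mul_cancel₀ hf
  -- `t y` depends only on `ρ y`
  have hT : ∀ y, ρ y = 0 → t * y = 0 := by
    apply hK E (LinearMap.mulLeft k t)
    intro a y
    rw [LinearMap.mulLeft_apply, LinearMap.mulLeft_apply, ← mul_assoc, hta, smul_mul_assoc]
  obtain ⟨T', hT'⟩ := exists_factor (pal ρ).toLinearMap hρ (LinearMap.mulLeft k t) hT
  refine ⟨g₀ ∘ₗ rv (lam' ∘ₗ (pal ρ).toLinearMap) ∘ₗ LinearMap.mulRight k z, fun x => ?_⟩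
  change g₀ (rv (lam' ∘ₗ (pal ρ).toLinearMap) (t * x * z)) = _
  rw [mul_assoc, P_mul ρ lam' htD]
  have h1 : t * rv (lam' ∘ₗ (pal ρ).toLinearMap) (x * z) = counit (R := k) x • t := by
    have h2 := hT' (rv (lam' ∘ₗ (pal ρ).toLinearMap) (x * z))
    rw [LinearMap.mulLeft_apply] at h2
    rw [← h2]
    have h3 : (pal ρ).toLinearMap (rv (lam' ∘ₗ (pal ρ).toLinearMap) (x * z)) =
        counit (R := k) x • (1 : G) := by
      have := rv_map ρ lam' (x * z)
      change pal ρ _ = _ at this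
      refine this.trans ?_
      change rv lam' (pal ρ (x * z)) = _
      rw [map_mul]
      change rv lam' (ρ x * ρ z) = _
      rw [hz, h'.left, map_smul, h'.rv_one, counit_map]
    rw [h3, map_smul]
    have h4 : T' 1 = t := by
      have := hT' 1
      rw [LinearMap.mulLeft_apply, mul_one] at this
      rw [← this]
      congr 1
      exact (map_one (pal ρ)).symm
    rw [h4]
  rw [h1, map_smul, hg₀, smul_eq_mul, mul_one]

/-- `Σ g(Λ₁) θ(g(S Λ₂) x) = x`. -/
theorem sum_theta [Module.Finite k A] (g : A →ₐc[k] E) {L : A} {φ : E →ₗ[k] k}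
    (hφ : ∀ x, φ (g (HopfAlgebra.antipode k L) * x) = counit (R := k) x) (x : E) :
    ∑ i ∈ (ℛ k L).index, g ((ℛ k L).left i) *
      lv φ (g (HopfAlgebra.antipode k ((ℛ k L).right i)) * x) = x := by
  have h1 : ca (jr (R := E) (pal g)) * cs (dl (pal g) (pal g)) = cs (jl (R' := E) (pal g)) := by
    rw [cs_dl, ← mul_assoc, ca_mul_cs, one_mul]
  have h2 : (ca (jr (R := E) (pal g)) * cs (dl (pal g) (pal g)) : Cv k A (E ⊗[k] E)) L =
      (cs (jl (R' := E) (pal g)) : Cv k A (E ⊗[k] E)) L := by rw [h1]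
  rw [mul_apply_repr] at h2
  have h3 : ∀ y, (cs (dl (pal g) (pal g)) : Cv k A (E ⊗[k] E)) y =
      comul (R := k) (g (HopfAlgebra.antipode k y)) := by
    intro y
    rw [comul_map]
    rfl
  simp only [h3] at h2
  have h4 := congrArg (fun z => (TensorProduct.lid k E)
    (LinearMap.rTensor E φ (z * comul (R := k) x))) h2
  simp only [Finset.sum_mul, map_sum] at h4
  have h5 : ∀ i ∈ (ℛ k L).index, g ((ℛ k L).left i) *
      lv φ (g (HopfAlgebra.antipode k ((ℛ k L).right i)) * x) =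
      (TensorProduct.lid k E) (LinearMap.rTensor E φ
        ((ca (jr (R := E) (pal g)) : Cv k A (E ⊗[k] E)) ((ℛ k L).left i) *
          comul (R := k) (g (HopfAlgebra.antipode k ((ℛ k L).right i))) * comul (R := k) x)) := by
    intro i _
    rw [mul_assoc, ← Bialgebra.comul_mul]
    change _ = (TensorProduct.lid k E) (LinearMap.rTensor E φ
      (((1 : E) ⊗ₜ[k] g ((ℛ k L).left i)) * _))
    rw [lid_mul_l]
    rfl
  rw [Finset.sum_congr rfl h5, h4]
  change (TensorProduct.lid k E) (LinearMap.rTensor E φ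
    ((g (HopfAlgebra.antipode k L) ⊗ₜ[k] (1 : E)) * comul (R := k) x)) = x
  have h6 : ∀ t : E ⊗[k] E, (TensorProduct.lid k E) (LinearMap.rTensor E φ
      ((g (HopfAlgebra.antipode k L) ⊗ₜ[k] (1 : E)) * t)) =
      (TensorProduct.lid k E) (LinearMap.rTensor E (counit (R := k)) t) := by
    intro t
    induction t using TensorProduct.induction_on with
    | zero => simp
    | tmul p q =>
      rw [Algebra.TensorProduct.tmul_mul_tmul, one_mul]
      simp [hφ]
    | add p q hp hq => simp only [mul_add, map_add, hp, hq]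
  rw [h6]
  simp

end phi

end Run7.h234
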