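import Pool.Agent.Run7.h234.HP
import Pool.Agent.Run7.h234.Coind

/-!
Projectivity over the kernel Hopf algebra.
-/

set_option autoImplicit false
set_option linter.unusedVariables false
set_option linter.unusedSectionVars false

universe u

open TensorProduct Coalgebra WithConv CategoryTheory

namespace Run7.h234

section proj

variable {k : Type u} [Field k] {A : Type u} [Ring A] [HopfAlgebra k A]

/-- The averaged map. -/
noncomputable def avgF {P M : Type u} [AddCommGroup P] [Module A P] [Module k P]
    [IsScalarTower k A P] [AddCommGroup M] [Module A M] [Module k M] [IsScalarTower k A M]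
    (w : P →ₗ[k] M) (x : P) : A →ₗ[k] A →ₗ[k] M :=
  LinearMap.mk₂ k (fun p q => p • w (q • x))
    (fun a b c => by rw [add_smul])
    (fun a b c => by rw [smul_assoc])
    (fun a b c => by rw [add_smul, map_add, smul_add])
    (fun a b c => by rw [smul_assoc, map_smul, smul_comm])

theorem proj_of_theta {P : Type u} [AddCommGroup P] [Module A P] [Module k P]
    [IsScalarTower k A P] {L : A} (hL : ∀ h : A, h * L = counit (R := k) h • L) (θ : P →ₗ[k] P)
    (hθ : ∀ x, ∑ i ∈ (ℛ k L).index, (ℛ k L).left i •
      θ (HopfAlgebra.antipode k ((ℛ k L).right i) • x) = x) :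
    Module.Projective A P := by
  refine Module.Projective.of_lifting_property'' fun f hf => ?_
  obtain ⟨w, hw⟩ := LinearMap.exists_rightInverse_of_surjective (f.restrictScalars k)
    (LinearMap.range_eq_top.2 hf)
  have hw' : ∀ x, f (w x) = x := fun x => LinearMap.congr_fun hw x
  refine ⟨
    { toFun := fun x => ∑ i ∈ (ℛ k L).index, (ℛ k L).left i •
        w (θ (HopfAlgebra.antipode k ((ℛ k L).right i) • x))
      map_add' := fun x y => by
        rw [← Finset.sum_add_distrib]
        refine Finset.sum_congr rfl fun i _ => ?_
        rw [smul_add, map_add, map_add, smul_add]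
      map_smul' := fun a x => by
        have h := avg hL (avgF (w ∘ₗ θ) x) a
        rw [RingHom.id_apply, Finset.smul_sum]
        refine Eq.trans ?_ (Eq.trans h.symm ?_)
        · refine Finset.sum_congr rfl fun i _ => ?_
          change _ = (ℛ k L).left i • w (θ ((HopfAlgebra.antipode k ((ℛ k L).right i) * a) • x))
          rw [mul_smul]
        · refine Finset.sum_congr rfl fun i _ => ?_
          change (a * (ℛ k L).left i) • w (θ (HopfAlgebra.antipode k ((ℛ k L).right i) • x)) = _
          rw [mul_smul] }, ?_⟩
  ext x
  change f (∑ i ∈ (ℛ k L).index, (ℛ k L).left i •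
        w (θ (HopfAlgebra.antipode k ((ℛ k L).right i) • x))) = x
  rw [map_sum]
  simp only [map_smul, hw']
  exact hθ x

end proj

section projE

variable {k : Type u} [Field k] {A E G : Type u} [Ring A] [HopfAlgebra k A] [Ring E]
  [HopfAlgebra k E] [Ring G] [HopfAlgebra k G]

theorem proj_E [Module.Finite k A] [Module.Finite k E] [Module.Finite k G]
    (g : A →ₐc[k] E) (ρ : E →ₐc[k] G) (hρ : Function.Surjective ρ)
    (hg : ∀ a, ρ (g a) = counit (R := k) a • (1 : G)) (hK : KerR g ρ)
    {L : A} (hL : ∀ h : A, h * L = counit (R := k) h • L) (hgL : g L ≠ 0) :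
    Module.Projective A
      ((ModuleCat.restrictScalars.{u} (pal g).toRingHom).obj (ModuleCat.of E E)) := by
  obtain ⟨φ, hφ⟩ := exists_phi g ρ hρ hg hK hL hgL
  let _ : Module A E := Module.compHom E (pal g).toRingHom
  have : IsScalarTower k A E := by
    refine ⟨fun c a x => ?_⟩
    change g (c • a) * x = c • (g a * x)
    rw [show g (c • a) = c • g a from map_smul (pal g) c a, smul_mul_assoc]
  have h : Module.Projective A E := proj_of_theta (P := E) hL (lv φ) (fun x => sum_theta g hφ x)
  exact h

end projE

end Run7.h234
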