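import Pool.Agent.Run7.h234.HP2

/-!
Projectivity of the tensor product over the middle Hopf algebra.
-/

set_option autoImplicit false
set_option linter.unusedVariables false
set_option linter.unusedSectionVars false

universe u

open TensorProduct Coalgebra WithConv CategoryTheory

namespace Run7.h234

section adl

variable {k : Type u} [Field k] {B R : Type u} [Ring B] [HopfAlgebra k B] [Ring R] [Algebra k R]
  (l : B →ₐ[k] R)

/-- The map `p ⊗ q ↦ l(p) Y l(S q)`. -/
noncomputable def adlM (Y : R) : B ⊗[k] B →ₗ[k] R :=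
  TensorProduct.lift (LinearMap.mk₂ k (fun p q => l p * Y * l (HopfAlgebra.antipode k q))
    (fun x y z => by rw [map_add, add_mul, add_mul])
    (fun c x y => by rw [map_smul, smul_mul_assoc, smul_mul_assoc])
    (fun x y z => by rw [map_add, map_add, mul_add])
    (fun c x y => by rw [map_smul, map_smul, mul_smul_comm]))

theorem adlM_tmul (Y : R) (p q : B) :
    adlM l Y (p ⊗ₜ[k] q) = l p * Y * l (HopfAlgebra.antipode k q) := rfl

/-- The left adjoint action on `R`. -/
noncomputable def adl (Y : R) : B →ₗ[k] R := adlM l Y ∘ₗ comul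

theorem adl_repr (Y : R) (b : B) : adl l Y b = ∑ i ∈ (ℛ k b).index,
    l ((ℛ k b).left i) * Y * l (HopfAlgebra.antipode k ((ℛ k b).right i)) := by
  change adlM l Y (comul (R := k) b) = _
  conv_lhs => rw [← (ℛ k b).eq, map_sum]
  rfl

theorem adl_cv (Y : R) : (ca l : Cv k B R) * cst B Y * cs l = cv (adl l Y) := by
  apply cv_ext
  intro b
  rw [mul_apply_repr, cv_apply, adl_repr]
  refine Finset.sum_congr rfl fun i _ => ?_
  rw [mul_cst_apply]
  rfl

theorem adlM_mul (Y : R) (p q : B) (t : B ⊗[k] B) :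
    adlM l Y ((p ⊗ₜ[k] q) * t) = l p * adlM l Y t * l (HopfAlgebra.antipode k q) := by
  induction t using TensorProduct.induction_on with
  | zero => simp
  | tmul x y =>
    rw [Algebra.TensorProduct.tmul_mul_tmul, adlM_tmul, adlM_tmul,
      HopfAlgebra.antipode_mul_antidistrib, map_mul, map_mul]
    simp only [mul_assoc]
  | add x y hx hy => rw [mul_add, map_add, map_add, mul_add, add_mul, hx, hy]

theorem adl_mul (Y : R) (b' b : B) : adl l Y (b' * b) = adl l (adl l Y b) b' := by
  change adlM l Y (comul (R := k) (b' * b)) = _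
  rw [Bialgebra.comul_mul, adl_repr]
  conv_lhs => rw [← (ℛ k b').eq, Finset.sum_mul, map_sum]
  refine Finset.sum_congr rfl fun i _ => ?_
  rw [adlM_mul]
  rfl

theorem adl_one (Y : R) : adl l Y 1 = Y := by
  change adlM l Y (comul (R := k) (1 : B)) = Y
  rw [Bialgebra.comul_one, Algebra.TensorProduct.one_def, adlM_tmul, HopfAlgebra.antipode_one]
  simp

theorem adl_mul_ca (Y : R) : (cv (adl l Y) : Cv k B R) * ca l = ca l * cst B Y := by
  rw [← adl_cv, mul_assoc, cs_mul_ca, mul_one]

theorem adl_comm {A : Type u} [Ring A] [HopfAlgebra k A] (ι : A →ₐc[k] B) (Y : R)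
    (h : ∀ a, l (ι a) * Y = Y * l (ι a)) (a : A) :
    adl l Y (ι a) = counit (R := k) a • Y := by
  change adlM l Y (comul (R := k) (ι a)) = _
  rw [comul_map]
  have h1 : TensorProduct.map (pal ι).toLinearMap (pal ι).toLinearMap (comul (R := k) a) =
      ∑ i ∈ (ℛ k a).index, ι ((ℛ k a).left i) ⊗ₜ[k] ι ((ℛ k a).right i) := by
    conv_lhs => rw [← (ℛ k a).eq, map_sum]
    rfl
  rw [h1, map_sum]
  have h2 : ∀ i ∈ (ℛ k a).index, adlM l Y (ι ((ℛ k a).left i) ⊗ₜ[k] ι ((ℛ k a).right i)) =
      Y * (l.comp (pal ι)) ((ℛ k a).left i * HopfAlgebra.antipode k ((ℛ k a).right i)) := by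
    intro i _
    rw [adlM_tmul, h, antipode_map, map_mul, mul_assoc]
    rfl
  rw [Finset.sum_congr rfl h2, ← Finset.mul_sum, ← map_sum,
    HopfAlgebra.sum_mul_antipode_eq_smul, map_smul, map_one, mul_smul_comm, mul_one]

end adl

section projB

variable {k : Type u} [Field k] {A B C E : Type u} [Ring A] [HopfAlgebra k A] [Ring B]
  [HopfAlgebra k B] [Ring C] [HopfAlgebra k C] [Ring E] [HopfAlgebra k E]

/-- Maps out of `B` that are compatible with `ε` on the right kill the kernel of `π`. -/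
def KerL (ι : A →ₐc[k] B) (π : B →ₐc[k] C) : Prop :=
  ∀ (V : Type u) [AddCommGroup V] [Module k V] (T : B →ₗ[k] V),
    (∀ a y, T (y * ι a) = counit (R := k) a • T y) → ∀ y, π y = 0 → T y = 0

/-- The action on `E × F`. -/
noncomputable def lamB (q : B →ₐc[k] E) (F : Type u) [AddCommGroup F] [Module k F] [Module B F]
    [IsScalarTower k B F] : B →ₐ[k] Module.End k (E × F) :=
  (LinearMap.prodMapAlgHom k E F).comp
    (AlgHom.prod ((Algebra.lmul k E).comp (pal q)) (Algebra.lsmul k k F))

theorem lamB_apply (q : B →ₐc[k] E) (F : Type u) [AddCommGroup F] [Module k F] [Module B F]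
    [IsScalarTower k B F] (b : B) (v : E) (m : F) :
    lamB q F b (v, m) = (q b * v, b • m) := rfl

/-- The main construction: extension of an `A`-linear map `E → F` to a `B`-linear map
`C ⊗ E → F`. -/
theorem exists_ext (ι : A →ₐc[k] B) (π : B →ₐc[k] C) (q : B →ₐc[k] E)
    (hπ : Function.Surjective π) (hK : KerL ι π)
    (F : Type u) [AddCommGroup F] [Module k F] [Module B F] [IsScalarTower k B F]
    (u : E →ₗ[k] F) (hu : ∀ a v, u (q (ι a) * v) = ι a • u v) :
    ∃ G : C ⊗[k] E →ₗ[k] F, (∀ v, G (1 ⊗ₜ v) = u v) ∧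
      (∀ b t, G (dl (pal π) (pal q) b * t) = b • G t) := by
  let Y : Module.End k (E × F) := LinearMap.inr k E F ∘ₗ u ∘ₗ LinearMap.fst k E F
  have hY : ∀ v m, Y (v, m) = (0, u v) := fun v m => rfl
  have hcomm : ∀ a, lamB q F (ι a) * Y = Y * lamB q F (ι a) := by
    intro a
    apply LinearMap.ext
    rintro ⟨v, m⟩
    change lamB q F (ι a) (Y (v, m)) = Y (lamB q F (ι a) (v, m))
    rw [hY, lamB_apply, lamB_apply, hY, mul_zero, hu]
  -- the map `b ↦ (v ↦ b₁ u(S(b₂) v))`
  let T : B →ₗ[k] Module.End k (E × F) := adl (lamB q F) Y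
  have hT1 : ∀ a y, T (y * ι a) = counit (R := k) a • T y := by
    intro a y
    change adl (lamB q F) Y (y * ι a) = _
    rw [adl_mul, adl_comm _ ι Y hcomm]
    have h0 : ∀ (c : k) (Z : Module.End k (E × F)) (b : B), adl (lamB q F) (c • Z) b =
        c • adl (lamB q F) Z b := by
      intro c Z b
      rw [adl_repr, adl_repr, Finset.smul_sum]
      refine Finset.sum_congr rfl fun i _ => ?_
      rw [mul_smul_comm, smul_mul_assoc]
    rw [h0]
  have hT2 := hK _ T hT1
  obtain ⟨T', hT'⟩ := exists_factor (pal π).toLinearMap hπ T hT2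
  let G : C ⊗[k] E →ₗ[k] F := TensorProduct.lift
    (LinearMap.mk₂ k (fun c v => (T' c (v, 0)).2)
      (fun c c' v => by rw [map_add]; rfl)
      (fun a c v => by rw [map_smul]; rfl)
      (fun c v v' => by
        have : ((v + v', 0) : E × F) = (v, 0) + (v', 0) := by simp
        rw [this, map_add]; rfl)
      (fun a c v => by
        have : ((a • v, 0) : E × F) = a • (v, 0) := by simp
        rw [this, map_smul]; rfl))
  have hG : ∀ b v, G (π b ⊗ₜ v) = (T b (v, 0)).2 := by
    intro b v
    change (T' (π b) (v, 0)).2 = _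
    rw [show T' (π b) = T b from hT' b]
  refine ⟨G, ?_, ?_⟩
  · intro v
    have h1 : (1 : C) = π 1 := (map_one (pal π)).symm
    rw [h1, hG]
    change ((adl (lamB q F) Y 1) (v, 0)).2 = _
    rw [adl_one, hY]
  · intro b' t
    induction t using TensorProduct.induction_on with
    | zero => rw [mul_zero, map_zero, smul_zero]
    | add x y hx hy => rw [mul_add, map_add, map_add, smul_add, hx, hy]
    | tmul c v =>
      obtain ⟨b, rfl⟩ := hπ c
      have h1 : dl (pal π) (pal q) b' = ∑ i ∈ (ℛ k b').index,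
          π ((ℛ k b').left i) ⊗ₜ[k] q ((ℛ k b').right i) := by
        change TensorProduct.map (pal π).toLinearMap (pal q).toLinearMap (comul (R := k) b') = _
        conv_lhs => rw [← (ℛ k b').eq, map_sum]
        rfl
      rw [h1, Finset.sum_mul, map_sum, hG]
      have h2 : ∀ i ∈ (ℛ k b').index, G ((π ((ℛ k b').left i) ⊗ₜ[k] q ((ℛ k b').right i)) *
          (π b ⊗ₜ[k] v)) = ((adl (lamB q F) (T b) ((ℛ k b').left i) *
            lamB q F ((ℛ k b').right i)) (v, 0)).2 := by
        intro i _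
        rw [Algebra.TensorProduct.tmul_mul_tmul]
        have h3 : π ((ℛ k b').left i) * π b = π ((ℛ k b').left i * b) :=
          (map_mul (pal π) _ _).symm
        rw [h3, hG]
        change ((adl (lamB q F) Y _) _).2 = _
        rw [adl_mul, Module.End.mul_apply, lamB_apply, smul_zero]
      rw [Finset.sum_congr rfl h2]
      have h4 : (cv (adl (lamB q F) (T b)) * ca (lamB q F) :
          Cv k B (Module.End k (E × F))) b' = (ca (lamB q F) * cst B (T b) :
          Cv k B (Module.End k (E × F))) b' := by rw [adl_mul_ca]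
      rw [mul_apply_repr, mul_cst_apply] at h4
      have h5 := congrArg (fun Z : Module.End k (E × F) => (Z (v, 0)).2) h4
      simp only [LinearMap.sum_apply, Prod.snd_sum] at h5
      exact h5

theorem gen_CE (π : B →ₐc[k] C) (q : B →ₐc[k] E) (b : B) (v : E) :
    π b ⊗ₜ[k] v = ∑ i ∈ (ℛ k b).index, dl (pal π) (pal q) ((ℛ k b).left i) *
      ((1 : C) ⊗ₜ[k] (q (HopfAlgebra.antipode k ((ℛ k b).right i)) * v)) := by
  have h1 : (ca (dl (pal π) (pal q)) * cs (jr (R := C) (pal q)) : Cv k B (C ⊗[k] E)) =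
      ca (jl (R' := E) (pal π)) := by
    rw [← jl_mul_jr, mul_assoc, ca_mul_cs, mul_one]
  have h2 : (ca (dl (pal π) (pal q)) * cs (jr (R := C) (pal q)) : Cv k B (C ⊗[k] E)) b =
      (ca (jl (R' := E) (pal π)) : Cv k B (C ⊗[k] E)) b := by rw [h1]
  rw [mul_apply_repr] at h2
  have h3 : π b ⊗ₜ[k] v = (π b ⊗ₜ[k] (1 : E)) * ((1 : C) ⊗ₜ[k] v) := by
    rw [Algebra.TensorProduct.tmul_mul_tmul, mul_one, one_mul]
  have h4 : π b ⊗ₜ[k] (1 : E) = (ca (jl (R' := E) (pal π)) : Cv k B (C ⊗[k] E)) b := rfl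
  rw [h3, h4, ← h2, Finset.sum_mul]
  refine Finset.sum_congr rfl fun i _ => ?_
  rw [mul_assoc]
  congr 1
  change ((1 : C) ⊗ₜ[k] q (HopfAlgebra.antipode k ((ℛ k b).right i))) * _ = _
  rw [Algebra.TensorProduct.tmul_mul_tmul, one_mul]

theorem dl_iota_mul (ι : A →ₐc[k] B) (π : B →ₐc[k] C) (q : B →ₐc[k] E)
    (hιπ : ∀ a, π (ι a) = counit (R := k) a • (1 : C)) (a : A) :
    dl (pal π) (pal q) (ι a) = (1 : C) ⊗ₜ[k] q (ι a) := by
  change TensorProduct.map (pal π).toLinearMap (pal q).toLinearMap (comul (R := k) (ι a)) = _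
  rw [comul_map, ← LinearMap.comp_apply, ← TensorProduct.map_comp]
  have h1 : (pal π).toLinearMap ∘ₗ (pal ι).toLinearMap =
      LinearMap.toSpanSingleton k C 1 ∘ₗ counit (R := k) := by
    ext x
    exact hιπ x
  rw [h1]
  conv_lhs => rw [← (ℛ k a).eq, map_sum]
  simp only [TensorProduct.map_tmul, LinearMap.comp_apply, LinearMap.toSpanSingleton_apply]
  have h2 := Coalgebra.sum_counit_smul (ℛ k a)
  conv_rhs => rw [← h2]
  change _ = (1 : C) ⊗ₜ[k] ((pal q).toLinearMap ∘ₗ (pal ι).toLinearMap) _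
  rw [map_sum, TensorProduct.tmul_sum]
  refine Finset.sum_congr rfl fun i _ => ?_
  rw [map_smul, TensorProduct.tmul_smul, TensorProduct.smul_tmul']
  rfl

/-- The lifting statement in terms of plain modules. -/
theorem lift_CE (ι : A →ₐc[k] B) (π : B →ₐc[k] C) (q : B →ₐc[k] E)
    (hπ : Function.Surjective π) (hK : KerL ι π)
    (hιπ : ∀ a, π (ι a) = counit (R := k) a • (1 : C))
    (hE : Module.Projective A
      ((ModuleCat.restrictScalars.{u} (pal (q.comp ι)).toRingHom).obj (ModuleCat.of E E)))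
    (F : Type u) [AddCommGroup F] [Module k F] [Module B F] [IsScalarTower k B F]
    (p : F →+ C ⊗[k] E) (hp : Function.Surjective p)
    (hpb : ∀ (b : B) (x : F), p (b • x) = dl (pal π) (pal q) b * p x) :
    ∃ G : C ⊗[k] E →ₗ[k] F, (∀ t, p (G t) = t) ∧
      (∀ b t, G (dl (pal π) (pal q) b * t) = b • G t) := by
  let _ : Module A F := Module.compHom F (pal ι).toRingHom
  let _ : Module A (C ⊗[k] E) := Module.compHom (C ⊗[k] E)
    ((dl (pal π) (pal q)).comp (pal ι)).toRingHom
  let fA : F →ₗ[A] C ⊗[k] E :=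
    { toFun := p
      map_add' := map_add p
      map_smul' := fun a x => hpb (ι a) x }
  let u₀ : ((ModuleCat.restrictScalars.{u} (pal (q.comp ι)).toRingHom).obj (ModuleCat.of E E))
      →ₗ[A] C ⊗[k] E :=
    { toFun := fun v => ((1 : C) ⊗ₜ[k] (show E from v) : C ⊗[k] E)
      map_add' := fun v v' => TensorProduct.tmul_add _ _ _
      map_smul' := fun a v => by
        change ((1 : C) ⊗ₜ[k] (q (ι a) * (show E from v)) : C ⊗[k] E) =
          dl (pal π) (pal q) (ι a) * ((1 : C) ⊗ₜ[k] (show E from v))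
        rw [dl_iota_mul ι π q hιπ, Algebra.TensorProduct.tmul_mul_tmul, one_mul] }
  obtain ⟨u, hu⟩ := Module.projective_lifting_property fA u₀ hp
  have hu1 : ∀ v : E, p (u v) = ((1 : C) ⊗ₜ[k] v : C ⊗[k] E) := fun v => LinearMap.congr_fun hu v
  have hu2 : ∀ (a : A) (v : E), u (q (ι a) * v : E) = ι a • u v :=
    fun a v => LinearMap.map_smul u a v
  let u' : E →ₗ[k] F :=
    { toFun := fun v => u v
      map_add' := fun v v' => map_add u v v'
      map_smul' := fun c v => by
        have h := hu2 (algebraMap k A c) v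
        have h1 : ι (algebraMap k A c) = algebraMap k B c := (pal ι).commutes c
        have h2 : q (algebraMap k B c) = algebraMap k E c := (pal q).commutes c
        rw [h1, h2, ← Algebra.smul_def, algebraMap_smul] at h
        exact h }
  obtain ⟨G, hG1, hG2⟩ := exists_ext ι π q hπ hK F u' (fun a v => hu2 a v)
  refine ⟨G, ?_, hG2⟩
  intro t
  induction t using TensorProduct.induction_on with
  | zero => rw [map_zero, map_zero]
  | add x y hx hy => rw [map_add, map_add, hx, hy]
  | tmul c v =>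
    obtain ⟨b, rfl⟩ := hπ c
    rw [gen_CE π q b v, map_sum, map_sum]
    refine Finset.sum_congr rfl fun i _ => ?_
    rw [hG2, hpb, hG1]
    congr 1
    exact hu1 _

theorem proj_CE (ι : A →ₐc[k] B) (π : B →ₐc[k] C) (q : B →ₐc[k] E)
    (hπ : Function.Surjective π) (hK : KerL ι π)
    (hιπ : ∀ a, π (ι a) = counit (R := k) a • (1 : C))
    (hE : Module.Projective A
      ((ModuleCat.restrictScalars.{u} (pal (q.comp ι)).toRingHom).obj (ModuleCat.of E E))) :
    Module.Projective B ((ModuleCat.restrictScalars.{u} (dl (pal π) (pal q)).toRingHom).obj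
      (ModuleCat.of (C ⊗[k] E) (C ⊗[k] E))) := by
  refine Module.Projective.of_lifting_property'' fun f hf => ?_
  obtain ⟨G, hG1, hG2⟩ := lift_CE ι π q hπ hK hιπ hE _ f.toAddMonoidHom hf
    (fun b x => map_smul f b x)
  refine ⟨
    { toFun := fun t => G t
      map_add' := fun t t' => map_add G t t'
      map_smul' := fun b t => hG2 b t }, ?_⟩
  apply LinearMap.ext
  intro t
  exact hG1 t

end projB

end Run7.h234
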