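import Pool.Agent.Run7.h234.HG0

/-!
Cocentral quotients: the integral on the quotient.
-/

set_option autoImplicit false
set_option linter.unusedVariables false
set_option linter.unusedSectionVars false

universe u

open TensorProduct Coalgebra WithConv

namespace Run7.h234

section cocen

variable {k : Type u} [Field k] {C G : Type u} [Ring C] [HopfAlgebra k C] [Ring G]
  [HopfAlgebra k G]

/-- Cocentrality. -/
def Cocen (q : C →ₐc[k] G) : Prop := ∀ (f : C →ₗ[k] k) (c : C), q (rv f c) = q (lv f c)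

theorem Cocen.tens {q : C →ₐc[k] G} (h : Cocen q) (c : C) :
    TensorProduct.map LinearMap.id (pal q).toLinearMap (comul (R := k) c) =
      (TensorProduct.comm k G C) (TensorProduct.map (pal q).toLinearMap LinearMap.id
        (comul (R := k) c)) := by
  apply tens_ext_l
  intro f
  have h1 : ∀ t : C ⊗[k] C, (TensorProduct.lid k G) (LinearMap.rTensor G f
      (TensorProduct.map LinearMap.id (pal q).toLinearMap t)) =
      (pal q) ((TensorProduct.lid k C) (LinearMap.rTensor C f t)) := by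
    intro t
    induction t using TensorProduct.induction_on with
    | zero => simp
    | tmul x y => simp
    | add x y hx hy => simp only [map_add, hx, hy]
  have h2 : ∀ t : C ⊗[k] C, (TensorProduct.lid k G) (LinearMap.rTensor G f
      ((TensorProduct.comm k G C) (TensorProduct.map (pal q).toLinearMap LinearMap.id t))) =
      (pal q) ((TensorProduct.rid k C) (LinearMap.lTensor C f t)) := by
    intro t
    induction t using TensorProduct.induction_on with
    | zero => simp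
    | tmul x y => simp
    | add x y hx hy => simp only [map_add, hx, hy]
  rw [h1, h2]
  exact (h f c).symm

/-- `c₁ f(q c₂) = f(q c₁) c₂`. -/
theorem Cocen.rv_eq {q : C →ₐc[k] G} (h : Cocen q) (f : G →ₗ[k] k) (c : C) :
    rv (f ∘ₗ (pal q).toLinearMap) c = lv (f ∘ₗ (pal q).toLinearMap) c := by
  apply eq_of_dual (k := k)
  intro w
  have h1 := congrArg f (h w c)
  have h2 := mul_lv w (f ∘ₗ (pal q).toLinearMap) c
  have h3 := mul_lv (f ∘ₗ (pal q).toLinearMap) w c
  have h4 : f (q (lv w c)) = w (rv (f ∘ₗ (pal q).toLinearMap) c) := h2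
  have h5 : w (lv (f ∘ₗ (pal q).toLinearMap) c) = f (q (rv w c)) := h3
  rw [← h4, h5, h1]

/-- The quotient is cocommutative. -/
theorem Cocen.cocomm {q : C →ₐc[k] G} (h : Cocen q) (hq : Function.Surjective q)
    (f : G →ₗ[k] k) (y : G) : rv f y = lv f y := by
  obtain ⟨c, rfl⟩ := hq y
  rw [← rv_map, ← lv_map]
  exact h _ c

theorem comul_map_sum' (g : C →ₐc[k] G) (a : C) :
    ∑ i ∈ (ℛ k a).index, g ((ℛ k a).left i) ⊗ₜ[k] g ((ℛ k a).right i) =
      comul (R := k) (g a) := by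
  rw [comul_map]
  conv_rhs => rw [← (ℛ k a).eq, map_sum]
  rfl

/-- `Σ S(y₂) y₁ = ε(y)` in a cocommutative Hopf algebra. -/
theorem sum_anti_op (hG : ∀ (f : G →ₗ[k] k) (c : G), rv f c = lv f c) (y : G) :
    ∑ i ∈ (ℛ k y).index, HopfAlgebra.antipode k ((ℛ k y).right i) * (ℛ k y).left i =
      counit (R := k) y • (1 : G) := by
  have h1 : ∑ i ∈ (ℛ k y).index, HopfAlgebra.antipode k ((ℛ k y).right i) * (ℛ k y).left i =
      (LinearMap.mul' k G) (TensorProduct.map (HopfAlgebra.antipode k) LinearMap.id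
        ((TensorProduct.comm k G G) (comul (R := k) y))) := by
    conv_rhs => rw [← (ℛ k y).eq, map_sum, map_sum, map_sum]
    rfl
  rw [h1, comm_comul hG, ← HopfAlgebra.sum_antipode_mul_eq_smul (ℛ k y)]
  conv_lhs => rw [← (ℛ k y).eq, map_sum, map_sum]
  rfl

/-- The map `c ↦ S(c₂) c₁`. -/
noncomputable def zet (c : C) : C :=
  ∑ i ∈ (ℛ k c).index, HopfAlgebra.antipode k ((ℛ k c).right i) * (ℛ k c).left i

/-- A linear map with values in the opposite algebra. -/
noncomputable def opc {R : Type u} [Ring R] [Algebra k R] (F : C →ₗ[k] R) : Cv k C Rᵐᵒᵖ :=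
  cv ((MulOpposite.opLinearEquiv k).toLinearMap ∘ₗ F)

theorem opc_mul {R : Type u} [Ring R] [Algebra k R] (F F' : C →ₗ[k] R) (c : C) :
    (opc F * opc F' : Cv k C Rᵐᵒᵖ) c = MulOpposite.op
      (∑ i ∈ (ℛ k c).index, F' ((ℛ k c).right i) * F ((ℛ k c).left i)) := by
  rw [mul_apply_repr]
  change _ = (MulOpposite.opLinearEquiv k) (∑ i ∈ (ℛ k c).index,
    F' ((ℛ k c).right i) * F ((ℛ k c).left i))
  rw [map_sum]
  rfl

theorem zet_coinv {q : C →ₐc[k] G} (h : Cocen q) (hq : Function.Surjective q) (c : C) :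
    zet (k := k) c ∈ Dd q := by
  rw [mem_Dd]
  set Dl : C →ₐ[k] C ⊗[k] G := dl (AlgHom.id k C) (pal q) with hDl
  let i₀ : C →ₗ[k] C ⊗[k] G := (Algebra.TensorProduct.includeLeft (R := k) (S := k) (A := C)
    (B := G)).toLinearMap
  let p₀ : C →ₗ[k] C ⊗[k] G := (Algebra.TensorProduct.includeRight (R := k) (A := C)
    (B := G)).toLinearMap ∘ₗ (pal q).toLinearMap
  let S₀ : C →ₗ[k] C := HopfAlgebra.antipode k
  -- `Δ' = i * p` in the opposite convolution ring
  have e1 : opc Dl.toLinearMap = (opc i₀ * opc p₀ : Cv k C (C ⊗[k] G)ᵐᵒᵖ) := by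
    apply cv_ext
    intro x
    rw [opc_mul]
    change MulOpposite.op (Dl x) = _
    congr 1
    rw [hDl, dl_repr]
    refine Finset.sum_congr rfl fun i _ => ?_
    change _ = ((1 : C) ⊗ₜ[k] q _) * (_ ⊗ₜ[k] (1 : G))
    rw [Algebra.TensorProduct.tmul_mul_tmul, one_mul, mul_one]
  -- `Δ' ∘ S = pS * iS` in the opposite convolution ring
  have e2 : opc (Dl.toLinearMap ∘ₗ S₀) = (opc (p₀ ∘ₗ S₀) * opc (i₀ ∘ₗ S₀) :
      Cv k C (C ⊗[k] G)ᵐᵒᵖ) := by
    apply cv_ext
    intro x
    rw [opc_mul]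
    change MulOpposite.op (Dl (HopfAlgebra.antipode k x)) = _
    congr 1
    change TensorProduct.map (LinearMap.id) (pal q).toLinearMap
      (comul (R := k) (HopfAlgebra.antipode k x)) = _
    rw [comul_antipode, map_sum]
    refine Finset.sum_congr rfl fun i _ => ?_
    change _ = (HopfAlgebra.antipode k _ ⊗ₜ[k] (1 : G)) *
      ((1 : C) ⊗ₜ[k] q (HopfAlgebra.antipode k _))
    rw [Algebra.TensorProduct.tmul_mul_tmul, one_mul, mul_one, TensorProduct.map_tmul]
    rfl
  -- `i * p = p * i`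
  have e3 : (opc i₀ * opc p₀ : Cv k C (C ⊗[k] G)ᵐᵒᵖ) = opc p₀ * opc i₀ := by
    apply cv_ext
    intro x
    rw [opc_mul, opc_mul]
    congr 1
    have h1 := h.tens x
    have h2 : TensorProduct.map LinearMap.id (pal q).toLinearMap (comul (R := k) x) =
        ∑ i ∈ (ℛ k x).index, p₀ ((ℛ k x).right i) * i₀ ((ℛ k x).left i) := by
      conv_lhs => rw [← (ℛ k x).eq, map_sum]
      refine Finset.sum_congr rfl fun i _ => ?_
      change _ = ((1 : C) ⊗ₜ[k] q _) * (_ ⊗ₜ[k] (1 : G))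
      rw [Algebra.TensorProduct.tmul_mul_tmul, one_mul, mul_one]
      rfl
    have h3 : (TensorProduct.comm k G C) (TensorProduct.map (pal q).toLinearMap LinearMap.id
        (comul (R := k) x)) =
        ∑ i ∈ (ℛ k x).index, i₀ ((ℛ k x).right i) * p₀ ((ℛ k x).left i) := by
      conv_lhs => rw [← (ℛ k x).eq, map_sum, map_sum]
      refine Finset.sum_congr rfl fun i _ => ?_
      change _ = (_ ⊗ₜ[k] (1 : G)) * ((1 : C) ⊗ₜ[k] q _)
      rw [Algebra.TensorProduct.tmul_mul_tmul, one_mul, mul_one]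
      rfl
    rw [← h2, ← h3, h1]
  -- `p * pS = 1`
  have e4 : (opc p₀ * opc (p₀ ∘ₗ S₀) : Cv k C (C ⊗[k] G)ᵐᵒᵖ) = 1 := by
    apply cv_ext
    intro x
    rw [opc_mul, one_cv_apply]
    have h1 := sum_anti_op (h.cocomm hq) (q x)
    have h2 : ∑ i ∈ (ℛ k x).index, (p₀ ∘ₗ S₀) ((ℛ k x).right i) * p₀ ((ℛ k x).left i) =
        (1 : C) ⊗ₜ[k] (counit (R := k) x • (1 : G)) := by
      rw [← counit_map q x, ← h1]
      have h3 : ∑ i ∈ (ℛ k (q x)).index, HopfAlgebra.antipode k ((ℛ k (q x)).right i) *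
          (ℛ k (q x)).left i = ∑ i ∈ (ℛ k x).index,
            HopfAlgebra.antipode k (q ((ℛ k x).right i)) * q ((ℛ k x).left i) := by
        have h4 : ∀ t : G ⊗[k] G, t = comul (R := k) (q x) →
            (LinearMap.mul' k G) (TensorProduct.map (HopfAlgebra.antipode k) LinearMap.id
              ((TensorProduct.comm k G G) t)) =
            (LinearMap.mul' k G) (TensorProduct.map (HopfAlgebra.antipode k) LinearMap.id
              ((TensorProduct.comm k G G) (comul (R := k) (q x)))) := by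
          rintro t rfl; rfl
        have h5 := h4 _ (ℛ k (q x)).eq
        have h6 := h4 _ (comul_map_sum' q x)
        rw [map_sum, map_sum, map_sum] at h5 h6
        exact h5.trans h6.symm
      rw [h3, TensorProduct.tmul_sum]
      refine Finset.sum_congr rfl fun i _ => ?_
      change ((1 : C) ⊗ₜ[k] q (HopfAlgebra.antipode k _)) * ((1 : C) ⊗ₜ[k] q _) = _
      rw [Algebra.TensorProduct.tmul_mul_tmul, one_mul, antipode_map]
    rw [h2, TensorProduct.tmul_smul]
    rfl
  have e5 : (opc Dl.toLinearMap * opc (Dl.toLinearMap ∘ₗ S₀) : Cv k C (C ⊗[k] G)ᵐᵒᵖ) =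
      opc i₀ * opc (i₀ ∘ₗ S₀) := by
    rw [e1, e2]
    calc (opc i₀ * opc p₀ * (opc (p₀ ∘ₗ S₀) * opc (i₀ ∘ₗ S₀)) : Cv k C (C ⊗[k] G)ᵐᵒᵖ) =
        opc i₀ * (opc p₀ * opc (p₀ ∘ₗ S₀)) * opc (i₀ ∘ₗ S₀) := by simp only [mul_assoc]
      _ = _ := by rw [e4, mul_one]
  have e6 : (opc Dl.toLinearMap * opc (Dl.toLinearMap ∘ₗ S₀) : Cv k C (C ⊗[k] G)ᵐᵒᵖ) c =
      (opc i₀ * opc (i₀ ∘ₗ S₀) : Cv k C (C ⊗[k] G)ᵐᵒᵖ) c := by rw [e5]
  rw [opc_mul, opc_mul] at e6
  have e7 := MulOpposite.op_injective e6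
  have e8 : Dl (zet (k := k) c) = ∑ i ∈ (ℛ k c).index,
      (Dl.toLinearMap ∘ₗ S₀) ((ℛ k c).right i) * Dl.toLinearMap ((ℛ k c).left i) := by
    rw [zet, map_sum]
    refine Finset.sum_congr rfl fun i _ => ?_
    rw [map_mul]
    rfl
  rw [e8, e7, zet, TensorProduct.sum_tmul]
  refine Finset.sum_congr rfl fun i _ => ?_
  change (HopfAlgebra.antipode k _ ⊗ₜ[k] (1 : G)) * (_ ⊗ₜ[k] (1 : G)) = _
  rw [Algebra.TensorProduct.tmul_mul_tmul, mul_one]

end cocen

end Run7.h234
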