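import Pool.Agent.Run7.h234.HR0

/-!
Cocentral quotients: nonvanishing of the integral at the unit.
-/

set_option autoImplicit false
set_option linter.unusedVariables false
set_option linter.unusedSectionVars false

universe u

open TensorProduct Coalgebra WithConv

namespace Run7.h234

section claim1

variable {k : Type u} [Field k] {C G : Type u} [Ring C] [HopfAlgebra k C] [Ring G]
  [HopfAlgebra k G]

/-- Applying a functional to the first factor. -/
noncomputable def lT (w : C →ₗ[k] k) : C ⊗[k] C →ₗ[k] C :=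
  (TensorProduct.lid k C).toLinearMap ∘ₗ LinearMap.rTensor C w

theorem lT_tmul (w : C →ₗ[k] k) (p r : C) : lT w (p ⊗ₜ[k] r) = w p • r := by
  simp [lT]

theorem lv_eq_lT (w : C →ₗ[k] k) (c : C) : lv w c = lT w (comul (R := k) c) := rfl

theorem lT_mul (w : C →ₗ[k] k) (p r : C) (t : C ⊗[k] C) :
    lT w (t * (p ⊗ₜ[k] r)) = lT (w ∘ₗ LinearMap.mulRight k p) t * r := by
  induction t using TensorProduct.induction_on with
  | zero => simp
  | tmul a b =>
    rw [Algebra.TensorProduct.tmul_mul_tmul, lT_tmul, lT_tmul, LinearMap.comp_apply,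
      LinearMap.mulRight_apply, smul_mul_assoc]
  | add a b ha hb => rw [add_mul, map_add, map_add, add_mul, ha, hb]

theorem lv_mul (w : C →ₗ[k] k) (h y : C) :
    lv w (h * y) = ∑ i ∈ (ℛ k y).index,
      lv (w ∘ₗ LinearMap.mulRight k ((ℛ k y).left i)) h * (ℛ k y).right i := by
  rw [lv_eq_lT, Bialgebra.comul_mul]
  conv_lhs => rw [← (ℛ k y).eq, Finset.mul_sum, map_sum]
  refine Finset.sum_congr rfl fun i _ => ?_
  rw [lT_mul]; rfl

theorem lv_add (v w : C →ₗ[k] k) (c : C) : lv (v + w) c = lv v c + lv w c := by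
  simp [lv_repr, add_smul, Finset.sum_add_distrib]

theorem lv_smul (a : k) (v : C →ₗ[k] k) (c : C) : lv (a • v) c = a • lv v c := by
  simp [lv_repr, Finset.smul_sum, mul_smul]

theorem lv_counit (c : C) : lv (counit (R := k)) c = c := by
  rw [lv_repr, Coalgebra.sum_counit_smul]

theorem mulRight_add' (x y : C) :
    LinearMap.mulRight k (x + y) = LinearMap.mulRight k x + LinearMap.mulRight k y := by
  ext z; simp [mul_add]

theorem mulRight_smul' (a : k) (x : C) :
    LinearMap.mulRight k (a • x) = a • LinearMap.mulRight k x := by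
  ext z; simp

/-- The mirrored dual basis formula. -/
theorem dual_basis' (q : C →ₐc[k] G) {lam : G →ₗ[k] k} {z : C}
    (hz1 : lam (q z) = 1) (hz : ∀ h, h * q z = counit (R := k) h • q z) (x : C) :
    x = ∑ i ∈ (ℛ k z).index, lv (lam ∘ₗ (pal q).toLinearMap) (x * (ℛ k z).left i) *
      HopfAlgebra.antipode k ((ℛ k z).right i) := by
  set v₀ : C →ₗ[k] k := lam ∘ₗ (pal q).toLinearMap with hv
  let F : C →ₗ[k] C := lv v₀ ∘ₗ LinearMap.mulLeft k x
  let K : C →ₗ[k] C :=
    { toFun := fun y => lv (v₀ ∘ₗ LinearMap.mulRight k y) x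
      map_add' := fun y y' => by rw [mulRight_add', LinearMap.comp_add, lv_add]
      map_smul' := fun a y => by
        rw [RingHom.id_apply, mulRight_smul', LinearMap.comp_smul, lv_smul] }
  have h1 : (cv F : Cv k C C) = cv K * ca (AlgHom.id k C) := by
    apply cv_ext
    intro y
    rw [mul_apply_repr]
    exact lv_mul v₀ x y
  have h2 : (cv F * cs (AlgHom.id k C) : Cv k C C) = cv K := by
    rw [h1, mul_assoc, ca_mul_cs, mul_one]
  have h3 : (cv F * cs (AlgHom.id k C) : Cv k C C) z = (cv K : Cv k C C) z := by rw [h2]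
  rw [mul_apply_repr] at h3
  have h4 : (cv K : Cv k C C) z = x := by
    change lv (v₀ ∘ₗ LinearMap.mulRight k z) x = x
    have h5 : v₀ ∘ₗ LinearMap.mulRight k z = counit (R := k) := by
      ext y
      change lam (pal q (y * z)) = _
      rw [map_mul]
      change lam (q y * q z) = _
      rw [hz, map_smul, hz1, counit_map, smul_eq_mul, mul_one]
    rw [h5, lv_counit]
  rw [h4] at h3
  exact h3.symm

theorem P_mul_r (q : C →ₐc[k] G) (lam : G →ₗ[k] k) {d : C} (hd : d ∈ Dd q) (y : C) :
    rv (lam ∘ₗ (pal q).toLinearMap) (y * d) = rv (lam ∘ₗ (pal q).toLinearMap) y * d := by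
  have h1 : ∀ z, rv (lam ∘ₗ (pal q).toLinearMap) z =
      (TensorProduct.rid k C) (LinearMap.lTensor C lam (dl (AlgHom.id k C) (pal q) z)) := by
    intro z
    change _ = (TensorProduct.rid k C) (LinearMap.lTensor C lam
      (TensorProduct.map LinearMap.id (pal q).toLinearMap (comul (R := k) z)))
    change (TensorProduct.rid k C) (LinearMap.lTensor C _ (comul (R := k) z)) = _
    congr 1
    generalize comul (R := k) z = t
    induction t using TensorProduct.induction_on with
    | zero => simp
    | tmul x y => simp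
    | add x y hx hy => simp only [map_add, hx, hy]
  rw [h1, h1, map_mul, mem_Dd.1 hd]
  generalize dl (AlgHom.id k C) (pal q) y = t
  induction t using TensorProduct.induction_on with
  | zero => simp
  | tmul x y => simp [Algebra.TensorProduct.tmul_mul_tmul]
  | add x y hx hy => simp only [map_add, add_mul, hx, hy]

/-- If the dimension of `C` is invertible then the integral of a cocentral quotient does not
vanish at `1`. -/
theorem lam_one_ne [Module.Finite k C] {q : C →ₐc[k] G} (h : Cocen q)
    (hq : Function.Surjective q) {L : G} {lam : G →ₗ[k] k} (hL : IsLS L lam)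
    (hdim : (Module.finrank k C : k) ≠ 0) : lam 1 ≠ 0 := by
  intro h0
  apply hdim
  obtain ⟨z, hz⟩ := hq L
  let v₀ : C →ₗ[k] k := lam ∘ₗ (pal q).toLinearMap
  let P : C →ₗ[k] C := rv v₀
  have hPlv : ∀ y, lv v₀ y = P y := fun y => (h.rv_eq lam y).symm
  have h1 : (LinearMap.id : C →ₗ[k] C) = ∑ i ∈ (ℛ k z).index,
      (LinearMap.mulRight k (HopfAlgebra.antipode k ((ℛ k z).right i))) ∘ₗ
        (P ∘ₗ LinearMap.mulRight k ((ℛ k z).left i)) := by
    apply LinearMap.ext
    intro x
    rw [LinearMap.sum_apply]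
    have h2 := dual_basis' q (lam := lam) (z := z) (by rw [hz, hL.lam_L])
      (by rw [hz]; exact hL.left) x
    refine h2.trans (Finset.sum_congr rfl fun i _ => ?_)
    change lv v₀ _ * _ = P _ * _
    rw [hPlv]
    rfl
  have h2 := congrArg (LinearMap.trace k C) h1
  rw [LinearMap.trace_id, map_sum] at h2
  have h3 : ∀ i ∈ (ℛ k z).index, LinearMap.trace k C
      ((LinearMap.mulRight k (HopfAlgebra.antipode k ((ℛ k z).right i))) ∘ₗ
        (P ∘ₗ LinearMap.mulRight k ((ℛ k z).left i))) =
      LinearMap.trace k C ((LinearMap.mulRight k (HopfAlgebra.antipode k ((ℛ k z).right i) *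
        (ℛ k z).left i)) ∘ₗ P) := by
    intro i _
    rw [← LinearMap.comp_assoc, LinearMap.trace_comp_comm', ← LinearMap.comp_assoc]
    congr 2
    ext y
    simp [mul_assoc]
  rw [Finset.sum_congr rfl h3, ← map_sum] at h2
  have h4 : (∑ i ∈ (ℛ k z).index, (LinearMap.mulRight k
      (HopfAlgebra.antipode k ((ℛ k z).right i) * (ℛ k z).left i)) ∘ₗ P) =
      LinearMap.mulRight k (zet (k := k) z) ∘ₗ P := by
    ext y
    rw [LinearMap.sum_apply]
    simp only [LinearMap.comp_apply, LinearMap.mulRight_apply, zet, Finset.mul_sum]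
  rw [h4] at h2
  rw [h2]
  have hPD : ∀ y, P y ∈ Dd q := fun y => P_mem q hL y
  have hP2 : ∀ y, P (P y) = 0 := by
    intro y
    have h5 : P (P y * 1) = P y * P 1 := P_mul q lam (hPD y) 1
    rw [mul_one] at h5
    rw [h5]
    have h6 : P 1 = v₀ 1 • (1 : C) := rv_map_one v₀
    have h7 : v₀ 1 = 0 := by
      change lam (pal q 1) = 0
      rw [map_one, h0]
    rw [h6, h7, zero_smul, mul_zero]
  have hnil : IsNilpotent (LinearMap.mulRight k (zet (k := k) z) ∘ₗ P : Module.End k C) := by
    refine ⟨2, ?_⟩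
    rw [pow_two]
    apply LinearMap.ext
    intro y
    change P (P y * zet (k := k) z) * zet (k := k) z = 0
    have h5 : P (P y * zet (k := k) z) = P (P y) * zet (k := k) z :=
      P_mul_r q lam (zet_coinv h hq z) (P y)
    rw [h5, hP2, zero_mul, zero_mul]
  exact (LinearMap.isNilpotent_trace_of_isNilpotent hnil).eq_zero

end claim1

end Run7.h234
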