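import Pool.Agent.Run7.h234.HR1

/-!
The algebra of functionals on a cocommutative cosemisimple Hopf algebra is reduced.
-/

set_option autoImplicit false
set_option linter.unusedVariables false
set_option linter.unusedSectionVars false

universe u

open TensorProduct Coalgebra WithConv

namespace Run7.h234

section claim2

variable {k : Type u} [Field k] {G : Type u} [Ring G] [HopfAlgebra k G]

theorem conv_comm (hG : ∀ (f : G →ₗ[k] k) (c : G), rv f c = lv f c) (f g : G →ₗ[k] k) :
    f ∘ₗ rv g = g ∘ₗ rv f := by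
  ext y
  rw [LinearMap.comp_apply, LinearMap.comp_apply, hG g y, mul_lv]

theorem trace_rv [Module.Finite k G] (hG : ∀ (f : G →ₗ[k] k) (c : G), rv f c = lv f c)
    {L : G} {lam : G →ₗ[k] k} (hL : IsLS L lam) (h : G →ₗ[k] k) :
    LinearMap.trace k G (rv h) = h (HopfAlgebra.antipode k L) * lam 1 := by
  have h1 : (rv h : G →ₗ[k] G) = ∑ i ∈ (ℛ k L).index,
      (LinearMap.toSpanSingleton k G (rv h (HopfAlgebra.antipode k ((ℛ k L).left i)))) ∘ₗ
        (lam ∘ₗ LinearMap.mulRight k ((ℛ k L).right i)) := by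
    apply LinearMap.ext
    intro x
    have h2 := hL.anti x
    have h3 := congrArg (HopfAlgebra.antipode k) h2
    rw [antipode_sq hG, rv_repr, map_sum] at h3
    rw [LinearMap.sum_apply]
    conv_lhs => rw [← h3, map_sum]
    refine Finset.sum_congr rfl fun i _ => ?_
    rw [map_smul, map_smul]
    rfl
  rw [h1, map_sum]
  have h3 : ∀ i ∈ (ℛ k L).index, LinearMap.trace k G
      ((LinearMap.toSpanSingleton k G (rv h (HopfAlgebra.antipode k ((ℛ k L).left i)))) ∘ₗ
        (lam ∘ₗ LinearMap.mulRight k ((ℛ k L).right i))) =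
      lam (HopfAlgebra.antipode k (lv (h ∘ₗ HopfAlgebra.antipode k) ((ℛ k L).left i)) *
        (ℛ k L).right i) := by
    intro i _
    rw [LinearMap.trace_comp_comm']
    have : (lam ∘ₗ LinearMap.mulRight k ((ℛ k L).right i)) ∘ₗ
        (LinearMap.toSpanSingleton k G (rv h (HopfAlgebra.antipode k ((ℛ k L).left i)))) =
        (lam (rv h (HopfAlgebra.antipode k ((ℛ k L).left i)) * (ℛ k L).right i)) •
          LinearMap.id := by
      ext
      simp
    rw [this, map_smul, LinearMap.trace_id, rv_antipode]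
    simp
  rw [Finset.sum_congr rfl h3, ← map_sum]
  have h4 : ∑ i ∈ (ℛ k L).index, HopfAlgebra.antipode k
      (lv (h ∘ₗ HopfAlgebra.antipode k) ((ℛ k L).left i)) * (ℛ k L).right i =
      h (HopfAlgebra.antipode k L) • (1 : G) := by
    have h5 : ∑ i ∈ (ℛ k L).index, HopfAlgebra.antipode k
        (lv (h ∘ₗ HopfAlgebra.antipode k) ((ℛ k L).left i)) * (ℛ k L).right i =
        (LinearMap.mul' k G) (TensorProduct.map (HopfAlgebra.antipode k) LinearMap.id
          (LinearMap.rTensor G (lv (h ∘ₗ HopfAlgebra.antipode k)) (comul (R := k) L))) := by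
      conv_rhs => rw [← (ℛ k L).eq, map_sum, map_sum, map_sum]
      rfl
    rw [h5, ← comul_lv]
    have h6 : ∀ y : G, (LinearMap.mul' k G) (TensorProduct.map (HopfAlgebra.antipode k)
        LinearMap.id (comul (R := k) y)) = counit (R := k) y • (1 : G) := by
      intro y
      rw [← HopfAlgebra.sum_antipode_mul_eq_smul (ℛ k y)]
      conv_lhs => rw [← (ℛ k y).eq, map_sum, map_sum]
      rfl
    rw [h6]
    congr 1
    rw [mul_lv, rv_counit]
    rfl
  rw [h4, map_smul, smul_eq_mul]

/-- No nonzero functional squares to zero. -/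
theorem conv_reduced [Module.Finite k G]
    (hG : ∀ (f : G →ₗ[k] k) (c : G), rv f c = lv f c)
    {L : G} {lam : G →ₗ[k] k} (hL : IsLS L lam) (h1 : lam 1 ≠ 0) (f : G →ₗ[k] k)
    (hf : f ∘ₗ rv f = 0) : f = 0 := by
  have hcomp : ∀ v w : G →ₗ[k] k, (rv v : G →ₗ[k] G) ∘ₗ rv w = rv (v ∘ₗ rv w) := by
    intro v w
    ext y
    exact rv_rv v w y
  have key : ∀ g : G →ₗ[k] k, g (rv f (HopfAlgebra.antipode k L)) = 0 := by
    intro g
    have h2 : Commute (rv f : Module.End k G) (rv g : Module.End k G) := by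
      change (rv f : G →ₗ[k] G) ∘ₗ rv g = rv g ∘ₗ rv f
      rw [hcomp, hcomp, conv_comm hG]
    have hnf : IsNilpotent (rv f : Module.End k G) := by
      refine ⟨2, ?_⟩
      rw [pow_two]
      change (rv f : G →ₗ[k] G) ∘ₗ rv f = 0
      rw [hcomp f f, hf]
      ext y; rw [rv_repr]; simp
    have hnil : IsNilpotent (rv (f ∘ₗ rv g) : Module.End k G) := by
      rw [← hcomp]
      exact h2.isNilpotent_mul_right hnf
    have h3 := (LinearMap.isNilpotent_trace_of_isNilpotent hnil).eq_zero
    rw [trace_rv hG hL] at h3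
    rcases mul_eq_zero.1 h3 with h4 | h4
    · rw [conv_comm hG] at h4
      exact h4
    · exact absurd h4 h1
  have h2 : rv f (HopfAlgebra.antipode k L) = 0 := by
    rw [← Module.forall_dual_apply_eq_zero_iff k]
    exact key
  rw [rv_antipode] at h2
  have h3 : lv (f ∘ₗ HopfAlgebra.antipode k) L = 0 :=
    antipode_injective (k := k) (by rw [h2, map_zero])
  rw [← hG] at h3
  have h4 := hL.nd _ h3
  ext y
  obtain ⟨y, rfl⟩ := (antipode_bijective (k := k) (H := G)).2 y
  exact LinearMap.congr_fun h4 y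

end claim2

end Run7.h234
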