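import Pool.Agent.Run7.h234.HR2

/-!
Grouplike elements span.
-/

set_option autoImplicit false
set_option linter.unusedVariables false
set_option linter.unusedSectionVars false

universe u

open TensorProduct Coalgebra WithConv

namespace Run7.h234

section claim3

variable {k : Type u} [Field k] {G : Type u} [Ring G] [HopfAlgebra k G]

theorem isCocomm_of (hG : ∀ (f : G →ₗ[k] k) (c : G), rv f c = lv f c) :
    Coalgebra.IsCocomm k G := ⟨by
  apply LinearMap.ext
  intro c
  exact comm_comul hG c⟩

theorem span_groupLike [IsAlgClosed k] [Module.Finite k G]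
    (hG : ∀ (f : G →ₗ[k] k) (c : G), rv f c = lv f c)
    {L : G} {lam : G →ₗ[k] k} (hL : IsLS L lam) (h1 : lam 1 ≠ 0) :
    Submodule.span k {g : G | IsGroupLikeElem k g} = ⊤ := by
  by_contra hne
  obtain ⟨f, hf0, hf⟩ := Submodule.exists_le_ker_of_lt_top _ (lt_top_iff_ne_top.2 hne)
  have hco : Coalgebra.IsCocomm k G := isCocomm_of hG
  have hmul : ∀ (a b : G →ₗ[k] k) (y : G), (cv a * cv b : Cv k G k) y = a (rv b y) := by
    intro a b y
    rw [mul_apply_repr, rv_repr, map_sum]
    refine Finset.sum_congr rfl fun i _ => ?_
    rw [map_smul, smul_eq_mul, mul_comm]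
  have hred : IsReduced (Cv k G k) := by
    rw [isReduced_iff_pow_one_lt 2 one_lt_two]
    intro x hx
    rw [pow_two] at hx
    have h2 : x.ofConv ∘ₗ rv x.ofConv = 0 := by
      ext y
      have := congrArg (fun z : Cv k G k => z y) hx
      have h3 := hmul x.ofConv x.ofConv y
      exact h3.symm.trans this
    have h3 := conv_reduced hG hL h1 x.ofConv h2
    apply cv_ext
    intro y
    exact LinearMap.congr_fun h3 y
  have hfin : Module.Finite k (Cv k G k) :=
    Module.Finite.equiv (WithConv.linearEquiv k (G →ₗ[k] k)).symm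
  have hnil : IsNilpotent (cv f : Cv k G k) := by
    rw [nilpotent_iff_mem_prime]
    intro P hP
    by_contra hfP
    have hdom : IsDomain (Cv k G k ⧸ P) := Ideal.Quotient.isDomain P
    have hint : Algebra.IsIntegral k (Cv k G k ⧸ P) := inferInstance
    have hbij := IsAlgClosed.algebraMap_bijective_of_isIntegral (k := k) (K := Cv k G k ⧸ P)
    let e : k ≃ₐ[k] (Cv k G k ⧸ P) := AlgEquiv.ofBijective (Algebra.ofId k _) hbij
    let χ : Cv k G k →ₐ[k] k := e.symm.toAlgHom.comp (Ideal.Quotient.mkₐ k P)
    have hχ : χ (cv f) ≠ 0 := by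
      intro h0
      apply hfP
      have h2 : e.symm (Ideal.Quotient.mk P (cv f)) = 0 := h0
      rw [← Ideal.Quotient.eq_zero_iff_mem]
      have h3 := congrArg e h2
      rwa [e.apply_symm_apply, map_zero] at h3
    let φ : Module.Dual k (Module.Dual k G) :=
      χ.toLinearMap ∘ₗ (WithConv.linearEquiv k (G →ₗ[k] k)).symm.toLinearMap
    obtain ⟨g, hg⟩ := (Module.evalEquiv k G).surjective φ
    have hg' : ∀ h : G →ₗ[k] k, χ (cv h) = h g := by
      intro h
      have := LinearMap.congr_fun hg h
      exact this.symm
    have hgl : IsGroupLikeElem k g := by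
      constructor
      · have h2 := hg' (counit (R := k))
        have h3 : (cv (counit (R := k)) : Cv k G k) = 1 := by
          apply cv_ext
          intro y
          rw [one_cv_apply, smul_eq_mul, mul_one]
        rw [h3, map_one] at h2
        exact h2.symm
      · apply tens_ext_r
        intro h
        change rv h g = _
        rw [LinearMap.lTensor_tmul, TensorProduct.rid_tmul]
        apply eq_of_dual (k := k)
        intro h'
        have h2 : h' (rv h g) = χ (cv h' * cv h) := by
          rw [show (cv h' * cv h : Cv k G k) = cv (h' ∘ₗ rv h) from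
            cv_ext fun y => hmul h' h y, hg']
          rfl
        rw [h2, map_mul, hg', hg', map_smul, smul_eq_mul, mul_comm]
    have h4 : f g = 0 := hf (Submodule.subset_span hgl)
    rw [hg', h4] at hχ
    exact hχ rfl
  have h5 : (cv f : Cv k G k) = 0 := hnil.eq_zero
  apply hf0
  ext y
  exact congrArg (fun z : Cv k G k => z y) h5

end claim3

end Run7.h234
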