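import Pool.Agent.Run7.h234.HR3

/-!
Dimensions of the graded pieces of a cocentral quotient.
-/

set_option autoImplicit false
set_option linter.unusedVariables false
set_option linter.unusedSectionVars false

universe u

open TensorProduct Coalgebra WithConv

namespace Run7.h234

section rank

variable {k : Type u} [Field k] {V W V' W' : Type u} [AddCommGroup V] [Module k V]
  [AddCommGroup W] [Module k W] [AddCommGroup V'] [Module k V'] [AddCommGroup W'] [Module k W']

theorem finrank_range_map [Module.Finite k V'] [Module.Finite k W'] (f : V →ₗ[k] V')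
    (g : W →ₗ[k] W') :
    Module.finrank k (LinearMap.range (TensorProduct.map f g)) =
      Module.finrank k (LinearMap.range f) * Module.finrank k (LinearMap.range g) := by
  have h1 : TensorProduct.map f g =
      TensorProduct.map (LinearMap.range f).subtype (LinearMap.range g).subtype ∘ₗ
        TensorProduct.map f.rangeRestrict g.rangeRestrict := by
    rw [← TensorProduct.map_comp]; rfl
  have h2 : LinearMap.range (TensorProduct.map f g) =
      LinearMap.range (TensorProduct.map (LinearMap.range f).subtype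
        (LinearMap.range g).subtype) := by
    rw [h1, LinearMap.range_comp]
    have h3 : LinearMap.range (TensorProduct.map f.rangeRestrict g.rangeRestrict) = ⊤ :=
      LinearMap.range_eq_top.2 (TensorProduct.map_surjective
        (LinearMap.surjective_rangeRestrict f) (LinearMap.surjective_rangeRestrict g))
    rw [h3, Submodule.map_top]
  rw [h2, LinearMap.finrank_range_of_inj (TensorProduct.map_injective_of_flat_flat _ _
    (Submodule.subtype_injective _) (Submodule.subtype_injective _)),
    Module.finrank_tensorProduct]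

end rank

section omega

variable {k : Type u} [Field k] {C : Type u} [Ring C] [HopfAlgebra k C]

/-- The map `x ⊗ y ↦ x y₁ ⊗ y₂`. -/
noncomputable def Om : C ⊗[k] C →ₗ[k] C ⊗[k] C :=
  TensorProduct.lift (LinearMap.mk₂ k (fun x y => (x ⊗ₜ[k] (1 : C)) * comul (R := k) y)
    (fun x x' y => by rw [TensorProduct.add_tmul, add_mul])
    (fun c x y => by rw [← TensorProduct.smul_tmul', smul_mul_assoc])
    (fun x y y' => by rw [map_add, mul_add])
    (fun c x y => by rw [map_smul, mul_smul_comm]))

theorem Om_tmul (x y : C) : Om (k := k) (x ⊗ₜ[k] y) = (x ⊗ₜ[k] (1 : C)) * comul (R := k) y := rfl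

theorem Om_surj : Function.Surjective (Om (k := k) (C := C)) := by
  intro t
  induction t using TensorProduct.induction_on with
  | zero => exact ⟨0, map_zero _⟩
  | add a b ha hb =>
    obtain ⟨a', rfl⟩ := ha
    obtain ⟨b', rfl⟩ := hb
    exact ⟨a' + b', map_add _ _ _⟩
  | tmul x y =>
    have h1 : (cs (jl (R' := C) (AlgHom.id k C)) * ca (dl (AlgHom.id k C) (AlgHom.id k C)) :
        Cv k C (C ⊗[k] C)) = ca (jr (R := C) (AlgHom.id k C)) := by
      rw [← jl_mul_jr, ← mul_assoc, cs_mul_ca, one_mul]
    have h2 : (cs (jl (R' := C) (AlgHom.id k C)) * ca (dl (AlgHom.id k C) (AlgHom.id k C)) :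
        Cv k C (C ⊗[k] C)) y = (ca (jr (R := C) (AlgHom.id k C)) : Cv k C (C ⊗[k] C)) y := by
      rw [h1]
    rw [mul_apply_repr] at h2
    have h3 : ∀ z, (ca (dl (AlgHom.id k C) (AlgHom.id k C)) : Cv k C (C ⊗[k] C)) z =
        comul (R := k) z := by
      intro z
      change (Algebra.TensorProduct.map (AlgHom.id k C) (AlgHom.id k C))
        (comul (R := k) z) = _
      rw [Algebra.TensorProduct.map_id]; rfl
    simp only [h3] at h2
    refine ⟨∑ i ∈ (ℛ k y).index, (x * HopfAlgebra.antipode k ((ℛ k y).left i)) ⊗ₜ[k]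
      (ℛ k y).right i, ?_⟩
    rw [map_sum]
    have h4 : x ⊗ₜ[k] y = (x ⊗ₜ[k] (1 : C)) * ((1 : C) ⊗ₜ[k] y) := by
      rw [Algebra.TensorProduct.tmul_mul_tmul, mul_one, one_mul]
    have h5 : (1 : C) ⊗ₜ[k] y = (ca (jr (R := C) (AlgHom.id k C)) : Cv k C (C ⊗[k] C)) y := rfl
    rw [h4, h5, ← h2, Finset.mul_sum]
    refine Finset.sum_congr rfl fun i _ => ?_
    rw [Om_tmul, ← mul_assoc]
    congr 1
    change _ = (x ⊗ₜ[k] (1 : C)) * (HopfAlgebra.antipode k _ ⊗ₜ[k] (1 : C))
    rw [Algebra.TensorProduct.tmul_mul_tmul, mul_one]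

end omega

section pieces

variable {k : Type u} [Field k] {C G : Type u} [Ring C] [HopfAlgebra k C] [Ring G]
  [HopfAlgebra k G] (b : Module.Basis (GroupLike k G) k G)
  (hb : ∀ γ : GroupLike k G, b γ = γ.val)

include hb in
theorem rv_coord (γ : GroupLike k G) (y : G) : rv (b.coord γ) y = b.coord γ y • γ.val := by
  have h : (rv (b.coord γ) : G →ₗ[k] G) = (LinearMap.toSpanSingleton k G γ.val) ∘ₗ b.coord γ := by
    apply b.ext
    intro γ'
    have h1 : rv (b.coord γ) (b γ') = b.coord γ (b γ') • b γ' := by
      have h2 : comul (R := k) (b γ') = b γ' ⊗ₜ[k] b γ' := by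
        rw [hb]; exact γ'.isGroupLikeElem_val.comul_eq_tmul_self
      change (TensorProduct.rid k G) (LinearMap.lTensor G _ (comul (R := k) (b γ'))) = _
      rw [h2, LinearMap.lTensor_tmul, TensorProduct.rid_tmul]
    rw [h1]
    change _ = b.coord γ (b γ') • γ.val
    by_cases hγ : γ' = γ
    · rw [hγ, hb]
    · rw [Module.Basis.coord_apply, Module.Basis.repr_self, Finsupp.single_eq_of_ne (fun h => hγ h.symm),
        zero_smul, zero_smul]
  exact LinearMap.congr_fun h y

/-- The projection onto a graded piece. -/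
noncomputable def pr (q : C →ₐc[k] G) (γ : GroupLike k G) : C →ₗ[k] C :=
  rv (b.coord γ ∘ₗ (pal q).toLinearMap)

theorem pr_lv {q : C →ₐc[k] G} (h : Cocen q) (γ : GroupLike k G) (c : C) :
    lv (b.coord γ ∘ₗ (pal q).toLinearMap) c = pr b q γ c := (h.rv_eq _ c).symm

include hb in
theorem q_pr (q : C →ₐc[k] G) (γ : GroupLike k G) (c : C) :
    q (pr b q γ c) = b.coord γ (q c) • γ.val := by
  rw [pr, rv_map, rv_coord b hb]

include hb in
theorem pr_pr_same (q : C →ₐc[k] G) (γ : GroupLike k G) (c : C) :
    pr b q γ (pr b q γ c) = pr b q γ c := by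
  have h1 : (b.coord γ ∘ₗ (pal q).toLinearMap) ∘ₗ rv (b.coord γ ∘ₗ (pal q).toLinearMap) =
      b.coord γ ∘ₗ (pal q).toLinearMap := by
    ext x
    change b.coord γ (q (pr b q γ x)) = _
    rw [q_pr b hb, map_smul, ← hb γ, b.coord_apply γ (b γ), Module.Basis.repr_self,
      Finsupp.single_eq_same, smul_eq_mul, mul_one]
    rfl
  change rv (b.coord γ ∘ₗ (pal q).toLinearMap) (rv (b.coord γ ∘ₗ (pal q).toLinearMap) c) = _
  rw [rv_rv, h1]
  rfl

include hb in
theorem pr_pr_ne (q : C →ₐc[k] G) {γ δ : GroupLike k G} (hγ : γ ≠ δ) (c : C) :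
    pr b q γ (pr b q δ c) = 0 := by
  have h1 : (b.coord γ ∘ₗ (pal q).toLinearMap) ∘ₗ rv (b.coord δ ∘ₗ (pal q).toLinearMap) = 0 := by
    ext x
    change b.coord γ (q (pr b q δ x)) = _
    rw [q_pr b hb, map_smul, ← hb δ, b.coord_apply γ (b δ), Module.Basis.repr_self,
      Finsupp.single_eq_of_ne hγ, smul_zero]
    rfl
  change rv (b.coord γ ∘ₗ (pal q).toLinearMap) (rv (b.coord δ ∘ₗ (pal q).toLinearMap) c) = _
  rw [rv_rv, h1, rv_repr]
  simp

include hb in
theorem sum_pr [Fintype (GroupLike k G)] (q : C →ₐc[k] G) (c : C) :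
    ∑ γ, pr b q γ c = c := by
  change ∑ γ, rv (b.coord γ ∘ₗ (pal q).toLinearMap) c = c
  rw [← rv_sum]
  have h1 : (∑ γ, b.coord γ ∘ₗ (pal q).toLinearMap) = counit (R := k) := by
    ext x
    rw [LinearMap.sum_apply, ← counit_map q x]
    change ∑ γ, b.coord γ (q x) = _
    have h2 := b.sum_repr (q x)
    conv_rhs => rw [← h2, map_sum]
    refine Finset.sum_congr rfl fun γ _ => ?_
    rw [map_smul, hb, γ.isGroupLikeElem_val.counit_eq_one, smul_eq_mul, mul_one]
    rfl
  rw [h1, rv_counit]

/-- The comultiplication of a homogeneous component. -/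
theorem comul_pr_r (q : C →ₐc[k] G) (γ : GroupLike k G) (c : C) :
    comul (R := k) (pr b q γ c) = LinearMap.lTensor C (pr b q γ) (comul (R := k) c) :=
  comul_rv _ c

theorem comul_pr_l {q : C →ₐc[k] G} (h : Cocen q) (γ : GroupLike k G) (c : C) :
    comul (R := k) (pr b q γ c) = LinearMap.rTensor C (pr b q γ) (comul (R := k) c) := by
  have h1 : (pr b q γ : C →ₗ[k] C) = lv (b.coord γ ∘ₗ (pal q).toLinearMap) := by
    ext x; exact (pr_lv b h γ x).symm
  rw [h1]
  exact comul_lv _ c

include hb in
theorem dl_pr (q : C →ₐc[k] G) (γ : GroupLike k G) (c : C) :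
    dl (AlgHom.id k C) (pal q) (pr b q γ c) = (pr b q γ c) ⊗ₜ[k] γ.val := by
  change TensorProduct.map (LinearMap.id) (pal q).toLinearMap
    (comul (R := k) (pr b q γ c)) = _
  rw [comul_pr_r]
  have h1 : ∀ t : C ⊗[k] C, TensorProduct.map (LinearMap.id) (pal q).toLinearMap
      (LinearMap.lTensor C (pr b q γ) t) =
      (TensorProduct.rid k C (LinearMap.lTensor C (b.coord γ ∘ₗ (pal q).toLinearMap) t)) ⊗ₜ[k]
        γ.val := by
    intro t
    induction t using TensorProduct.induction_on with
    | zero => simp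
    | tmul x y =>
      simp only [LinearMap.lTensor_tmul, TensorProduct.map_tmul, TensorProduct.rid_tmul,
        LinearMap.comp_apply, LinearMap.id_apply]
      have h2 : (pal q).toLinearMap (pr b q γ y) = b.coord γ (q y) • γ.val := q_pr b hb q γ y
      rw [h2, TensorProduct.tmul_smul, TensorProduct.smul_tmul']
      rfl
    | add x y hx hy => simp only [map_add, hx, hy, TensorProduct.add_tmul]
  rw [h1]
  rfl

include hb in
theorem coord_mul (γ : GroupLike k G) (y : G) : b.coord γ (y * γ.val) = b.coord 1 y := by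
  have h : b.coord γ ∘ₗ LinearMap.mulRight k γ.val = b.coord 1 := by
    apply b.ext
    intro γ'
    change b.coord γ (b γ' * γ.val) = _
    have h1 : b γ' * γ.val = b (γ' * γ) := by rw [hb, hb]; rfl
    rw [h1]
    by_cases hγ : γ' = 1
    · subst hγ
      rw [one_mul, Module.Basis.coord_apply, Module.Basis.coord_apply, Module.Basis.repr_self,
        Module.Basis.repr_self, Finsupp.single_eq_same, Finsupp.single_eq_same]
    · have h2 : γ' * γ ≠ γ := fun h => hγ (mul_eq_right.1 h)
      rw [Module.Basis.coord_apply, Module.Basis.coord_apply, Module.Basis.repr_self,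
        Module.Basis.repr_self, Finsupp.single_eq_of_ne (fun h => h2 h.symm),
        Finsupp.single_eq_of_ne (fun h => hγ h.symm)]
  exact LinearMap.congr_fun h y

include hb in
/-- Multiplicativity of the grading. -/
theorem pr_mul (q : C →ₐc[k] G) (γ : GroupLike k G) (x c : C) :
    pr b q γ (x * pr b q γ c) = pr b q 1 x * pr b q γ c := by
  have h1 : ∀ (δ : GroupLike k G) z, pr b q δ z =
      (TensorProduct.rid k C) (LinearMap.lTensor C (b.coord δ)
        (dl (AlgHom.id k C) (pal q) z)) := by
    intro δ z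
    change _ = (TensorProduct.rid k C) (LinearMap.lTensor C (b.coord δ)
      (TensorProduct.map LinearMap.id (pal q).toLinearMap (comul (R := k) z)))
    change (TensorProduct.rid k C) (LinearMap.lTensor C _ (comul (R := k) z)) = _
    congr 1
    generalize comul (R := k) z = t
    induction t using TensorProduct.induction_on with
    | zero => simp
    | tmul x y => simp
    | add x y hx hy => simp only [map_add, hx, hy]
  rw [h1 γ (x * pr b q γ c), h1 1 x, map_mul, dl_pr b hb]
  generalize dl (AlgHom.id k C) (pal q) x = t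
  generalize pr b q γ c = u
  induction t using TensorProduct.induction_on with
  | zero => simp
  | tmul a y =>
    rw [Algebra.TensorProduct.tmul_mul_tmul, LinearMap.lTensor_tmul, LinearMap.lTensor_tmul,
      TensorProduct.rid_tmul, TensorProduct.rid_tmul, coord_mul b hb, smul_mul_assoc]
  | add x y hx hy => simp only [map_add, add_mul, hx, hy]

include hb in
theorem Om_pr {q : C →ₐc[k] G} (h : Cocen q) (γ : GroupLike k G) :
    (Om : C ⊗[k] C →ₗ[k] C ⊗[k] C) ∘ₗ TensorProduct.map (pr b q 1) (pr b q γ) =
      TensorProduct.map (pr b q γ) (pr b q γ) ∘ₗ Om := by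
  apply TensorProduct.ext'
  intro x y
  rw [LinearMap.comp_apply, LinearMap.comp_apply, TensorProduct.map_tmul, Om_tmul, Om_tmul]
  have h1 : ∀ t : C ⊗[k] C, ((pr b q 1 x) ⊗ₜ[k] (1 : C)) *
      (TensorProduct.map (pr b q γ) (pr b q γ) t) =
      TensorProduct.map (pr b q γ) (pr b q γ)
        ((x ⊗ₜ[k] (1 : C)) * (LinearMap.rTensor C (pr b q γ) t)) := by
    intro t
    induction t using TensorProduct.induction_on with
    | zero => simp
    | tmul u v =>
      rw [TensorProduct.map_tmul, LinearMap.rTensor_tmul, Algebra.TensorProduct.tmul_mul_tmul,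
        Algebra.TensorProduct.tmul_mul_tmul, TensorProduct.map_tmul, one_mul, one_mul,
        pr_mul b hb]
    | add u v hu hv => simp only [map_add, mul_add, hu, hv]
  have h2 : comul (R := k) (pr b q γ y) =
      TensorProduct.map (pr b q γ) (pr b q γ) (comul (R := k) y) := by
    rw [← pr_pr_same b hb q γ y, comul_pr_r, comul_pr_l b h, ← LinearMap.comp_apply]
    congr 1
    ext u v
    simp
  have h3 : ∀ t : C ⊗[k] C, TensorProduct.map (pr b q γ) (pr b q γ)
      ((x ⊗ₜ[k] (1 : C)) * (LinearMap.lTensor C (pr b q γ) t)) =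
      TensorProduct.map (pr b q γ) (pr b q γ) ((x ⊗ₜ[k] (1 : C)) * t) := by
    intro t
    induction t using TensorProduct.induction_on with
    | zero => simp
    | tmul u v =>
      rw [LinearMap.lTensor_tmul, Algebra.TensorProduct.tmul_mul_tmul,
        Algebra.TensorProduct.tmul_mul_tmul, TensorProduct.map_tmul, TensorProduct.map_tmul,
        one_mul, one_mul, pr_pr_same b hb]
    | add u v hu hv => simp only [map_add, mul_add, hu, hv]
  rw [h2, h1, ← comul_pr_l b h, comul_pr_r, h3]

include hb in
theorem finrank_piece [Module.Finite k C] {q : C →ₐc[k] G} (hq : Function.Surjective q)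
    (h : Cocen q) (γ : GroupLike k G) :
    Module.finrank k (LinearMap.range (pr b q γ)) =
      Module.finrank k (LinearMap.range (pr b q 1)) := by
  have hinj : Function.Injective (Om (k := k) (C := C)) :=
    LinearMap.injective_iff_surjective.2 Om_surj
  let e : (C ⊗[k] C) ≃ₗ[k] (C ⊗[k] C) := LinearEquiv.ofBijective Om ⟨hinj, Om_surj⟩
  have h1 : Module.finrank k (LinearMap.range (TensorProduct.map (pr b q 1) (pr b q γ))) =
      Module.finrank k (LinearMap.range (TensorProduct.map (pr b q γ) (pr b q γ))) := by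
    have h2 : LinearMap.range (TensorProduct.map (pr b q γ) (pr b q γ)) =
        (LinearMap.range (TensorProduct.map (pr b q 1) (pr b q γ))).map e.toLinearMap := by
      have h3 : LinearMap.range (TensorProduct.map (pr b q γ) (pr b q γ)) =
          LinearMap.range (TensorProduct.map (pr b q γ) (pr b q γ) ∘ₗ Om) := by
        rw [LinearMap.range_comp, LinearMap.range_eq_top.2 Om_surj, Submodule.map_top]
      rw [h3, ← Om_pr b hb h γ, LinearMap.range_comp]
      rfl
    rw [h2]
    exact (e.finrank_map_eq _).symm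
  rw [finrank_range_map, finrank_range_map] at h1
  have h2 : 0 < Module.finrank k (LinearMap.range (pr b q γ)) := by
    obtain ⟨c, hc⟩ := hq γ.val
    have h3 : q (pr b q γ c) = γ.val := by
      rw [q_pr b hb, hc, ← hb γ, b.coord_apply γ (b γ), Module.Basis.repr_self,
        Finsupp.single_eq_same, one_smul]
    have h4 : pr b q γ c ≠ 0 := by
      intro h0
      rw [h0] at h3
      have h5 : γ.val = 0 := h3.symm.trans (map_zero (pal q))
      exact γ.isGroupLikeElem_val.ne_zero h5
    have : Nontrivial (LinearMap.range (pr b q γ)) :=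
      ⟨⟨⟨_, ⟨c, rfl⟩⟩, 0, fun h6 => h4 (congrArg Subtype.val h6)⟩⟩
    exact Module.finrank_pos
  exact (Nat.eq_of_mul_eq_mul_right h2 h1).symm

include hb in
theorem finrank_dvd [Module.Finite k C] [Module.Finite k G] {q : C →ₐc[k] G}
    (hq : Function.Surjective q) (h : Cocen q) :
    Module.finrank k G ∣ Module.finrank k C := by
  classical
  have : Finite (GroupLike k G) := Module.Finite.finite_basis b
  have : Fintype (GroupLike k G) := Fintype.ofFinite _
  let F : C →ₗ[k] (∀ γ : GroupLike k G, LinearMap.range (pr b q γ)) :=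
    LinearMap.pi fun γ => (pr b q γ).rangeRestrict
  have hF : ∀ c γ, ((F c) γ : C) = pr b q γ c := fun c γ => rfl
  have hinj : Function.Injective F := by
    rw [← LinearMap.ker_eq_bot, LinearMap.ker_eq_bot']
    intro c hc
    rw [← sum_pr b hb q c]
    refine Finset.sum_eq_zero fun γ _ => ?_
    rw [← hF, hc]
    rfl
  have hsurj : Function.Surjective F := by
    intro u
    refine ⟨∑ γ, (u γ : C), ?_⟩
    funext δ
    apply Subtype.ext
    rw [hF, map_sum, Finset.sum_eq_single δ]
    · obtain ⟨c, hc⟩ := (u δ).2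
      rw [← hc, pr_pr_same b hb]
    · intro γ _ hγ
      obtain ⟨c, hc⟩ := (u γ).2
      rw [← hc, pr_pr_ne b hb q (fun h => hγ h.symm)]
    · intro h0; exact absurd (Finset.mem_univ δ) h0
  have h1 := (LinearEquiv.ofBijective F ⟨hinj, hsurj⟩).finrank_eq
  rw [Module.finrank_pi_fintype] at h1
  simp only [finrank_piece b hb hq h] at h1
  rw [Finset.sum_const, Finset.card_univ, smul_eq_mul, ← Module.finrank_eq_card_basis b] at h1
  exact ⟨_, h1⟩

end pieces

section closed

variable {k : Type u} [Field k] {C G : Type u} [Ring C] [HopfAlgebra k C] [Ring G]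
  [HopfAlgebra k G]

/-- Over an algebraically closed field: if the dimension of `C` is invertible then so is the
dimension of a cocentral quotient. -/
theorem dim_ne_closed [IsAlgClosed k] [Module.Finite k C] [Module.Finite k G] {q : C →ₐc[k] G}
    (h : Cocen q) (hq : Function.Surjective q) (hdim : (Module.finrank k C : k) ≠ 0) :
    (Module.finrank k G : k) ≠ 0 := by
  obtain ⟨L, lam, hL⟩ := exists_LS (k := k) (H := G)
  have h1 := lam_one_ne h hq hL hdim
  have h2 := span_groupLike (h.cocomm hq) hL h1
  have hrange : Set.range (GroupLike.val (R := k) (A := G)) = {g : G | IsGroupLikeElem k g} := by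
    ext g
    constructor
    · rintro ⟨γ, rfl⟩
      exact γ.isGroupLikeElem_val
    · intro hg
      exact ⟨⟨g, hg⟩, rfl⟩
  let b : Module.Basis (GroupLike k G) k G :=
    Module.Basis.mk linearIndep_groupLikeVal (by rw [hrange, h2])
  have hb : ∀ γ : GroupLike k G, b γ = γ.val := fun γ => Module.Basis.mk_apply _ _ γ
  obtain ⟨m, hm⟩ := finrank_dvd b hb hq h
  intro h0
  apply hdim
  rw [hm, Nat.cast_mul, h0, zero_mul]

end closed

end Run7.h234
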