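import Pool.Agent.Run7.h234.HQ

/-!
The averaging transformation for a semisimple quotient.
-/

set_option autoImplicit false
set_option linter.unusedVariables false
set_option linter.unusedSectionVars false

universe u

open TensorProduct Coalgebra WithConv CategoryTheory

namespace Run7.h234

section modinv

variable {k : Type u} [Field k] {E : Type u} [Ring E] [HopfAlgebra k E]
  {M : Type u} [AddCommGroup M] [Module k M] [Module E M] [IsScalarTower k E M]

/-- The action on `M × k`. -/
noncomputable def lamM (M : Type u) [AddCommGroup M] [Module k M] [Module E M]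
    [IsScalarTower k E M] : E →ₐ[k] Module.End k (M × k) :=
  (LinearMap.prodMapAlgHom k M k).comp
    (AlgHom.prod (Algebra.lsmul k k M)
      ((Algebra.lmul k k).comp (Bialgebra.counitAlgHom k E)))

theorem lamM_apply (b : E) (m : M) (c : k) :
    lamM (k := k) M b (m, c) = (b • m, counit (R := k) b * c) := rfl

/-- The operator `(m, c) ↦ (c v, 0)`. -/
noncomputable def opM (v : M) : Module.End k (M × k) :=
  LinearMap.inl k M k ∘ₗ LinearMap.toSpanSingleton k M v ∘ₗ LinearMap.snd k M k

theorem opM_apply (v m : M) (c : k) : opM v (m, c) = (c • v, (0 : k)) := rfl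

theorem lamM_mul_opM (b : E) (v : M) : lamM (k := k) M b * opM v = opM (b • v) := by
  apply LinearMap.ext
  rintro ⟨m, c⟩
  change lamM M b (opM v (m, c)) = _
  rw [opM_apply, lamM_apply, opM_apply, mul_zero, smul_comm]

/-- If `S(x₁) U(x₂) = ε(x) m` then `U(x) = x m`. -/
theorem mod_inv (U : E →ₗ[k] M) (m : M)
    (h : ∀ x, ∑ i ∈ (ℛ k x).index, HopfAlgebra.antipode k ((ℛ k x).left i) •
      U ((ℛ k x).right i) = counit (R := k) x • m) (x : E) : U x = x • m := by
  let opL : M →ₗ[k] Module.End k (M × k) :=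
    { toFun := opM
      map_add' := fun v w => by
        apply LinearMap.ext
        rintro ⟨m, c⟩
        change opM (v + w) (m, c) = opM v (m, c) + opM w (m, c)
        simp [opM_apply, smul_add]
      map_smul' := fun a v => by
        apply LinearMap.ext
        rintro ⟨m, c⟩
        change opM (a • v) (m, c) = a • opM v (m, c)
        simp [opM_apply, smul_comm c a v] }
  have hopL : ∀ v, opL v = opM v := fun v => rfl
  have h1 : (cs (lamM (k := k) (E := E) M) * cv (opL ∘ₗ U) : Cv k E (Module.End k (M × k))) =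
      cst E (opM (k := k) m) := by
    apply cv_ext
    intro y
    rw [mul_apply_repr, cst_apply, ← hopL, ← map_smul, ← h y, map_sum]
    refine Finset.sum_congr rfl fun i _ => ?_
    change lamM M (HopfAlgebra.antipode k _) * opM (U _) = opM _
    rw [lamM_mul_opM]
  have h2 : (cv (opL ∘ₗ U) : Cv k E (Module.End k (M × k))) = ca (lamM (k := k) M) *
      cst E (opM (k := k) m) := by
    rw [← h1, ← mul_assoc, ca_mul_cs, one_mul]
  have h3 : (cv (opL ∘ₗ U) : Cv k E (Module.End k (M × k))) x = (ca (lamM (k := k) M) *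
      cst E (opM (k := k) m) : Cv k E (Module.End k (M × k))) x := by rw [h2]
  rw [mul_cst_apply] at h3
  have h4 : opM (k := k) (U x) = opM (x • m) := by
    rw [← lamM_mul_opM]
    exact h3
  have h5 := congrArg (fun Z : Module.End k (M × k) => (Z (0, 1)).1) h4
  simp only [opM_apply, one_smul] at h5
  exact h5

/-- The map `p ⊗ q ↦ S(p) F(q)`. -/
noncomputable def sF (F : E →ₗ[k] M) : E ⊗[k] E →ₗ[k] M :=
  TensorProduct.lift (LinearMap.mk₂ k (fun p q => HopfAlgebra.antipode k p • F q)
    (fun x y z => by rw [map_add, add_smul])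
    (fun c x y => by rw [map_smul, smul_assoc])
    (fun x y z => by rw [map_add, smul_add])
    (fun c x y => by rw [map_smul, smul_comm]))

theorem sF_tmul (F : E →ₗ[k] M) (p q : E) :
    sF F (p ⊗ₜ[k] q) = HopfAlgebra.antipode k p • F q := rfl

theorem sF_repr (F : E →ₗ[k] M) (z : E) : sF F (comul (R := k) z) = ∑ i ∈ (ℛ k z).index,
    HopfAlgebra.antipode k ((ℛ k z).left i) • F ((ℛ k z).right i) := by
  conv_lhs => rw [← (ℛ k z).eq, map_sum]
  rfl

theorem sF_mul (F : E →ₗ[k] M) (t : E ⊗[k] E) (p q : E) :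
    sF F (t * (p ⊗ₜ[k] q)) = HopfAlgebra.antipode k p •
      sF (F ∘ₗ LinearMap.mulRight k q) t := by
  induction t using TensorProduct.induction_on with
  | zero => simp
  | tmul x y =>
    rw [Algebra.TensorProduct.tmul_mul_tmul, sF_tmul, sF_tmul,
      HopfAlgebra.antipode_mul_antidistrib, mul_smul]
    rfl
  | add x y hx hy => rw [add_mul, map_add, map_add, smul_add, hx, hy]

end modinv

section key

variable {k : Type u} [Field k] {A E G : Type u} [Ring A] [HopfAlgebra k A] [Ring E]
  [HopfAlgebra k E] [Ring G] [HopfAlgebra k G]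

theorem comul_map_sum (g : A →ₐc[k] E) (a : A) : comul (R := k) (g a) =
    ∑ i ∈ (ℛ k a).index, g ((ℛ k a).left i) ⊗ₜ[k] g ((ℛ k a).right i) := by
  rw [comul_map]
  conv_lhs => rw [← (ℛ k a).eq, map_sum]
  rfl

theorem sF_g (g : A →ₐc[k] E) {M : Type u} [AddCommGroup M] [Module k M] [Module E M]
    [IsScalarTower k E M] (F : E →ₗ[k] M) (hF : ∀ a x, F (g a * x) = g a • F x) (a : A)
    (t : E ⊗[k] E) : sF F (comul (R := k) (g a) * t) = counit (R := k) a • sF F t := by
  rw [comul_map_sum, Finset.sum_mul, map_sum]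
  induction t using TensorProduct.induction_on with
  | zero => simp
  | add x y hx hy => simp only [mul_add, map_add, smul_add, Finset.sum_add_distrib, hx, hy]
  | tmul p q =>
    have h1 : ∀ i ∈ (ℛ k a).index, sF F ((g ((ℛ k a).left i) ⊗ₜ[k] g ((ℛ k a).right i)) *
        (p ⊗ₜ[k] q)) = HopfAlgebra.antipode k p • ((pal g) (HopfAlgebra.antipode k
          ((ℛ k a).left i) * (ℛ k a).right i) • F q) := by
      intro i _
      rw [Algebra.TensorProduct.tmul_mul_tmul, sF_tmul, hF,
        HopfAlgebra.antipode_mul_antidistrib, mul_smul, antipode_map, map_mul, mul_smul]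
      rfl
    rw [Finset.sum_congr rfl h1, ← Finset.smul_sum, ← Finset.sum_smul, ← map_sum,
      HopfAlgebra.sum_antipode_mul_eq_smul, map_smul, map_one, sF_tmul, smul_assoc, one_smul,
      smul_comm]

theorem sigma_key (g : A →ₐc[k] E) (ρ : E →ₐc[k] G) (hρ : Function.Surjective ρ)
    (hK : KerR g ρ) {M : Type u} [AddCommGroup M] [Module k M] [Module E M]
    [IsScalarTower k E M] (F : E →ₗ[k] M) (hF : ∀ a x, F (g a * x) = g a • F x)
    {z : E} (hz : ∀ h, ρ z * h = counit (R := k) h • ρ z) (x : E) :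
    sF (F ∘ₗ LinearMap.mulRight k x) (comul (R := k) z) = x • sF F (comul (R := k) z) := by
  have hT := hK M (sF F ∘ₗ comul (R := k)) (fun a y => by
    change sF F (comul (R := k) (g a * y)) = _
    rw [Bialgebra.comul_mul, sF_g g F hF]
    rfl)
  obtain ⟨T', hT'⟩ := exists_factor (pal ρ).toLinearMap hρ (sF F ∘ₗ comul (R := k)) hT
  let U : E →ₗ[k] M := ∑ i ∈ (ℛ k z).index,
    (Algebra.lsmul k k M (HopfAlgebra.antipode k ((ℛ k z).left i))) ∘ₗ F ∘ₗ
      LinearMap.mulLeft k ((ℛ k z).right i)
  have hU : ∀ y, U y = sF (F ∘ₗ LinearMap.mulRight k y) (comul (R := k) z) := by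
    intro y
    rw [sF_repr]
    change (∑ i ∈ (ℛ k z).index, _ : E →ₗ[k] M) y = _
    rw [LinearMap.sum_apply]
    rfl
  rw [← hU]
  apply mod_inv
  intro y
  have h1 : ∑ i ∈ (ℛ k y).index, HopfAlgebra.antipode k ((ℛ k y).left i) •
      U ((ℛ k y).right i) = sF F (comul (R := k) (z * y)) := by
    rw [Bialgebra.comul_mul]
    conv_rhs => rw [← (ℛ k y).eq, Finset.mul_sum, map_sum]
    refine Finset.sum_congr rfl fun i _ => ?_
    rw [hU, sF_mul]
  rw [h1]
  have h2 : T' (ρ (z * y)) = sF F (comul (R := k) (z * y)) := hT' _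
  have h3 : T' (ρ z) = sF F (comul (R := k) z) := hT' _
  have h4 : ρ (z * y) = ρ z * ρ y := map_mul (pal ρ) _ _
  rw [← h2, h4, hz, map_smul, h3, counit_map]

end key

end Run7.h234
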