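import Pool.Agent.Run7.h234.HS

/-!
The averaging transformation as a natural transformation.
-/

set_option autoImplicit false
set_option linter.unusedVariables false
set_option linter.unusedSectionVars false

universe u

open TensorProduct Coalgebra WithConv CategoryTheory
open scoped ModuleCat

namespace Run7.h234

section sig

variable {k : Type u} [Field k] {A E G : Type u} [Ring A] [HopfAlgebra k A] [Ring E]
  [HopfAlgebra k E] [Ring G] [HopfAlgebra k G]

/-- An element of the coinduced module as a linear map. -/
noncomputable def Flin (g : A →ₐc[k] E) (M : ModuleCat.{u} E)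
    (F : (co (pal g).toRingHom).obj ((ModuleCat.restrictScalars.{u} (pal g).toRingHom).obj M)) :
    E →ₗ[k] M where
  toFun x := F x
  map_add' x y := map_add (ModuleCat.CoextendScalars.equiv _ _ F) x y
  map_smul' c x := by
    have h1 : F (g (algebraMap k A c) * x) = g (algebraMap k A c) • (show M from F x) :=
      map_smul (ModuleCat.CoextendScalars.equiv _ _ F) (algebraMap k A c)
        (show (ModuleCat.restrictScalars.{u} (pal g).toRingHom).obj (ModuleCat.of E E) from x)
    have h2 : g (algebraMap k A c) = algebraMap k E c := (pal g).commutes c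
    rw [h2, ← Algebra.smul_def] at h1
    exact h1

theorem Flin_g (g : A →ₐc[k] E) (M : ModuleCat.{u} E)
    (F : (co (pal g).toRingHom).obj ((ModuleCat.restrictScalars.{u} (pal g).toRingHom).obj M))
    (a : A) (x : E) : Flin g M F (g a * x) = g a • Flin g M F x :=
  map_smul (ModuleCat.CoextendScalars.equiv _ _ F) a
    (show (ModuleCat.restrictScalars.{u} (pal g).toRingHom).obj (ModuleCat.of E E) from x)

theorem Flin_smul (g : A →ₐc[k] E) (M : ModuleCat.{u} E)
    (F : (co (pal g).toRingHom).obj ((ModuleCat.restrictScalars.{u} (pal g).toRingHom).obj M))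
    (x : E) : Flin g M (x • F) = Flin g M F ∘ₗ LinearMap.mulRight k x := rfl

theorem sF_add {M : Type u} [AddCommGroup M] [Module k M] [Module E M]
    [IsScalarTower k E M] (F F' : E →ₗ[k] M) (t : E ⊗[k] E) :
    sF (F + F') t = sF F t + sF F' t := by
  induction t using TensorProduct.induction_on with
  | zero => simp
  | tmul x y => simp [sF_tmul, smul_add]
  | add x y hx hy => simp only [map_add, hx, hy]; abel

theorem Flin_add (g : A →ₐc[k] E) (M : ModuleCat.{u} E)
    (F F' : (co (pal g).toRingHom).obj ((ModuleCat.restrictScalars.{u} (pal g).toRingHom).obj M)) :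
    Flin g M (F + F') = Flin g M F + Flin g M F' := rfl

/-- The averaging map. -/
noncomputable def sigL (g : A →ₐc[k] E) (ρ : E →ₐc[k] G) (hρ : Function.Surjective ρ)
    (hK : KerR g ρ) {z : E} (hz : ∀ h, ρ z * h = counit (R := k) h • ρ z) (M : ModuleCat.{u} E) :
    ((co (pal g).toRingHom).obj ((ModuleCat.restrictScalars.{u} (pal g).toRingHom).obj M))
      →ₗ[E] M where
  toFun F := sF (Flin g M F) (comul (R := k) z)
  map_add' F F' := by rw [Flin_add, sF_add]
  map_smul' x F := by
    rw [RingHom.id_apply, ← sigma_key g ρ hρ hK (Flin g M F) (Flin_g g M F) hz x, Flin_smul]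

/-- The averaging transformation. -/
noncomputable def sigT (g : A →ₐc[k] E) (ρ : E →ₐc[k] G) (hρ : Function.Surjective ρ)
    (hK : KerR g ρ) {z : E} (hz : ∀ h, ρ z * h = counit (R := k) h • ρ z) :
    ModuleCat.restrictScalars.{u} (pal g).toRingHom ⋙ co (pal g).toRingHom ⟶
      𝟭 (ModuleCat.{u} E) where
  app M := ModuleCat.ofHom (sigL g ρ hρ hK hz M)
  naturality M N f := by
    apply ModuleCat.hom_ext
    apply LinearMap.ext
    intro F
    change sF (Flin g N _) (comul (R := k) z) = f.hom (sF (Flin g M F) (comul (R := k) z))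
    rw [sF_repr, sF_repr, map_sum]
    refine Finset.sum_congr rfl fun i _ => ?_
    rw [map_smul]
    rfl

theorem sigT_unit (g : A →ₐc[k] E) (ρ : E →ₐc[k] G) (hρ : Function.Surjective ρ)
    (hK : KerR g ρ) {z : E} (hz : ∀ h, ρ z * h = counit (R := k) h • ρ z)
    (hz1 : counit (R := k) z = 1) (M : ModuleCat.{u} E) :
    (ModuleCat.restrictCoextendScalarsAdj.{u} (pal g).toRingHom).unit.app M ≫
      (sigT g ρ hρ hK hz).app M = 𝟙 _ := by
  apply ModuleCat.hom_ext
  apply LinearMap.ext
  intro m
  change sF (Flin g M _) (comul (R := k) z) = m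
  rw [sF_repr]
  have h1 : ∀ i ∈ (ℛ k z).index, HopfAlgebra.antipode k ((ℛ k z).left i) •
      Flin g M (((ModuleCat.restrictCoextendScalarsAdj.{u} (pal g).toRingHom).unit.app M).hom m)
        ((ℛ k z).right i) = (HopfAlgebra.antipode k ((ℛ k z).left i) * (ℛ k z).right i) • m := by
    intro i _
    rw [mul_smul]
    rfl
  refine (Finset.sum_congr rfl h1).trans ?_
  rw [← Finset.sum_smul, HopfAlgebra.sum_antipode_mul_eq_smul, hz1, one_smul, one_smul]

end sig

end Run7.h234
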