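import Pool.Agent.Run7.h234.GC
import Pool.Agent.Run7.h234.Cover

/-!
Spanning statements of Kuenneth type.
-/

set_option autoImplicit false
set_option linter.unusedVariables false
set_option linter.unusedSectionVars false

universe u

open CategoryTheory CategoryTheory.Limits CategoryTheory.Abelian TensorProduct
open scoped ModuleCat

namespace Run7.h234

section act

variable {k : Type u} [Field k] {A B : Type u} [Ring A] [Ring B] [Algebra k A] [Algebra k B]

variable (k A B) in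
/-- Restriction to the second factor. -/
noncomputable abbrev rB : ModuleCat.{u} (A ⊗[k] B) ⥤ ModuleCat.{u} B :=
  ModuleCat.restrictScalars.{u}
    (Algebra.TensorProduct.includeRight (R := k) (A := A) (B := B)).toRingHom

variable (k A B) in
/-- Restriction to the first factor. -/
noncomputable abbrev rA : ModuleCat.{u} (A ⊗[k] B) ⥤ ModuleCat.{u} A :=
  ModuleCat.restrictScalars.{u}
    (Algebra.TensorProduct.includeLeft (R := k) (S := k) (A := A) (B := B)).toRingHom

/-- A constructor for maps out of an external tensor product. -/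
noncomputable def boxDesc (M : ModuleCat.{u} (A ⊗[k] B)) (X : ModuleCat.{u} A)
    (Y : ModuleCat.{u} B) (φ : X →+ Y →+ M)
    (h : ∀ (a : A) (b : B) (x : X) (y : Y), φ (a • x) (b • y) = (a ⊗ₜ[k] b : A ⊗[k] B) • φ x y) :
    box k X Y ⟶ M :=
  ModuleCat.ofHom (X := BoxTy k X Y) (Y := M)
    { toFun := TensorProduct.liftAddHom φ fun c x y => by
        have h1 := h (algebraMap k A c) 1 x y
        have h2 := h 1 (algebraMap k B c) x y
        rw [one_smul] at h1 h2
        have h3 : (algebraMap k A c ⊗ₜ[k] (1 : B) : A ⊗[k] B) =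
            (1 : A) ⊗ₜ[k] algebraMap k B c := by
          rw [Algebra.algebraMap_eq_smul_one, Algebra.algebraMap_eq_smul_one,
            TensorProduct.smul_tmul]
        rw [h3, ← h2] at h1
        exact h1
      map_add' := map_add _
      map_smul' := box_smul_ind (k := k) (X := X) (Y := Y) (M := M)
        (TensorProduct.liftAddHom φ _ : BoxTy k X Y →+ M) fun a b x y => h a b x y }

theorem boxDesc_bt (M : ModuleCat.{u} (A ⊗[k] B)) (X : ModuleCat.{u} A)
    (Y : ModuleCat.{u} B) (φ : X →+ Y →+ M)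
    (h : ∀ (a : A) (b : B) (x : X) (y : Y), φ (a • x) (b • y) = (a ⊗ₜ[k] b : A ⊗[k] B) • φ x y)
    (x : X) (y : Y) : (boxDesc M X Y φ h).hom (bt k x y) = φ x y := rfl

theorem bt_add_right {X : ModuleCat.{u} A} {Y : ModuleCat.{u} B} (x : X) (y y' : Y) :
    bt k x (y + y') = bt k x y + bt k x y' := TensorProduct.tmul_add _ _ _

theorem bt_add_left {X : ModuleCat.{u} A} {Y : ModuleCat.{u} B} (x x' : X) (y : Y) :
    bt k (x + x') y = bt k x y + bt k x' y := TensorProduct.add_tmul _ _ _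

/-- The action map. -/
noncomputable def actM (M : ModuleCat.{u} (A ⊗[k] B)) :
    box k (ModuleCat.of A A) ((rB k A B).obj M) ⟶ M :=
  boxDesc M (ModuleCat.of A A) ((rB k A B).obj M)
    (AddMonoidHom.mk' (fun a : A => AddMonoidHom.mk' (fun m : M =>
      (a ⊗ₜ[k] (1 : B) : A ⊗[k] B) • m) fun m m' => smul_add _ _ _) fun a a' => by
        ext m
        change ((a + a') ⊗ₜ[k] (1 : B) : A ⊗[k] B) • m =
          (a ⊗ₜ[k] (1 : B) : A ⊗[k] B) • m + (a' ⊗ₜ[k] (1 : B) : A ⊗[k] B) • m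
        rw [TensorProduct.add_tmul, add_smul])
    fun a b x y => by
      change ((a * x) ⊗ₜ[k] (1 : B) : A ⊗[k] B) • ((1 : A) ⊗ₜ[k] b : A ⊗[k] B) • (y : M) =
        (a ⊗ₜ[k] b : A ⊗[k] B) • (x ⊗ₜ[k] (1 : B) : A ⊗[k] B) • (y : M)
      rw [smul_smul, smul_smul, Algebra.TensorProduct.tmul_mul_tmul,
        Algebra.TensorProduct.tmul_mul_tmul]
      simp

theorem actM_bt (M : ModuleCat.{u} (A ⊗[k] B)) (a : A) (m : (rB k A B).obj M) :
    (actM M).hom (bt k (X := ModuleCat.of A A) a m) =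
      (a ⊗ₜ[k] (1 : B) : A ⊗[k] B) • (m : M) := rfl

/-- Naturality of the action. -/
noncomputable def actNat :
    rB k A B ⋙ boxR (B := B) k (ModuleCat.of A A) ⟶ 𝟭 (ModuleCat.{u} (A ⊗[k] B)) where
  app M := actM M
  naturality M M' f := by
    apply box_hom_ext
    intro a m
    exact (map_smul f.hom (a ⊗ₜ[k] (1 : B) : A ⊗[k] B) (m : M)).symm

/-- The unit. -/
noncomputable def unitB (Y : ModuleCat.{u} B) :
    Y ⟶ (rB k A B).obj (box k (ModuleCat.of A A) Y) :=
  mkRes' _ (box k (ModuleCat.of A A) Y) Y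
    (AddMonoidHom.mk' (fun y => bt k (X := ModuleCat.of A A) (1 : A) y)
      fun y y' => bt_add_right _ _ _)
    fun b y => by
      change bt k (X := ModuleCat.of A A) (1 : A) (b • y) =
        ((1 : A) ⊗ₜ[k] b : A ⊗[k] B) • bt k (X := ModuleCat.of A A) (1 : A) y
      rw [smul_bt, one_smul]

theorem unit_act (Y : ModuleCat.{u} B) :
    boxMap (k := k) (𝟙 (ModuleCat.of A A)) (unitB Y) ≫ actM (box k (ModuleCat.of A A) Y) =
      𝟙 _ := by
  apply box_hom_ext
  intro a y
  change (a ⊗ₜ[k] (1 : B) : A ⊗[k] B) • bt k (X := ModuleCat.of A A) (1 : A) y =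
    bt k (X := ModuleCat.of A A) a y
  rw [smul_bt, one_smul]
  change bt k (X := ModuleCat.of A A) (a * 1 : A) y = _
  rw [mul_one]

theorem free_case {M : ModuleCat.{u} (A ⊗[k] B)} (Y : ModuleCat.{u} B)
    (w : TExt (box k (ModuleCat.of A A) Y) M) :
    w = cmp (xR (ModuleCat.of A A) (cmp (hmk (unitB Y)) (mapT (rB k A B) w)))
      (hmk (actM M)) := by
  have h := natExt _ _ (actNat (k := k) (A := A) (B := B)) w
  rw [mapT_comp, mapT_id] at h
  have h' : cmp (xR (k := k) (ModuleCat.of A A) (mapT (rB k A B) w)) (hmk (actM M)) =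
    cmp (hmk (actM (box k (ModuleCat.of A A) Y))) w := h
  rw [xR_cmp, cmp_assoc, h', xR_hmk, ← cmp_assoc, cmp_hmk_hmk, unit_act, hmk_id_cmp]

end act

section kun

variable {k : Type u} [Field k] {A B : Type u} [Ring A] [Ring B] [Algebra k A] [Algebra k B]

/-- The generating products. -/
noncomputable def SP {M : ModuleCat.{u} (A ⊗[k] B)} {T : ModuleCat.{u} A} {M₂ : ModuleCat.{u} B}
    (e : box k T M₂ ⟶ M) (X : ModuleCat.{u} A) (Y : ModuleCat.{u} B) :
    AddSubgroup (TExt (box k X Y) M) :=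
  AddSubgroup.closure {z | ∃ (x : TExt X T) (y : TExt Y M₂),
    z = cmp (xL x Y) (cmp (xR T y) (hmk e))}

/-- The hypothesis on the free module. -/
def FreeHyp {M : ModuleCat.{u} (A ⊗[k] B)} {T : ModuleCat.{u} A} {M₂ : ModuleCat.{u} B}
    (e : box k T M₂ ⟶ M) : Prop :=
  ∀ (Y : ModuleCat.{u} B) (n : ℕ) (w : Ext.{u} (box k (ModuleCat.of A A) Y) M n),
    ∃ (ρ : ModuleCat.of A A ⟶ T) (y : Ext.{u} Y M₂ n),
      hof n w = cmp (hmk (boxMap ρ (𝟙 Y))) (cmp (xR T (hof n y)) (hmk e))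

variable {M : ModuleCat.{u} (A ⊗[k] B)} {T : ModuleCat.{u} A} {M₂ : ModuleCat.{u} B}
    (e : box k T M₂ ⟶ M)

theorem hof_inj {C : Type*} [Category* C] [Abelian C] [HasExt.{u} C] {X Y : C} {n : ℕ}
    {a b : Ext.{u} X Y n} (h : hof n a = hof n b) : a = b :=
  DirectSum.of_injective (β := fun n => Ext.{u} X Y n) n h

theorem pre2 {X X' X'' : ModuleCat.{u} A} {Y : ModuleCat.{u} B} {N : ModuleCat.{u} (A ⊗[k] B)}
    (f : X ⟶ X') (g : X' ⟶ X'') (z : TExt (box k X'' Y) N) :
    cmp (hmk (boxMap f (𝟙 Y))) (cmp (hmk (boxMap g (𝟙 Y))) z) =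
      cmp (hmk (boxMap (f ≫ g) (𝟙 Y))) z := by
  rw [← cmp_assoc, cmp_hmk_hmk, boxMap_comp, Category.comp_id]

theorem kun_step (he : FreeHyp e) {P X : ModuleCat.{u} A} [Module.Finite A P]
    [Module.Projective A P] (π : P ⟶ X) (hπ : Function.Surjective π.hom)
    (hker : ∀ (g : P ⟶ T) (p : P), π.hom p = 0 → g.hom p = 0)
    (Y : ModuleCat.{u} B) (n : ℕ) (w : Ext.{u} (box k X Y) M n) :
    ∃ s : Ext.{u} (box k X Y) M n, hof n s ∈ SP e X Y ∧
      cmp (hmk (boxMap π (𝟙 Y))) (hof n s) = cmp (hmk (boxMap π (𝟙 Y))) (hof n w) := by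
  classical
  obtain ⟨m, f, g, -, -, hfg⟩ := Module.Finite.exists_comp_eq_id_of_projective A P
  let i : Fin m → (P ⟶ ModuleCat.of A A) := fun j => ModuleCat.ofHom (LinearMap.proj j ∘ₗ g)
  let p : Fin m → (ModuleCat.of A A ⟶ P) := fun j =>
    ModuleCat.ofHom (f ∘ₗ LinearMap.single A (fun _ => A) j)
  have hip : ∑ j, i j ≫ p j = 𝟙 P := by
    apply ModuleCat.hom_ext
    rw [ModuleCat.hom_sum]
    ext x
    rw [LinearMap.sum_apply]
    have h1 : ∀ j, (i j ≫ p j).hom x = f (Pi.single j (g x j)) := fun j => rfl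
    simp only [h1]
    rw [← map_sum]
    have h2 : ∑ j, Pi.single j (g x j) = g x := Finset.univ_sum_single (g x)
    rw [h2]
    exact LinearMap.congr_fun hfg x
  -- the components
  have hcomp : ∀ j : Fin m, ∃ (ρ : ModuleCat.of A A ⟶ T) (y : Ext.{u} Y M₂ n),
      cmp (hmk (boxMap (p j ≫ π) (𝟙 Y))) (hof n w) =
        cmp (hmk (boxMap ρ (𝟙 Y))) (cmp (xR T (hof n y)) (hmk e)) := by
    intro j
    rw [cmp_hmk_hof]
    exact he Y n _
  choose ρ y hy using hcomp
  have hfac : ∀ j : Fin m, ∃ x : X ⟶ T, i j ≫ ρ j = π ≫ x := by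
    intro j
    have hle : LinearMap.ker π.hom ≤ LinearMap.ker (i j ≫ ρ j).hom := fun p hp => hker _ p hp
    refine ⟨ModuleCat.ofHom ((Submodule.liftQ _ (i j ≫ ρ j).hom hle) ∘ₗ
      (LinearMap.quotKerEquivOfSurjective π.hom hπ).symm.toLinearMap), ?_⟩
    ext z
    have h1 : (LinearMap.quotKerEquivOfSurjective π.hom hπ).symm (π.hom z) =
        Submodule.Quotient.mk z := by
      rw [LinearEquiv.symm_apply_eq]; rfl
    change (i j ≫ ρ j).hom z = (Submodule.liftQ _ (i j ≫ ρ j).hom hle)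
      ((LinearMap.quotKerEquivOfSurjective π.hom hπ).symm (π.hom z))
    rw [h1]
    rfl
  choose x hx using hfac
  let s : Fin m → Ext.{u} (box k X Y) M n := fun j =>
    (Ext.mk₀ (boxMap (x j) (𝟙 Y))).comp
      (((y j).mapExactFunctor (boxR (B := B) k T)).comp (Ext.mk₀ e) (add_zero n)) (zero_add n)
  have hs : ∀ j, hof n (s j) = cmp (hmk (boxMap (x j) (𝟙 Y))) (cmp (xR T (hof n (y j))) (hmk e)) := by
    intro j
    have h1 : xR (k := k) T (hof n (y j)) =
      hof n ((y j).mapExactFunctor (boxR (B := B) k T)) := mapT_hof _ _ _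
    rw [h1]
    exact (cmp_hmk_hof _ _).symm.trans (congrArg _ (cmp_hof_hmk _ _).symm)
  refine ⟨∑ j, s j, ?_, ?_⟩
  · rw [map_sum]
    refine sum_mem fun j _ => AddSubgroup.subset_closure ?_
    refine ⟨hmk (x j), hof n (y j), ?_⟩
    rw [hs, xL_hmk]
  · rw [map_sum, map_sum]
    have hsum : 𝟙 (box k P Y) = ∑ j, boxMap (i j) (𝟙 Y) ≫ boxMap (p j) (𝟙 Y) := by
      have h1 : (boxL (A := A) k Y).map (∑ j, i j ≫ p j) = 𝟙 (box k P Y) := by
        rw [hip]; exact (boxL (A := A) k Y).map_id P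
      rw [← h1, Functor.map_sum]
      exact Finset.sum_congr rfl fun j _ => (boxL (A := A) k Y).map_comp _ _
    have h2 : cmp (hmk (boxMap π (𝟙 Y))) (hof n w) =
        ∑ j, cmp (hmk (boxMap (i j) (𝟙 Y))) (cmp (hmk (boxMap (p j ≫ π) (𝟙 Y))) (hof n w)) := by
      have h3 := hmk_id_cmp (cmp (hmk (boxMap (k := k) π (𝟙 Y))) (hof n w))
      rw [hsum, map_sum, map_sum, AddMonoidHom.finsetSum_apply] at h3
      rw [← h3]
      refine Finset.sum_congr rfl fun j _ => ?_
      rw [← cmp_hmk_hmk, cmp_assoc, pre2 (p j) π]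
    rw [h2]
    refine Finset.sum_congr rfl fun j _ => ?_
    rw [hs, hy, pre2, pre2, hx]

theorem sp_pre {X X' : ModuleCat.{u} A} (x' : TExt X X') (Y : ModuleCat.{u} B)
    (z : TExt (box k X' Y) M) (hz : z ∈ SP e X' Y) : cmp (xL x' Y) z ∈ SP e X Y := by
  have hle : SP e X' Y ≤ (SP e X Y).comap (cmp (xL x' Y)) := by
    unfold SP
    rw [AddSubgroup.closure_le]
    rintro _ ⟨x, y, rfl⟩
    refine AddSubgroup.subset_closure ⟨cmp x' x, y, ?_⟩
    rw [xL_cmp, cmp_assoc]
  exact hle hz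

/-- The spanning statement. -/
theorem kun [IsArtinianRing A] [IsSemisimpleModule A T] (he : FreeHyp e) (n : ℕ)
    (X : ModuleCat.{u} A) [Module.Finite A X] (Y : ModuleCat.{u} B)
    (w : Ext.{u} (box k X Y) M n) : hof n w ∈ SP e X Y := by
  induction n generalizing X Y with
  | zero =>
    obtain ⟨P, _, _, _, _, π', hπ', hker'⟩ := exists_cover (A := A) X
    let π : ModuleCat.of A P ⟶ X := ModuleCat.ofHom π'
    obtain ⟨s, hs1, hs2⟩ := kun_step e he π hπ' (fun g p hp => hker' T g.hom p hp) Y 0 w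
    have hw : w = s := by
      obtain ⟨w', rfl⟩ := (Ext.mk₀_bijective _ _).2 w
      obtain ⟨s', rfl⟩ := (Ext.mk₀_bijective _ _).2 s
      change cmp (hmk _) (hmk s') = cmp (hmk _) (hmk w') at hs2
      rw [cmp_hmk_hmk, cmp_hmk_hmk, hmk_apply, hmk_apply] at hs2
      have h1 := (Ext.mk₀_bijective _ _).1 (hof_inj hs2)
      have hepi' : Epi π := (ModuleCat.epi_iff_surjective π).2 hπ'
      have hepi : Epi (boxMap (k := k) π (𝟙 Y)) :=
        inferInstanceAs (Epi ((boxL (A := A) k Y).map π))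
      rw [cancel_epi] at h1
      rw [h1]
    rw [hw]
    exact hs1
  | succ n ih =>
    obtain ⟨P, _, _, _, _, π', hπ', hker'⟩ := exists_cover (A := A) X
    let π : ModuleCat.of A P ⟶ X := ModuleCat.ofHom π'
    obtain ⟨s, hs1, hs2⟩ := kun_step e he π hπ' (fun g p hp => hker' T g.hom p hp) Y (n + 1) w
    let S : ShortComplex (ModuleCat.{u} A) := ShortComplex.mk
      (ModuleCat.ofHom (LinearMap.ker π').subtype) π (by ext x; exact x.2)
    have hepi' : Epi π := (ModuleCat.epi_iff_surjective π).2 hπ'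
    have hS : S.ShortExact :=
      { exact := by
          rw [CategoryTheory.ShortComplex.ShortExact.moduleCat_exact_iff_function_exact]
          exact LinearMap.exact_subtype_ker_map π'
        mono_f := (ModuleCat.mono_iff_injective _).2 (Submodule.subtype_injective _)
        epi_g := hepi' }
    have hSY := hS.map_of_exact (boxL (A := A) k Y)
    have hzero : (Ext.mk₀ (boxMap π (𝟙 Y))).comp (w - s) (zero_add (n + 1)) = 0 := by
      apply hof_inj
      rw [map_zero, ← cmp_hmk_hof, map_sub, map_sub, hs2, sub_self]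
    obtain ⟨z, hz⟩ := Ext.contravariant_sequence_exact₃ hSY M (w - s) hzero (add_comm 1 n)
    have hzmem := ih S.X₁ Y z
    have h1 : hof (n + 1) (w - s) = cmp (xL (ecl hS) Y) (hof n z) := by
      have h2 : xL (k := k) (ecl hS) Y = ecl hSY := mapT_ecl _ hS
      rw [h2, ← hz]
      exact (cmp_ecl_hof hSY z).symm
    have h2 : hof (n + 1) w = cmp (xL (ecl hS) Y) (hof n z) + hof (n + 1) s := by
      rw [← h1, map_sub, sub_add_cancel]
    rw [h2]
    exact add_mem (sp_pre e _ Y _ hzmem) hs1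

theorem kun_top [IsArtinianRing A] [IsSemisimpleModule A T] (he : FreeHyp e)
    (X : ModuleCat.{u} A) [Module.Finite A X] (Y : ModuleCat.{u} B)
    (w : TExt (box k X Y) M) : w ∈ SP e X Y := by
  obtain ⟨s, hs⟩ := TExt.sum_rep w
  rw [hs]
  exact sum_mem fun n _ => kun e he n X Y _

end kun

end Run7.h234
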