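import Pool.Agent.Run7.h234.Kun

/-!
Finite generation for tensor products of algebras.
-/

set_option autoImplicit false
set_option linter.unusedVariables false
set_option linter.unusedSectionVars false

universe u

open CategoryTheory CategoryTheory.Limits CategoryTheory.Abelian TensorProduct
open scoped ModuleCat

namespace Run7.h234

section homog

variable {C : Type*} [Category* C] [Abelian C] [HasExt.{u} C]

theorem homog_gens {X Y : C} (h : Module.Finite (TExt X X) (TExt X Y)) :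
    ∃ (s : Finset (TExt X Y)), (∀ a ∈ s, ∃ (n : ℕ) (x : Ext.{u} X Y n), a = hof n x) ∧
      Submodule.span (TExt X X) (s : Set (TExt X Y)) = ⊤ := by
  classical
  obtain ⟨t, ht⟩ := h.fg_top
  choose s hs using fun g : TExt X Y => TExt.sum_rep g
  refine ⟨t.biUnion fun g => (s g).image fun n => hof n (g n), ?_, ?_⟩
  · intro a ha
    simp only [Finset.mem_biUnion, Finset.mem_image] at ha
    obtain ⟨g, _, n, _, rfl⟩ := ha
    exact ⟨n, _, rfl⟩
  · rw [eq_top_iff, ← ht]
    refine Submodule.span_le.2 ?_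
    intro g hg
    rw [SetLike.mem_coe, hs g]
    refine sum_mem fun n hn => Submodule.subset_span ?_
    simp only [Finset.mem_coe, Finset.mem_biUnion, Finset.mem_image]
    exact ⟨g, hg, n, hn, rfl⟩

variable {k : Type*} [Field k] [Linear k C]

theorem homog_alg_gens (X : C) (h : Algebra.FiniteType k (TExt X X)) :
    ∃ (s : Finset (TExt X X)), (∀ a ∈ s, ∃ (n : ℕ) (x : Ext.{u} X X n), a = hof n x) ∧
      Algebra.adjoin k (s : Set (TExt X X)) = ⊤ := by
  classical
  obtain ⟨t, ht⟩ := h.out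
  choose s hs using fun g : TExt X X => TExt.sum_rep g
  refine ⟨t.biUnion fun g => (s g).image fun n => hof n (g n), ?_, ?_⟩
  · intro a ha
    simp only [Finset.mem_biUnion, Finset.mem_image] at ha
    obtain ⟨g, _, n, _, rfl⟩ := ha
    exact ⟨n, _, rfl⟩
  · rw [eq_top_iff, ← ht]
    refine Algebra.adjoin_le ?_
    intro g hg
    rw [SetLike.mem_coe, hs g]
    refine sum_mem fun n hn => Algebra.subset_adjoin ?_
    simp only [Finset.mem_coe, Finset.mem_biUnion, Finset.mem_image]
    exact ⟨g, hg, n, hn, rfl⟩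

end homog

section cases

variable {k : Type u} [Field k] {A B : Type u} [Ring A] [Ring B] [Algebra k A] [Algebra k B]

/-- The element of the field underlying an element of the trivial module. -/
def tvm {ε : A →ₐ[k] k} (t : trivM ε) : k := t

/-- The element of the trivial module given by an element of the field. -/
def vtm (ε : A →ₐ[k] k) (t : k) : trivM ε := t

theorem tvm_vtm (ε : A →ₐ[k] k) (t : k) : tvm (vtm ε t) = t := rfl

theorem vtm_tvm {ε : A →ₐ[k] k} (t : trivM ε) : vtm ε (tvm t) = t := rfl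

theorem tvm_add {ε : A →ₐ[k] k} (t t' : trivM ε) : tvm (t + t') = tvm t + tvm t' := rfl

theorem tvm_zero {ε : A →ₐ[k] k} : tvm (0 : trivM ε) = 0 := rfl

theorem tvm_smul {ε : A →ₐ[k] k} (a : A) (t : trivM ε) : tvm (a • t) = ε a * tvm t := rfl

theorem tvm_ksmul {ε : A →ₐ[k] k} (c : k) (t : trivM ε) : tvm (c • t) = c * tvm t := by
  change ε (algebraMap k A c) * tvm t = c * tvm t
  rw [ε.commutes]; rfl

theorem tvm_inj {ε : A →ₐ[k] k} {t t' : trivM ε} (h : tvm t = tvm t') : t = t' := h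

/-- The map `A → k` to the trivial module. -/
noncomputable def augM (ε : A →ₐ[k] k) : ModuleCat.of A A ⟶ trivM ε :=
  ModuleCat.ofHom (X := A) (Y := trivM ε)
    { toFun := fun a => vtm ε (ε a)
      map_add' := fun a b => map_add ε a b
      map_smul' := fun a b => map_mul ε a b }

theorem augM_apply (ε : A →ₐ[k] k) (a : A) : (augM ε).hom a = vtm ε (ε a) := rfl

theorem augM_surj (ε : A →ₐ[k] k) : Function.Surjective (augM ε).hom := by
  intro t
  refine ⟨algebraMap k A (tvm t), ?_⟩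
  rw [augM_apply, ε.commutes]; rfl

theorem trivM_finite (ε : A →ₐ[k] k) : Module.Finite A (trivM ε) :=
  Module.Finite.of_surjective (augM ε).hom (augM_surj ε)

theorem trivM_semisimple (ε : A →ₐ[k] k) : IsSemisimpleModule A (trivM ε) := by
  have hs : IsSimpleModule A (trivM ε) := by
    have hnt : Nontrivial (trivM ε) := ⟨⟨vtm ε 0, vtm ε 1, fun h => zero_ne_one (congrArg tvm h)⟩⟩
    have hnt' : Nontrivial (Submodule A (trivM ε)) := inferInstance
    have hso : IsSimpleOrder (Submodule A (trivM ε)) := ⟨fun N => ?_⟩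
    · exact @IsSimpleModule.mk _ _ _ _ _ hso
    by_cases hN : N = ⊥
    · exact Or.inl hN
    · right
      obtain ⟨t, ht, ht0⟩ := N.ne_bot_iff.1 hN
      rw [eq_top_iff]
      rintro t' -
      have ht0' : tvm t ≠ 0 := ht0
      have : t' = algebraMap k A (tvm t' * (tvm t)⁻¹) • t := by
        apply tvm_inj
        rw [tvm_smul, ε.commutes]
        change tvm t' = tvm t' * (tvm t)⁻¹ * tvm t
        rw [mul_assoc, inv_mul_cancel₀ ht0', mul_one]
      rw [this]
      exact N.smul_mem _ ht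
  infer_instance

/-- The bilinear map behind `trPr`. -/
noncomputable def trLin (ε : A →ₐ[k] k) (M₂ : ModuleCat.{u} B) : (trivM ε) ⊗[k] M₂ →ₗ[k] M₂ :=
  TensorProduct.lift (LinearMap.mk₂ k (fun t m => tvm t • m)
    (fun t t' x => by rw [tvm_add, add_smul]) (fun c t x => by rw [tvm_ksmul, mul_smul])
    (fun t x x' => smul_add _ _ _) (fun c t x => smul_comm _ _ _))

theorem box_ind_eq {X : ModuleCat.{u} A} {Y : ModuleCat.{u} B} {N : Type*} [AddCommGroup N]
    (f g : BoxTy k X Y →+ N) (h : ∀ x y, f (bt k x y) = g (bt k x y)) (z : BoxTy k X Y) :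
    f z = g z := by
  induction z using BoxTy.ind with
  | h0 => rw [map_zero, map_zero]
  | h2 a b ha hb => rw [map_add, map_add, ha, hb]
  | h1 x y => exact h x y

/-- Projection `k ⊠ M → M` over the second algebra. -/
noncomputable def trPr (ε : A →ₐ[k] k) (M₂ : ModuleCat.{u} B) :
    (rB k A B).obj (box k (trivM ε) M₂) ⟶ M₂ :=
  mkRes _ (box k (trivM ε) M₂) M₂ ((trLin ε M₂).toAddMonoidHom : BoxTy k (trivM ε) M₂ →+ M₂)
    (fun b z => box_ind_eq (((trLin ε M₂).toAddMonoidHom : BoxTy k (trivM ε) M₂ →+ M₂).comp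
        (DistribSMul.toAddMonoidHom (BoxTy k (trivM ε) M₂) ((1 : A) ⊗ₜ[k] b : A ⊗[k] B)))
        ((DistribSMul.toAddMonoidHom M₂ b).comp
          ((trLin ε M₂).toAddMonoidHom : BoxTy k (trivM ε) M₂ →+ M₂))
        (fun t m => by
          change tvm ((1 : A) • t) • (b • m) = b • (tvm t • m)
          rw [one_smul, smul_comm]) z)

/-- Inclusion `M → k ⊠ M` over the second algebra. -/
noncomputable def trIn (ε : A →ₐ[k] k) (M₂ : ModuleCat.{u} B) :
    M₂ ⟶ (rB k A B).obj (box k (trivM ε) M₂) :=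
  mkRes' _ (box k (trivM ε) M₂) M₂ (AddMonoidHom.mk' (fun m => bt k (vtm ε 1) m)
      fun y y' => bt_add_right _ _ _)
    fun b m => by
      change bt k (vtm ε 1) (b • m) =
        ((1 : A) ⊗ₜ[k] b : A ⊗[k] B) • bt k (vtm ε 1) m
      rw [smul_bt, one_smul]

theorem trPr_trIn (ε : A →ₐ[k] k) (M₂ : ModuleCat.{u} B) :
    trPr (k := k) ε M₂ ≫ trIn ε M₂ = 𝟙 _ := by
  apply res_box_ext
  intro t m
  change (vtm ε 1) ⊗ₜ[k] (tvm t • m) = t ⊗ₜ[k] m
  rw [TensorProduct.tmul_smul, TensorProduct.smul_tmul']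
  congr 1
  apply tvm_inj
  rw [tvm_ksmul, tvm_vtm, mul_one]

/-- The first case: the trivial module times a module. -/
theorem freeHyp_triv (ε : A →ₐ[k] k) (M₂ : ModuleCat.{u} B) :
    FreeHyp (𝟙 (box k (trivM ε) M₂)) := by
  intro Y n w
  have h1 := free_case Y (hof n w)
  rw [mapT_hof, cmp_hmk_hof] at h1
  obtain ⟨y, hy⟩ : ∃ y : Ext.{u} Y M₂ n,
      hof n ((Ext.mk₀ (unitB Y)).comp (w.mapExactFunctor (rB k A B)) (zero_add n)) =
        cmp (hof n y) (hmk (trIn ε M₂)) := by
    refine ⟨((Ext.mk₀ (unitB Y)).comp (w.mapExactFunctor (rB k A B)) (zero_add n)).comp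
      (Ext.mk₀ (trPr ε M₂)) (add_zero n), ?_⟩
    rw [← cmp_hof_hmk, cmp_assoc, cmp_hmk_hmk, trPr_trIn, cmp_hmk_id]
  have hρ : boxMap (k := k) (𝟙 (ModuleCat.of A A)) (trIn ε M₂) ≫ actM (box k (trivM ε) M₂) =
      boxMap (augM ε) (𝟙 M₂) := by
    apply box_hom_ext
    intro a m
    change (a ⊗ₜ[k] (1 : B) : A ⊗[k] B) • bt k (vtm ε 1) m = bt k (vtm ε (ε a)) m
    rw [smul_bt, one_smul]
    congr 1
    apply tvm_inj
    rw [tvm_smul, tvm_vtm, tvm_vtm, mul_one]
  refine ⟨augM ε, y, h1.trans ?_⟩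
  rw [hy, xR_cmp, xR_hmk, cmp_assoc, cmp_hmk_hmk, hρ, cmp_hmk_id, xR_nat]

/-- The evaluation map. -/
theorem exists_ev (M : ModuleCat.{u} (A ⊗[k] B))
    (hJ : ∀ j ∈ Ring.jacobson A, ∀ m : M, (j ⊗ₜ[k] (1 : B) : A ⊗[k] B) • m = 0) :
    ∃ e : box k (ModuleCat.of A (A ⧸ Ring.jacobson A)) ((rB k A B).obj M) ⟶ M, FreeHyp e := by
  classical
  let MA : ModuleCat.{u} A := (rA k A B).obj M
  have hk : ∀ m : MA, Ring.jacobson A ≤ LinearMap.ker (LinearMap.toSpanSingleton A MA m) :=
    fun m j hj => hJ j hj m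
  let φ : (A ⧸ Ring.jacobson A) →+ M →+ M :=
    AddMonoidHom.mk' (fun t => AddMonoidHom.mk' (fun m : M =>
      (Submodule.liftQ (Ring.jacobson A) (LinearMap.toSpanSingleton A MA m) (hk m) t : MA))
      fun m m' => by
        obtain ⟨a, rfl⟩ := Submodule.Quotient.mk_surjective _ t
        exact smul_add (a ⊗ₜ[k] (1 : B) : A ⊗[k] B) m m')
      fun t t' => by
        ext m
        exact map_add (Submodule.liftQ (Ring.jacobson A)
          (LinearMap.toSpanSingleton A MA m) (hk m)) t t'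
  have hφ : ∀ (a : A) (m : M), φ (Submodule.Quotient.mk a) m =
    (a ⊗ₜ[k] (1 : B) : A ⊗[k] B) • m := fun a m => rfl
  let e : box k (ModuleCat.of A (A ⧸ Ring.jacobson A)) ((rB k A B).obj M) ⟶ M :=
    boxDesc M (ModuleCat.of A (A ⧸ Ring.jacobson A)) ((rB k A B).obj M) φ
      fun a b t y => by
        obtain ⟨x, rfl⟩ := Submodule.Quotient.mk_surjective _ t
        change φ (Submodule.Quotient.mk (a * x)) (((1 : A) ⊗ₜ[k] b : A ⊗[k] B) • (y : M)) =
          (a ⊗ₜ[k] b : A ⊗[k] B) • φ (Submodule.Quotient.mk x) y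
        rw [hφ, hφ]
        have key : ∀ y : M, ((a * x) ⊗ₜ[k] (1 : B) : A ⊗[k] B) •
            ((1 : A) ⊗ₜ[k] b : A ⊗[k] B) • y =
            (a ⊗ₜ[k] b : A ⊗[k] B) • (x ⊗ₜ[k] (1 : B) : A ⊗[k] B) • y := by
          intro y
          rw [smul_smul, smul_smul, Algebra.TensorProduct.tmul_mul_tmul,
            Algebra.TensorProduct.tmul_mul_tmul]
          simp
        exact key y
  let ρ : ModuleCat.of A A ⟶ ModuleCat.of A (A ⧸ Ring.jacobson A) :=
    ModuleCat.ofHom (Ring.jacobson A).mkQ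
  have hact : actM M = boxMap ρ (𝟙 _) ≫ e := box_hom_ext _ _ fun a m => rfl
  refine ⟨e, ?_⟩
  intro Y n w
  have h1 := free_case Y (hof n w)
  rw [mapT_hof, cmp_hmk_hof] at h1
  refine ⟨ρ, (Ext.mk₀ (unitB Y)).comp (w.mapExactFunctor (rB k A B)) (zero_add n),
    h1.trans ?_⟩
  rw [hact, ← cmp_hmk_hmk, ← cmp_assoc, xR_nat, cmp_assoc]

end cases

section main

variable {k : Type u} [Field k] {A B : Type u} [Ring A] [Ring B] [Algebra k A] [Algebra k B]

theorem adjoin_image_mem {R S : Type*} [Ring R] [Ring S] [Algebra k R] [Algebra k S]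
    (φ : R →ₐ[k] S) (s : Set R) (hs : Algebra.adjoin k s = ⊤) (t : Set S) (hst : φ '' s ⊆ t)
    (x : R) : φ x ∈ Algebra.adjoin k t := by
  have hx : φ x ∈ (Algebra.adjoin k s).map φ := ⟨x, by rw [hs]; trivial, rfl⟩
  rw [AlgHom.map_adjoin] at hx
  exact Algebra.adjoin_mono hst hx

/-- The algebra map `x ↦ x ⊠ Y`. -/
noncomputable def xLA (X : ModuleCat.{u} A) (Y : ModuleCat.{u} B) :
    TExt X X →ₐ[k] TExt (box k X Y) (box k X Y) := mapA (k := k) (boxL (A := A) k Y) X

theorem xLA_apply (X : ModuleCat.{u} A) (Y : ModuleCat.{u} B) (x : TExt X X) :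
    xLA (k := k) X Y x = xL x Y := rfl

/-- The algebra map `y ↦ X ⊠ y`. -/
noncomputable def xRA (X : ModuleCat.{u} A) (Y : ModuleCat.{u} B) :
    TExt Y Y →ₐ[k] TExt (box k X Y) (box k X Y) := mapA (k := k) (boxR (B := B) k X) Y

theorem xRA_apply (X : ModuleCat.{u} A) (Y : ModuleCat.{u} B) (y : TExt Y Y) :
    xRA (k := k) X Y y = xR X y := rfl

theorem SP_ind {M : ModuleCat.{u} (A ⊗[k] B)} {T : ModuleCat.{u} A} {M₂ : ModuleCat.{u} B}
    (e : box k T M₂ ⟶ M) (X : ModuleCat.{u} A) (Y : ModuleCat.{u} B)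
    {p : TExt (box k X Y) M → Prop} (h0 : p 0) (hadd : ∀ a b, p a → p b → p (a + b))
    (hneg : ∀ a, p a → p (-a))
    (hgen : ∀ (x : TExt X T) (y : TExt Y M₂), p (cmp (xL x Y) (cmp (xR T y) (hmk e))))
    (w : TExt (box k X Y) M) (hw : w ∈ SP e X Y) : p w := by
  unfold SP at hw
  induction hw using AddSubgroup.closure_induction with
  | mem w hw =>
    obtain ⟨x, y, rfl⟩ := hw
    exact hgen x y
  | zero => exact h0
  | add a b _ _ ha hb => exact hadd a b ha hb
  | neg a _ ha => exact hneg a ha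

variable [Module.Finite k A]

theorem box_noeth (ε : A →ₐ[k] k) (Y : ModuleCat.{u} B)
    (hgA : ∀ (m n : ℕ) (x : Ext.{u} (trivM ε) (trivM ε) m) (y : Ext.{u} (trivM ε) (trivM ε) n),
      SComm (hof m x) (hof n y))
    (hgB : ∀ (m n : ℕ) (x : Ext.{u} Y Y m) (y : Ext.{u} Y Y n), SComm (hof m x) (hof n y))
    (hA : Algebra.FiniteType k (TExt (trivM ε) (trivM ε)))
    (hB : Algebra.FiniteType k (TExt Y Y)) :
    Algebra.FiniteType k (TExt (box k (trivM ε) Y) (box k (trivM ε) Y)) ∧
      IsNoetherianRing (TExt (box k (trivM ε) Y) (box k (trivM ε) Y)) := by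
  classical
  obtain ⟨s, hs1, hs2⟩ := homog_alg_gens _ hA
  obtain ⟨t, ht1, ht2⟩ := homog_alg_gens _ hB
  let K := box k (trivM ε) Y
  let T : Finset (TExt K K) := s.image (fun x => xL x Y) ∪ t.image (fun y => xR (trivM ε) y)
  have hT : Algebra.adjoin k (T : Set (TExt K K)) = ⊤ := by
    rw [eq_top_iff]
    rintro w -
    have : IsArtinianRing A := IsArtinianRing.of_finite k A
    have := trivM_semisimple ε
    have := trivM_finite ε
    have h1 := kun_top (𝟙 K) (freeHyp_triv ε Y) (trivM ε) Y w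
    have eL : ∀ x : TExt (trivM ε) (trivM ε),
        xLA (trivM ε) Y x ∈ Algebra.adjoin k (T : Set (TExt K K)) :=
      adjoin_image_mem (xLA (trivM ε) Y) s hs2 T (by
        rintro _ ⟨a, ha, rfl⟩
        simp only [T, Finset.coe_union, Finset.coe_image]
        exact Or.inl ⟨a, ha, rfl⟩)
    have eR : ∀ y : TExt Y Y, xRA (trivM ε) Y y ∈ Algebra.adjoin k (T : Set (TExt K K)) :=
      adjoin_image_mem (xRA (trivM ε) Y) t ht2 T (by
        rintro _ ⟨a, ha, rfl⟩
        simp only [T, Finset.coe_union, Finset.coe_image]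
        exact Or.inr ⟨a, ha, rfl⟩)
    refine SP_ind (𝟙 K) (trivM ε) Y (p := fun w => w ∈ Algebra.adjoin k (T : Set (TExt K K)))
      (zero_mem _) (fun a b => add_mem) (fun a => neg_mem) ?_ w h1
    intro x y
    rw [cmp_hmk_id]
    exact mul_mem (eL x) (eR y)
  refine ⟨⟨T, hT⟩, ?_⟩
  refine noeth_of_scomm (k := k) T.toList ?_ ?_
  · have hLL : ∀ a ∈ s, ∀ b ∈ s, SComm (xL (k := k) a Y) (xL b Y) := by
      intro a ha b hb
      obtain ⟨m, x, rfl⟩ := hs1 a ha
      obtain ⟨n, y, rfl⟩ := hs1 b hb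
      rcases hgA m n x y with h | h
      · left
        change cmp _ _ = cmp _ _
        rw [← xL_cmp, ← xL_cmp]
        exact congrArg (fun z => xL z Y) h
      · right
        change cmp _ _ = - cmp _ _
        rw [← xL_cmp, ← xL_cmp]
        exact (congrArg (fun z => xL z Y) h).trans (map_neg _ _)
    have hRR : ∀ a ∈ t, ∀ b ∈ t, SComm (xR (k := k) (trivM ε) a) (xR (trivM ε) b) := by
      intro a ha b hb
      obtain ⟨m, x, rfl⟩ := ht1 a ha
      obtain ⟨n, y, rfl⟩ := ht1 b hb
      rcases hgB m n x y with h | h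
      · left
        change cmp _ _ = cmp _ _
        rw [← xR_cmp, ← xR_cmp]
        exact congrArg (fun z => xR (trivM ε) z) h
      · right
        change cmp _ _ = - cmp _ _
        rw [← xR_cmp, ← xR_cmp]
        exact (congrArg (fun z => xR (trivM ε) z) h).trans (map_neg _ _)
    have hLR : ∀ a ∈ s, ∀ b ∈ t, SComm (xL (k := k) a Y) (xR (trivM ε) b) := by
      intro a ha b hb
      obtain ⟨m, x, rfl⟩ := hs1 a ha
      obtain ⟨n, y, rfl⟩ := ht1 b hb
      exact anti_scomm m _ _ x n _ _ y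
    have hRL : ∀ a ∈ t, ∀ b ∈ s, SComm (xR (k := k) (trivM ε) a) (xL b Y) := by
      intro a ha b hb
      rcases hLR b hb a ha with h | h
      · left; exact h.symm
      · right; rw [h, neg_neg]
    intro a ha b hb
    simp only [Finset.mem_toList, T, Finset.mem_union, Finset.mem_image] at ha hb
    rcases ha with ⟨a', ha', rfl⟩ | ⟨a', ha', rfl⟩ <;> rcases hb with ⟨b', hb', rfl⟩ | ⟨b', hb', rfl⟩
    · exact hLL _ ha' _ hb'
    · exact hLR _ ha' _ hb'
    · exact hRL _ ha' _ hb'
    · exact hRR _ ha' _ hb'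
  · have h1 : {a | a ∈ T.toList} = (T : Set (TExt K K)) := by
      ext a
      simp
    rw [h1]
    exact hT

/-- Finite generation in the case of a module killed by the radical of the first algebra. -/
theorem box_finite_of_kill (X : ModuleCat.{u} A) (Y : ModuleCat.{u} B) (T : ModuleCat.{u} A)
    [Module.Finite A X] [IsSemisimpleModule A T]
    (M : ModuleCat.{u} (A ⊗[k] B)) (M₂ : ModuleCat.{u} B)
    (e : box k T M₂ ⟶ M) (he : FreeHyp e)
    (hA : Module.Finite (TExt X X) (TExt X T))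
    (hB : Module.Finite (TExt Y Y) (TExt Y M₂)) :
    Module.Finite (TExt (box k X Y) (box k X Y)) (TExt (box k X Y) M) := by
  classical
  obtain ⟨s, hs1, hs2⟩ := homog_gens hA
  obtain ⟨t, ht2⟩ := hB.fg_top
  let K := box k X Y
  let G : Finset (TExt K M) := (s ×ˢ t).image fun p => cmp (xL p.1 Y) (cmp (xR T p.2) (hmk e))
  refine ⟨⟨G, ?_⟩⟩
  rw [eq_top_iff]
  rintro w -
  have : IsArtinianRing A := IsArtinianRing.of_finite k A
  have h1 := kun_top e he X Y w
  refine SP_ind e X Y (p := fun w => w ∈ Submodule.span (TExt K K) (G : Set (TExt K M)))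
      (zero_mem _) (fun a b => add_mem) (fun a => neg_mem) ?_ w h1
  · intro x y
    have hx : x ∈ Submodule.span (TExt X X) (s : Set (TExt X T)) := by rw [hs2]; trivial
    induction hx using Submodule.span_induction with
    | zero => rw [xL_zero, map_zero, AddMonoidHom.zero_apply]; exact zero_mem _
    | add a b _ _ ha hb => rw [xL_add, map_add, AddMonoidHom.add_apply]; exact add_mem ha hb
    | smul a b _ hb =>
      rw [smul_def, xL_cmp, cmp_assoc]
      exact Submodule.smul_mem _ (xL a Y) hb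
    | mem x hx =>
      have hy : y ∈ Submodule.span (TExt Y Y) (t : Set (TExt Y M₂)) := by rw [ht2]; trivial
      induction hy using Submodule.span_induction with
      | zero => rw [xR_zero, map_zero, AddMonoidHom.zero_apply, map_zero]; exact zero_mem _
      | add a b _ _ ha hb =>
        rw [xR_add, map_add, AddMonoidHom.add_apply, map_add]; exact add_mem ha hb
      | mem y hy =>
        refine Submodule.subset_span ?_
        simp only [G, Finset.coe_image, Set.mem_image]
        exact ⟨(x, y), by simpa using ⟨hx, hy⟩, rfl⟩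
      | smul b y _ hy =>
        obtain ⟨m, x', rfl⟩ := hs1 x hx
        rw [smul_def, xR_cmp, cmp_assoc, ← cmp_assoc (xL (hof m x') Y)]
        induction b using TExt.ind with
        | h0 => rw [xR_zero, map_zero, map_zero, AddMonoidHom.zero_apply]; exact zero_mem _
        | h2 a b ha hb =>
          rw [xR_add, map_add, map_add, AddMonoidHom.add_apply]; exact add_mem ha hb
        | h1 n b =>
          rcases anti_scomm (k := k) m _ _ x' n _ _ b with h | h
          · rw [h, cmp_assoc]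
            exact Submodule.smul_mem _ (xR X (hof n b)) hy
          · rw [h, map_neg, AddMonoidHom.neg_apply, cmp_assoc]
            exact neg_mem (Submodule.smul_mem _ (xR X (hof n b)) hy)

end main

end Run7.h234
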