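import Pool.Agent.Run7.h234.Kun2

/-!
Finite generation for tensor products of algebras: all finite dimensional modules.
-/

set_option autoImplicit false
set_option linter.unusedVariables false
set_option linter.unusedSectionVars false

universe u

open CategoryTheory CategoryTheory.Limits CategoryTheory.Abelian TensorProduct
open scoped ModuleCat

namespace Run7.h234

section fin

variable (k : Type u) [Field k] {H H' : Type u} [Ring H] [Algebra k H] [Ring H'] [Algebra k H']

/-- Finite dimensional modules. -/
def FD (M : ModuleCat.{u} H) : Prop := Module.Finite k M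

theorem FD.res (φ : H' →ₐ[k] H) {M : ModuleCat.{u} H} (h : FD k M) :
    FD k ((ModuleCat.restrictScalars.{u} φ.toRingHom).obj M) := by
  have h' : Module.Finite k M := h
  let id' : M →ₗ[k] (ModuleCat.restrictScalars.{u} φ.toRingHom).obj M :=
    { toFun := fun m => m
      map_add' := fun _ _ => rfl
      map_smul' := fun c m => by
        change algebraMap k H c • m = φ (algebraMap k H' c) • m
        rw [φ.commutes] }
  exact Module.Finite.of_surjective id' fun m => ⟨m, rfl⟩

theorem FD.fg {M : ModuleCat.{u} H} (h : FD k M) : Module.Finite H M := by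
  have h' : Module.Finite k M := h
  exact Module.Finite.of_restrictScalars_finite k H M

theorem FD.of_fg [Module.Finite k H] (M : ModuleCat.{u} H) (h : Module.Finite H M) : FD k M :=
  Module.Finite.trans (R := k) H M

theorem FD.self (H : Type u) [Ring H] [Algebra k H] [Module.Finite k H] :
    FD k (ModuleCat.of H H) :=
  FD.of_fg k _ (inferInstanceAs (Module.Finite H H))

theorem FD.of_inj {M N : ModuleCat.{u} H} (h : FD k M) (f : N ⟶ M)
    (hf : Function.Injective f.hom) : FD k N := by
  have h' : Module.Finite k M := h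
  exact Module.Finite.of_injective (f.hom.restrictScalars k) hf

theorem FD.of_surj {M N : ModuleCat.{u} H} (h : FD k M) (f : M ⟶ N)
    (hf : Function.Surjective f.hom) : FD k N := by
  have h' : Module.Finite k M := h
  exact Module.Finite.of_surjective (f.hom.restrictScalars k) hf

theorem FD.finrank_lt {M N : ModuleCat.{u} H} (h : FD k M) (f : N ⟶ M)
    (hf : Function.Injective f.hom) (hs : ¬ Function.Surjective f.hom) :
    Module.finrank k N < Module.finrank k M := by
  have h' : Module.Finite k M := h
  let f' : N →ₗ[k] M := f.hom.restrictScalars k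
  have h1 : Module.finrank k N = Module.finrank k (LinearMap.range f') :=
    (LinearMap.finrank_range_of_inj (f := f') hf).symm
  rw [h1]
  refine Submodule.finrank_lt ?_
  intro htop
  exact hs ((LinearMap.range_eq_top (f := f')).1 htop)

end fin

section main

variable {k : Type u} [Field k] {A B : Type u} [Ring A] [Ring B] [Algebra k A] [Algebra k B]
  [Module.Finite k A]

theorem exists_rad_sub (M : ModuleCat.{u} (A ⊗[k] B)) (hM : FD k M) :
    ∃ N : Submodule (A ⊗[k] B) M,
      (∀ j ∈ Ring.jacobson A, ∀ m : M, (j ⊗ₜ[k] (1 : B) : A ⊗[k] B) • m ∈ N) ∧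
      (Nontrivial M → N ≠ ⊤) := by
  let N : Submodule (A ⊗[k] B) M := Submodule.span _
    {x | ∃ j ∈ Ring.jacobson A, ∃ m : M, x = (j ⊗ₜ[k] (1 : B) : A ⊗[k] B) • m}
  refine ⟨N, fun j hj m => Submodule.subset_span ⟨j, hj, m, rfl⟩, ?_⟩
  intro hnt htop
  let MA : ModuleCat.{u} A := (rA k A B).obj M
  have hMA : FD k MA := FD.res k (Algebra.TensorProduct.includeLeft (R := k) (S := k) (A := A)
    (B := B)) hM
  have hMA' : Module.Finite A MA := hMA.fg
  have hnt' : Nontrivial MA := hnt
  have hlt : Ring.jacobson A • (⊤ : Submodule A MA) < ⊤ :=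
    Submodule.FG.jacobson_smul_lt top_ne_bot Module.Finite.fg_top
  have hcomm : ∀ (b : B) (x : MA), x ∈ Ring.jacobson A • (⊤ : Submodule A MA) →
      ((((1 : A) ⊗ₜ[k] b : A ⊗[k] B) • (x : M) : M) : MA) ∈
        Ring.jacobson A • (⊤ : Submodule A MA) := by
    intro b x hx
    refine Submodule.smul_induction_on (p := fun x : MA =>
      ((((1 : A) ⊗ₜ[k] b : A ⊗[k] B) • (x : M) : M) : MA) ∈
        Ring.jacobson A • (⊤ : Submodule A MA)) hx ?_ ?_
    · intro j hj m _
      have h1 : ((1 : A) ⊗ₜ[k] b : A ⊗[k] B) • (j ⊗ₜ[k] (1 : B) : A ⊗[k] B) • (show M from m) =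
          (j ⊗ₜ[k] (1 : B) : A ⊗[k] B) • ((1 : A) ⊗ₜ[k] b : A ⊗[k] B) • (show M from m) := by
        rw [smul_smul, smul_smul, Algebra.TensorProduct.tmul_mul_tmul,
          Algebra.TensorProduct.tmul_mul_tmul]
        simp
      have h2 : j • (show MA from (((1 : A) ⊗ₜ[k] b : A ⊗[k] B) • (show M from m))) ∈
          Ring.jacobson A • (⊤ : Submodule A MA) :=
        Submodule.smul_mem_smul hj Submodule.mem_top
      exact (congrArg (fun x : MA => x ∈ Ring.jacobson A • (⊤ : Submodule A MA)) h1).mpr h2
    · intro x y hx hy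
      have h1 : ((1 : A) ⊗ₜ[k] b : A ⊗[k] B) • ((show M from x) + (show M from y)) =
          ((1 : A) ⊗ₜ[k] b : A ⊗[k] B) • (show M from x) +
          ((1 : A) ⊗ₜ[k] b : A ⊗[k] B) • (show M from y) := smul_add _ _ _
      exact (congrArg (fun x : MA => x ∈ Ring.jacobson A • (⊤ : Submodule A MA)) h1).mpr
        (add_mem hx hy)
  have hNle : ∀ x ∈ N, (x : MA) ∈ Ring.jacobson A • (⊤ : Submodule A MA) := by
    intro x hx
    induction hx using Submodule.span_induction with
    | mem x hx =>
      obtain ⟨j, hj, m, rfl⟩ := hx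
      have h1 : j • (show MA from m) ∈ Ring.jacobson A • (⊤ : Submodule A MA) :=
        Submodule.smul_mem_smul hj Submodule.mem_top
      exact h1
    | zero => exact zero_mem _
    | add x y _ _ hx hy => exact add_mem hx hy
    | smul z x _ hx =>
      induction z using TensorProduct.induction_on with
      | zero => rw [zero_smul]; exact zero_mem _
      | add a b ha hb => rw [add_smul]; exact add_mem ha hb
      | tmul a b =>
        have h1 : (a ⊗ₜ[k] b : A ⊗[k] B) • x =
            (a ⊗ₜ[k] (1 : B) : A ⊗[k] B) • ((1 : A) ⊗ₜ[k] b : A ⊗[k] B) • x := by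
          rw [smul_smul, Algebra.TensorProduct.tmul_mul_tmul, mul_one, one_mul]
        rw [h1]
        exact Submodule.smul_mem (Ring.jacobson A • (⊤ : Submodule A MA)) a (hcomm b x hx)
  apply hlt.ne
  rw [eq_top_iff]
  rintro x -
  exact hNle x (by rw [htop]; trivial)

theorem box_finite (X : ModuleCat.{u} A) (Y : ModuleCat.{u} B)
    (hX : FD k X) (hN : IsNoetherianRing (TExt (box k X Y) (box k X Y)))
    (hA : ∀ T : ModuleCat.{u} A, FD k T → Module.Finite (TExt X X) (TExt X T))
    (hB : ∀ T : ModuleCat.{u} B, FD k T → Module.Finite (TExt Y Y) (TExt Y T))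
    (M : ModuleCat.{u} (A ⊗[k] B)) (hM : FD k M) :
    Module.Finite (TExt (box k X Y) (box k X Y)) (TExt (box k X Y) M) := by
  have hart : IsArtinianRing A := IsArtinianRing.of_finite k A
  have hXf : Module.Finite A X := hX.fg
  -- modules killed by the radical
  have hkill : ∀ M : ModuleCat.{u} (A ⊗[k] B), FD k M →
      (∀ j ∈ Ring.jacobson A, ∀ m : M, (j ⊗ₜ[k] (1 : B) : A ⊗[k] B) • m = 0) →
      Module.Finite (TExt (box k X Y) (box k X Y)) (TExt (box k X Y) M) := by
    intro M hM hJ
    obtain ⟨e, he⟩ := exists_ev M hJ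
    have hT : FD k (ModuleCat.of A (A ⧸ Ring.jacobson A)) :=
      FD.of_surj k (M := ModuleCat.of A A) (FD.self k A)
        (ModuleCat.ofHom (Ring.jacobson A).mkQ) (Submodule.mkQ_surjective _)
    have hss : IsSemisimpleModule A (ModuleCat.of A (A ⧸ Ring.jacobson A)) :=
      (IsArtinian.isSemisimpleModule_iff_jacobson (R := A) (M := A ⧸ Ring.jacobson A)).2
        (Module.jacobson_quotient_jacobson A A)
    exact box_finite_of_kill X Y _ M _ e he (hA _ hT)
      (hB _ (FD.res k (Algebra.TensorProduct.includeRight (R := k) (A := A) (B := B)) hM))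
  obtain ⟨n, hn⟩ : ∃ n, Module.finrank k M = n := ⟨_, rfl⟩
  induction n using Nat.strong_induction_on generalizing M with
  | _ n ih =>
    by_cases hnt : Nontrivial M
    · obtain ⟨N, hN1, hN2⟩ := exists_rad_sub M hM
      have hN3 := hN2 hnt
      let S : ShortComplex (ModuleCat.{u} (A ⊗[k] B)) := ShortComplex.mk
        (ModuleCat.ofHom N.subtype) (ModuleCat.ofHom N.mkQ) (by
          ext x
          exact (Submodule.Quotient.mk_eq_zero N).2 x.2)
      have hS : S.ShortExact :=
        { exact := by
            rw [CategoryTheory.ShortComplex.ShortExact.moduleCat_exact_iff_function_exact]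
            exact LinearMap.exact_subtype_mkQ N
          mono_f := (ModuleCat.mono_iff_injective _).2 (Submodule.subtype_injective _)
          epi_g := (ModuleCat.epi_iff_surjective _).2 (Submodule.mkQ_surjective _) }
      refine finite_of_ses hS _ ?_ ?_
      · have hlt : Module.finrank k (ModuleCat.of (A ⊗[k] B) N) < n := by
          rw [← hn]
          refine FD.finrank_lt k hM (ModuleCat.ofHom N.subtype) (Submodule.subtype_injective _) ?_
          intro hs
          apply hN3
          rw [eq_top_iff]
          rintro x -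
          obtain ⟨y, rfl⟩ := hs x
          exact y.2
        exact ih _ hlt (ModuleCat.of _ N)
          (FD.of_inj k hM (ModuleCat.ofHom N.subtype) (Submodule.subtype_injective _)) rfl
      · refine hkill (ModuleCat.of _ (M ⧸ N))
          (FD.of_surj k hM (ModuleCat.ofHom N.mkQ) (Submodule.mkQ_surjective _)) ?_
        intro j hj m
        obtain ⟨m, rfl⟩ := Submodule.Quotient.mk_surjective N m
        exact (Submodule.Quotient.mk_eq_zero N).2 (hN1 j hj m)
    · refine hkill M hM ?_
      intro j hj m
      have : Subsingleton M := not_nontrivial_iff_subsingleton.1 hnt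
      exact Subsingleton.elim _ _

/-- Finite generation for a tensor product of augmented algebras. -/
theorem box_FG (ε : A →ₐ[k] k) (ε' : B →ₐ[k] k)
    (hgA : ∀ (m n : ℕ) (x : Ext.{u} (trivM ε) (trivM ε) m) (y : Ext.{u} (trivM ε) (trivM ε) n),
      SComm (hof m x) (hof n y))
    (hgB : ∀ (m n : ℕ) (x : Ext.{u} (trivM ε') (trivM ε') m)
      (y : Ext.{u} (trivM ε') (trivM ε') n), SComm (hof m x) (hof n y))
    (hA : FG k (FD k) (trivM ε)) (hB : FG k (FD k) (trivM ε')) :
    FG k (FD k) (box k (trivM ε) (trivM ε')) := by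
  obtain ⟨h1, h2⟩ := box_noeth ε (trivM ε') hgA hgB hA.1 hB.1
  have hT : FD k (trivM ε) :=
      FD.of_surj k (M := ModuleCat.of A A) (FD.self k A)
        (augM ε) (augM_surj ε)
  exact ⟨h1, fun M hM => box_finite _ _ hT h2 hA.2 hB.2 M hM⟩

end main

end Run7.h234
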