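import Pool.Agent.Run7.h234.Box

/-!
Restriction of scalars and trivial modules.
-/

set_option autoImplicit false
set_option linter.unusedVariables false
set_option linter.unusedSectionVars false

universe u

open CategoryTheory CategoryTheory.Limits CategoryTheory.Abelian TensorProduct
open scoped ModuleCat

namespace Run7.h234

section res

variable {R S : Type u} [Ring R] [Ring S] (f : R →+* S)

theorem res_exact (T : ShortComplex (ModuleCat.{u} S)) (h : T.Exact) :
    (T.map (ModuleCat.restrictScalars.{u} f)).Exact := by
  rw [CategoryTheory.ShortComplex.ShortExact.moduleCat_exact_iff_function_exact] at h ⊢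
  exact h

instance resPFL : PreservesFiniteLimits (ModuleCat.restrictScalars.{u} f) :=
  (exact_of_exact _ (res_exact f)).1

instance resPFC : PreservesFiniteColimits (ModuleCat.restrictScalars.{u} f) :=
  (exact_of_exact _ (res_exact f)).2

/-- A morphism out of a restriction of scalars. -/
noncomputable def mkRes (M : ModuleCat.{u} S) (N : ModuleCat.{u} R) (g : M →+ N)
    (h : ∀ (r : R) (m : M), g (f r • m) = r • g m) :
    (ModuleCat.restrictScalars.{u} f).obj M ⟶ N :=
  ModuleCat.ofHom (X := ((ModuleCat.restrictScalars.{u} f).obj M)) (Y := N)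
    { toFun := g, map_add' := g.map_add, map_smul' := h }

theorem mkRes_apply (M : ModuleCat.{u} S) (N : ModuleCat.{u} R) (g : M →+ N)
    (h : ∀ (r : R) (m : M), g (f r • m) = r • g m) (m : M) :
    (mkRes f M N g h).hom m = g m := rfl

/-- A morphism into a restriction of scalars. -/
noncomputable def mkRes' (M : ModuleCat.{u} S) (N : ModuleCat.{u} R) (g : N →+ M)
    (h : ∀ (r : R) (n : N), g (r • n) = f r • g n) :
    N ⟶ (ModuleCat.restrictScalars.{u} f).obj M :=
  ModuleCat.ofHom (X := N) (Y := ((ModuleCat.restrictScalars.{u} f).obj M))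
    { toFun := g, map_add' := g.map_add, map_smul' := h }

theorem mkRes'_apply (M : ModuleCat.{u} S) (N : ModuleCat.{u} R) (g : N →+ M)
    (h : ∀ (r : R) (n : N), g (r • n) = f r • g n) (n : N) :
    (mkRes' f M N g h).hom n = g n := rfl

theorem res_hom_ext {M : ModuleCat.{u} S} {N : ModuleCat.{u} R}
    (a b : (ModuleCat.restrictScalars.{u} f).obj M ⟶ N)
    (h : ∀ m : M, a.hom m = b.hom m) : a = b := by
  ext m
  exact h m

end res

section resbox

variable {k : Type u} [Field k] {A B : Type u} [Ring A] [Ring B] [Algebra k A] [Algebra k B]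
  {R : Type u} [Ring R] (f : R →+* A ⊗[k] B)

theorem res_box_ext {X : ModuleCat.{u} A} {Y : ModuleCat.{u} B} {N : ModuleCat.{u} R}
    (a b : (ModuleCat.restrictScalars.{u} f).obj (box k X Y) ⟶ N)
    (h : ∀ x y, a.hom (bt k x y : BoxTy k X Y) = b.hom (bt k x y : BoxTy k X Y)) : a = b := by
  apply res_hom_ext
  intro z
  change BoxTy k X Y at z
  induction z using BoxTy.ind with
  | h0 => exact (map_zero a.hom).trans (map_zero b.hom).symm
  | h2 z z' hz hz' =>
    exact (map_add a.hom z z').trans ((congrArg₂ (· + ·) hz hz').trans (map_add b.hom z z').symm)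
  | h1 x y => exact h x y

end resbox

section alg

variable {k : Type u} [Field k] {H H' : Type u} [Ring H] [Algebra k H] [Ring H'] [Algebra k H']

instance resLinear (f : H' →ₐ[k] H) :
    (ModuleCat.restrictScalars.{u} f.toRingHom).Linear k where
  map_smul {X Y} g c := by
    ext x
    change algebraMap k H c • g.hom x = f (algebraMap k H' c) • g.hom x
    rw [f.commutes]

/-- The trivial module of an augmented algebra. -/
noncomputable def trivM (ε : H →ₐ[k] k) : ModuleCat.{u} H :=
  (ModuleCat.restrictScalars.{u} ε.toRingHom).obj (ModuleCat.of k k)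

end alg

end Run7.h234
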