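import Pool.Agent.Run7.h234.GC
import Pool.Agent.Run7.h234.Kun3
import Pool.Agent.Run7.h234.HF

/-!
The functors `- ⊗ M` and `Hom_k(M, -)` for modules over a Hopf algebra, and their adjunction.
-/

set_option autoImplicit false
set_option linter.unusedVariables false
set_option linter.unusedSectionVars false

universe u

open CategoryTheory CategoryTheory.Limits CategoryTheory.Abelian TensorProduct Coalgebra
open scoped ModuleCat

namespace Run7.h234

section tens

variable {k : Type u} [Field k] {H : Type u} [Ring H] [HopfAlgebra k H]

variable (k) in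
/-- The functor `- ⊗ M` (diagonal action). -/
noncomputable abbrev tens (M : ModuleCat.{u} H) : ModuleCat.{u} H ⥤ ModuleCat.{u} H :=
  boxL (A := H) k M ⋙ DF k H

/-- The inverse of `k ⊗ X → X`. -/
noncomputable def sec2 (X : ModuleCat.{u} H) : X ⟶ (tens k X).obj (trivH k H) :=
  mkRes' (Bialgebra.comulAlgHom k H).toRingHom (box k (trivH k H) X) X
    { toFun := fun x => bt k (vt (1 : k)) x
      map_add' := fun t t' => TensorProduct.tmul_add _ _ _
      map_zero' := TensorProduct.tmul_zero _ _ }
    fun h x => by
      change (vt (1 : k)) ⊗ₜ[k] (h • x) =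
        boxAct (trivH k H) X (Coalgebra.comul (R := k) h) ((vt (1 : k)) ⊗ₜ[k] x)
      have key : ∀ z : H ⊗[k] H,
          boxAct (trivH k H) X z ((vt (1 : k)) ⊗ₜ[k] x) =
          (vt (1 : k)) ⊗ₜ[k]
            ((TensorProduct.lid k H (LinearMap.rTensor H (Coalgebra.counit (R := k)) z)) • x) := by
        intro z
        induction z using TensorProduct.induction_on with
        | zero => simp
        | add a b ha hb =>
          rw [map_add, LinearMap.add_apply, ha, hb, map_add, map_add, add_smul,
            TensorProduct.tmul_add]
        | tmul a b =>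
          rw [boxAct_tmul, LinearMap.rTensor_tmul, TensorProduct.lid_tmul]
          have : a • (vt (1 : k)) = (Coalgebra.counit (R := k) a) • (vt (H := H) (1 : k)) := by
            change tv (a • (vt (1 : k))) =
              tv ((Coalgebra.counit (R := k) a) • (vt (H := H) (1 : k)))
            rw [tv_smul, tv_ksmul]
          rw [this, TensorProduct.smul_tmul, ← smul_assoc]
      rw [key, Coalgebra.rTensor_counit_comul, TensorProduct.lid_tmul, one_smul]

theorem sec2_mu2 (X : ModuleCat.{u} H) : sec2 (k := k) X ≫ mu2H X = 𝟙 X := by
  ext t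
  change tv (vt (H := H) (1 : k)) • t = t
  rw [tv_vt, one_smul]

theorem mu2_sec2 (X : ModuleCat.{u} H) :
    mu2H X ≫ sec2 (k := k) X = 𝟙 ((tens k X).obj (trivH k H)) := by
  apply res_box_ext
  intro t x
  change (vt (H := H) (1 : k)) ⊗ₜ[k] (tv t • x) = t ⊗ₜ[k] x
  rw [← TensorProduct.smul_tmul]
  congr 1
  change tv (tv t • (vt (H := H) (1 : k))) = tv t
  rw [tv_ksmul, tv_vt, mul_one]

/-! ### The inner Hom -/

variable (k) in
/-- The group `Hom_k(M, N)`. -/
def HomTy (M N : ModuleCat.{u} H) : Type u := M →ₗ[k] N

noncomputable instance (M N : ModuleCat.{u} H) : AddCommGroup (HomTy k M N) :=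
  inferInstanceAs (AddCommGroup (M →ₗ[k] N))

/-- The right action through the antipode: `f ↦ f(S(b) -)`. -/
noncomputable def rAct (M N : ModuleCat.{u} H) : H →ₐ[k] Module.End k (M →ₗ[k] N) :=
  AlgHom.ofLinearMap
    { toFun := fun b =>
        { toFun := fun f => f ∘ₗ (Algebra.lsmul k k M (HopfAlgebra.antipode k b))
          map_add' := fun f g => by ext m; rfl
          map_smul' := fun c f => by ext m; rfl }
      map_add' := fun a b => by
        ext f m
        change f ((HopfAlgebra.antipode k (a + b)) • m) =
          f ((HopfAlgebra.antipode k a) • m) + f ((HopfAlgebra.antipode k b) • m)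
        rw [map_add, add_smul, map_add]
      map_smul' := fun c b => by
        ext f m
        change f ((HopfAlgebra.antipode k (c • b)) • m) =
          c • f ((HopfAlgebra.antipode k b) • m)
        rw [(HopfAlgebra.antipode k).map_smul, smul_assoc, f.map_smul] }
    (by
      ext f m
      change f ((HopfAlgebra.antipode k (1 : H)) • m) = f m
      rw [HopfAlgebra.antipode_one, one_smul])
    (fun a b => by
      ext f m
      change f ((HopfAlgebra.antipode k (a * b)) • m) =
        f ((HopfAlgebra.antipode k b) • (HopfAlgebra.antipode k a) • m)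
      rw [HopfAlgebra.antipode_mul_antidistrib, mul_smul])

theorem rAct_apply (M N : ModuleCat.{u} H) (b : H) (f : M →ₗ[k] N) (m : M) :
    rAct M N b f m = f ((HopfAlgebra.antipode k b) • m) := rfl

/-- The action on the values. -/
noncomputable def lAct (M N : ModuleCat.{u} H) : H →ₐ[k] Module.End k (M →ₗ[k] N) :=
  AlgHom.ofLinearMap
    { toFun := fun a =>
        { toFun := fun f => (Algebra.lsmul k k N a) ∘ₗ f
          map_add' := fun f g => by
            ext m
            change a • (f m + g m) = a • f m + a • g m
            rw [smul_add]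
          map_smul' := fun c f => by
            ext m
            change a • (c • f m) = c • (a • f m)
            rw [smul_comm] }
      map_add' := fun a b => by
        ext f m
        change (a + b) • f m = a • f m + b • f m
        rw [add_smul]
      map_smul' := fun c b => by
        ext f m
        change (c • b) • f m = c • (b • f m)
        rw [smul_assoc] }
    (by
      ext f m
      change (1 : H) • f m = f m
      rw [one_smul])
    (fun a b => by
      ext f m
      change (a * b) • f m = a • (b • f m)
      rw [mul_smul])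

theorem lAct_apply (M N : ModuleCat.{u} H) (a : H) (f : M →ₗ[k] N) (m : M) :
    lAct M N a f m = a • f m := rfl

/-- `(a ⊗ b) f = a f(S(b) -)`. -/
noncomputable def homAct (M N : ModuleCat.{u} H) :
    H ⊗[k] H →ₐ[k] Module.End k (M →ₗ[k] N) :=
  Algebra.TensorProduct.lift (lAct M N) (rAct M N) fun a b => by
    change lAct M N a * rAct M N b = rAct M N b * lAct M N a
    ext f m
    rfl

theorem homAct_tmul (M N : ModuleCat.{u} H) (a b : H) (f : M →ₗ[k] N) (m : M) :
    homAct M N (a ⊗ₜ b) f m = a • f ((HopfAlgebra.antipode k b) • m) := by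
  rw [homAct, Algebra.TensorProduct.lift_tmul]
  rfl

noncomputable instance (M N : ModuleCat.{u} H) : Module H (HomTy k M N) :=
  Module.compHom (M →ₗ[k] N) ((homAct M N).comp (Bialgebra.comulAlgHom k H)).toRingHom

theorem hsmul_def (M N : ModuleCat.{u} H) (h : H) (f : HomTy k M N) :
    (h • f : HomTy k M N) = homAct M N (comul (R := k) h) f := rfl

variable (k) in
/-- The inner Hom. -/
noncomputable def ihom (M N : ModuleCat.{u} H) : ModuleCat.{u} H := ModuleCat.of H (HomTy k M N)

theorem homAct_comp {M N N' : ModuleCat.{u} H} (g : N ⟶ N') (z : H ⊗[k] H) (f : M →ₗ[k] N) :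
    (g.hom.restrictScalars k) ∘ₗ (homAct M N z f) =
      homAct M N' z ((g.hom.restrictScalars k) ∘ₗ f) := by
  induction z using TensorProduct.induction_on with
  | zero => simp
  | add a b ha hb =>
    rw [map_add, LinearMap.add_apply, LinearMap.comp_add, ha, hb, map_add, LinearMap.add_apply]
  | tmul a b =>
    ext m
    rw [homAct_tmul]
    change g.hom (homAct M N (a ⊗ₜ b) f m) = a • g.hom (f ((HopfAlgebra.antipode k b) • m))
    rw [homAct_tmul, map_smul]

/-- The map on inner Homs. -/
noncomputable def ihomMap (M : ModuleCat.{u} H) {N N' : ModuleCat.{u} H} (g : N ⟶ N') :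
    ihom k M N ⟶ ihom k M N' :=
  ModuleCat.ofHom (X := HomTy k M N) (Y := HomTy k M N')
    { toFun := fun f => (g.hom.restrictScalars k) ∘ₗ (show M →ₗ[k] N from f)
      map_add' := fun f f' => LinearMap.comp_add _ _ _
      map_smul' := fun h f => homAct_comp g (comul (R := k) h) f }

theorem ihomMap_apply (M : ModuleCat.{u} H) {N N' : ModuleCat.{u} H} (g : N ⟶ N')
    (f : M →ₗ[k] N) (m : M) :
    (show M →ₗ[k] N' from (ihomMap (k := k) M g).hom (show HomTy k M N from f)) m
      = g.hom (f m) := rfl

theorem ihom_hom_ext {M N N' : ModuleCat.{u} H} (a b : N' ⟶ ihom k M N)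
    (h : ∀ (x : N') (m : M), (show M →ₗ[k] N from a.hom x) m = (show M →ₗ[k] N from b.hom x) m) :
    a = b := by
  ext x
  exact LinearMap.ext fun m => h x m

variable (k) in
/-- The functor `Hom_k(M, -)`. -/
@[simps]
noncomputable def ihomF (M : ModuleCat.{u} H) : ModuleCat.{u} H ⥤ ModuleCat.{u} H where
  obj N := ihom k M N
  map g := ihomMap M g
  map_id N := ihom_hom_ext _ _ fun x m => rfl
  map_comp f g := ihom_hom_ext _ _ fun x m => rfl

instance (M : ModuleCat.{u} H) : (ihomF (H := H) k M).Additive where
  map_add {N N'} {f g} := ihom_hom_ext _ _ fun x m => rfl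

theorem ihomF_exact (M : ModuleCat.{u} H) (S : ShortComplex (ModuleCat.{u} H)) (h : S.Exact) :
    (S.map (ihomF (H := H) k M)).Exact := by
  rw [CategoryTheory.ShortComplex.ShortExact.moduleCat_exact_iff_function_exact] at h ⊢
  have h' : Function.Exact (S.f.hom.restrictScalars k) (S.g.hom.restrictScalars k) := h
  intro φ
  constructor
  · intro hφ
    have hφ' : (S.g.hom.restrictScalars k) ∘ₗ (show M →ₗ[k] S.X₂ from φ) = 0 := hφ
    have hr : ∀ m, (show M →ₗ[k] S.X₂ from φ) m ∈ LinearMap.range (S.f.hom.restrictScalars k) := by
      intro m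
      exact (h' _).1 (LinearMap.congr_fun hφ' m)
    obtain ⟨ψ, hψ⟩ := Module.projective_lifting_property
      (LinearMap.rangeRestrict (S.f.hom.restrictScalars k))
      (LinearMap.codRestrict _ (show M →ₗ[k] S.X₂ from φ) hr)
      (LinearMap.surjective_rangeRestrict _)
    refine ⟨ψ, ?_⟩
    refine LinearMap.ext fun m => ?_
    have := LinearMap.congr_fun hψ m
    exact congrArg Subtype.val this
  · rintro ⟨ψ, rfl⟩
    refine LinearMap.ext fun m => ?_
    exact (h' _).2 ⟨(show M →ₗ[k] S.X₁ from ψ) m, rfl⟩

instance (M : ModuleCat.{u} H) : PreservesFiniteLimits (ihomF (H := H) k M) :=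
  (exact_of_exact _ (ihomF_exact M)).1

instance (M : ModuleCat.{u} H) : PreservesFiniteColimits (ihomF (H := H) k M) :=
  (exact_of_exact _ (ihomF_exact M)).2

theorem ihom_FD {M N : ModuleCat.{u} H} (hM : FD k M) (hN : FD k N) : FD k (ihom k M N) := by
  have h1 : Module.Finite k M := hM
  have h2 : Module.Finite k N := hN
  let id' : (M →ₗ[k] N) →ₗ[k] (ihom k M N) :=
    { toFun := fun m => m
      map_add' := fun _ _ => rfl
      map_smul' := fun c m => by
        change c • m = ((homAct M N).comp (Bialgebra.comulAlgHom k H)) (algebraMap k H c) m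
        rw [AlgHom.commutes]; rfl }
  exact Module.Finite.of_surjective id' fun m => ⟨m, rfl⟩

/-! ### The adjunction -/

/-- `(a ⊗ b) ⊗ c ↦ a x ⊗ b S(c) m`. -/
noncomputable def thU {X M : ModuleCat.{u} H} (x : X) (m : M) :
    (H ⊗[k] H) ⊗[k] H →ₗ[k] X ⊗[k] M :=
  TensorProduct.lift
    { toFun := fun t =>
        { toFun := fun c => boxAct X M t (x ⊗ₜ[k] ((HopfAlgebra.antipode k c) • m))
          map_add' := fun c c' => by
            rw [map_add, add_smul, TensorProduct.tmul_add, map_add]
          map_smul' := fun r c => by
            rw [map_smul, smul_assoc, TensorProduct.tmul_smul, map_smul, RingHom.id_apply] }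
      map_add' := fun t t' => by
        ext c
        change boxAct X M (t + t') _ = boxAct X M t _ + boxAct X M t' _
        rw [map_add]; rfl
      map_smul' := fun r t => by
        ext c
        change boxAct X M (r • t) _ = r • boxAct X M t _
        rw [map_smul]; rfl }

theorem thU_tmul {X M : ModuleCat.{u} H} (x : X) (m : M) (t : H ⊗[k] H) (c : H) :
    thU (k := k) x m (t ⊗ₜ c) = boxAct X M t (x ⊗ₜ[k] ((HopfAlgebra.antipode k c) • m)) := rfl

theorem thU_assoc {X M : ModuleCat.{u} H} (x : X) (m : M) (a : H) (t : H ⊗[k] H) :
    thU (k := k) x m ((TensorProduct.assoc k H H H).symm (a ⊗ₜ t)) =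
      (a • x) ⊗ₜ[k] (LinearMap.mul' k H (LinearMap.lTensor H (HopfAlgebra.antipode k) t) • m) := by
  induction t using TensorProduct.induction_on with
  | zero => simp
  | add s t hs ht =>
    rw [TensorProduct.tmul_add, map_add, map_add, hs, ht, map_add, map_add, add_smul,
      TensorProduct.tmul_add]
  | tmul b c =>
    rw [TensorProduct.assoc_symm_tmul, thU_tmul, boxAct_tmul, LinearMap.lTensor_tmul,
      LinearMap.mul'_apply, mul_smul]

theorem thU_key {X M : ModuleCat.{u} H} (x : X) (m : M) (z : H ⊗[k] H) :
    thU (k := k) x m ((TensorProduct.assoc k H H H).symm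
      (LinearMap.lTensor H (comul (R := k) (A := H)) z)) =
      ((TensorProduct.rid k H (LinearMap.lTensor H (Coalgebra.counit (R := k)) z)) • x)
        ⊗ₜ[k] m := by
  induction z using TensorProduct.induction_on with
  | zero => simp
  | add s t hs ht =>
    rw [map_add, map_add, map_add, hs, ht, map_add, map_add, add_smul, TensorProduct.add_tmul]
  | tmul a b =>
    rw [LinearMap.lTensor_tmul, thU_assoc, HopfAlgebra.mul_antipode_lTensor_comul_apply,
      LinearMap.lTensor_tmul, TensorProduct.rid_tmul, smul_assoc]
    change (a • x) ⊗ₜ[k] ((counit (R := k) b) • m) = _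
    rw [TensorProduct.tmul_smul, TensorProduct.smul_tmul']

/-- The unit `X → Hom_k(M, X ⊗ M)`. -/
noncomputable def uni (M X : ModuleCat.{u} H) : X ⟶ ihom k M ((tens k M).obj X) :=
  ModuleCat.ofHom (X := X) (Y := HomTy k M ((tens k M).obj X))
    { toFun := fun x => (show M →ₗ[k] ((tens k M).obj X) from
        { toFun := fun m => bt k x m
          map_add' := fun m m' => TensorProduct.tmul_add _ _ _
          map_smul' := fun c m => by
            change x ⊗ₜ[k] (c • m) = boxAct X M (comul (R := k) (algebraMap k H c)) (x ⊗ₜ[k] m)
            rw [Bialgebra.comul_algebraMap, AlgHom.commutes, TensorProduct.tmul_smul]; rfl })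
      map_add' := fun x x' => LinearMap.ext fun m => TensorProduct.add_tmul _ _ _
      map_smul' := fun h x => by
        refine LinearMap.ext fun m => ?_
        rw [RingHom.id_apply, hsmul_def]
        have key : ∀ (z : H ⊗[k] H) (φ : M →ₗ[k] ((tens k M).obj X))
            (hφ : ∀ m, φ m = bt k x m),
            (homAct M ((tens k M).obj X) z φ) m =
            (thU (k := k) x m (LinearMap.rTensor H (comul (R := k)) z) : X ⊗[k] M) := by
          intro z φ hφ
          induction z using TensorProduct.induction_on with
          | zero =>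
            rw [map_zero, map_zero, map_zero]; rfl
          | add a b ha hb =>
            rw [map_add, LinearMap.add_apply, LinearMap.add_apply, ha, hb, map_add, map_add]
            rfl
          | tmul a b =>
            rw [homAct_tmul, hφ, LinearMap.rTensor_tmul, thU_tmul]
            rfl
        rw [key _ _ (fun m => rfl)]
        change (h • x) ⊗ₜ[k] m = _
        have h3 := thU_key (k := k) x m (comul (R := k) h)
        rw [Coalgebra.lTensor_counit_comul, TensorProduct.rid_tmul, one_smul] at h3
        rw [← h3, ← Coalgebra.coassoc_symm_apply] }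

theorem uni_apply (M X : ModuleCat.{u} H) (x : X) (m : M) :
    (show M →ₗ[k] ((tens k M).obj X) from (uni (k := k) M X).hom x) m = bt k x m := rfl

/-- `(a ⊗ b) ⊗ c ↦ a f(S(b) c m)`. -/
noncomputable def thC {M N : ModuleCat.{u} H} (f : M →ₗ[k] N) (m : M) :
    (H ⊗[k] H) ⊗[k] H →ₗ[k] N :=
  TensorProduct.lift
    { toFun := fun t =>
        { toFun := fun c => homAct M N t f (c • m)
          map_add' := fun c c' => by rw [add_smul, map_add]
          map_smul' := fun r c => by rw [smul_assoc, map_smul, RingHom.id_apply] }
      map_add' := fun t t' => by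
        ext c
        change homAct M N (t + t') f _ = homAct M N t f _ + homAct M N t' f _
        rw [map_add]; rfl
      map_smul' := fun r t => by
        ext c
        change homAct M N (r • t) f _ = r • homAct M N t f _
        rw [show homAct M N (r • t) = r • homAct M N t from
          (homAct M N).toLinearMap.map_smul r t]
        rfl }

theorem thC_tmul {M N : ModuleCat.{u} H} (f : M →ₗ[k] N) (m : M) (t : H ⊗[k] H) (c : H) :
    thC (k := k) f m (t ⊗ₜ c) = homAct M N t f (c • m) := rfl

theorem thC_assoc {M N : ModuleCat.{u} H} (f : M →ₗ[k] N) (m : M) (a : H) (t : H ⊗[k] H) :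
    thC (k := k) f m ((TensorProduct.assoc k H H H).symm (a ⊗ₜ t)) =
      a • f (LinearMap.mul' k H (LinearMap.rTensor H (HopfAlgebra.antipode k) t) • m) := by
  induction t using TensorProduct.induction_on with
  | zero => simp
  | add s t hs ht =>
    rw [TensorProduct.tmul_add, map_add, map_add, hs, ht, map_add, map_add, add_smul,
      map_add, smul_add]
  | tmul b c =>
    rw [TensorProduct.assoc_symm_tmul, thC_tmul, homAct_tmul, LinearMap.rTensor_tmul,
      LinearMap.mul'_apply, mul_smul]

theorem thC_key {M N : ModuleCat.{u} H} (f : M →ₗ[k] N) (m : M) (z : H ⊗[k] H) :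
    thC (k := k) f m ((TensorProduct.assoc k H H H).symm
      (LinearMap.lTensor H (comul (R := k) (A := H)) z)) =
      (TensorProduct.rid k H (LinearMap.lTensor H (Coalgebra.counit (R := k)) z)) • f m := by
  induction z using TensorProduct.induction_on with
  | zero => simp
  | add s t hs ht =>
    rw [map_add, map_add, map_add, hs, ht, map_add, map_add, add_smul]
  | tmul a b =>
    rw [LinearMap.lTensor_tmul, thC_assoc, HopfAlgebra.mul_antipode_rTensor_comul_apply,
      LinearMap.lTensor_tmul, TensorProduct.rid_tmul, smul_assoc]
    have : algebraMap k H (counit (R := k) b) • m = (counit (R := k) b) • m := rfl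
    rw [this, map_smul, smul_comm]

/-- Evaluation. -/
noncomputable def evL (M N : ModuleCat.{u} H) : (ihom k M N) ⊗[k] M →ₗ[k] N :=
  TensorProduct.lift
    { toFun := fun f => (show M →ₗ[k] N from f)
      map_add' := fun f g => rfl
      map_smul' := fun c f => by
        change ((homAct M N).comp (Bialgebra.comulAlgHom k H)) (algebraMap k H c) f = _
        rw [AlgHom.commutes]; rfl }

theorem evL_tmul (M N : ModuleCat.{u} H) (f : ihom k M N) (m : M) :
    evL (k := k) M N (f ⊗ₜ m) = (show M →ₗ[k] N from f) m := rfl

theorem evL_act (M N : ModuleCat.{u} H) (f : ihom k M N) (m : M) (z : H ⊗[k] H) :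
    evL (k := k) M N (boxAct (ihom k M N) M z (f ⊗ₜ m)) =
      thC (k := k) (show M →ₗ[k] N from f) m (LinearMap.rTensor H (comul (R := k)) z) := by
  induction z using TensorProduct.induction_on with
  | zero => simp
  | add a b ha hb =>
    rw [map_add, LinearMap.add_apply, map_add, ha, hb, map_add, map_add]
  | tmul a b =>
    rw [boxAct_tmul, evL_tmul, LinearMap.rTensor_tmul, thC_tmul]
    rfl

/-- The counit `Hom_k(M, N) ⊗ M → N`. -/
noncomputable def cou (M N : ModuleCat.{u} H) : (tens k M).obj (ihom k M N) ⟶ N :=
  mkRes (Bialgebra.comulAlgHom k H).toRingHom (box k (ihom k M N) M) N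
    (evL M N).toAddMonoidHom
    fun h w => by
      change evL (k := k) M N (boxAct (ihom k M N) M (comul (R := k) h) w) = h • evL M N w
      change (ihom k M N) ⊗[k] M at w
      induction w using TensorProduct.induction_on with
      | zero => simp
      | add a b ha hb => rw [map_add, map_add, ha, hb, map_add, smul_add]
      | tmul f m =>
        rw [evL_act, evL_tmul]
        have h3 := thC_key (k := k) (show M →ₗ[k] N from f) m (comul (R := k) h)
        rw [Coalgebra.lTensor_counit_comul, TensorProduct.rid_tmul, one_smul] at h3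
        rw [← h3, ← Coalgebra.coassoc_symm_apply]

theorem cou_apply (M N : ModuleCat.{u} H) (f : HomTy k M N) (m : M) :
    (cou (k := k) M N).hom (bt k (show ihom k M N from f) m : BoxTy k (ihom k M N) M) =
      (show M →ₗ[k] N from f) m := rfl

variable (k) in
/-- The adjunction `- ⊗ M ⊣ Hom_k(M, -)`. -/
noncomputable def tadj (M : ModuleCat.{u} H) : tens (H := H) k M ⊣ ihomF k M :=
  Adjunction.mkOfUnitCounit
    { unit :=
        { app := fun X => uni M X
          naturality := fun X X' f => by
            apply ihom_hom_ext
            intro x m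
            rfl }
      counit :=
        { app := fun N => cou M N
          naturality := fun N N' g => by
            apply res_box_ext
            intro f m
            rfl }
      left_triangle := by
        ext X : 2
        apply res_box_ext
        intro x m
        rfl
      right_triangle := by
        ext N : 2
        apply ihom_hom_ext
        intro f m
        rfl }

end tens

end Run7.h234
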